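import Pool.Agent.MP_8b9287_co.Geo.St

namespace Pool.Agent.MP_8b9287_co.Geo

open Module Filter Topology

theorem sALge : SALge := by
  intro k P 𝓕 S ι _ u hu hs hW
  have h1 : ∀ᶠ w in 𝓝 u, (∀ i, w i ≠ 0) ∧
      ∀ i i', i ≠ i' → LinearIndependent ℂ ![w i, w i'] := by
    refine (eventually_all.2 fun i => (continuous_apply i).continuousAt.eventually_ne (hu i)).and
      (eventually_all.2 fun i => eventually_all.2 fun i' => eventually_all.2 fun hne => ?_)
    have hc : Continuous fun w : ι → Fin k → ℂ => ![w i, w i'] := by fun_prop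
    refine (isOpen_setOfPred_linearIndependent.preimage hc).mem_nhds
      ((LinearIndependent.pair_iff' (hu i)).2 fun a ha => hne (hs i i' ?_))
    have h0 : a ≠ 0 := fun h => hu i' (by rw [← ha, h, zero_smul])
    rw [← ha, Submodule.span_singleton_smul_eq h0.isUnit]
  rw [nhds_pi] at h1
  obtain ⟨I, -, W, h2, h3⟩ := mem_pi.1 h1
  filter_upwards [eventually_all.2 fun i => hW i (W i) (h2 i)] with p hp
  choose v hv hvS using hp
  obtain ⟨h4, h5⟩ := h3 (a := v) fun i _ => hv i
  have h6 : Function.Injective fun i => Submodule.span ℂ ({v i} : Set (Fin k → ℂ)) := by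
    intro i i' h
    by_contra hne
    have h7 : v i' ∈ Submodule.span ℂ ({v i} : Set (Fin k → ℂ)) := by
      rw [show Submodule.span ℂ ({v i} : Set (Fin k → ℂ)) = Submodule.span ℂ {v i'} from h]
      exact Submodule.mem_span_singleton_self _
    obtain ⟨a, ha⟩ := Submodule.mem_span_singleton.1 h7
    exact (LinearIndependent.pair_iff' (h4 i)).1 (h5 i i' hne) a ha
  rw [← ENat.card_eq_coe_fintype_card]
  refine h6.encard_range.trans (Set.encard_le_encard ?_)
  rintro _ ⟨i, rfl⟩
  exact ⟨v i, ⟨h4 i, hvS i⟩, rfl⟩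

end Pool.Agent.MP_8b9287_co.Geo
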