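import Pool.Agent.MP_8b9287_co.Geo.St

/-! The number of lines of a closed cone does not jump up near simple solutions. -/

namespace Pool.Agent.MP_8b9287_co.Geo

open Module Filter Topology

theorem cover_ALle {k : ℕ} {ι : Type} [Fintype ι] (S : Set (Fin k → ℂ)) (f : ι → Fin k → ℂ)
    (h : ∀ v, v ≠ 0 → v ∈ S → ∃ (i : ι) (a : ℂ), a ≠ 0 ∧ a • v = f i) :
    lines S ≤ (Fintype.card ι : ℕ∞) := by
  have h1 : (fun v : Fin k → ℂ => Submodule.span ℂ ({v} : Set (Fin k → ℂ))) ''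
      {v | v ≠ 0 ∧ v ∈ S} ⊆
      (fun i => Submodule.span ℂ ({f i} : Set (Fin k → ℂ))) '' Set.univ := by
    rintro _ ⟨v, hv, rfl⟩
    obtain ⟨i, a, ha, e⟩ := h v hv.1 hv.2
    refine ⟨i, Set.mem_univ _, ?_⟩
    simp only [← e]
    exact Submodule.span_singleton_smul_eq ha.isUnit v
  refine (Set.encard_le_encard h1).trans ((Set.encard_image_le _ _).trans (le_of_eq ?_))
  rw [Set.encard_univ, ENat.card_eq_coe_fintype_card]

theorem sALle : SALle := by
  intro k P _ C p₀ ι _ u co W hC hs hu h0 hW huniq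
  have key := (isCompact_sphere (0 : Fin k → ℂ) 1).eventually_forall_of_forall_eventually
    (x₀ := p₀) (P := fun p w => (p, w) ∈ C → ∃ i, w (co i) ≠ 0 ∧ (p, (w (co i))⁻¹ • w) ∈ W i) (by
    intro v hv
    have v0 : v ≠ 0 := by
      rintro rfl
      simp at hv
    by_cases hvC : (p₀, v) ∈ C
    · obtain ⟨i, a, rfl⟩ := h0 v v0 hvC
      have a0 : a ≠ 0 := by
        rintro rfl
        simp at v0
      have e : (a • u i) (co i) = a := by rw [Pi.smul_apply, hu, smul_eq_mul, mul_one]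
      have c1 : ContinuousAt (fun z : P × (Fin k → ℂ) => z.2 (co i)) (p₀, a • u i) :=
        ((continuous_apply _).comp continuous_snd).continuousAt
      have c2 : ContinuousAt (fun z : P × (Fin k → ℂ) => (z.1, (z.2 (co i))⁻¹ • z.2))
          (p₀, a • u i) :=
        continuousAt_fst.prodMk ((c1.inv₀ (e.trans_ne a0)).smul continuousAt_snd)
      have c3 : W i ∈ 𝓝 ((fun z : P × (Fin k → ℂ) => (z.1, (z.2 (co i))⁻¹ • z.2))
          (p₀, a • u i)) := by
        simp only [e, inv_smul_smul₀ a0]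
        exact hW i
      filter_upwards [c1.eventually_ne (e.trans_ne a0), c2.eventually_mem c3]
        with z z1 z2 _
      exact ⟨i, z1, z2⟩
    · filter_upwards [hC.isOpen_compl.mem_nhds hvC] with z z1 z2
      exact absurd z2 z1)
  filter_upwards [key] with p hp
  have hf : ∀ i, ∃ f : Fin k → ℂ, ∀ w, (p, w) ∈ W i → (p, w) ∈ C → w (co i) = 1 → w = f := by
    intro i
    by_cases h : ∃ w, (p, w) ∈ W i ∧ (p, w) ∈ C ∧ w (co i) = 1
    · obtain ⟨f, f1, f2, f3⟩ := h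
      exact ⟨f, fun w w1 w2 w3 => huniq i p w f w1 f1 w2 f2 w3 f3⟩
    · exact ⟨0, fun w w1 w2 w3 => absurd ⟨w, w1, w2, w3⟩ h⟩
  choose f hf using hf
  refine cover_ALle _ f fun v v0 hv => ?_
  have n0 : ((‖v‖ : ℝ) : ℂ) ≠ 0 := by exact_mod_cast norm_ne_zero_iff.2 v0
  have h1 := hs p v ((‖v‖ : ℝ) : ℂ)⁻¹ hv
  obtain ⟨i, i1, i2⟩ := hp (((‖v‖ : ℝ) : ℂ)⁻¹ • v) (by
    rw [mem_sphere_zero_iff_norm, norm_smul, norm_inv, Complex.norm_real, norm_norm,
      inv_mul_cancel₀ (norm_ne_zero_iff.2 v0)]) h1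
  refine ⟨i, _ * _, mul_ne_zero (inv_ne_zero i1) (inv_ne_zero n0), ?_⟩
  rw [mul_smul]
  exact hf i _ i2 (hs p _ _ h1) (by rw [Pi.smul_apply, smul_eq_mul, inv_mul_cancel₀ i1])

end Pool.Agent.MP_8b9287_co.Geo
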