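import Pool.Agent.MP_8b9287_co.Geo.St2

section

namespace Pool.Agent.MP_8b9287_co.Geo

theorem sGP1 : SGP1 := by
  intro k ι _
  refine ⟨fun a j => ((Fintype.equivFin ι j : ℕ) : ℂ) ^ (a : ℕ), fun v hv S hS => ?_,
    fun hk j => ⟨⟨0, hk⟩, by simp⟩⟩
  by_contra h
  obtain ⟨S', h1, h2⟩ := Finset.exists_subset_card_eq (not_lt.1 h)
  refine hv (Matrix.eq_zero_of_forall_index_sum_mul_pow_eq_zero
    (f := fun b => ((Fintype.equivFin ι ((S'.equivFinOfCardEq h2).symm b) : ℕ) : ℂ))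
    (fun b b' e => ?_) fun b => hS _ (h1 ((S'.equivFinOfCardEq h2).symm b).2))
  exact (S'.equivFinOfCardEq h2).symm.injective (Subtype.ext
    ((Fintype.equivFin ι).injective (Fin.ext (Nat.cast_injective e))))

theorem vX_lin_GP {k : ℕ} {ι : Type} (X : Fin k → ι → ℂ) (a b : ℂ) (v u : Fin k → ℂ) (j : ι) :
    vX X (a • v - b • u) j = a * vX X v j - b * vX X u j := by
  simp only [vX, Pi.sub_apply, Pi.smul_apply, smul_eq_mul, Finset.mul_sum,
    ← Finset.sum_sub_distrib]
  exact Finset.sum_congr rfl fun c _ => by ring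

theorem sGP2 : SGP2 := by
  classical
  intro c ι X Z hX hZ ⟨j₀, hj₀⟩
  have ins : ∀ (v : Fin (c + 1) → ℂ) (j : ι), j ∉ Z → (∀ j ∈ Z, vX X v j = 0) → vX X v j = 0 →
      v = 0 := fun v j hj h1 h2 => by
    by_contra h
    have := hX v h (insert j Z) (by simpa [h2] using h1)
    rw [Finset.card_insert_of_notMem hj] at this
    omega
  let f : (Fin (c + 1) → ℂ) →ₗ[ℂ] (Z → ℂ) := (Matrix.of fun a (z : Z) => X a z).vecMulLinear
  obtain ⟨y, hy, hy0⟩ := (Submodule.ne_bot_iff _).1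
    (LinearMap.ker_ne_bot_of_finrank_lt (f := f) (by simp [hZ]))
  obtain ⟨i, hi⟩ := Function.ne_iff.1 hy0
  have h1 : ∀ j ∈ Z, vX X ((y i)⁻¹ • y - (0 : ℂ) • y) j = 0 := fun j hj => by
    have : vX X y j = 0 := congrFun (LinearMap.mem_ker.1 hy) ⟨j, hj⟩
    rw [vX_lin_GP, this]; simp
  have h2 : ((y i)⁻¹ • y - (0 : ℂ) • y) i = 1 := by simpa using inv_mul_cancel₀ hi
  generalize (y i)⁻¹ • y - (0 : ℂ) • y = u at h1 h2
  have h3 : ∀ j, vX X u j = 0 ↔ j ∈ Z := fun j => ⟨fun h => by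
    by_contra hj
    simp [ins u j hj h1 h] at h2, h1 j⟩
  refine ⟨u, i, h2, h3, fun v hv => ?_⟩
  have h4 : ∀ j ∈ Z, vX X ((1 : ℂ) • v - v i • u) j = 0 := fun j hj => by
    rw [vX_lin_GP, hv j hj, h1 j hj]; simp
  have h5 : ((1 : ℂ) • v - v i • u) i = 0 := by simp [h2]
  have h6 := ins (vX X u j₀ • ((1 : ℂ) • v - v i • u) - vX X ((1 : ℂ) • v - v i • u) j₀ • u) j₀ hj₀
    (fun j hj => by rw [vX_lin_GP, h4 j hj, h1 j hj]; simp) (by rw [vX_lin_GP]; ring)
  have h7 := congrFun h6 i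
  rw [Pi.sub_apply, Pi.smul_apply, h5, Pi.smul_apply, h2] at h7
  simpa [sub_eq_zero] using ins _ j₀ hj₀ h4 (by simpa using h7)

theorem sGP3 : SGP3 := by
  intro k m X hX hkm
  refine ⟨Fintype.linearIndependent_iff.2 fun g hg => ?_, fun I hI => ?_⟩
  · by_contra h
    have := hX g (fun e => h fun i => congrFun e i) Finset.univ fun j _ => by
      simpa [vX, Finset.sum_apply] using congrFun hg j
    simp at this
    omega
  · obtain ⟨I', h1, h2⟩ := Finset.exists_superset_card_eq hI (by simpa using hkm)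
    have h3 : IsUnit (Matrix.of fun a b => X a (I'.orderEmbOfFin h2 b)) := by
      refine Matrix.vecMul_injective_iff_isUnit.1 fun v w hvw => ?_
      by_contra h
      refine (hX ((1 : ℂ) • v - (1 : ℂ) • w) (by simpa [sub_eq_zero] using h) I'
        fun j hj => ?_).ne h2
      obtain ⟨b, rfl⟩ : j ∈ Set.range (I'.orderEmbOfFin h2) := by simpa using hj
      rw [vX_lin_GP, one_mul, one_mul, sub_eq_zero]
      exact congrFun hvw b
    have h4 := (linearIndepOn_range_iff (R := ℂ) (I'.orderEmbOfFin h2).injective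
      fun (j : Fin m) (a : Fin k) => X a j).2 (Matrix.linearIndependent_cols_iff_isUnit.2 h3)
    exact h4.mono (by simpa using h1)

end Pool.Agent.MP_8b9287_co.Geo

end

section

namespace Pool.Agent.MP_8b9287_co.Geo

open Filter Topology

theorem lt_TropDet {r N s : ℕ} {I : Fin s → Fin r} {J : Fin s → Fin N} (hI : StrictMono I)
    (hJ : StrictMono J) {σ : Equiv.Perm (Fin s)} (hσ : σ ≠ 1) :
    ∑ b, (r - (I b : ℕ)) * (J b : ℕ) < ∑ b, (r - (I (σ b) : ℕ)) * (J b : ℕ) := by
  have h : Antivary (fun b => r - (I b : ℕ)) (fun b => (J b : ℕ)) := by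
    intro a b hab
    have h1 : a < b := hJ.lt_iff_lt.1 hab
    have h2 : (I a : ℕ) < I b := hI h1
    simp only
    omega
  refine (h.sum_mul_lt_sum_comp_perm_mul_iff (σ := σ)).2 fun h' => hσ ?_
  have hm : Monotone σ := by
    intro a b hab
    rcases hab.eq_or_lt with rfl | hab
    · exact le_rfl
    have h1 := h' (i := a) (j := b) (hJ hab)
    have h2 := (I (σ a)).2
    have h3 := (I (σ b)).2
    simp only [Function.comp] at h1
    exact hI.le_iff_le.1 (Fin.le_def.2 (by omega))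
  exact (Equiv.Perm.monotone_iff σ).1 hm

theorem sTropDet : STropDet := by
  intro r N s I J hI hJ
  refine ⟨∑ b, (r - (I b : ℕ)) * (J b : ℕ), fun p => ∑ σ : Equiv.Perm (Fin s),
    ((Equiv.Perm.sign σ : ℤ) : ℂ) * (p.1 ^ (∑ b, (r - (I (σ b) : ℕ)) * (J b : ℕ) -
      ∑ b, (r - (I b : ℕ)) * (J b : ℕ)) * ∏ b, p.2 (I (σ b)) (J b)), ?_, ?_, ?_, ?_⟩
  · refine ContDiff.sum fun σ _ => contDiff_const.mul ((contDiff_fst.pow _).mul
      (contDiff_prod fun b _ => ?_))
    fun_prop
  · intro t Y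
    rw [mnr, Matrix.det_apply', Finset.mul_sum]
    refine Finset.sum_congr rfl fun σ _ => ?_
    have h : ∑ b, (r - (I b : ℕ)) * (J b : ℕ) ≤ ∑ b, (r - (I (σ b) : ℕ)) * (J b : ℕ) := by
      by_cases hσ : σ = 1
      · simp [hσ]
      · exact (lt_TropDet hI hJ hσ).le
    simp only [Matrix.of_apply, sc, Finset.prod_mul_distrib, Finset.prod_pow_eq_pow_sum]
    rw [← Nat.add_sub_of_le h, pow_add, Nat.add_sub_cancel_left]
    ring
  · intro Y
    refine (Finset.sum_eq_single (1 : Equiv.Perm (Fin s)) (fun σ _ hσ => ?_) (by simp)).trans ?_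
    swap
    · simp
    · rw [zero_pow (Nat.sub_pos_of_lt (lt_TropDet hI hJ hσ)).ne', zero_mul, mul_zero]
  · intro t Y x
    rw [Finset.mul_sum]
    refine Finset.sum_congr rfl fun σ _ => ?_
    simp only [Pi.smul_apply, smul_eq_mul, Finset.prod_mul_distrib, Finset.prod_const,
      Finset.card_univ, Fintype.card_fin]
    ring

theorem sScl : SScl := by
  intro k r N lam₀ Q h
  obtain ⟨A, hA, V, hV, hAV⟩ := mem_nhds_prod_iff.1 h
  obtain ⟨t, htA, ht⟩ : ∃ t, t ∈ A ∧ t ≠ 0 :=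
    Filter.nonempty_of_mem (f := 𝓝[≠] (0 : ℂ))
      (inter_mem (mem_nhdsWithin_of_mem_nhds hA) self_mem_nhdsWithin)
  have e1 : ∀ Y : Mat r N, sc t (sc t⁻¹ Y) = Y := fun Y => by
    funext i j
    simp only [sc]
    rw [← mul_assoc, ← mul_pow, mul_inv_cancel₀ ht, one_pow, one_mul]
  have e2 : ∀ Y : Mat r N, sc t⁻¹ (sc t Y) = Y := fun Y => by
    funext i j
    simp only [sc]
    rw [← mul_assoc, ← mul_pow, inv_mul_cancel₀ ht, one_pow, one_mul]
  refine ⟨(fun l a => sc t⁻¹ (l a)) ⁻¹' interior V, isOpen_interior.preimage ?_,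
    ⟨fun a => sc t (lam₀ a), ?_⟩, fun l hl => ?_⟩
  · unfold sc
    fun_prop
  · simp only [Set.mem_preimage, e2]
    exact mem_interior_iff_mem_nhds.2 hV
  · have := hAV (Set.mk_mem_prod htA (interior_subset hl)) ht
    simpa only [e1] using this

end Pool.Agent.MP_8b9287_co.Geo

end

section

namespace Pool.Agent.MP_8b9287_co.Geo

open Filter Topology

theorem prod_TropU1 {ι : Type} [DecidableEq ι] (S : Finset ι) (z : ι) (hz : z ∈ S) (Y Y' : ι → ℂ)
    (h0 : Y z = 0) (h1 : ∀ p ∈ S.erase z, Y p ≠ 0)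
    (h : HasDerivAt (fun s : ℂ => ∏ p ∈ S, (Y p + s * Y' p)) 0 0) : Y' z = 0 := by
  have hR : DifferentiableAt ℂ (fun s : ℂ => ∏ p ∈ S.erase z, (Y p + s * Y' p)) 0 := by
    fun_prop
  have h2 := ((hasDerivAt_id (0 : ℂ)).mul_const (Y' z)).mul hR.hasDerivAt
  have e : (fun s : ℂ => ∏ p ∈ S, (Y p + s * Y' p)) =
      (fun s : ℂ => id s * Y' z) * fun s : ℂ => ∏ p ∈ S.erase z, (Y p + s * Y' p) := by
    ext s
    rw [← Finset.mul_prod_erase S _ hz, h0, zero_add]
    rfl
  rw [e] at h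
  have h3 := h.unique h2
  simp only [one_mul, id, zero_mul, add_zero] at h3
  exact (mul_eq_zero.1 h3.symm).resolve_right (Finset.prod_ne_zero_iff.2 h1)

theorem sTropU1 (hI : SIFT) : STropU1 := by
  intro c r N lam₀ Z u i g ch hu hZ hv hg hg0 hch
  classical
  let F : (ℂ × (Fin (c + 1) → Mat r N)) × (Fin (c + 1) → ℂ) → (Z → ℂ) × ℂ :=
    fun q => (fun z => g z (q.1.1, ap q.1.2 q.2), q.2 i)
  have hap : ContDiff ℂ 1 fun q : (ℂ × (Fin (c + 1) → Mat r N)) × (Fin (c + 1) → ℂ) =>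
      ap q.1.2 q.2 := by
    unfold ap
    exact ContDiff.sum fun a _ => by fun_prop
  have hF : ContDiff ℂ 1 F :=
    (contDiff_pi.2 fun z => (hg z).comp (contDiff_fst.fst.prodMk hap)).prodMk (by fun_prop)
  obtain ⟨W, hW, h⟩ := (hI _ _ _ F ((0 : ℂ), lam₀) u hF.contDiffAt fun v' hv' => by
    have hl : HasDerivAt (fun s : ℂ => ((((0 : ℂ), lam₀), u + s • v') :
        (ℂ × (Fin (c + 1) → Mat r N)) × (Fin (c + 1) → ℂ))) (0, v') 0 :=
      (hasDerivAt_const _ _).prodMk (by
        simpa using ((hasDerivAt_id (0 : ℂ)).smul_const v').const_add u)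
    have h1 := (hF.differentiable one_ne_zero (((0 : ℂ), lam₀), u)).hasFDerivAt.comp_hasDerivAt_of_eq
      0 hl (by simp)
    rw [hv'] at h1
    have h2 : v' i = 0 := by
      have a : HasDerivAt (fun s : ℂ => u i + s * v' i) 0 0 := h1.snd
      have b : HasDerivAt (fun s : ℂ => u i + s * v' i) (v' i) 0 := by
        simpa using ((hasDerivAt_id (0 : ℂ)).mul_const (v' i)).const_add (u i)
      exact b.unique a
    have h3 : ∀ p ∈ Z, ap lam₀ v' p.1 p.2 = 0 := fun p hp => by
      have a : HasDerivAt (fun s : ℂ => g ⟨p, hp⟩ (0, ap lam₀ (u + s • v'))) 0 0 :=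
        hasDerivAt_pi.1 h1.fst ⟨p, hp⟩
      refine prod_TropU1 (ch ⟨p, hp⟩) p (hch ⟨p, hp⟩).1 (fun q => ap lam₀ u q.1 q.2)
        (fun q => ap lam₀ v' q.1 q.2) ((hZ p).2 hp) (fun q hq e => ?_) ?_
      · exact (Finset.mem_erase.1 hq).1
          ((hch ⟨p, hp⟩).2 q (Finset.mem_erase.1 hq).2 ((hZ q).1 e))
      · convert a using 2 with s
        rw [hg0]
        refine Finset.prod_congr rfl fun q _ => ?_
        simp only [ap_apply, Pi.add_apply, Pi.smul_apply, smul_eq_mul, add_mul,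
          Finset.sum_add_distrib, Finset.mul_sum, mul_assoc]
    rw [hv v' h3, h2, zero_smul]).1
  refine ⟨W, hW, fun p v v' h1 h2 h3 h4 h5 h6 => h p v v' h1 h2 ?_⟩
  exact Prod.ext (funext fun z => (h3 z).trans (h4 z).symm) (h5.trans h6.symm)

end Pool.Agent.MP_8b9287_co.Geo

end

section

namespace Pool.Agent.MP_8b9287_co.Geo

open Module Filter Topology

/-- The chains below the columns `js`. -/
abbrev Ch_TropUp {r N : ℕ} (js : Fin r → Fin N) :=
  Σ s : Fin r, {IJ : (Fin ((s : ℕ) + 1) → Fin r) × (Fin ((s : ℕ) + 1) → Fin N) //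
    StrictMono IJ.1 ∧ StrictMono IJ.2 ∧ ∀ b, IJ.2 b < js s}

theorem smul_TropUp {k r N : ℕ} (l : Fin k → Mat r N) (a : ℂ) (v : Fin k → ℂ) :
    ap l (a • v) = a • ap l v := by
  simp only [ap, Pi.smul_apply, smul_eq_mul, mul_smul, Finset.smul_sum]

theorem sc_TropUp {k r N : ℕ} (t : ℂ) (l : Fin k → Mat r N) (v : Fin k → ℂ) :
    ap (fun a => sc t (l a)) v = sc t (ap l v) := by
  funext i j
  simp only [ap_apply, sc, Finset.mul_sum, mul_left_comm]

theorem cont_TropUp {k r N : ℕ} :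
    Continuous fun x : (ℂ × (Fin k → Mat r N)) × (Fin k → ℂ) => (x.1.1, ap x.1.2 x.2) := by
  unfold ap
  fun_prop

theorem sTropUp (hA : SALle) (h1 : SGP1) (h2 : SGP2) (hD : STropDet) (hS : SScl) (hU : STropU1)
    (hG : SGT3) : STropUp := by
  classical
  intro c r N js hr hc hcod
  obtain ⟨X, hX, -⟩ := h1 (c + 1) (Fin r × Fin N)
  obtain ⟨lam₀, hlam⟩ : ∃ lam₀ : Fin (c + 1) → Mat r N, lam₀ = fun a i j => X a (i, j) := ⟨_, rfl⟩
  have hv : ∀ v (p : Fin r × Fin N), vX X v p = ap lam₀ v p.1 p.2 := fun v p => by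
    rw [ap_apply, hlam]
    rfl
  have hcard : ∀ Z : {Z : Finset (Fin r × Fin N) // Hit js Z ∧ Z.card ≤ c}, Z.1.card = c :=
    fun Z => le_antisymm Z.2.2 ((hG c r N js Z.1 hcod).1 Z.2.1)
  have hex : ∀ Z : {Z : Finset (Fin r × Fin N) // Hit js Z ∧ Z.card ≤ c}, ∃ j, j ∉ Z.1 := by
    intro Z
    by_contra h
    push Not at h
    have h3 := hcard Z
    rw [Finset.eq_univ_of_forall h, Finset.card_univ, Fintype.card_prod, Fintype.card_fin,
      Fintype.card_fin] at h3
    have := Nat.le_mul_of_pos_left N hr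
    omega
  choose u co hu1 hu2 hu3 using fun Z => h2 c _ X _ hX (hcard Z) (hex Z)
  choose W g hg1 hg2 hg3 hg4 using fun ch : Ch_TropUp js =>
    hD r N _ ch.2.1.1 ch.2.1.2 ch.2.2.1 ch.2.2.2.1
  have hch : ∀ (Z : {Z : Finset (Fin r × Fin N) // Hit js Z ∧ Z.card ≤ c}) (z : Z.1),
      ∃ ch : Ch_TropUp js, ∀ a, (ch.2.1.1 a, ch.2.1.2 a) ∉ Z.1.erase z.1 := by
    intro Z z
    by_contra h
    push Not at h
    have h3 := (hG c r N js (Z.1.erase z.1) hcod).1 fun s I J hI hJ hb => h ⟨s, (I, J), hI, hJ, hb⟩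
    have h4 := Finset.card_erase_lt_of_mem z.2
    have := hcard Z
    omega
  choose ch hch using hch
  have hW := fun Z : {Z : Finset (Fin r × Fin N) // Hit js Z ∧ Z.card ≤ c} =>
    hU c r N lam₀ Z.1 (u Z) (co Z) (fun z => g (ch Z z))
      (fun z => Finset.univ.image fun a => ((ch Z z).2.1.1 a, (ch Z z).2.1.2 a)) (hu1 Z)
      (fun p => by rw [← hv, hu2]) (fun v h => hu3 Z v fun p hp => by rw [hv, h p hp])
      (fun z => hg1 _) (fun z Y => by
        rw [hg3, Finset.prod_image fun a _ b _ h => (ch Z z).2.2.1.injective (congrArg Prod.fst h)])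
      (fun z => by
        have h3 : ∀ p ∈ Finset.univ.image fun a => ((ch Z z).2.1.1 a, (ch Z z).2.1.2 a),
            p ∈ Z.1 → p = z.1 := by
          intro p hp hZ
          obtain ⟨a, -, rfl⟩ := Finset.mem_image.1 hp
          by_contra h
          exact hch Z z a (Finset.mem_erase.2 ⟨h, hZ⟩)
        obtain ⟨a, ha⟩ := Z.2.1 _ _ _ (ch Z z).2.2.1 (ch Z z).2.2.2.1 (ch Z z).2.2.2.2
        have h4 := Finset.mem_image_of_mem (fun a => ((ch Z z).2.1.1 a, (ch Z z).2.1.2 a))
          (Finset.mem_univ a)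
        exact ⟨h3 _ h4 ha ▸ h4, h3⟩)
  choose V hV1 hV2 using hW
  have key := hA (c + 1) (ℂ × (Fin (c + 1) → Mat r N))
    {x | ∀ ch : Ch_TropUp js, g ch (x.1.1, ap x.1.2 x.2) = 0} (0, lam₀) _ u co V
    (by
      rw [Set.ofPred_forall]
      exact isClosed_iInter fun ch =>
        isClosed_eq ((hg1 ch).continuous.comp cont_TropUp) continuous_const)
    (fun p v a h ch => by
      have h3 : g ch (p.1, ap p.2 v) = 0 := h ch
      change g ch (p.1, ap p.2 (a • v)) = 0
      rw [smul_TropUp, hg4, h3, mul_zero]) hu1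
    (fun v hv0 h => by
      have h3 : Hit js (Finset.univ.filter fun p : Fin r × Fin N => vX X v p = 0) := by
        intro s I J hI hJ hb
        have h4 : g ⟨s, (I, J), hI, hJ, hb⟩ (0, ap lam₀ v) = 0 := h _
        rw [hg3] at h4
        obtain ⟨a, -, ha⟩ := Finset.prod_eq_zero_iff.1 h4
        exact ⟨a, Finset.mem_filter.2 ⟨Finset.mem_univ _, (hv _ _).trans ha⟩⟩
      have h5 := hX v hv0 (Finset.univ.filter fun p : Fin r × Fin N => vX X v p = 0)
        fun p hp => (Finset.mem_filter.1 hp).2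
      exact ⟨⟨_, h3, Nat.lt_succ_iff.1 h5⟩, _, hu3 _ v fun p hp => (Finset.mem_filter.1 hp).2⟩)
    hV1 (fun Z p v v' a1 a2 a3 a4 => hV2 Z p v v' a1 a2 (fun z => a3 _) fun z => a4 _)
  have hι : (Fintype.card {Z : Finset (Fin r × Fin N) // Hit js Z ∧ Z.card ≤ c} : ℕ∞) ≤
      (HG js).encard := by
    refine le_trans (le_of_eq ?_) (Set.encard_le_encard
      (s := {Z : Finset (Fin r × Fin N) | Hit js Z ∧ Z.card ≤ c})
      fun Z hZ => (hG c r N js Z hcod).2.1 hZ.1 hZ.2)
    rw [Set.encard, ENat.card_eq_coe_fintype_card]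
    rfl
  refine hS (c + 1) r N lam₀ (fun l => cnt js l ≤ (HG js).encard) (key.mono fun p hp h0 => ?_)
  refine le_trans ?_ (hp.trans hι)
  refine Set.encard_le_encard (Set.image_mono fun v h => ⟨h.1, fun ch => ?_⟩)
  have h3 := h.2 ch.1 ch.2.1.1 ch.2.1.2 ch.2.2.2.2
  rw [sc_TropUp, hg2] at h3
  exact (mul_eq_zero.1 h3).resolve_left (pow_ne_zero _ h0)

end Pool.Agent.MP_8b9287_co.Geo

end

section

namespace Pool.Agent.MP_8b9287_co.Geo

theorem anti_PathPot {r m : ℕ} {L : ℕ → ℕ → ℕ} (h : IsGT r L) {a b : ℕ} (ha : m ≤ a)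
    (hab : a ≤ b) (hb : b < r) : L b m ≤ L a m := by
  induction b, hab using Nat.le_induction with
  | base => exact le_rfl
  | succ b hab ih => exact (h b m (by omega) hb).1.trans (ih (by omega))

theorem sPathPot : SPathPot := by
  intro r m L h hm
  refine ⟨fun i => -((∑ k ∈ Finset.Ico m i, L k m : ℕ) : ℤ),
    fun j => ((∑ k ∈ Finset.Ico m r, (L k m - j) + (r - m) * j : ℕ) : ℤ),
    fun i j => ∑ k ∈ Finset.Ico m i, (j - L k m) + ∑ k ∈ Finset.Ico i r, (L k m - j),
    fun i j hi hr _ => ⟨?_, ?_⟩⟩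
  · have e1 : ∑ k ∈ Finset.Ico m i, (j - L k m) + ∑ k ∈ Finset.Ico m i, L k m =
        ∑ _k ∈ Finset.Ico m i, j + ∑ k ∈ Finset.Ico m i, (L k m - j) := by
      rw [← Finset.sum_add_distrib, ← Finset.sum_add_distrib]
      exact Finset.sum_congr rfl fun k _ => by omega
    have e2 := Finset.sum_Ico_consecutive (fun k => L k m - j) hi hr.le
    have e3 : ∑ _k ∈ Finset.Ico m i, j = (i - m) * j := by simp
    have e4 : (r - m) * j = (r - i) * j + (i - m) * j := by
      rw [← add_mul]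
      congr 1
      omega
    dsimp only at e2 ⊢
    omega
  · simp only [Nat.add_eq_zero_iff, Finset.sum_eq_zero_iff, Finset.mem_Ico, onP]
    constructor
    · rintro ⟨h1, h2⟩
      refine ⟨hi, by have := h2 i ⟨le_rfl, hr⟩; omega, ?_⟩
      by_cases c : i = m
      · exact Or.inl c
      · have := h1 (i - 1) ⟨by omega, by omega⟩
        exact Or.inr (by omega)
    · rintro ⟨-, h1, h2⟩
      refine ⟨fun k hk => ?_, fun k hk => ?_⟩
      · have := anti_PathPot h hk.1 (show k ≤ i - 1 by omega) (by omega)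
        omega
      · have := anti_PathPot h hi hk.1 hk.2
        omega

end Pool.Agent.MP_8b9287_co.Geo

end

section

namespace Pool.Agent.MP_8b9287_co.Geo

open Filter Topology

/-- Entries as a total function on naturals. -/
noncomputable def ev_PathVal {r N : ℕ} (y : Mat r N) (i j : ℕ) : ℂ :=
  if h : i < r ∧ j < N then y ⟨i, h.1⟩ ⟨j, h.2⟩ else 1

theorem ev_fin_PathVal {r N : ℕ} (y : Mat r N) (i : Fin r) (j : Fin N) :
    ev_PathVal y i j = y i j := dif_pos ⟨i.2, j.2⟩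

theorem ev_cd_PathVal (r N i j : ℕ) : ContDiff ℂ 1 fun y : Mat r N => ev_PathVal y i j := by
  unfold ev_PathVal
  split_ifs with h
  · exact contDiff_apply_apply ℂ ℂ _ _
  · exact contDiff_const

/-- The row factors. -/
noncomputable def a_PathVal {r N : ℕ} (m : ℕ) (L : ℕ → ℕ → ℕ) (i : ℕ) (y : Mat r N) : ℂ :=
  ∏ t ∈ Finset.Ico m i, ev_PathVal y (t + 1) (L t m) * (ev_PathVal y t (L t m))⁻¹

theorem anti_PathVal {r m : ℕ} {L : ℕ → ℕ → ℕ} (hL : IsGT r L) {i t : ℕ} (hi : m ≤ i)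
    (ht : i ≤ t) : t < r → L t m ≤ L i m := by
  induction t, ht using Nat.le_induction with
  | base => exact fun _ => le_rfl
  | succ t ht ih => exact fun h => (hL t m (hi.trans ht) h).1.trans (ih (by omega))

theorem on1_PathVal {r m : ℕ} {L : ℕ → ℕ → ℕ} (hL : IsGT r L) {t : ℕ} (h1 : m ≤ t)
    (h2 : t < r) : onP L m t (L t m) := by
  refine ⟨h1, le_rfl, ?_⟩
  rcases h1.eq_or_lt with h | h
  · exact Or.inl h.symm
  · exact Or.inr (anti_PathVal hL (by omega) (Nat.sub_le t 1) h2)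

theorem on2_PathVal {r m : ℕ} {L : ℕ → ℕ → ℕ} (hL : IsGT r L) {t : ℕ} (h1 : m ≤ t)
    (h2 : t + 1 < r) : onP L m (t + 1) (L t m) :=
  ⟨by omega, (hL t m h1 h2).1, Or.inr le_rfl⟩

theorem nz_PathVal {r N m : ℕ} {L : ℕ → ℕ → ℕ} {y : Mat r N}
    (hy : ∀ (i : Fin r) (j : Fin N), onP L m i j → y i j ≠ 0) {i j : ℕ} (h : onP L m i j) :
    ev_PathVal y i j ≠ 0 := by
  unfold ev_PathVal
  split_ifs with h1
  · exact hy ⟨i, h1.1⟩ ⟨j, h1.2⟩ h
  · exact one_ne_zero

theorem a_ne_PathVal {r N m : ℕ} {L : ℕ → ℕ → ℕ} (hL : IsGT r L) {y : Mat r N}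
    (hy : ∀ (i : Fin r) (j : Fin N), onP L m i j → y i j ≠ 0) {i : ℕ} (hi : i < r) :
    a_PathVal m L i y ≠ 0 := by
  refine Finset.prod_ne_zero_iff.2 fun t ht => ?_
  obtain ⟨h1, h2⟩ := Finset.mem_Ico.1 ht
  exact mul_ne_zero (nz_PathVal hy (on2_PathVal hL h1 (by omega)))
    (inv_ne_zero (nz_PathVal hy (on1_PathVal hL h1 (by omega))))

theorem a_cd_PathVal {r N m : ℕ} {L : ℕ → ℕ → ℕ} (hL : IsGT r L) {y : Mat r N}
    (hy : ∀ (i : Fin r) (j : Fin N), onP L m i j → y i j ≠ 0) {i : ℕ} (hi : i < r) :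
    ContDiffAt ℂ 1 (a_PathVal (r := r) (N := N) m L i) y := by
  refine contDiffAt_prod fun t ht => ?_
  obtain ⟨h1, h2⟩ := Finset.mem_Ico.1 ht
  exact (ev_cd_PathVal r N _ _).contDiffAt.mul ((ev_cd_PathVal r N _ _).contDiffAt.inv
    (nz_PathVal hy (on1_PathVal hL h1 (by omega))))

theorem col_PathVal {r N m : ℕ} {L : ℕ → ℕ → ℕ} (hL : IsGT r L) {y : Mat r N}
    (hy : ∀ (i : Fin r) (j : Fin N), onP L m i j → y i j ≠ 0) {i t j : ℕ} (h1 : m ≤ i)
    (h2 : L i m ≤ j) (ht : i ≤ t) : t < r → (t = i ∨ j ≤ L (t - 1) m) →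
      a_PathVal m L t y * ev_PathVal y i j = a_PathVal m L i y * ev_PathVal y t j := by
  induction t, ht using Nat.le_induction with
  | base => exact fun _ _ => rfl
  | succ t ht ih =>
    intro h3 h4
    have h5 : j ≤ L t m := h4.resolve_left (by omega)
    have h6 : L t m = j := le_antisymm ((anti_PathVal hL h1 ht (by omega)).trans h2) h5
    have h7 := ih (by omega) (by
      rcases ht.eq_or_lt with h | h
      · exact Or.inl h.symm
      · exact Or.inr (h5.trans (anti_PathVal hL (by omega) (Nat.sub_le t 1) (by omega))))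
    have h8 := nz_PathVal hy (on1_PathVal hL (h1.trans ht) (by omega))
    have h9 : a_PathVal m L (t + 1) y = a_PathVal m L t y *
        (ev_PathVal y (t + 1) (L t m) * (ev_PathVal y t (L t m))⁻¹) :=
      Finset.prod_Ico_succ_top (h1.trans ht) _
    rw [h6] at h8 h9
    rw [h9, mul_right_comm, h7]
    field_simp

theorem col2_PathVal {r N m : ℕ} {L : ℕ → ℕ → ℕ} (hL : IsGT r L) {y : Mat r N}
    (hy : ∀ (i : Fin r) (j : Fin N), onP L m i j → y i j ≠ 0) {i t : Fin r} {j : Fin N}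
    (hi : onP L m i j) (ht : onP L m t j) :
    a_PathVal m L t y * y i j = a_PathVal m L i y * y t j := by
  rw [← ev_fin_PathVal y i j, ← ev_fin_PathVal y t j]
  rcases le_total (i : ℕ) t with h | h
  · refine col_PathVal hL hy hi.1 hi.2.1 h t.2 (ht.2.2.imp_left fun e => ?_)
    have := hi.1
    omega
  · refine (col_PathVal hL hy ht.1 ht.2.1 h i.2 (hi.2.2.imp_left fun e => ?_)).symm
    have := ht.1
    omega

theorem sPathVal : SPathVal := by
  classical
  intro r N m L y₀ hL _ _ h0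
  refine ⟨fun i => a_PathVal m L i, fun j y => if h : ∃ i : Fin r, onP L m i j then
    y h.choose j * (a_PathVal m L h.choose y)⁻¹ else 1, fun i => a_cd_PathVal hL h0 i.2,
    fun j => ?_, ?_⟩
  · by_cases h : ∃ i : Fin r, onP L m i j
    · simp only [dif_pos h]
      exact (contDiff_apply_apply ℂ ℂ _ _).contDiffAt.mul
        ((a_cd_PathVal hL h0 h.choose.2).inv (a_ne_PathVal hL h0 h.choose.2))
    · simp only [dif_neg h]
      exact contDiffAt_const
  · have h1 : ∀ᶠ y in 𝓝 y₀, ∀ (i : Fin r) (j : Fin N), onP L m i j → y i j ≠ 0 := by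
      refine eventually_all.2 fun i => eventually_all.2 fun j => ?_
      by_cases h : onP L m i j
      · exact ((continuous_apply_apply i j).continuousAt.eventually_ne (h0 i j h)).mono
          fun y hy _ => hy
      · exact Eventually.of_forall fun y hy => absurd hy h
    filter_upwards [h1] with y hy i j hij
    have h : ∃ i : Fin r, onP L m i j := ⟨i, hij⟩
    rw [dif_pos h, ← mul_assoc, col2_PathVal hL hy h.choose_spec hij, mul_right_comm,
      mul_inv_cancel₀ (a_ne_PathVal hL hy h.choose.2), one_mul]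

end Pool.Agent.MP_8b9287_co.Geo

end

section

namespace Pool.Agent.MP_8b9287_co.Geo

open Module Filter Topology

theorem anti_PathFun {r m : ℕ} {L : ℕ → ℕ → ℕ} (h : IsGT r L) {i : ℕ} (hi : m ≤ i) (d : ℕ)
    (hd : i + d < r) : L (i + d) m ≤ L i m := by
  induction d with
  | zero => exact le_rfl
  | succ d ih => exact (h (i + d) m (by omega) hd).1.trans (ih (by omega))

theorem sPathFun (hP : SPathPot) (hV : SPathVal) : SPathFun := by
  intro r N m L y₀ hL hm h1 h2
  obtain ⟨α, β, e, he⟩ := hP r m L hL hm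
  obtain ⟨a, b, ha, hb, hab⟩ := hV r N m L y₀ hL hm h1 h2
  refine ⟨fun p i j => if m ≤ (i : ℕ) ∧ L (r - 1) m ≤ (j : ℕ) then
    p.1 ^ e i j * (a i p.2 * b j p.2) else 0, ?_, ?_, fun t y ht => ?_⟩
  · refine contDiffAt_pi.2 fun i => contDiffAt_pi.2 fun j => ?_
    by_cases h : m ≤ (i : ℕ) ∧ L (r - 1) m ≤ (j : ℕ)
    · simp only [if_pos h]
      exact (contDiffAt_fst.pow _).mul
        (((ha i).comp ((0 : ℂ), y₀) contDiffAt_snd).mul ((hb j).comp ((0 : ℂ), y₀) contDiffAt_snd))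
    · simp only [if_neg h]
      exact contDiffAt_const
  · filter_upwards [hab] with y hy i j
    constructor
    · intro ho
      have l : L (r - 1) m ≤ (j : ℕ) := by
        have := anti_PathFun hL ho.1 (r - 1 - i) (by have := i.2; omega)
        rw [show (i : ℕ) + (r - 1 - i) = r - 1 by have := i.2; omega] at this
        exact this.trans ho.2.1
      rw [if_pos ⟨ho.1, l⟩, (he i j ho.1 i.2 l).2.2 ho, pow_zero, one_mul, hy i j ho]
    · intro ho
      split_ifs with h
      · rw [zero_pow fun c => ho ((he i j h.1 i.2 h.2).2.1 c), zero_mul]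
      · rfl
  · refine ⟨fun i => if m ≤ (i : ℕ) then t ^ α i * a i y else 0,
      fun j => if L (r - 1) m ≤ (j : ℕ) then t ^ β j * b j y else 0,
      fun j hj => if_neg (by omega), fun i j => ?_⟩
    simp only [sc]
    by_cases h : m ≤ (i : ℕ)
    · by_cases h' : L (r - 1) m ≤ (j : ℕ)
      · have k : t ^ ((r - (i : ℕ)) * (j : ℕ)) * t ^ e i j = t ^ α i * t ^ β j := by
          rw [← zpow_add₀ ht, ← (he i j h i.2 h').1, zpow_natCast, pow_add, mul_comm]
        rw [if_pos ⟨h, h'⟩, if_pos h, if_pos h', ← mul_assoc, k]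
        ring
      · rw [if_neg fun c => h' c.2, if_neg h', mul_zero, mul_zero]
    · rw [if_neg fun c => h c.1, if_neg h, mul_zero, zero_mul]

theorem sOmSum (hR : SRk) : SOmSum := by
  intro r N js a b hjs hb s I J hJ
  refine (hR r N _ (js s) s).2 ?_ I J hJ
  have k : colSp (fun i j => ∑ m, a m i * b m j) (js s) ≤
      Submodule.span ℂ (Set.range fun m : Fin s => a ⟨m, m.2.trans s.2⟩) := by
    refine Submodule.span_le.2 ?_
    rintro _ ⟨j, hj, rfl⟩
    have e : (fun i => ∑ m, a m i * b m j) = ∑ m, b m j • a m := by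
      ext i
      simp [Finset.sum_apply, mul_comm]
    simp only [SetLike.mem_coe]
    rw [e]
    refine Submodule.sum_mem _ fun m _ => ?_
    by_cases h : m < s
    · exact Submodule.smul_mem _ _ (Submodule.subset_span ⟨⟨m, h⟩, rfl⟩)
    · rw [hb m j (lt_of_lt_of_le hj (hjs.monotone (not_lt.1 h))), zero_smul]
      exact Submodule.zero_mem _
  refine (Submodule.finrank_mono k).trans ?_
  exact (finrank_range_le_card (R := ℂ) fun m : Fin s => a ⟨m, m.2.trans s.2⟩).trans
    (Fintype.card_fin _).le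

end Pool.Agent.MP_8b9287_co.Geo

end

section

namespace Pool.Agent.MP_8b9287_co.Geo

open Module Filter Topology

theorem sParam (hF : SPathFun) (hO : SOmSum) (hA : SGT2a) (hC : SGT2c) : SParam := by
  classical
  intro r N js Z y₀ hjs hZ hy₀
  obtain ⟨L, hGT, hL, hZL⟩ := hZ
  have hbd : ∀ m : Fin r, ∀ i, (m : ℕ) ≤ i → i < r → L i m < N := by
    intro m i hmi hir
    have hr : r - 1 < r := by omega
    have h1 := hC r L hGT i m hmi hir
    have h2 := hL ⟨r - 1, hr⟩
    have h3 := (js ⟨r - 1, hr⟩).isLt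
    simp only at h2
    omega
  have hne : ∀ m : Fin r, ∀ (i : Fin r) (j : Fin N), onP L m i j → y₀ i j ≠ 0 := by
    intro m i j hij
    refine hy₀ (i, j) fun hmem => ?_
    exact ((hA r L hGT i j i.isLt).1.2 ⟨m, hij⟩) ((hZL (i, j)).1 hmem)
  choose φ hφ1 hφ2 hφ3 using fun m : Fin r => hF r N m L y₀ hGT m.isLt (hbd m) (hne m)
  refine ⟨fun p i j => (∑ m, φ m p i j) + if (i, j) ∈ Z then p.2 i j else 0, ?_, ?_, ?_⟩
  · refine contDiffAt_pi.2 fun i => contDiffAt_pi.2 fun j => ContDiffAt.add ?_ ?_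
    · exact ContDiffAt.sum fun m _ => contDiffAt_pi.1 (contDiffAt_pi.1 (hφ1 m) i) j
    · by_cases h : (i, j) ∈ Z
      · simp only [h, if_true]
        exact contDiffAt_pi.1 (contDiffAt_pi.1 contDiffAt_snd i) j
      · simp only [h, if_false]
        exact contDiffAt_const
  · filter_upwards [Filter.eventually_all.2 hφ2] with y hy
    funext i j
    by_cases h : (i, j) ∈ Z
    · have hh : hole L i j := (hZL (i, j)).1 h
      have h0 : ∀ m : Fin r, φ m (0, y) i j = 0 := fun m =>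
        (hy m i j).2 fun hon => ((hA r L hGT i j i.isLt).1.2 ⟨m, hon⟩) hh
      simp [h, h0]
    · have hh : ¬ hole L i j := fun hh => h ((hZL (i, j)).2 hh)
      obtain ⟨m, hm⟩ := (hA r L hGT i j i.isLt).1.1 hh
      have hmr : m < r := lt_of_le_of_lt hm.1 i.isLt
      simp only [h, if_false, add_zero]
      rw [Finset.sum_eq_single (⟨m, hmr⟩ : Fin r)]
      · exact (hy ⟨m, hmr⟩ i j).1 hm
      · intro m' _ hm'
        refine (hy m' i j).2 fun hon => hm' (Fin.ext ?_)
        exact (hA r L hGT i j i.isLt).2 _ _ hon hm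
      · intro h'
        exact absurd (Finset.mem_univ _) h'
  · intro t y ht hy
    choose a b hb hab using fun m : Fin r => hφ3 m t y ht
    have key := hO r N js a b hjs fun m j hj => hb m j (by rw [hL m]; exact hj)
    convert key using 1
    funext i j
    have hz : (if (i, j) ∈ Z then y i j else 0) = 0 := by
      by_cases h : (i, j) ∈ Z
      · simp only [h, if_true]
        exact hy (i, j) h
      · simp only [h, if_false]
    simp only [sc, hz, add_zero, Finset.mul_sum]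
    exact Finset.sum_congr rfl fun m _ => hab m i j

end Pool.Agent.MP_8b9287_co.Geo

end

section

namespace Pool.Agent.MP_8b9287_co.Geo

open Module Filter Topology

theorem ap_line_TropL1 {k r N : ℕ} (l : Fin k → Mat r N) (u v : Fin k → ℂ) (s : ℂ) :
    ap l (u + s • v) = ap l u + s • ap l v := by
  simp only [ap, Pi.add_apply, Pi.smul_apply, smul_eq_mul, add_smul, Finset.sum_add_distrib,
    Finset.smul_sum, smul_smul]

theorem sTropL1 (hI : SIFT) : STropL1 := by
  intro c r N lam₀ Z u i φ hZ hu h0 hker hφ hid W hW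
  let F : (ℂ × (Fin (c + 1) → Mat r N)) × ((Fin (c + 1) → ℂ) × Mat r N) →
      Mat r N × (Z → ℂ) × ℂ := fun q =>
    (φ (q.1.1, q.2.2) - ap q.1.2 q.2.1, fun z => q.2.2 z.1.1 z.1.2, q.2.1 i)
  have hF : ContDiffAt ℂ 1 F ((0, lam₀), (u, ap lam₀ u)) := by
    have h1 : ContDiffAt ℂ 1 (fun q : (ℂ × (Fin (c + 1) → Mat r N)) ×
        ((Fin (c + 1) → ℂ) × Mat r N) => φ (q.1.1, q.2.2)) ((0, lam₀), (u, ap lam₀ u)) :=
      ContDiffAt.comp (g := φ) (f := fun q : (ℂ × (Fin (c + 1) → Mat r N)) ×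
        ((Fin (c + 1) → ℂ) × Mat r N) => (q.1.1, q.2.2)) ((0, lam₀), (u, ap lam₀ u)) hφ
        (by fun_prop)
    refine (h1.sub ?_).prodMk (ContDiffAt.prodMk ?_ ?_)
    · unfold ap
      fun_prop
    · fun_prop
    · fun_prop
  have hF0 : F ((0, lam₀), (u, ap lam₀ u)) = (0, 0, 1) := by
    refine Prod.ext ?_ (Prod.ext (funext fun z => h0 z.1 z.2) hu)
    exact sub_eq_zero.2 hid.self_of_nhds
  have hinj : ∀ x' : (Fin (c + 1) → ℂ) × Mat r N,
      fderiv ℂ F ((0, lam₀), (u, ap lam₀ u)) (0, x') = 0 → x' = 0 := by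
    rintro ⟨v', y'⟩ h
    have d1 := (hF.differentiableAt one_ne_zero).hasFDerivAt.hasLineDerivAt (0, (v', y'))
    rw [h] at d1
    have t : Tendsto (fun s : ℂ => ap lam₀ u + s • y') (𝓝 0) (𝓝 (ap lam₀ u)) :=
      Continuous.tendsto' (by fun_prop) _ _ (by simp)
    have d2 : HasDerivAt (fun s : ℂ => s • ((y' - ap lam₀ v', fun z => y' z.1.1 z.1.2, v' i) :
        Mat r N × (Z → ℂ) × ℂ) + (0, 0, 1)) (y' - ap lam₀ v', fun z => y' z.1.1 z.1.2, v' i) 0 := by
      simpa only [one_smul, id] using ((hasDerivAt_id (0 : ℂ)).smul_const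
        ((y' - ap lam₀ v', fun z => y' z.1.1 z.1.2, v' i) : Mat r N × (Z → ℂ) × ℂ)).add_const
          (0, 0, 1)
    have e := (d2.congr_of_eventuallyEq (f₁ := fun s : ℂ =>
      F (((0, lam₀), (u, ap lam₀ u)) + s • (0, (v', y')))) (by
        filter_upwards [t.eventually hid] with s hs
        refine Prod.ext ?_ (Prod.ext (funext fun z => ?_) ?_)
        · simp only [F, Prod.fst_add, Prod.snd_add, Prod.smul_fst, Prod.smul_snd, smul_zero,
            add_zero, hs, ap_line_TropL1, smul_sub]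
          abel
        · simp [F, h0 z.1 z.2]
        · simp [F, hu, add_comm])).unique d1
    have e1 : y' = ap lam₀ v' := sub_eq_zero.1 (congrArg Prod.fst e)
    have e2 : v' i = 0 := congrArg (fun q => q.2.2) e
    have e3 := hker v' fun p hp => e1 ▸ congrFun (congrArg (fun q => q.2.1) e) ⟨p, hp⟩
    rw [e2, zero_smul] at e3
    subst e3
    rw [e1]
    simp [ap]
  have hW' : {q : (ℂ × (Fin (c + 1) → Mat r N)) × ((Fin (c + 1) → ℂ) × Mat r N) | q.2.1 ∈ W} ∈
      𝓝 ((0, lam₀), (u, ap lam₀ u)) :=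
    (continuous_fst.comp continuous_snd).continuousAt.preimage_mem_nhds hW
  have key := (hI _ _ _ F (0, lam₀) (u, ap lam₀ u) hF hinj).2 (by
    simp only [finrank_prod, finrank_fintype_fun_eq_card, Fintype.card_coe, Fintype.card_fin, hZ,
      finrank_self]
    ring) _ hW'
  filter_upwards [key] with p ⟨x, hx, e⟩
  rw [hF0] at e
  exact ⟨x.1, hx, x.2, fun q hq => congrFun (congrArg (fun t => t.2.1) e) ⟨q, hq⟩,
    sub_eq_zero.1 (congrArg Prod.fst e)⟩

end Pool.Agent.MP_8b9287_co.Geo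

end

section

namespace Pool.Agent.MP_8b9287_co.Geo

open Module Filter Topology

theorem ap_sc_TropLow {k r N : ℕ} (t : ℂ) (l : Fin k → Mat r N) (v : Fin k → ℂ) :
    ap (fun a => sc t (l a)) v = sc t (ap l v) := by
  funext i j
  simp only [ap_apply, sc, Finset.mul_sum]
  exact Finset.sum_congr rfl fun a _ => by ring

theorem sTropLow (hA : SALge) (h1 : SGP1) (h2 : SGP2) (hS : SScl) (hP : SParam) (hL : STropL1)
    (hG : SGT3) : STropLow := by
  classical
  intro c r N js hr hc hCod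
  obtain ⟨X, hX, -⟩ := h1 (c + 1) (Fin r × Fin N)
  let lam₀ : Fin (c + 1) → Mat r N := fun a i j => X a (i, j)
  have hv : ∀ (v : Fin (c + 1) → ℂ) (p : Fin r × Fin N), ap lam₀ v p.1 p.2 = vX X v p :=
    fun v p => ap_apply lam₀ v p.1 p.2
  have hcard : ∀ Z : HG js, Z.1.card = c := fun Z => (hG c r N js Z.1 hCod).2.2 Z.2
  have hex : ∀ Z : HG js, ∃ p, p ∉ Z.1 := by
    intro Z
    by_contra h
    have h3 : Z.1 = Finset.univ := Finset.eq_univ_iff_forall.2 fun p => by
      by_contra hp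
      exact h ⟨p, hp⟩
    have h4 := hcard Z
    rw [h3, Finset.card_univ, Fintype.card_prod, Fintype.card_fin, Fintype.card_fin] at h4
    have h5 : N ≤ r * N := Nat.le_mul_of_pos_left N hr
    omega
  choose u co hu1 hu2 hu3 using fun Z : HG js =>
    h2 c (Fin r × Fin N) X Z.1 hX (hcard Z) (hex Z)
  have hu0 : ∀ Z, u Z ≠ 0 := fun Z h => by
    have := hu1 Z
    rw [h] at this
    exact zero_ne_one this
  have hsub : ∀ Z Z' : HG js, Submodule.span ℂ ({u Z} : Set (Fin (c + 1) → ℂ))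
      = Submodule.span ℂ {u Z'} → Z'.1 ⊆ Z.1 := by
    intro Z Z' h p hp
    have h3 : u Z ∈ Submodule.span ℂ ({u Z'} : Set (Fin (c + 1) → ℂ)) :=
      h ▸ Submodule.mem_span_singleton_self _
    obtain ⟨a, ha⟩ := Submodule.mem_span_singleton.1 h3
    have h4 := (hu2 Z' p).2 hp
    refine (hu2 Z p).1 ?_
    rw [← ha]
    unfold vX at h4 ⊢
    simp only [Pi.smul_apply, smul_eq_mul, mul_assoc]
    rw [← Finset.mul_sum, h4, mul_zero]
  have hev := hA (c + 1) (ℂ × (Fin (c + 1) → Mat r N)) (𝓝 (0, lam₀))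
    (fun p => {v | p.1 ≠ 0 → Om js (ap (fun a => sc p.1 (p.2 a)) v)}) (HG js) u hu0
    (fun Z Z' h => Subtype.ext (Finset.Subset.antisymm (hsub Z' Z h.symm) (hsub Z Z' h))) (by
      intro Z W hW
      obtain ⟨φ, hφ1, hφ2, hφ3⟩ := hP r N js Z.1 (ap lam₀ (u Z)) hCod.1 Z.2 fun p hp h => by
        rw [hv] at h
        exact hp ((hu2 Z p).1 h)
      have h3 := hL c r N lam₀ Z.1 (u Z) (co Z) φ (hcard Z) (hu1 Z)
        (fun p hp => by rw [hv]; exact (hu2 Z p).2 hp)
        (fun v h => hu3 Z v fun p hp => by rw [← hv]; exact h p hp) hφ1 hφ2 W hW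
      filter_upwards [h3] with p hp
      obtain ⟨v, hvW, y, hy, hφ⟩ := hp
      refine ⟨v, hvW, fun h0 => ?_⟩
      rw [ap_sc_TropLow, ← hφ]
      exact hφ3 p.1 y h0 hy)
  refine hS (c + 1) r N lam₀ (fun l => (HG js).encard ≤ cnt js l) ?_
  filter_upwards [hev] with p hp h0
  rw [Set.coe_fintypeCard] at hp
  have h3 : {v | p.1 ≠ 0 → Om js (ap (fun a => sc p.1 (p.2 a)) v)}
      = {v | Om js (ap (fun a => sc p.1 (p.2 a)) v)} :=
    Set.ext fun v => ⟨fun h => h h0, fun h _ => h⟩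
  rw [h3] at hp
  exact hp

end Pool.Agent.MP_8b9287_co.Geo

end

section

namespace Pool.Agent.MP_8b9287_co.Geo

/-- A chain of `m + 1` good cells with rows at most `i` and last column `j`. -/
def Ch_GT1 (bad : ℕ → ℕ → Prop) (i m j : ℕ) : Prop :=
  ∃ I J : ℕ → ℕ, (∀ a < m, I a < I (a + 1)) ∧ (∀ a < m, J a < J (a + 1)) ∧ I m ≤ i ∧
    (∀ a ≤ m, ¬ bad (I a) (J a)) ∧ J m = j

theorem mono_GT1 {I : ℕ → ℕ} {m : ℕ} (h : ∀ a < m, I a < I (a + 1)) (a : ℕ) (ha : a ≤ m) :
    I a ≤ I m := by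
  induction m with
  | zero => rw [Nat.le_zero.mp ha]
  | succ m ih =>
    rcases ha.lt_or_eq with h1 | h1
    · exact (ih (fun b hb => h b (by omega)) (by omega)).trans (h m (by omega)).le
    · rw [h1]

theorem sGT1 : SGT1 := by
  intro r N js Z hZ
  let bad : ℕ → ℕ → Prop := fun i j => ∃ p ∈ Z, (p.1 : ℕ) = i ∧ (p.2 : ℕ) = j
  have hne : ∀ i m, m ≤ i → {j | Ch_GT1 bad i m j}.Nonempty := fun i m h =>
    ⟨N + m, id, fun a => N + a, fun a _ => Nat.lt_succ_self a,
      fun a _ => Nat.lt_succ_self (N + a), h,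
      fun a _ ⟨p, _, _, h2⟩ => by have := p.2.2; simp only at h2; omega, rfl⟩
  refine ⟨fun i m => sInf {j | Ch_GT1 bad i m j}, fun i m hm _ => ⟨?_, ?_⟩, fun m => ?_,
    fun i j hi ⟨m, hm, h1, h2⟩ => ?_⟩
  · obtain ⟨I, J, h1, h2, h3, h4, h5⟩ := Nat.sInf_mem (hne i m hm)
    exact Nat.sInf_le ⟨I, J, h1, h2, by omega, h4, h5⟩
  · obtain ⟨I, J, h1, h2, h3, h4, h5⟩ := Nat.sInf_mem (hne (i + 1) (m + 1) (by omega))
    have h6 := h1 m (by omega)
    have h7 := h2 m (by omega)
    refine lt_of_le_of_lt (Nat.sInf_le (m := J m) ⟨I, J, fun a ha => h1 a (by omega),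
      fun a ha => h2 a (by omega), by omega, fun a ha => h4 a (by omega), rfl⟩) ?_
    simp only
    omega
  · have hm := m.2
    obtain ⟨I, J, h1, h2, h3, h4, h5⟩ := Nat.sInf_mem (hne (r - 1) m (by omega))
    by_contra hlt
    have hJ : J m < js m := by
      rw [h5]
      exact not_le.mp hlt
    have hN := (js m).2
    have b1 : ∀ a : Fin ((m : ℕ) + 1), I a < r := fun a => by
      have := mono_GT1 h1 a (Nat.lt_succ_iff.mp a.2)
      omega
    have b2 : ∀ a : Fin ((m : ℕ) + 1), J a < js m := fun a => by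
      have := mono_GT1 h2 a (Nat.lt_succ_iff.mp a.2)
      omega
    obtain ⟨a, ha⟩ := hZ m (fun a => ⟨I a, b1 a⟩) (fun a => ⟨J a, (b2 a).trans hN⟩)
      (Fin.strictMono_iff_lt_succ.mpr fun a => h1 a a.2)
      (Fin.strictMono_iff_lt_succ.mpr fun a => h2 a a.2) b2
    exact h4 a (Nat.lt_succ_iff.mp a.2) ⟨_, ha, rfl, rfl⟩
  · by_contra hb
    refine absurd h1 (not_lt.mpr (Nat.sInf_le ?_))
    rcases m with _ | m
    · exact ⟨fun _ => i, fun _ => j, fun a ha => absurd ha (by omega),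
        fun a ha => absurd ha (by omega), le_rfl, fun _ _ => hb, rfl⟩
    · obtain ⟨I, J, k1, k2, k3, k4, k5⟩ := Nat.sInf_mem (hne (i - 1) m (by omega))
      have h3 : J m < j := by
        rw [k5]
        exact h2.resolve_left (by omega)
      refine ⟨fun a => if a ≤ m then I a else i, fun a => if a ≤ m then J a else j,
        fun a ha => ?_, fun a ha => ?_, by simp, fun a ha => ?_, by simp⟩
      · simp only [if_pos (show a ≤ m by omega)]
        split_ifs with h
        · exact k1 a h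
        · rw [show a = m by omega]
          omega
      · simp only [if_pos (show a ≤ m by omega)]
        split_ifs with h
        · exact k2 a h
        · rw [show a = m by omega]
          exact h3
      · simp only
        split_ifs with h
        · exact k4 a h
        · exact hb

end Pool.Agent.MP_8b9287_co.Geo

end

section

/-! Holes and paths of interlacing patterns. -/

namespace Pool.Agent.MP_8b9287_co.Geo

theorem step_GT2 {r : ℕ} {L : ℕ → ℕ → ℕ} (h : IsGT r L) {i m : ℕ} (hi : i < r) (hm : m < i) :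
    L i m ≤ L (i - 1) m ∧ L (i - 1) m < L i (m + 1) := by
  obtain ⟨i, rfl⟩ : ∃ k, i = k + 1 := ⟨i - 1, by omega⟩
  exact h i m (by omega) hi

theorem mono_GT2 {r : ℕ} {L : ℕ → ℕ → ℕ} (h : IsGT r L) {i m m' : ℕ} (hi : i < r) (hm : m ≤ m')
    (hm' : m' ≤ i) : L i m ≤ L i m' := by
  induction m', hm using Nat.le_induction with
  | base => exact le_rfl
  | succ k _ ih =>
    have := step_GT2 h hi (show k < i from hm')
    have := ih (by omega)
    omega

theorem sGT2a : SGT2a := by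
  intro r L h i j hi
  refine ⟨⟨fun hn => ?_, ?_⟩, ?_⟩
  · by_contra hp
    have key : ∀ m, m ≤ i → L i m ≤ j := by
      intro m
      induction m with
      | zero => exact fun _ => not_lt.1 fun k => hn ⟨0, Nat.zero_le _, k, Or.inl rfl⟩
      | succ m ih =>
        intro hm
        refine not_lt.1 fun k => hn ⟨m + 1, hm, k, Or.inr (not_le.1 fun k' => ?_)⟩
        exact hp ⟨m, by omega, ih (by omega), Or.inr k'⟩
    exact hp ⟨i, le_rfl, key i le_rfl, Or.inl rfl⟩
  · rintro ⟨m, a1, a2, a3⟩ ⟨m', b1, b2, b3⟩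
    have c1 : m < m' := not_le.1 fun k => by
      have := mono_GT2 h hi k a1
      omega
    have := mono_GT2 h (show i - 1 < r by omega) (show m ≤ m' - 1 by omega) (by omega)
    omega
  · have key : ∀ m m', onP L m i j → onP L m' i j → ¬ m < m' := by
      rintro m m' ⟨a1, a2, a3⟩ ⟨b1, b2, -⟩ k
      have := step_GT2 h hi (show m < i by omega)
      have := mono_GT2 h hi (show m + 1 ≤ m' from k) b1
      omega
    exact fun m m' a b => le_antisymm (not_lt.1 (key m' m b a)) (not_lt.1 (key m m' a b))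

theorem sGT2c : SGT2c := by
  intro r L h i m hm hi
  have key : ∀ d, i + d < r → L i m ≤ L (i + d) (m + d) := by
    intro d
    induction d with
    | zero => exact fun _ => le_rfl
    | succ d ih =>
      intro k
      exact (ih (by omega)).trans (h (i + d) (m + d) (by omega) k).2.le
  have := key (r - 1 - i) (by omega)
  rw [show i + (r - 1 - i) = r - 1 by omega] at this
  exact this.trans (mono_GT2 h (by omega) (by omega) le_rfl)

theorem not_lt_GT2 (h : SGT2a) {r : ℕ} {L L' : ℕ → ℕ → ℕ} (hL : IsGT r L) {i m : ℕ} (hm : m ≤ i)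
    (hi : i < r) (hh : ∀ j, hole L' i j → hole L i j)
    (ih : m ≠ 0 → L' (i - 1) (m - 1) = L (i - 1) (m - 1)) : ¬ L i m < L' i m := fun k => by
  refine (h r L hL i (L i m) hi).1.2 ⟨m, hm, le_rfl, ?_⟩ (hh _ ⟨m, hm, k, ?_⟩)
  · exact hm.eq_or_lt.imp Eq.symm fun a => (step_GT2 hL hi a).1
  · rcases m with _ | m
    · exact Or.inl rfl
    · rw [ih m.succ_ne_zero]
      exact Or.inr (step_GT2 hL hi (show m < i from hm)).2

theorem sF4 (h : SGT2a) : SF4 := by
  intro r L L' hL hL' hh i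
  induction i using Nat.strong_induction_on with
  | _ i ih =>
    intro m hm hi
    have e : m ≠ 0 → L (i - 1) (m - 1) = L' (i - 1) (m - 1) := fun k =>
      ih (i - 1) (by omega) (m - 1) (by omega) (by omega)
    exact le_antisymm (not_lt.1 (not_lt_GT2 h hL' hm hi (fun j => (hh i j hi).1) e))
      (not_lt.1 (not_lt_GT2 h hL hm hi (fun j => (hh i j hi).2) fun k => (e k).symm))

end Pool.Agent.MP_8b9287_co.Geo

end

section

namespace Pool.Agent.MP_8b9287_co.Geo

open Finset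

theorem row_GT2b (lo a : ℕ → ℕ) (n : ℕ) (h1 : ∀ m < n, lo m ≤ a m)
    (h2 : ∀ m, m + 1 < n → a m ≤ lo (m + 1)) : ∃ S : Finset ℕ,
    (∀ j, j ∈ S ↔ ∃ m < n, lo m ≤ j ∧ j < a m) ∧ (∀ j ∈ S, j < a (n - 1)) ∧
      S.card + ∑ m ∈ range n, lo m = ∑ m ∈ range n, a m := by
  induction n with
  | zero => exact ⟨∅, by simp, by simp, by simp⟩
  | succ n ih =>
    obtain ⟨S, e1, e2, e3⟩ := ih (fun m h => h1 m (by omega)) fun m h => h2 m (by omega)
    have h3 := h1 n (by omega)
    have h4 : ∀ j ∈ S, j < lo n := fun j hj => by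
      obtain ⟨m, hm, -⟩ := (e1 j).1 hj
      obtain ⟨k, rfl⟩ : ∃ k, n = k + 1 := ⟨n - 1, by omega⟩
      exact (e2 j hj).trans_le (h2 k (by omega))
    refine ⟨S ∪ Ico (lo n) (a n), fun j => ?_, fun j hj => ?_, ?_⟩
    · rw [mem_union, e1, mem_Ico, Nat.exists_lt_succ_right]
    · rcases mem_union.1 hj with h | h
      · exact (h4 j h).trans_le h3
      · exact (mem_Ico.1 h).2
    · rw [card_union_of_disjoint (disjoint_left.2 fun j hj h => absurd (h4 j hj)
        (not_lt.2 (mem_Ico.1 h).1)), Nat.card_Ico, sum_range_succ, sum_range_succ]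
      omega

theorem sGT2b : SGT2b := by
  intro r L h
  induction r with
  | zero => exact ⟨∅, by simp, by simp⟩
  | succ r ih =>
    obtain ⟨Y, e1, e2⟩ := ih fun i m h1 h2 => h i m h1 (by omega)
    have h3 : ∀ m < r, L r m ≤ L (r - 1) m ∧ L (r - 1) m < L r (m + 1) := fun m hm => by
      have h4 := h (r - 1) m (by omega) (by omega)
      rwa [Nat.sub_add_cancel (by omega)] at h4
    obtain ⟨S, f1, -, f2⟩ := row_GT2b (fun m => if m = 0 then 0 else L (r - 1) (m - 1) + 1) (L r)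
      (r + 1) (fun m hm => by
        rcases m with _ | m
        · exact Nat.zero_le _
        · exact (h3 m (by omega)).2) fun m hm => (h3 m (by omega)).1.trans (Nat.le_succ _)
    have f3 : ∀ j, j ∈ S ↔ hole L r j := fun j => by
      rw [f1]
      refine exists_congr fun m => ?_
      by_cases hm : m = 0
      · simp [hm]
      · simp only [hm, if_false, false_or]
        omega
    refine ⟨Y ∪ S.map ⟨Prod.mk r, Prod.mk_right_injective r⟩, fun p => ?_, ?_⟩
    · rw [mem_union, e1, mem_map]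
      constructor
      · rintro (⟨h1, h2⟩ | ⟨j, hj, rfl⟩)
        · exact ⟨by omega, h2⟩
        · exact ⟨Nat.lt_succ_self r, (f3 j).1 hj⟩
      · rintro ⟨h1, h2⟩
        rcases Nat.lt_succ_iff_lt_or_eq.1 h1 with h4 | h4
        · exact Or.inl ⟨h4, h2⟩
        · exact Or.inr ⟨p.2, (f3 _).2 (h4 ▸ h2), Prod.ext h4.symm rfl⟩
    · rw [card_union_of_disjoint (disjoint_left.2 fun p hp hq => by
        obtain ⟨j, -, rfl⟩ := mem_map.1 hq
        exact lt_irrefl r ((e1 _).1 hp).1), card_map, sum_range_succ, Nat.add_sub_cancel, ← f2,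
        sum_range_succ']
      simp only [Nat.succ_ne_zero, if_false, if_true, Nat.add_sub_cancel, sum_add_distrib,
        sum_const, card_range, smul_eq_mul, mul_one]
      omega

end Pool.Agent.MP_8b9287_co.Geo

end
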