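import Pool.Agent.MP_8b9287_co.Geo.St2

section

namespace Pool.Agent.MP_8b9287_co.Geo

open Finset

theorem inj_GT3 (r N : ℕ) :
    Function.Injective (fun p : Fin r × Fin N => (((p.1 : ℕ), (p.2 : ℕ)) : ℕ × ℕ)) := by
  intro p q h
  simp only [Prod.mk.injEq] at h
  exact Prod.ext (Fin.ext h.1) (Fin.ext h.2)

theorem sGT3 (h1 : SGT1) (h2 : SGT2b) (h3 : SGT2c) : SGT3 := by
  intro c r N js Z hc
  have hZ : (Z.image fun p : Fin r × Fin N => (((p.1 : ℕ), (p.2 : ℕ)) : ℕ × ℕ)).card = Z.card :=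
    card_image_of_injective _ (inj_GT3 r N)
  have hs0 : ∑ m ∈ range r, m = ∑ s : Fin r, (s : ℕ) := (Fin.sum_univ_eq_sum_range (fun m => m) r).symm
  have key : Hit js Z → ∃ (L : ℕ → ℕ → ℕ) (Y : Finset (ℕ × ℕ)), IsGT r L ∧
      (∀ m : Fin r, (js m : ℕ) ≤ L (r - 1) m) ∧ (∀ p : ℕ × ℕ, p ∈ Y ↔ p.1 < r ∧ hole L p.1 p.2) ∧
      Y.card + ∑ s : Fin r, (s : ℕ) = ∑ m : Fin r, L (r - 1) m ∧
      Y ⊆ Z.image fun p : Fin r × Fin N => (((p.1 : ℕ), (p.2 : ℕ)) : ℕ × ℕ) := by
    intro hH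
    obtain ⟨L, hL, hle, hh⟩ := h1 r N js Z hH
    obtain ⟨Y, hY, hcard⟩ := h2 r L hL
    refine ⟨L, Y, hL, hle, hY, ?_, ?_⟩
    · rw [← hs0, hcard]
      exact (Fin.sum_univ_eq_sum_range (fun m => L (r - 1) m) r).symm
    · intro p hp
      obtain ⟨hp1, hp2⟩ := (hY p).1 hp
      obtain ⟨q, hq, e1, e2⟩ := hh p.1 p.2 hp1 hp2
      exact mem_image.2 ⟨q, hq, Prod.ext e1 e2⟩
  refine ⟨fun hH => ?_, fun hH hle' => ?_, fun hG => ?_⟩
  · obtain ⟨L, Y, -, hle, -, hcard, hsub⟩ := key hH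
    have a1 := card_le_card hsub
    have a2 : ∑ s, (js s : ℕ) ≤ ∑ m : Fin r, L (r - 1) m := sum_le_sum fun m _ => hle m
    have a3 := hc.2
    omega
  · obtain ⟨L, Y, hL, hle, hY, hcard, hsub⟩ := key hH
    have a1 := card_le_card hsub
    have a2 : ∑ s, (js s : ℕ) ≤ ∑ m : Fin r, L (r - 1) m := sum_le_sum fun m _ => hle m
    have a3 := hc.2
    have a4 : ∑ s, (js s : ℕ) = ∑ m : Fin r, L (r - 1) m := by omega
    have a5 := (sum_eq_sum_iff_of_le (s := univ) fun m _ => hle m).1 a4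
    have a6 := eq_of_subset_of_card_le hsub (by omega)
    refine ⟨L, hL, fun m => (a5 m (mem_univ m)).symm, fun p => ?_⟩
    have a7 := hY ((p.1 : ℕ), (p.2 : ℕ))
    rw [a6] at a7
    constructor
    · intro hp
      exact (a7.1 (mem_image.2 ⟨p, hp, rfl⟩)).2
    · intro hp
      obtain ⟨q, hq, e⟩ := mem_image.1 (a7.2 ⟨p.1.2, hp⟩)
      rwa [← inj_GT3 r N e]
  · obtain ⟨L, hL, hb, hmem⟩ := hG
    obtain ⟨Y, hY, hcard⟩ := h2 r L hL
    have a1 : ∑ m ∈ range r, L (r - 1) m = ∑ s, (js s : ℕ) := by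
      rw [← Fin.sum_univ_eq_sum_range (fun m => L (r - 1) m) r]
      exact sum_congr rfl fun m _ => hb m
    have a2 : Y = Z.image fun p : Fin r × Fin N => (((p.1 : ℕ), (p.2 : ℕ)) : ℕ × ℕ) := by
      ext p
      rw [hY, mem_image]
      constructor
      · rintro ⟨hp1, hp2⟩
        have hr : r - 1 < r := by omega
        have hN : p.2 < N := by
          obtain ⟨m, hm, hj, -⟩ := hp2
          have b1 := h3 r L hL p.1 m hm hp1
          have b2 := hb ⟨r - 1, hr⟩
          have b3 := (js ⟨r - 1, hr⟩).2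
          simp only at b2
          omega
        exact ⟨(⟨p.1, hp1⟩, ⟨p.2, hN⟩), (hmem _).2 hp2, rfl⟩
      · rintro ⟨q, hq, rfl⟩
        exact ⟨q.1.2, (hmem q).1 hq⟩
    have a3 := hc.2
    rw [a2, hZ] at hcard
    omega

theorem cnt_GT3 (r l : ℕ) (hl : l ≤ r) :
    (univ.filter fun s : Fin r => r ≤ (s : ℕ) + l).card = l := by
  have e : (univ.filter fun s : Fin r => r ≤ (s : ℕ) + l).card = (Ico (r - l) r).card := by
    refine card_bij (fun s _ => (s : ℕ)) ?_ ?_ ?_
    · intro s hs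
      have h1 := (mem_filter.1 hs).2
      have h2 := s.2
      exact mem_Ico.2 ⟨by omega, h2⟩
    · intro s _ t _ h
      exact Fin.ext h
    · intro x hx
      obtain ⟨h1, h2⟩ := mem_Ico.1 hx
      exact ⟨⟨x, h2⟩, mem_filter.2 ⟨mem_univ _, by simp only; omega⟩, rfl⟩
  rw [e, Nat.card_Ico]
  omega

theorem sJS : SJS := by
  intro c r lam hsum hle
  have hb : ∀ s : Fin r,
      (s : ℕ) + (univ.filter fun a : Fin c => r ≤ (s : ℕ) + lam a).card < r + c := by
    intro s
    have h1 : (univ.filter fun a : Fin c => r ≤ (s : ℕ) + lam a).card ≤ c := by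
      simpa using card_le_univ (univ.filter fun a : Fin c => r ≤ (s : ℕ) + lam a)
    have h2 := s.2
    omega
  refine ⟨fun s => ⟨_, hb s⟩, ⟨?_, ?_⟩, fun s => rfl⟩
  · intro s t hst
    have h0 : (s : ℕ) < t := hst
    have h1 : (univ.filter fun a : Fin c => r ≤ (s : ℕ) + lam a).card ≤
        (univ.filter fun a : Fin c => r ≤ (t : ℕ) + lam a).card := by
      refine card_le_card fun a ha => ?_
      have h2 := (mem_filter.1 ha).2
      exact mem_filter.2 ⟨mem_univ _, by omega⟩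
    show (s : ℕ) + _ < (t : ℕ) + _
    omega
  · show ∑ s : Fin r, ((s : ℕ) + (univ.filter fun a : Fin c => r ≤ (s : ℕ) + lam a).card) = _
    rw [sum_add_distrib, add_comm]
    congr 1
    refine Eq.trans ?_ hsum
    simp only [card_filter]
    rw [sum_comm]
    refine sum_congr rfl fun a _ => ?_
    rw [← card_filter]
    exact cnt_GT3 r (lam a) (hle a)

end Pool.Agent.MP_8b9287_co.Geo

end

section

/-! From fillings to patterns. -/

namespace Pool.Agent.MP_8b9287_co.Geo

open Finset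

open Classical in
/-- the columns whose entry in row `k` is at most `i` -/
noncomputable def col_F1 {c : ℕ} (lam : Fin c → ℕ) (T : Box lam → ℕ) (k i : ℕ) : Finset (Fin c) :=
  univ.filter fun a => ∃ h : k < lam a, T ⟨a, ⟨k, h⟩⟩ ≤ i

theorem mem_F1 {c : ℕ} {lam : Fin c → ℕ} {T : Box lam → ℕ} {k i : ℕ} {a : Fin c} :
    a ∈ col_F1 lam T k i ↔ ∃ h : k < lam a, T ⟨a, ⟨k, h⟩⟩ ≤ i := by
  simp [col_F1]

theorem LTab_F1 {c : ℕ} (lam : Fin c → ℕ) (T : Box lam → ℕ) (i m : ℕ) :
    LTab lam T i m = m + (col_F1 lam T (i - m) i).card := by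
  unfold LTab
  congr 1
  generalize i - m = k
  refine card_bij (fun b _ => b.1) ?_ ?_ ?_
  · rintro ⟨a, k', h⟩ hb
    obtain ⟨rfl, h2⟩ : k' = k ∧ _ := (mem_filter.1 hb).2
    exact mem_F1.2 ⟨h, h2⟩
  · rintro ⟨a, k', h⟩ hb ⟨a', k'', h'⟩ hb' (rfl : a = a')
    obtain ⟨rfl, -⟩ : k' = k ∧ _ := (mem_filter.1 hb).2
    obtain ⟨rfl, -⟩ : k'' = k' ∧ _ := (mem_filter.1 hb').2
    rfl
  · intro a ha
    obtain ⟨h, h2⟩ := mem_F1.1 ha
    exact ⟨⟨a, k, h⟩, mem_filter.2 ⟨mem_univ _, rfl, h2⟩, rfl⟩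

theorem sF1 : SF1 := by
  rintro c r lam T ⟨h1, -, h3⟩
  refine ⟨fun i m hm _ => ?_, fun m hm => ?_⟩
  · simp only [LTab_F1]
    rw [show i + 1 - m = i - m + 1 by omega, show i + 1 - (m + 1) = i - m by omega]
    generalize i - m = k
    have a1 : col_F1 lam T (k + 1) (i + 1) ⊆ col_F1 lam T k i := fun a ha => by
      obtain ⟨h, h2⟩ := mem_F1.1 ha
      have := h3 ⟨a, k, by omega⟩ ⟨a, k + 1, h⟩ rfl (Nat.lt_succ_self k)
      exact mem_F1.2 ⟨by omega, by omega⟩
    have a2 : col_F1 lam T k i ⊆ col_F1 lam T k (i + 1) := fun a ha =>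
      mem_F1.2 ((mem_F1.1 ha).imp fun _ h => h.trans (Nat.le_succ i))
    have := card_le_card a1
    have := card_le_card a2
    omega
  · rw [LTab_F1]
    congr 2
    ext a
    rw [mem_F1, mem_filter]
    refine ⟨fun ⟨h, _⟩ => ⟨mem_univ _, by omega⟩, fun ⟨_, h⟩ => ⟨by omega, ?_⟩⟩
    exact Nat.le_sub_one_of_lt (h1 _)

theorem le_F1 {c r : ℕ} {lam : Fin c → ℕ} {T T' : Box lam → ℕ} (hl : Antitone lam)
    (hT : T ∈ SS lam r) (hT' : T' ∈ SS lam r)
    (h : ∀ i m, m ≤ i → i < r → LTab lam T i m = LTab lam T' i m) (b : Box lam) : T' b ≤ T b := by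
  obtain ⟨a, k, hk⟩ := b
  have low : ∀ k (hk : k < lam a), k ≤ T ⟨a, k, hk⟩ := fun k => by
    induction k with
    | zero => exact fun _ => Nat.zero_le _
    | succ k ih =>
      intro hk
      have h1 := hT.2.2 ⟨a, k, by omega⟩ ⟨a, k + 1, hk⟩ rfl (Nat.lt_succ_self k)
      have h2 := ih (by omega)
      omega
  have ls : ∀ {S : Box lam → ℕ}, S ∈ SS lam r → ∀ i,
      IsLowerSet (col_F1 lam S k i : Set (Fin c)) := fun {S} hS i x y hxy hx => by
    obtain ⟨h1, h2⟩ := mem_F1.1 hx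
    rcases hxy.eq_or_lt with rfl | l
    · exact hx
    · exact mem_F1.2 ⟨h1.trans_le (hl hxy),
        (hS.2.1 ⟨y, k, h1.trans_le (hl hxy)⟩ ⟨x, k, h1⟩ rfl l).trans h2⟩
  obtain ⟨i, hi⟩ : ∃ i, i = T ⟨a, k, hk⟩ := ⟨_, rfl⟩
  have h1 := low k hk
  have h2 := h i (i - k) (Nat.sub_le _ _) (hi ▸ hT.1 _)
  rw [LTab_F1, LTab_F1, show i - (i - k) = k by omega] at h2
  have h3 : col_F1 lam T k i ⊆ col_F1 lam T' k i := by
    rcases (ls hT i).total (ls hT' i) with e | e
    · exact coe_subset.1 e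
    · exact (eq_of_subset_of_card_le (coe_subset.1 e) (by omega)).ge
  obtain ⟨_, h4⟩ := mem_F1.1 (h3 (mem_F1.2 ⟨hk, hi.ge⟩))
  exact hi ▸ h4

theorem sF3 : SF3 := fun _ _ _ _ _ hl hT hT' h => funext fun b =>
  le_antisymm (le_F1 hl hT' hT (fun i m h1 h2 => (h i m h1 h2).symm) b) (le_F1 hl hT hT' h b)

end Pool.Agent.MP_8b9287_co.Geo

end

section

namespace Pool.Agent.MP_8b9287_co.Geo

/-- The number of entries at most `i` in the line `k`. -/
def y_F2 (L : ℕ → ℕ → ℕ) (i k : ℕ) : ℕ := L i (i - k) - (i - k)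

theorem ge_F2 {r : ℕ} {L : ℕ → ℕ → ℕ} (h : IsGT r L) {i : ℕ} (hi : i < r) :
    ∀ m, m ≤ i → m ≤ L i m := by
  induction i with
  | zero => intro m hm; omega
  | succ i ih =>
    intro m hm
    rcases m with _ | m
    · exact Nat.zero_le _
    · have h1 := ih (by omega) m (by omega)
      have h2 := (h i m (by omega) hi).2
      omega

theorem mono_F2 {r : ℕ} {L : ℕ → ℕ → ℕ} (h : IsGT r L) {i j k : ℕ} (hk : k ≤ i) (hij : i ≤ j)
    (hj : j < r) : y_F2 L i k ≤ y_F2 L j k := by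
  induction j, hij using Nat.le_induction with
  | base => exact le_rfl
  | succ j hij ih =>
    refine (ih (by omega)).trans ?_
    have h2 := (h j (j - k) (by omega) hj).2
    unfold y_F2
    rw [show j + 1 - k = j - k + 1 by omega]
    omega

theorem diag_F2 {r : ℕ} {L : ℕ → ℕ → ℕ} (h : IsGT r L) {i k : ℕ} (d : ℕ)
    (hj : i + d < r) : y_F2 L (i + d) (k + d) ≤ y_F2 L i k := by
  induction d with
  | zero => exact le_rfl
  | succ d ih =>
    refine le_trans ?_ (ih (by omega))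
    have h2 := (h (i + d) (i + d - (k + d)) (by omega) hj).1
    unfold y_F2
    rw [show i + (d + 1) - (k + (d + 1)) = i + d - (k + d) by omega]
    exact Nat.sub_le_sub_right h2 _

theorem sF2 : SF2 := by
  classical
  intro c r lam L hl hr h hb
  have top : ∀ k, k < r →
      y_F2 L (r - 1) k = (Finset.univ.filter fun a : Fin c => k < lam a).card := fun k hk => by
    rw [y_F2, hb _ (by omega), Nat.add_sub_cancel_left]
    exact congrArg _ (Finset.filter_congr fun a _ => by omega)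
  have top' : ∀ k, k < r → ∀ a : Fin c, (a : ℕ) < y_F2 L (r - 1) k ↔ k < lam a := fun k hk a => by
    rw [top k hk]
    exact Tuple.lt_card_gt_iff_apply_gt_of_antitone hl
  have ex : ∀ b : Box lam, ∃ i, ((b.2 : ℕ) ≤ i ∧ i < r) ∧ (b.1 : ℕ) < y_F2 L i b.2 := fun b => by
    have h1 := b.2.2
    have h2 := hr b.1
    exact ⟨r - 1, ⟨by omega, by omega⟩, (top' _ (by omega) _).2 h1⟩
  have s1 := fun b => Nat.find_spec (ex b)
  have s2 : ∀ (b : Box lam) (i : ℕ), (b.2 : ℕ) ≤ i → i < r →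
      (Nat.find (ex b) ≤ i ↔ (b.1 : ℕ) < y_F2 L i b.2) := fun b i h1 h2 =>
    ⟨fun k => (s1 b).2.trans_le (mono_F2 h (s1 b).1.1 k h2),
      fun k => Nat.find_min' (ex b) ⟨⟨h1, h2⟩, k⟩⟩
  refine ⟨fun b => Nat.find (ex b), ⟨fun b => (s1 b).1.2, fun b b' e hab => ?_,
    fun b b' e hab => ?_⟩, fun i m hm hi => ?_⟩
  · refine (s2 b _ (e.trans_le (s1 b').1.1) (s1 b').1.2).2 ?_
    rw [e]
    exact lt_trans hab (s1 b').2
  · obtain ⟨⟨a1, a2⟩, a3⟩ := s1 b'
    obtain ⟨d, hd⟩ := Nat.exists_eq_add_of_le hab.le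
    obtain ⟨i, hi⟩ : ∃ i, Nat.find (ex b') = i + d := ⟨Nat.find (ex b') - d, by omega⟩
    rw [hi] at a1 a2 a3
    rw [hd, ← e] at a3
    have := (s2 b i (by omega) (by omega)).2 (a3.trans_le (diag_F2 h d a2))
    show Nat.find (ex b) < Nat.find (ex b')
    omega
  · have h1 : y_F2 L i (i - m) ≤ y_F2 L (r - 1) (i - m) :=
      mono_F2 h (by omega) (by omega) (by omega)
    have h2 : y_F2 L i (i - m) ≤ c := by
      rw [top _ (by omega)] at h1
      exact h1.trans ((Finset.card_filter_le _ _).trans (by simp))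
    have h3 : (Finset.univ.filter fun b : Box lam =>
        (b.2 : ℕ) = i - m ∧ Nat.find (ex b) ≤ i).card =
        (Finset.univ.filter fun a : Fin c => (a : ℕ) < y_F2 L i (i - m)).card := by
      refine Finset.card_bij (fun b _ => b.1) (fun b hb => ?_) (fun b hb b' hb' e => ?_)
        fun a ha => ?_
      · obtain ⟨k1, k2⟩ := (Finset.mem_filter.1 hb).2
        exact Finset.mem_filter.2 ⟨Finset.mem_univ _, k1 ▸ (s2 b i (by omega) hi).1 k2⟩
      · obtain ⟨a, k⟩ := b
        obtain ⟨a', k'⟩ := b'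
        obtain rfl : a = a' := e
        obtain rfl : k = k' :=
          Fin.ext ((Finset.mem_filter.1 hb).2.1.trans (Finset.mem_filter.1 hb').2.1.symm)
        rfl
      · have k1 := (Finset.mem_filter.1 ha).2
        have k2 := (top' (i - m) (by omega) a).1 (k1.trans_le h1)
        exact ⟨⟨a, ⟨i - m, k2⟩⟩, Finset.mem_filter.2 ⟨Finset.mem_univ _, rfl,
          (s2 ⟨a, ⟨i - m, k2⟩⟩ i (Nat.sub_le _ _) hi).2 k1⟩, rfl⟩
    have h4 := ge_F2 h hi m hm
    rw [LTab, h3, Fin.card_filter_val_lt, min_eq_right h2, y_F2, show i - (i - m) = m by omega]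
    omega

end Pool.Agent.MP_8b9287_co.Geo

end

section

namespace Pool.Agent.MP_8b9287_co.Geo

theorem hole_congr_F5 {r : ℕ} {L L' : ℕ → ℕ → ℕ}
    (h : ∀ i m, m ≤ i → i < r → L i m = L' i m) {i : ℕ} (hi : i < r) (j : ℕ) :
    hole L i j → hole L' i j := by
  rintro ⟨m, hm, hj, h0⟩
  refine ⟨m, hm, by rwa [← h i m hm hi], ?_⟩
  rcases h0 with h0 | h0
  · exact Or.inl h0
  · right
    rwa [← h (i - 1) (m - 1) (by omega) (by omega)]

theorem hole_lt_F5 (hC : SGT2c) {r N : ℕ} {L : ℕ → ℕ → ℕ} {js : Fin r → Fin N} (hL : IsGT r L)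
    (hb : ∀ m : Fin r, L (r - 1) m = js m) {i j : ℕ} (hi : i < r) (hh : hole L i j) : j < N := by
  obtain ⟨m, hm, hj, -⟩ := hh
  have h1 := hC r L hL i m hm hi
  have h2 := hb ⟨r - 1, by omega⟩
  have h3 := (js ⟨r - 1, by omega⟩).2
  simp only at h2
  omega

open Classical in
theorem sF5 (h1 : SF1) (h2 : SF2) (h3 : SF3) (h4 : SF4) (hC : SGT2c) : SF5 := by
  intro c r N lam js hA hl hJ
  let f : (Box lam → ℕ) → Finset (Fin r × Fin N) :=
    fun T => Finset.univ.filter fun p => hole (LTab lam T) p.1 p.2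
  have hf : ∀ T (p : Fin r × Fin N), p ∈ f T ↔ hole (LTab lam T) p.1 p.2 := by
    intro T p
    simp [f]
  have hb : ∀ T ∈ SS lam r, ∀ m : Fin r, LTab lam T (r - 1) m = js m := by
    intro T hT m
    rw [(h1 c r lam T hT).2 m m.2, hJ m]
  have him : HG js = f '' SS lam r := by
    ext Z
    constructor
    · rintro ⟨L, hL, hLb, hZ⟩
      obtain ⟨T, hT, hTL⟩ := h2 c r lam L hA hl hL (fun m hm => by
        have := hLb ⟨m, hm⟩
        rw [hJ ⟨m, hm⟩] at this
        exact this)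
      refine ⟨T, hT, ?_⟩
      ext p
      rw [hf, hZ]
      exact ⟨hole_congr_F5 hTL p.1.2 _,
        hole_congr_F5 (fun i m hm hi => (hTL i m hm hi).symm) p.1.2 _⟩
    · rintro ⟨T, hT, rfl⟩
      exact ⟨LTab lam T, (h1 c r lam T hT).1, hb T hT, hf T⟩
  rw [him]
  refine Set.InjOn.ncard_image ?_
  intro T hT T' hT' he
  refine h3 c r lam T T' hA hT hT' (h4 r _ _ (h1 c r lam T hT).1 (h1 c r lam T' hT').1 ?_)
  intro i j hi
  constructor
  · intro hh
    have hj := hole_lt_F5 hC (h1 c r lam T hT).1 (hb T hT) hi hh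
    have : ((⟨i, hi⟩, ⟨j, hj⟩) : Fin r × Fin N) ∈ f T := (hf T _).2 hh
    rw [he] at this
    exact (hf T' _).1 this
  · intro hh
    have hj := hole_lt_F5 hC (h1 c r lam T' hT').1 (hb T' hT') hi hh
    have : ((⟨i, hi⟩, ⟨j, hj⟩) : Fin r × Fin N) ∈ f T' := (hf T' _).2 hh
    rw [← he] at this
    exact (hf T _).1 this

end Pool.Agent.MP_8b9287_co.Geo

end

section

namespace Pool.Agent.MP_8b9287_co.Geo

/-- chains whose first value is at least `a` -/
def ge_PP2 (r c a : ℕ) (d : ℕ → ℕ) : Set (Fin (c + 1) → ℕ) :=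
  {f | (∀ i, f i < r) ∧ a ≤ f 0 ∧ ∀ i j : Fin (c + 1), (j : ℕ) = i + 1 → f i + d i ≤ f j}

/-- chains whose first value is `a` -/
def eq_PP2 (r c a : ℕ) (d : ℕ → ℕ) : Set (Fin (c + 1) → ℕ) :=
  {f | (∀ i, f i < r) ∧ f 0 = a ∧ ∀ i j : Fin (c + 1), (j : ℕ) = i + 1 → f i + d i ≤ f j}

theorem fin_PP2 (r c : ℕ) : {f : Fin c → ℕ | ∀ i, f i < r}.Finite :=
  Set.Finite.pi' (fun _ : Fin c => Set.finite_lt_nat r)

theorem step_PP2 (r c : ℕ) (d : ℕ → ℕ) (D : ℤ) (hD : 0 ≤ D)
    (h : ∀ a : ℕ, (eq_PP2 r c a d).ncard = M2 c ((r : ℤ) - 1 - a - D)) (a : ℕ) :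
    (ge_PP2 r c a d).ncard = M2 (c + 1) ((r : ℤ) - 1 - a - D) := by
  have key : ∀ k a : ℕ, r ≤ a + k →
      (ge_PP2 r c a d).ncard = M2 (c + 1) ((r : ℤ) - 1 - a - D) := by
    intro k
    induction k with
    | zero =>
      intro a ha
      have he : ge_PP2 r c a d = ∅ := by
        ext f
        simp only [ge_PP2, Set.mem_ofPred_eq, Set.mem_empty_iff_false, iff_false]
        rintro ⟨h1, h2, -⟩
        have := h1 0
        omega
      rw [he, Set.ncard_empty, M2_neg _ (by omega)]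
    | succ k ih =>
      intro a ha
      have hu : ge_PP2 r c a d = eq_PP2 r c a d ∪ ge_PP2 r c (a + 1) d := by
        ext f
        simp only [ge_PP2, eq_PP2, Set.mem_ofPred_eq, Set.mem_union]
        constructor
        · rintro ⟨h1, h2, h3⟩
          rcases Nat.eq_or_lt_of_le h2 with h4 | h4
          · exact Or.inl ⟨h1, h4.symm, h3⟩
          · exact Or.inr ⟨h1, h4, h3⟩
        · rintro (⟨h1, h2, h3⟩ | ⟨h1, h2, h3⟩)
          · exact ⟨h1, h2.ge, h3⟩
          · exact ⟨h1, by omega, h3⟩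
      have hd : Disjoint (eq_PP2 r c a d) (ge_PP2 r c (a + 1) d) := by
        rw [Set.disjoint_left]
        rintro f ⟨-, h2, -⟩ ⟨-, h3, -⟩
        omega
      rw [hu, Set.ncard_union_eq hd ((fin_PP2 r _).subset fun f hf => hf.1)
        ((fin_PP2 r _).subset fun f hf => hf.1), h a, ih (a + 1) (by omega),
        M2_succ c ((r : ℤ) - 1 - a - D)]
      congr 2
      push_cast
      ring
  exact key r a (by omega)

theorem empty_PP2 (r c a : ℕ) (d : ℕ → ℕ) (ha : r ≤ a) : eq_PP2 r c a d = ∅ := by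
  ext f
  simp only [eq_PP2, Set.mem_ofPred_eq, Set.mem_empty_iff_false, iff_false]
  rintro ⟨h1, h2, -⟩
  have := h1 0
  omega

theorem cons_PP2 (r c a : ℕ) (d : ℕ → ℕ) (ha : a < r) :
    eq_PP2 r (c + 1) a d = (fun g : Fin (c + 1) → ℕ => (Fin.cons a g : Fin (c + 2) → ℕ)) ''
      ge_PP2 r c (a + d 0) (fun i => d (i + 1)) := by
  ext f
  constructor
  · rintro ⟨h1, h2, h3⟩
    refine ⟨Fin.tail f, ⟨fun i => h1 _, ?_, fun i j hij => ?_⟩, ?_⟩
    · have := h3 0 (Fin.succ 0) (by simp)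
      rw [h2] at this
      exact this
    · exact h3 i.succ j.succ (by simp [hij])
    · rw [← h2]
      exact Fin.cons_self_tail f
  · rintro ⟨g, ⟨h1, h2, h3⟩, rfl⟩
    refine ⟨fun i => ?_, by simp, fun i j => ?_⟩
    · refine Fin.cases ?_ (fun i' => ?_) i
      · simpa using ha
      · simpa using h1 i'
    · refine Fin.cases ?_ (fun j' => ?_) j
      · intro h
        simp at h
      · refine Fin.cases ?_ (fun i' => ?_) i
        · intro h
          have hj : j' = 0 := Fin.ext (by simpa using h)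
          subst hj
          simpa only [Fin.cons_zero, Fin.cons_succ, Fin.val_zero] using h2
        · intro h
          simpa only [Fin.cons_succ, Fin.val_succ] using h3 i' j' (by simpa using h)

theorem card_PP2 (r c : ℕ) : ∀ (d : ℕ → ℕ) (a : ℕ), (eq_PP2 r c a d).ncard =
    M2 c ((r : ℤ) - 1 - a - ∑ i ∈ Finset.range c, (d i : ℤ)) := by
  induction c with
  | zero =>
    intro d a
    rw [Finset.sum_range_zero, M2_zero]
    split_ifs with h
    · have he : eq_PP2 r 0 a d = {fun _ => a} := by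
        ext f
        simp only [eq_PP2, Set.mem_ofPred_eq, Set.mem_singleton_iff]
        constructor
        · rintro ⟨-, h2, -⟩
          funext i
          rw [← h2, Fin.fin_one_eq_zero i]
        · rintro rfl
          refine ⟨fun _ => show a < r by omega, rfl, fun i j hij => ?_⟩
          have := j.2
          omega
      rw [he, Set.ncard_singleton]
    · rw [empty_PP2 _ _ _ _ (by omega), Set.ncard_empty]
  | succ c ih =>
    intro d a
    have hs : ∀ (e : ℕ → ℕ) (m : ℕ), (0 : ℤ) ≤ ∑ i ∈ Finset.range m, (e i : ℤ) :=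
      fun e m => Finset.sum_nonneg fun _ _ => Int.natCast_nonneg _
    by_cases ha : a < r
    · rw [cons_PP2 r c a d ha,
        Set.ncard_image_of_injective _ (Fin.cons_right_injective (α := fun _ => ℕ) a),
        step_PP2 r c _ _ (hs _ c) (ih fun i => d (i + 1)), Finset.sum_range_succ']
      congr 1
      push_cast
      ring
    · have := hs d (c + 1)
      rw [empty_PP2 _ _ _ _ (by omega), Set.ncard_empty, M2_neg _ (by omega)]

theorem sPP2 : SPP2 := by
  intro c r d hr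
  cases c with
  | zero =>
    have he : {f : Fin 0 → ℕ | (∀ i, f i < r) ∧
        ∀ i j : Fin 0, (j : ℕ) = i + 1 → f i + d i ≤ f j} = {Fin.elim0} := by
      ext f
      simp only [Set.mem_ofPred_eq, Set.mem_singleton_iff]
      exact ⟨fun _ => funext fun i => i.elim0, fun _ => ⟨fun i => i.elim0, fun i => i.elim0⟩⟩
    rw [he, Set.ncard_singleton, M2_zero, if_pos (by simp; omega)]
  | succ c =>
    have h := step_PP2 r c d _
      (Finset.sum_nonneg fun i _ => Int.natCast_nonneg (d i)) (card_PP2 r c d) 0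
    rw [Nat.cast_zero, sub_zero] at h
    rw [Nat.add_sub_cancel, ← h]
    congr 1
    ext f
    simp [ge_PP2]

end Pool.Agent.MP_8b9287_co.Geo

end

section

namespace Pool.Agent.MP_8b9287_co.Geo

section
variable {β : Type} {c : ℕ}

/-- the order on points given by values and labels -/
def K_PP1 (lab T : β → ℕ) (x y : β) : Prop := T x < T y ∨ (T x = T y ∧ lab x < lab y)

/-- fillings which increase along the enumeration `e` -/
def A_PP1 (lab : β → ℕ) (r : ℕ) (e : Fin c ≃ β) : Set (β → ℕ) :=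
  {T | (∀ b, T b < r) ∧ ∀ i j : Fin c, i < j → K_PP1 lab T (e i) (e j)}

open Classical in
/-- descents of the enumeration `e` -/
noncomputable def d_PP1 (lab : β → ℕ) (e : Fin c ≃ β) (i : ℕ) : ℕ :=
  if ∃ a b : Fin c, (a : ℕ) = i ∧ (b : ℕ) = i + 1 ∧ lab (e a) < lab (e b) then 0 else 1

theorem lt_PP1 {lab T : β → ℕ} {e : Fin c ≃ β} (h : ∀ i j : Fin c, i < j → K_PP1 lab T (e i) (e j))
    {x y : β} (hxy : K_PP1 lab T x y) : e.symm x < e.symm y := by
  rcases lt_trichotomy (e.symm x) (e.symm y) with k | k | k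
  · exact k
  · rw [e.symm.injective k] at hxy
    unfold K_PP1 at hxy
    omega
  · have := h _ _ k
    rw [e.apply_symm_apply, e.apply_symm_apply] at this
    unfold K_PP1 at hxy this
    omega

theorem uniq_PP1 {lab T : β → ℕ} {r : ℕ} {e e' : Fin c ≃ β} (h : T ∈ A_PP1 lab r e)
    (h' : T ∈ A_PP1 lab r e') : e = e' := by
  have h1 : StrictMono (e.trans e'.symm) := fun i j hij => lt_PP1 h'.2 (h.2 i j hij)
  have h2 : (e.trans e'.symm : Fin c → Fin c) = id :=
    (h1.range_inj strictMono_id).1 (by rw [(e.trans e'.symm).surjective.range_eq, Set.range_id])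
  ext i
  exact e'.symm_apply_eq.1 (congrFun h2 i)

theorem exists_PP1 [Fintype β] {lab : β → ℕ} (hl : Function.Injective lab) (T : β → ℕ) :
    ∃ e : Fin (Fintype.card β) ≃ β, ∀ i j, i < j → K_PP1 lab T (e i) (e j) := by
  let _ : LinearOrder β := LinearOrder.lift' (fun b => toLex (T b, lab b))
    fun x y h => hl (congrArg (fun p => (ofLex p).2) h)
  refine ⟨(monoEquivOfFin β rfl).toEquiv, fun i j hij => ?_⟩
  exact Prod.Lex.toLex_lt_toLex.1 ((monoEquivOfFin β rfl).strictMono hij)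

theorem chain_PP1 {P : Fin c → Fin c → Prop} (ht : ∀ i j k, P i j → P j k → P i k)
    (h : ∀ i j : Fin c, (j : ℕ) = i + 1 → P i j) (i j : Fin c) (hij : i < j) : P i j := by
  have key : ∀ (n : ℕ) (j : Fin c), (j : ℕ) = i + n + 1 → P i j := by
    intro n
    induction n with
    | zero => exact fun j hj => h i j hj
    | succ n ih => exact fun j hj => ht i ⟨i + n + 1, by omega⟩ j (ih _ rfl) (h _ _ hj)
  have : (i : ℕ) < j := hij
  exact key (j - i - 1) j (by omega)

theorem step_PP1 (lab T : β → ℕ) (e : Fin c ≃ β) {i j : Fin c} (h : (j : ℕ) = i + 1) :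
    T (e i) + d_PP1 lab e i ≤ T (e j) ↔ K_PP1 lab T (e i) (e j) := by
  have k : (∃ a b : Fin c, (a : ℕ) = i ∧ (b : ℕ) = i + 1 ∧ lab (e a) < lab (e b)) ↔
      lab (e i) < lab (e j) := by
    constructor
    · rintro ⟨a, b, h1, h2, h3⟩
      rwa [Fin.ext h1, Fin.ext (h2.trans h.symm)] at h3
    · exact fun k => ⟨i, j, rfl, h, k⟩
  unfold d_PP1 K_PP1
  split_ifs with k'
  · rw [k] at k'
    omega
  · rw [k] at k'
    omega

theorem card_PP1 (h : SPP2) (lab : β → ℕ) {r : ℕ} (hr : 1 ≤ r) (e : Fin c ≃ β) :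
    (A_PP1 lab r e).ncard =
      M2 c ((r : ℤ) - 1 - (∑ i ∈ Finset.range (c - 1), d_PP1 lab e i : ℕ)) := by
  rw [Nat.cast_sum, ← h c r (d_PP1 lab e) hr]
  refine Set.ncard_congr (fun T _ => T ∘ e) (fun T hT => ⟨fun i => hT.1 _, fun i j hij => ?_⟩)
    (fun T T' _ _ k => e.surjective.injective_comp_right k) fun f hf => ⟨f ∘ e.symm, ⟨?_, ?_⟩, ?_⟩
  · exact (step_PP1 lab T e hij).2 (hT.2 i j (by rw [Fin.lt_def]; omega))
  · exact fun b => hf.1 _
  · refine chain_PP1 (fun i j k h1 h2 => ?_) fun i j hij => (step_PP1 lab _ e hij).1 ?_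
    · unfold K_PP1 at h1 h2 ⊢
      omega
    · simpa using hf.2 i j hij
  · funext i
    simp

end

theorem sPP1 (h : SPP2) : SPP1 := by
  classical
  intro β _ lab R hl
  obtain ⟨E, hE⟩ : ∃ E : Finset (Fin (Fintype.card β) ≃ β),
      ∀ e, e ∈ E ↔ ∀ x y, R x y → e.symm x < e.symm y :=
    ⟨Finset.univ.filter fun e => ∀ x y, R x y → e.symm x < e.symm y, fun e => by simp⟩
  refine ⟨E.val.map fun e => ∑ i ∈ Finset.range (Fintype.card β - 1), d_PP1 lab e i,
    fun r hr => ?_⟩
  have e1 : {T : β → ℕ | (∀ b, T b < r) ∧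
      ∀ x y, R x y → T x < T y ∨ (T x = T y ∧ lab x < lab y)} =
      ⋃ e ∈ (E : Set (Fin (Fintype.card β) ≃ β)), A_PP1 lab r e := by
    ext T
    simp only [Set.mem_iUnion, Finset.mem_coe, exists_prop]
    constructor
    · rintro ⟨h1, h2⟩
      obtain ⟨e, he⟩ := exists_PP1 hl T
      exact ⟨e, (hE e).2 fun x y k => lt_PP1 he (h2 x y k), h1, he⟩
    · rintro ⟨e, he, h1, h2⟩
      refine ⟨h1, fun x y k => ?_⟩
      have := h2 _ _ ((hE e).1 he x y k)
      rwa [e.apply_symm_apply, e.apply_symm_apply] at this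
  rw [e1, E.finite_toSet.ncard_biUnion
    (fun e _ => (Set.Finite.pi' fun _ => Set.finite_Iio r).subset fun T hT => hT.1)
    (fun e _ e' _ hne => Set.disjoint_left.2 fun T k k' => hne (uniq_PP1 k k')),
    finsum_mem_coe_finset, Multiset.map_map]
  exact Finset.sum_congr rfl fun e _ => card_PP1 h lab hr e

theorem sPP3 (h : SPP1) : SPP3 := by
  intro c lam hc
  have hk : ∀ b : Box lam, (b.2 : ℕ) < c := fun b => b.2.2.trans_le
    ((Finset.single_le_sum (f := lam) (fun _ _ => Nat.zero_le _) (Finset.mem_univ b.1)).trans hc.le)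
  have hl : Function.Injective fun b : Box lam => c - b.2 + (b.1 : ℕ) * (c + 1) := by
    intro b b' e
    have e0 : c - b.2 + (b.1 : ℕ) * (c + 1) = c - b'.2 + (b'.1 : ℕ) * (c + 1) := e
    have e1 := congrArg (· % (c + 1)) e0
    simp only [Nat.add_mul_mod_self_right] at e1
    rw [Nat.mod_eq_of_lt (by omega), Nat.mod_eq_of_lt (by omega)] at e1
    rw [e1] at e0
    have e2 := Nat.eq_of_mul_eq_mul_right (Nat.succ_pos c) (Nat.add_left_cancel e0)
    have k1 := hk b
    have k2 := hk b'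
    obtain ⟨a, k⟩ := b
    obtain ⟨a', k'⟩ := b'
    obtain rfl : a = a' := Fin.ext e2
    obtain rfl : k = k' := Fin.ext (by simp only at e1 k1 k2; omega)
    rfl
  obtain ⟨M, hM⟩ := h (Box lam) _
    (fun b b' => ((b.2 : ℕ) = b'.2 ∧ b.1 < b'.1) ∨ (b.1 = b'.1 ∧ (b.2 : ℕ) < b'.2)) hl
  refine ⟨M, fun r hr => ?_⟩
  have e : Fintype.card (Box lam) = c := by simp [Fintype.card_sigma, hc]
  have := hM r hr
  rw [e] at this
  rw [← this]
  congr 1
  ext T
  refine and_congr_right fun _ => ⟨fun k b b' => ?_, fun k => ⟨fun b b' h1 h2 => ?_,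
    fun b b' h1 h2 => ?_⟩⟩
  · rintro (⟨h1, h2⟩ | ⟨h1, h2⟩)
    · have h3 := k.1 b b' h1 h2
      have h4 : (b.1 : ℕ) * (c + 1) < (b'.1 : ℕ) * (c + 1) :=
        Nat.mul_lt_mul_of_pos_right h2 (Nat.succ_pos c)
      omega
    · exact Or.inl (k.2 b b' h1 h2)
  · have := k b b' (Or.inl ⟨h1, h2⟩)
    omega
  · have h3 := k b b' (Or.inr ⟨h1, h2⟩)
    have h4 : (b.1 : ℕ) * (c + 1) = (b'.1 : ℕ) * (c + 1) := by rw [h1]
    omega

end Pool.Agent.MP_8b9287_co.Geo

end

section

/-! The points of the orbit closure on a Schubert variety are counted by lines. -/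

namespace Pool.Agent.MP_8b9287_co.Geo

theorem encard_le_LamA {α β γ : Type} (f : α → β) (g : α → γ) (S : Set α)
    (h : ∀ a ∈ S, ∀ b ∈ S, g a = g b → f a = f b) : (f '' S).encard ≤ (g '' S).encard := by
  classical
  rcases S.eq_empty_or_nonempty with rfl | ⟨a₀, ha₀⟩
  · simp
  have : Nonempty α := ⟨a₀⟩
  have hsub : f '' S ⊆ (fun y => f (Function.invFunOn g S y)) '' (g '' S) := by
    rintro _ ⟨a, ha, rfl⟩
    have hex : ∃ b ∈ S, g b = g a := ⟨a, ha, rfl⟩
    exact ⟨g a, ⟨a, ha, rfl⟩,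
      h _ (Function.invFunOn_mem hex) _ ha (Function.invFunOn_eq hex)⟩
  exact (Set.encard_le_encard hsub).trans (Set.encard_image_le _ _)

theorem mv_smul_LamA {k r m : ℕ} (A : Fin r → Fin m → ℂ) (X : Fin k → Fin m → ℂ)
    (a : ℂ) (v : Fin k → ℂ) (w : Fin m → ℂ) : mv A X (a • v) w = a • mv A X v w := by
  ext i
  simp only [mv_apply, vX, Pi.smul_apply, smul_eq_mul, Finset.mul_sum, Finset.sum_mul]
  exact Finset.sum_congr rfl fun j _ => Finset.sum_congr rfl fun b _ => by ring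

theorem Wv_smul_LamA {k r m n : ℕ} (φ : Fin n → ℂ) (π : Fin n → Fin m)
    (A : Fin r → Fin m → ℂ) (X : Fin k → Fin m → ℂ) (a : ℂ) (ha : a ≠ 0) (v : Fin k → ℂ) :
    Wv φ π A X (a • v) = Wv φ π A X v := by
  have : LinearMap.ker (mv A X (a • v)) = LinearMap.ker (mv A X v) := by
    ext w
    rw [LinearMap.mem_ker, LinearMap.mem_ker, mv_smul_LamA, smul_eq_zero]
    exact ⟨fun h => h.resolve_left ha, Or.inr⟩
  unfold Wv
  rw [this]

theorem sLamA (hb : SG1b3) (hc : SG1c) (hd : SG1d) (h3 : SGP3) : SLamA := by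
  intro k r m n A X π φ Sch T hm hr hπ hφ hK hGP hsurj hSch hT hne
  have hLI : LinearIndependent ℂ X := (h3 k m X hGP (by omega)).1
  have hE : orbCl (fun a i => X a (π i)) ∩ Sch = Wv φ π A X '' {v | v ≠ 0 ∧ v ∈ T} := by
    ext W
    constructor
    · rintro ⟨hW, hWS⟩
      obtain ⟨v, hv, rfl⟩ :=
        hb k r m n A X π φ W hm (by omega) hπ hφ hK hsurj hW (hSch W hWS)
      exact ⟨v, ⟨hv, (hT v hv).1 hWS⟩, rfl⟩
    · rintro ⟨v, ⟨hv, hvT⟩, rfl⟩
      exact ⟨hc k r m n A X π φ v hπ hφ hK hLI (hne v hv hvT), (hT v hv).2 hvT⟩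
  rw [hE]
  unfold lines
  refine le_antisymm (encard_le_LamA _ _ _ ?_) (encard_le_LamA _ _ _ ?_)
  · rintro v ⟨hv, _⟩ v' ⟨_, _⟩ h
    have hmem : v ∈ Submodule.span ℂ ({v'} : Set (Fin k → ℂ)) := by
      rw [← h]
      exact Submodule.mem_span_singleton_self v
    obtain ⟨a, rfl⟩ := Submodule.mem_span_singleton.1 hmem
    have ha : a ≠ 0 := by
      rintro rfl
      exact hv (zero_smul ℂ v')
    exact Wv_smul_LamA φ π A X a ha v'
  · rintro v ⟨hv, hvT⟩ v' ⟨hv', hvT'⟩ h
    exact hd k r m n A X π φ v v' (by omega) hπ hφ hK hGP (hne v hv hvT) (hne v' hv' hvT') h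

end Pool.Agent.MP_8b9287_co.Geo

end

section

/-! A lower bound for the points of the orbit closure, and jump sequences of any size. -/

namespace Pool.Agent.MP_8b9287_co.Geo

open Finset

theorem sLamB (hc : SG1c) (hd : SG1d) (h3 : SGP3) : SLamB := by
  intro k r m n A X π φ Sch T hm hπ hφ hK hGP hT
  have hLI : LinearIndependent ℂ X := (h3 k m X hGP (by omega)).1
  have hE : Wv φ π A X '' {v | v ≠ 0 ∧ v ∈ T} ⊆ orbCl (fun a i => X a (π i)) ∩ Sch := by
    rintro _ ⟨v, ⟨hv, hvT⟩, rfl⟩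
    exact ⟨hc k r m n A X π φ v hπ hφ hK hLI (hT v hv hvT).2, (hT v hv hvT).1⟩
  refine le_trans ?_ (Set.encard_le_encard hE)
  unfold lines
  refine encard_le_LamA _ _ _ ?_
  rintro v ⟨hv, hvT⟩ v' ⟨hv', hvT'⟩ h
  exact hd k r m n A X π φ v v' (by omega) hπ hφ hK hGP (hT v hv hvT).2 (hT v' hv' hvT').2 h

theorem sJS2 : SJS2 := by
  intro c r lam hle
  have hb : ∀ s : Fin r,
      (s : ℕ) + (univ.filter fun a : Fin c => r ≤ (s : ℕ) + lam a).card < r + c := by
    intro s
    have h1 : (univ.filter fun a : Fin c => r ≤ (s : ℕ) + lam a).card ≤ c := by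
      simpa using card_le_univ (univ.filter fun a : Fin c => r ≤ (s : ℕ) + lam a)
    have h2 := s.2
    omega
  refine ⟨fun s => ⟨_, hb s⟩, ⟨?_, ?_⟩, fun s => rfl⟩
  · intro s t hst
    have h0 : (s : ℕ) < t := hst
    have h1 : (univ.filter fun a : Fin c => r ≤ (s : ℕ) + lam a).card ≤
        (univ.filter fun a : Fin c => r ≤ (t : ℕ) + lam a).card := by
      refine card_le_card fun a ha => ?_
      have h2 := (mem_filter.1 ha).2
      exact mem_filter.2 ⟨mem_univ _, by omega⟩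
    show (s : ℕ) + _ < (t : ℕ) + _
    omega
  · show ∑ s : Fin r, ((s : ℕ) + (univ.filter fun a : Fin c => r ≤ (s : ℕ) + lam a).card) = _
    rw [sum_add_distrib, add_comm]
    congr 1
    simp only [card_filter]
    rw [sum_comm]
    refine sum_congr rfl fun a _ => ?_
    rw [← card_filter]
    exact cnt_GT3 r (lam a) (hle a)

end Pool.Agent.MP_8b9287_co.Geo

end

section

namespace Pool.Agent.MP_8b9287_co.Geo

open Module

theorem vals_G1aX {k m : ℕ} {X : Fin k → Fin m → ℂ} {J : Set (Fin m)}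
    (h : LinearIndepOn ℂ (fun (j : Fin m) (a : Fin k) => X a j) J) (x : Fin m → ℂ) :
    ∃ u : Fin k → ℂ, ∀ j ∈ J, vX X u j = x j := by
  obtain ⟨φ, hφ⟩ := LinearMap.exists_extend
    ((Basis.span h.linearIndependent).constr ℂ fun j => x j.1)
  refine ⟨fun a => φ fun b => if a = b then 1 else 0, fun j hj => ?_⟩
  have h1 := LinearMap.congr_fun hφ (Basis.span h.linearIndependent ⟨j, hj⟩)
  rw [Basis.constr_basis, LinearMap.comp_apply, Submodule.subtype_apply, Basis.coe_span_apply,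
    LinearMap.pi_apply_eq_sum_univ] at h1
  exact (Finset.sum_congr rfl fun a _ => mul_comm _ _).trans h1

theorem sG1aX (h : SGP3) : SG1a := by
  classical
  intro k r m X hm hX
  obtain ⟨hli, hcol⟩ := h k m X hX (by omega)
  have hV : finrank ℂ (rowSp X) = k := by
    rw [rowSp, finrank_span_eq_card hli, Fintype.card_fin]
  have hQ : finrank ℂ ((Fin m → ℂ) ⧸ rowSp X) = finrank ℂ (Fin r → ℂ) := by
    have := (rowSp X).finrank_quotient_add_finrank
    simp only [finrank_fintype_fun_eq_card, Fintype.card_fin] at this ⊢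
    omega
  let e := LinearEquiv.ofFinrankEq _ _ hQ
  let f : (Fin m → ℂ) →ₗ[ℂ] (Fin r → ℂ) := e.toLinearMap ∘ₗ (rowSp X).mkQ
  have hf : ∀ w i, ∑ j, f (fun b => if j = b then 1 else 0) i * w j = f w i := by
    intro w i
    rw [LinearMap.pi_apply_eq_sum_univ f w, Finset.sum_apply]
    exact Finset.sum_congr rfl fun j _ => by simp [mul_comm]
  have hk : ∀ w, f w = 0 ↔ w ∈ rowSp X := by
    intro w
    simp [f]
  refine ⟨fun i j => f (fun b => if j = b then 1 else 0) i, fun w => ?_, fun v hv y => ?_⟩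
  · rw [← hk, funext_iff]
    simp only [hf, Pi.zero_apply]
  · obtain ⟨x, rfl⟩ : ∃ x, f x = y :=
      (e.surjective.comp (rowSp X).mkQ_surjective) y
    let Z : Finset (Fin m) := Finset.univ.filter fun j => vX X v j = 0
    have hZ : Z.card < k := hX v hv Z fun j hj => (Finset.mem_filter.1 hj).2
    obtain ⟨u, hu⟩ := vals_G1aX (hcol Z hZ.le) x
    refine ⟨fun j => (x j - vX X u j) / vX X v j, ?_⟩
    ext i
    rw [mv_apply]
    have e1 : ∀ j, vX X v j * ((x j - vX X u j) / vX X v j) = (x - vX X u) j := by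
      intro j
      by_cases h0 : vX X v j = 0
      · have := hu j (by simp [Z, h0])
        simp [h0, this]
      · rw [mul_div_cancel₀ _ h0]; rfl
    simp only [e1]
    rw [hf, map_sub, (hk _).2 (vX_mem X u), sub_zero]

end Pool.Agent.MP_8b9287_co.Geo

end

section

/-! Points of the orbit closure through a vector without zero entries. -/

namespace Pool.Agent.MP_8b9287_co.Geo

open Module

theorem minor_G1b1 {k m n : ℕ} {X : Fin k → Fin m → ℂ} {π : Fin n → Fin m}
    {W : Submodule ℂ (Fin n → ℂ)} (hW : W ∈ orbCl (fun a i => X a (π i))) {i i' : Fin n}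
    (h : π i = π i') {w w' : Fin n → ℂ} (hw : w ∈ W) (hw' : w' ∈ W) :
    w i * w' i' = w i' * w' i := by
  obtain ⟨-, B, rfl, hB⟩ := hW
  have key : ∀ a a', B a i * B a' i' = B a i' * B a' i := by
    intro a a'
    have := hB (MvPolynomial.X (a, i) * MvPolynomial.X (a', i') -
      MvPolynomial.X (a, i') * MvPolynomial.X (a', i)) fun B' t _ e => ?_
    · simpa [sub_eq_zero] using this
    · have row : ∀ c, ∃ F : Fin m → ℂ, ∀ j, B' c j = F (π j) * t j := fun c => by
        have hc : B' c ∈ rowSp B' := Submodule.subset_span ⟨c, rfl⟩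
        rw [e, mem_rowSp] at hc
        obtain ⟨y, hy⟩ := hc
        refine ⟨vX X y, fun j => ?_⟩
        rw [← hy]
        simp only [vX, Finset.sum_mul, mul_assoc]
      obtain ⟨F, hF⟩ := row a
      obtain ⟨F', hF'⟩ := row a'
      simp only [map_sub, map_mul, MvPolynomial.eval_X, hF, hF', h]
      ring
  obtain ⟨u, rfl⟩ := (mem_rowSp B w).1 hw
  obtain ⟨u', rfl⟩ := (mem_rowSp B w').1 hw'
  simp only [vX, Finset.sum_mul_sum]
  refine Finset.sum_congr rfl fun a _ => Finset.sum_congr rfl fun a' _ => ?_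
  linear_combination u a * u' a' * key a a'

theorem emb_G1b1 {k m n : ℕ} {X : Fin k → Fin m → ℂ} {π : Fin n → Fin m} {φ : Fin n → ℂ}
    {W : Submodule ℂ (Fin n → ℂ)} {ρ : Fin m → Fin n} (hρ : ∀ j, π (ρ j) = j) (hφ : ∀ i, φ i ≠ 0)
    (hW : W ∈ orbCl (fun a i => X a (π i))) (h : φ ∈ W) {w : Fin n → ℂ} (hw : w ∈ W) :
    Emb φ π (fun j => w (ρ j) / φ (ρ j)) = w := by
  ext i
  have := minor_G1b1 hW (hρ (π i)).symm hw h
  rw [Emb_apply, ← mul_div_assoc, div_eq_iff (hφ _), this, mul_comm]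

theorem sG1b1 : SG1b1 := fun _ _ _ _ _ _ _ hπ hφ hW h _ hw =>
  ⟨_, emb_G1b1 (Function.surjInv_eq hπ) hφ hW h hw⟩

theorem sG1b3 (h1 : SG1b1) (h2 : SG1b2) : SG1b3 := by
  intro k r m n A X π φ W hm h0 hπ hφ hK hs hW h
  have hρ := Function.surjInv_eq hπ
  set ρ := Function.surjInv hπ
  obtain ⟨s, hs0, hs1⟩ := h2 k r m n A X π W ρ h0 hρ hK hW
  obtain ⟨v, hv⟩ := (mem_rowSp X _).1 ((hK fun j => s j * φ (ρ j)).1 (hs1 φ h))
  have hv0 : v ≠ 0 := by
    rintro rfl
    refine hs0 (funext fun j => ?_)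
    have := congrFun hv j
    simp only [vX, Pi.zero_apply, zero_mul, Finset.sum_const_zero] at this
    exact (mul_eq_zero.1 this.symm).resolve_right (hφ _)
  refine ⟨v, hv0, Submodule.eq_of_le_of_finrank_eq (fun w hw => ?_) ?_⟩
  · obtain ⟨y, rfl⟩ := h1 k m n X π φ W hπ hφ hW h hw
    refine ⟨y, LinearMap.mem_ker.2 (funext fun i => ?_), rfl⟩
    rw [mv_apply, hv, Pi.zero_apply, ← hs1 _ hw i]
    refine Finset.sum_congr rfl fun j _ => ?_
    rw [Emb_apply, hρ, mul_assoc]
  · have e1 := LinearMap.finrank_range_add_finrank_ker (mv A X v)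
    rw [LinearMap.range_eq_top.2 (hs v hv0), finrank_top, Module.finrank_fin_fun,
      Module.finrank_fin_fun] at e1
    rw [hW.1, Wv, ← (Submodule.equivMapOfInjective _ (Emb_inj hφ hπ) _).finrank_eq]
    omega

end Pool.Agent.MP_8b9287_co.Geo

end

section

namespace Pool.Agent.MP_8b9287_co.Geo

open Matrix

theorem sG1b2 : SG1b2 := by
  intro k r m n A X π W ρ hm hρ hA hW
  obtain ⟨-, B, rfl, hQ⟩ := hW
  by_contra hn
  let Cm : (Fin k → Fin n → ℂ) → Matrix (Fin r × Fin k) (Fin m) ℂ :=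
    fun B => Matrix.of fun p j => A p.1 j * B p.2 (ρ j)
  have inj : LinearMap.ker (Matrix.toLin' (Cm B)) = ⊥ := by
    rw [LinearMap.ker_eq_bot']
    intro s hs
    by_contra h0
    refine hn ⟨s, h0, fun w hw i => ?_⟩
    obtain ⟨v, rfl⟩ := (mem_rowSp B w).1 hw
    have h1 : ∀ a, ∑ j, A i j * B a (ρ j) * s j = 0 := fun a => congrFun hs (i, a)
    calc ∑ j, A i j * (s j * vX B v (ρ j)) = ∑ a, v a * ∑ j, A i j * B a (ρ j) * s j := by
          simp only [vX, Finset.mul_sum]
          rw [Finset.sum_comm]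
          exact Finset.sum_congr rfl fun a _ => Finset.sum_congr rfl fun j _ => by ring
      _ = 0 := by simp [h1]
  obtain ⟨L, hL⟩ := LinearMap.exists_leftInverse_of_injective _ inj
  have hLm : LinearMap.toMatrix' L * Cm B = 1 := by
    have := congrArg LinearMap.toMatrix' hL
    rwa [LinearMap.toMatrix'_comp, LinearMap.toMatrix'_toLin', LinearMap.toMatrix'_id] at this
  have ev : ∀ B' : Fin k → Fin n → ℂ, MvPolynomial.eval (fun p : Fin k × Fin n => B' p.1 p.2)
      (Matrix.det (Matrix.of fun i j : Fin m => ∑ p : Fin r × Fin k,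
        MvPolynomial.C (LinearMap.toMatrix' L i p) *
          (MvPolynomial.C (A p.1 j) * MvPolynomial.X (p.2, ρ j)))) =
      (LinearMap.toMatrix' L * Cm B').det := by
    intro B'
    rw [RingHom.map_det]
    congr 1
    ext i j
    simp [Cm, Matrix.mul_apply]
  have key := hQ _ fun B' t ht hB => (ev B').trans (by
    rw [← Matrix.exists_mulVec_eq_zero_iff]
    refine ⟨fun j => (t (ρ j))⁻¹, fun h => inv_ne_zero (ht _) (congrFun h ⟨0, hm⟩), ?_⟩
    have : Cm B' *ᵥ (fun j => (t (ρ j))⁻¹) = 0 := by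
      ext ⟨i, a⟩
      have h1 : B' a ∈ rowSp B' := Submodule.subset_span ⟨a, rfl⟩
      rw [hB, mem_rowSp] at h1
      obtain ⟨y, hy⟩ := h1
      show ∑ j, A i j * B' a (ρ j) * (t (ρ j))⁻¹ = 0
      refine Eq.trans (Finset.sum_congr rfl fun j _ => ?_) ((hA _).2 (vX_mem X y) i)
      have h2 : B' a (ρ j) = vX X y j * t (ρ j) := by
        rw [← hy]
        simp only [vX, hρ, Finset.sum_mul, mul_assoc]
      rw [h2, mul_assoc, mul_assoc, mul_inv_cancel₀ (ht _), mul_one]
    rw [← Matrix.mulVec_mulVec, this, Matrix.mulVec_zero])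
  rw [ev, hLm, Matrix.det_one] at key
  exact one_ne_zero key

end Pool.Agent.MP_8b9287_co.Geo

end

section

namespace Pool.Agent.MP_8b9287_co.Geo

open Module

theorem ker_G1c {k r m : ℕ} {A : Fin r → Fin m → ℂ} {X : Fin k → Fin m → ℂ} (h : IsKer A X)
    (v : Fin k → ℂ) (w : Fin m → ℂ) :
    w ∈ LinearMap.ker (mv A X v) ↔ ∃ y, vX X y = fun j => vX X v j * w j := by
  rw [LinearMap.mem_ker, funext_iff, ← mem_rowSp, ← h]
  exact Iff.rfl

theorem scale_G1c {k m n : ℕ} (X : Fin k → Fin m → ℂ) (π : Fin n → Fin m) (t : Fin n → ℂ)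
    (y : Fin k → ℂ) (i : Fin n) : vX (fun a i => X a (π i) * t i) y i = vX X y (π i) * t i := by
  simp only [vX, Finset.sum_mul, mul_assoc]

theorem sum_G1c {k m : ℕ} (X : Fin k → Fin m → ℂ) (y : Fin k → ℂ) (j : Fin m) :
    (∑ a, y a • X a) j = vX X y j := by
  simp only [vX, Finset.sum_apply, Pi.smul_apply, smul_eq_mul]

theorem orb_G1c {k n : ℕ} (Y : Fin k → Fin n → ℂ) (t : Fin n → ℂ) (ht : ∀ i, t i ≠ 0)
    (li : LinearIndependent ℂ (fun a i => Y a i * t i)) :
    rowSp (fun a i => Y a i * t i) ∈ orbCl Y := by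
  unfold orbCl
  rw [Set.mem_ofPred_eq]
  refine ⟨?_, fun a i => Y a i * t i, rfl, fun Q hQ => hQ (fun a i => Y a i * t i) t ht rfl⟩
  rw [rowSp, finrank_span_eq_card li, Fintype.card_fin]

theorem sG1c : SG1c := by
  intro k r m n A X π φ v hπ hφ hK hX hv
  have ht : ∀ i, φ i / vX X v (π i) ≠ 0 := fun i => div_ne_zero (hφ i) (hv _)
  have e : rowSp (fun a i => X a (π i) * (φ i / vX X v (π i))) = Wv φ π A X v := by
    ext x
    rw [mem_rowSp, Wv, Submodule.mem_map]
    constructor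
    · rintro ⟨y, rfl⟩
      refine ⟨fun j => vX X y j / vX X v j, (ker_G1c hK v _).2 ⟨y, funext fun j => ?_⟩,
        funext fun i => ?_⟩
      · rw [mul_div_cancel₀ _ (hv j)]
      · rw [Emb_apply, scale_G1c X π (fun i => φ i / vX X v (π i))]
        ring
    · rintro ⟨w, hw, rfl⟩
      obtain ⟨y, hy⟩ := (ker_G1c hK v w).1 hw
      refine ⟨y, funext fun i => ?_⟩
      have := hv (π i)
      rw [Emb_apply, scale_G1c X π (fun i => φ i / vX X v (π i)), hy]
      field_simp
  have li : LinearIndependent ℂ (fun a i => X a (π i) * (φ i / vX X v (π i))) := by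
    rw [Fintype.linearIndependent_iff] at hX ⊢
    refine fun g hg => hX g (funext fun j => ?_)
    obtain ⟨i, rfl⟩ := hπ j
    have h1 := congrFun hg i
    rw [sum_G1c, scale_G1c X π (fun i => φ i / vX X v (π i))] at h1
    rw [sum_G1c]
    exact (mul_eq_zero.1 h1).resolve_right (ht i)
  rw [← e]
  exact orb_G1c (fun a i => X a (π i)) (fun i => φ i / vX X v (π i)) ht li

theorem sG1d (h2 : SGP2) (h3 : SGP3) : SG1d := by
  intro k r m n A X π φ v v' hk hπ hφ hK hG hv hv' hW
  rcases k with _ | c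
  · rw [Subsingleton.elim v v']
  have hker : LinearMap.ker (mv A X v) = LinearMap.ker (mv A X v') :=
    Submodule.map_injective_of_injective (Emb_inj hφ hπ) hW
  have key : ∀ y, ∃ y', vX X y' = fun j => vX X v' j * (vX X y j / vX X v j) := fun y =>
    (ker_G1c hK v' _).1 (hker ▸ (ker_G1c hK v _).2 ⟨y, funext fun j => by
      rw [mul_div_cancel₀ _ (hv j)]⟩)
  have rat : ∀ j j', vX X v' j / vX X v j = vX X v' j' / vX X v j' := by
    intro j j'
    have c1 := Finset.pred_card_le_card_erase (s := (Finset.univ : Finset (Fin m))) (a := j)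
    have c2 := Finset.pred_card_le_card_erase (s := Finset.univ.erase j) (a := j')
    rw [Finset.card_univ, Fintype.card_fin] at c1
    obtain ⟨Z, hZ, hc⟩ := Finset.exists_subset_card_eq
      (show c ≤ ((Finset.univ.erase j).erase j').card by omega)
    have n1 : j ∉ Z := fun h => (Finset.mem_erase.1 (Finset.mem_erase.1 (hZ h)).2).1 rfl
    have n2 : j' ∉ Z := fun h => (Finset.mem_erase.1 (hZ h)).1 rfl
    obtain ⟨u, i, -, hu, hall⟩ := h2 c _ X Z hG hc ⟨j, n1⟩
    obtain ⟨y, hy⟩ := key u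
    have e := hall y fun z hz => by
      rw [hy]
      show vX X v' z * (vX X u z / vX X v z) = 0
      rw [(hu z).2 hz, zero_div, mul_zero]
    have f : ∀ z, z ∉ Z → vX X v' z / vX X v z = y i := by
      intro z hz
      have u0 : vX X u z ≠ 0 := fun h => hz ((hu z).1 h)
      have e1 : vX X y z = y i * vX X u z := by
        conv_lhs => rw [e]
        simp only [vX, Pi.smul_apply, smul_eq_mul, Finset.mul_sum, mul_assoc]
      rw [hy] at e1
      refine mul_right_cancel₀ u0 (Eq.trans ?_ e1)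
      ring
    rw [f j n1, f j' n2]
  have li := Fintype.linearIndependent_iff.1 (h3 _ _ X hG hk.le).1
  obtain ⟨μ, h0, hμ⟩ : ∃ μ : ℂ, μ ≠ 0 ∧ ∀ j, vX X v' j = μ * vX X v j :=
    ⟨vX X v' ⟨0, by omega⟩ / vX X v ⟨0, by omega⟩, div_ne_zero (hv' _) (hv _), fun j => by
      rw [← rat j, div_mul_cancel₀ _ (hv j)]⟩
  have e : v' = μ • v := by
    funext a
    refine sub_eq_zero.1 (li (fun a => v' a - μ * v a) (funext fun j => ?_) a)
    have := hμ j
    rw [sum_G1c]
    simp only [vX, Finset.mul_sum] at this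
    simp only [vX, sub_mul, Finset.sum_sub_distrib, mul_assoc, this, sub_self, Pi.zero_apply]
  rw [e, Submodule.span_singleton_smul_eq h0.isUnit]

end Pool.Agent.MP_8b9287_co.Geo

end

section

namespace Pool.Agent.MP_8b9287_co.Geo

open Module

/-- The subspace is stable under the entrywise derivation. -/
def Stab_E0 {n : ℕ} (δ : Derivation ℤ ℂ ℂ) (U : Submodule ℂ (Fin n → ℂ)) : Prop :=
  ∀ u ∈ U, (fun j => δ (u j)) ∈ U

theorem span_E0 {n : ℕ} (δ : Derivation ℤ ℂ ℂ) (g : Fin n → Fin n → ℂ) (I : Set (Fin n))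
    (h : ∀ i ∈ I, ∀ j, δ (g i j) = 0) : Stab_E0 δ (Submodule.span ℂ (g '' I)) := by
  intro u hu
  induction hu using Submodule.span_induction with
  | mem x hx =>
    obtain ⟨i, hi, rfl⟩ := hx
    have : (fun j => δ (g i j)) = 0 := funext (h i hi)
    rw [this]
    exact Submodule.zero_mem _
  | zero =>
    have : (fun j : Fin n => δ ((0 : Fin n → ℂ) j)) = 0 := by ext j; simp
    rw [this]
    exact Submodule.zero_mem _
  | add x y _ _ hx hy =>
    have : (fun j => δ ((x + y) j)) = (fun j => δ (x j)) + fun j => δ (y j) := by ext j; simp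
    rw [this]
    exact Submodule.add_mem _ hx hy
  | smul a x hx hx' =>
    have : (fun j => δ ((a • x) j)) = a • (fun j => δ (x j)) + δ a • x := by
      ext j
      simp [mul_comm]
    rw [this]
    exact Submodule.add_mem _ (Submodule.smul_mem _ _ hx') (Submodule.smul_mem _ _ hx)

theorem range_E0 {n m : ℕ} (δ : Derivation ℤ ℂ ℂ) (φ : Fin n → ℂ) (π : Fin n → Fin m)
    (h : ∀ j, δ (φ j) = 0) : Stab_E0 δ (LinearMap.range (Emb φ π)) := by
  rintro _ ⟨w, rfl⟩
  refine ⟨fun j => δ (w j), ?_⟩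
  ext i
  simp [Emb_apply, h]

theorem sup_E0 {n : ℕ} {δ : Derivation ℤ ℂ ℂ} {U V : Submodule ℂ (Fin n → ℂ)}
    (hU : Stab_E0 δ U) (hV : Stab_E0 δ V) : Stab_E0 δ (U ⊔ V) := by
  intro u hu
  obtain ⟨x, hx, y, hy, rfl⟩ := Submodule.mem_sup.1 hu
  have : (fun j => δ ((x + y) j)) = (fun j => δ (x j)) + fun j => δ (y j) := by ext j; simp
  rw [this]
  exact Submodule.add_mem_sup (hU x hx) (hV y hy)

theorem top_E0 {n : ℕ} {S : Set ℂ} {g : Fin n → Fin n → ℂ} (hF : Free S g) (i₀ : Fin n)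
    (U : Submodule ℂ (Fin n → ℂ))
    (hU : ∀ δ : Derivation ℤ ℂ ℂ, (∀ i, i ≠ i₀ → ∀ j, δ (g i j) = 0) → Stab_E0 δ U)
    (h : g i₀ ∈ U) : finrank ℂ U = n := by
  have : U = ⊤ := by
    refine Submodule.eq_top_iff'.2 fun x => ?_
    obtain ⟨δ, -, h1⟩ := hF fun i j => if i = i₀ then x j else 0
    have h2 := hU δ (fun i hi j => by rw [h1, if_neg hi]) _ h
    have h3 : (fun j => δ (g i₀ j)) = x := by ext j; rw [h1, if_pos rfl]
    rwa [h3] at h2
  rw [this, finrank_top, finrank_fin_fun]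

theorem le_E0 {n : ℕ} (g : Fin n → Fin n → ℂ) (I : Finset (Fin n)) :
    finrank ℂ (Submodule.span ℂ (g '' (I : Set (Fin n)))) ≤ I.card := by
  classical
  rw [← Finset.coe_image]
  exact (finrank_span_finset_le_card _).trans Finset.card_image_le

theorem sFreeLI : SFreeLI := by
  intro n S g hF
  refine ⟨linearIndependent_iff_notMem_span.2 fun i hi => ?_, fun i j h => ?_⟩
  · have e : (Set.univ \ {i} : Set (Fin n)) = (Finset.univ.erase i : Finset (Fin n)) := by
      ext k
      simp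
    rw [e] at hi
    have h1 := top_E0 hF i _ (fun δ hδ => span_E0 δ g _ fun k hk =>
      hδ k (Finset.mem_erase.1 (Finset.mem_coe.1 hk)).1) hi
    have h2 := le_E0 g (Finset.univ.erase i)
    rw [Finset.card_erase_of_mem (Finset.mem_univ _), Finset.card_univ, Fintype.card_fin] at h2
    have := i.2
    omega
  · obtain ⟨δ, -, h1⟩ := hF fun _ _ => 1
    have := h1 i j
    rw [h, map_zero] at this
    exact zero_ne_one this

theorem sE0 (h : SFreeLI) : SE0 := by
  intro n N p S g π z hn hp hz hπ hF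
  obtain ⟨hL, h0⟩ := h n S g hF
  set I : Finset (Fin n) := Finset.univ.filter fun i => 1 ≤ (i : ℕ) ∧ (i : ℕ) < p with hI
  have e : mid g p = Submodule.span ℂ (g '' (I : Set (Fin n))) := by
    unfold mid
    congr 2
    ext i
    simp [hI]
  have hc : I.card = p - 1 := by
    have : I.map Fin.valEmbedding = Finset.Ico 1 p := by
      ext k
      simp only [hI, Finset.mem_map, Finset.mem_filter, Finset.mem_univ, true_and,
        Fin.valEmbedding_apply, Finset.mem_Ico]
      constructor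
      · rintro ⟨i, hi, rfl⟩
        exact hi
      · intro hk
        exact ⟨⟨k, by omega⟩, hk, rfl⟩
    rw [← Finset.card_map Fin.valEmbedding, this, Nat.card_Ico]
  have hr : finrank ℂ (LinearMap.range (Emb (g z) π)) = N + 1 := by
    rw [LinearMap.finrank_range_of_inj (Emb_inj (h0 z) hπ), finrank_fin_fun]
  have hm : finrank ℂ (mid g p) = p - 1 := by
    rw [e, Set.image_eq_range, ← hc]
    exact (finrank_span_eq_card (hL.comp (Subtype.val : I → Fin n) Subtype.val_injective)).trans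
      (Fintype.card_coe I)
  have hd : Disjoint (LinearMap.range (Emb (g z) π)) (mid g p) := by
    refine Submodule.disjoint_def.2 fun x hx hx' => ?_
    rw [e] at hx'
    obtain ⟨c, hc'⟩ := (Submodule.mem_span_image_finset_iff_exists_fun' ℂ).1 hx'
    by_contra hne
    obtain ⟨i₀, hi₀, h1⟩ : ∃ i ∈ I, c i ≠ 0 := by
      by_contra h2
      push Not at h2
      exact hne (by rw [← hc']; exact Finset.sum_eq_zero fun i hi => by rw [h2 i hi, zero_smul])
    have hz' : z ≠ i₀ := by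
      rintro rfl
      have := (Finset.mem_filter.1 hi₀).2.1
      omega
    have h2 : g i₀ ∈ LinearMap.range (Emb (g z) π) ⊔
        Submodule.span ℂ (g '' ((I.erase i₀ : Finset (Fin n)) : Set (Fin n))) := by
      rw [← Finset.add_sum_erase _ _ hi₀] at hc'
      have h3 : c i₀ • g i₀ = x - ∑ i ∈ I.erase i₀, c i • g i := eq_sub_of_add_eq hc'
      rw [← Submodule.smul_mem_iff _ h1, h3]
      exact Submodule.sub_mem _ (Submodule.mem_sup_left hx) (Submodule.mem_sup_right
        (Submodule.sum_mem _ fun i hi => Submodule.smul_mem _ _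
          (Submodule.subset_span ⟨i, Finset.mem_coe.2 hi, rfl⟩)))
    have h3 := top_E0 hF i₀ _ (fun δ hδ => sup_E0 (range_E0 δ _ π (hδ z hz'))
      (span_E0 δ g _ fun k hk => hδ k (Finset.mem_erase.1 (Finset.mem_coe.1 hk)).1)) h2
    have h4 := Submodule.finrank_add_le_finrank_add_finrank (LinearMap.range (Emb (g z) π))
      (Submodule.span ℂ (g '' ((I.erase i₀ : Finset (Fin n)) : Set (Fin n))))
    have h5 := le_E0 g (I.erase i₀)
    have h6 := Finset.card_pos.2 ⟨i₀, hi₀⟩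
    rw [Finset.card_erase_of_mem hi₀] at h5
    omega
  refine ⟨hd, codisjoint_iff.2 (Submodule.eq_top_of_finrank_eq ?_)⟩
  have h1 := Submodule.finrank_sup_add_finrank_inf_eq (LinearMap.range (Emb (g z) π)) (mid g p)
  rw [hd.eq_bot, finrank_bot, hr, hm] at h1
  rw [finrank_fin_fun]
  omega

end Pool.Agent.MP_8b9287_co.Geo

end

section

/-! The flag induced on the embedded space. -/

namespace Pool.Agent.MP_8b9287_co.Geo

theorem one_E1 {n m : ℕ} (φ : Fin n → ℂ) (π : Fin n → Fin m) : Emb φ π 1 = φ := by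
  ext i
  rw [Emb_apply, Pi.one_apply, mul_one]

theorem sE1a : SE1a := by
  intro n N p g π z G hn hp hz hE hd hG j hj
  apply le_antisymm
  · have key : flg g j ≤ (FS G (j - p)).map (Emb (g z) π) ⊔ mid g p := by
      refine Submodule.span_le.2 ?_
      rintro _ ⟨i, hi, rfl⟩
      have hi' : (i : ℕ) < j := hi
      by_cases h0 : (i : ℕ) = 0
      · obtain rfl : i = z := Fin.ext (h0.trans hz.symm)
        exact Submodule.mem_sup_left
          ⟨1, Submodule.subset_span (Set.mem_insert _ _), one_E1 _ _⟩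
      by_cases h1 : (i : ℕ) < p
      · exact Submodule.mem_sup_right (Submodule.subset_span ⟨i, ⟨by omega, h1⟩, rfl⟩)
      · have hq : (i : ℕ) - p < N := by have := i.2; omega
        have a := hG ⟨i - p, hq⟩ i (by simp only; omega)
        have b : G ⟨i - p, hq⟩ ∈ FS G (j - p) := Submodule.subset_span
          (Set.mem_insert_of_mem _ ⟨_, show (i : ℕ) - p < j - p by omega, rfl⟩)
        have := Submodule.add_mem_sup (Submodule.mem_map_of_mem (f := Emb (g z) π) b) a
        rwa [add_sub_cancel] at this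
    intro w hw
    obtain ⟨_, ⟨w', h1, rfl⟩, u, h2, e⟩ := Submodule.mem_sup.1 (key hw)
    have e' : Emb (g z) π (w - w') = u := by rw [map_sub, ← e, add_sub_cancel_left]
    have h0 := Submodule.disjoint_def.1 hd u ⟨_, e'⟩ h2
    rw [h0, add_zero] at e
    exact hE e ▸ h1
  · refine Submodule.span_le.2 ?_
    rintro _ (rfl | ⟨q, hq, rfl⟩)
    · show Emb (g z) π 1 ∈ flg g j
      rw [one_E1]
      exact Submodule.subset_span ⟨z, show (z : ℕ) < j by omega, rfl⟩
    · have hq' : (q : ℕ) < j - p := hq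
      have hi : p + q < n := by have := q.2; omega
      have a := hG q ⟨p + q, hi⟩ rfl
      have b : mid g p ≤ flg g j :=
        Submodule.span_mono (Set.image_mono fun i k => show (i : ℕ) < j by have := k.2; omega)
      have c : g ⟨p + q, hi⟩ ∈ flg g j :=
        Submodule.subset_span ⟨_, show p + q < j by omega, rfl⟩
      have := Submodule.sub_mem _ c (b a)
      rwa [sub_sub_cancel] at this

theorem der_E1 {n p : ℕ} {g : Fin n → Fin n → ℂ} {δ : Derivation ℤ ℂ ℂ}
    (h : ∀ i : Fin n, (i : ℕ) < p → ∀ j, δ (g i j) = 0) {u : Fin n → ℂ} (hu : u ∈ mid g p) :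
    (fun j => δ (u j)) ∈ mid g p := by
  induction hu using Submodule.span_induction with
  | mem x hx =>
    obtain ⟨i, hi, rfl⟩ := hx
    rw [funext (h i hi.2)]
    exact Submodule.zero_mem _
  | zero =>
    simp only [Pi.zero_apply, map_zero]
    exact Submodule.zero_mem _
  | add x y _ _ a b =>
    simp only [Pi.add_apply, map_add]
    exact Submodule.add_mem _ a b
  | smul c x a b =>
    have e : (fun j => δ ((c • x) j)) = c • (fun j => δ (x j)) + δ c • x := by
      ext j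
      simp [mul_comm]
    rw [e]
    exact Submodule.add_mem _ (Submodule.smul_mem _ _ b) (Submodule.smul_mem _ _ a)

theorem sE1b : SE1b := by
  intro n N p S g π z G hn hp hz hE hd hG hF Δ
  obtain ⟨δ, h1, h2⟩ := hF fun i => if h : p ≤ (i : ℕ) then
    Emb (g z) π (Δ ⟨i - p, by have := i.2; omega⟩) else 0
  have h3 : ∀ i : Fin n, (i : ℕ) < p → ∀ j, δ (g i j) = 0 := fun i hi j => by
    rw [h2, dif_neg (not_le.2 hi), Pi.zero_apply]
  refine ⟨δ, h1, fun q => congrFun ?_⟩
  have hi : p + q < n := by have := q.2; omega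
  have a := der_E1 h3 (hG q ⟨p + q, hi⟩ rfl)
  have e : Emb (g z) π (Δ q - fun j => δ (G q j)) =
      fun j => δ ((g ⟨p + q, hi⟩ - Emb (g z) π (G q)) j) := by
    ext j
    rw [Pi.sub_apply, map_sub δ, h2, dif_pos (Nat.le_add_right _ _)]
    simp [Emb_apply, h3 z (by omega) j, mul_sub]
  have h0 := Submodule.disjoint_def.1 hd _ ⟨_, e⟩ a
  rw [h0] at e
  exact (sub_eq_zero.1 (hE (e.trans (map_zero _).symm))).symm

end Pool.Agent.MP_8b9287_co.Geo

end

section

namespace Pool.Agent.MP_8b9287_co.Geo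

open Module

theorem FS_eq_E2 {N m q : ℕ} (G : Fin N → Fin m → ℂ) (h : q ≤ N) :
    FS G q = Submodule.span ℂ (Set.range
      ((Fin.cons 1 G : Fin (N + 1) → Fin m → ℂ) ∘ Fin.castLE (Nat.succ_le_succ h))) := by
  unfold FS
  congr 1
  ext w
  constructor
  · rintro (rfl | ⟨i, hi, rfl⟩)
    · exact ⟨0, rfl⟩
    · exact ⟨⟨i + 1, Nat.succ_lt_succ hi⟩, rfl⟩
  · rintro ⟨⟨_ | i, hi⟩, rfl⟩
    · exact Or.inl rfl
    · exact Or.inr ⟨⟨i, by omega⟩, Nat.lt_of_succ_lt_succ hi, rfl⟩

theorem rank_E2 {V W : Type} [AddCommGroup V] [Module ℂ V] [FiniteDimensional ℂ V]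
    [AddCommGroup W] [Module ℂ W] (f : V →ₗ[ℂ] W) (S : Submodule ℂ V) :
    finrank ℂ ↥(LinearMap.ker f ⊓ S) + finrank ℂ (S.map f) = finrank ℂ S := by
  have h := LinearMap.finrank_range_add_finrank_ker (f.domRestrict S)
  rw [LinearMap.range_domRestrict, LinearMap.ker_domRestrict,
    ← Submodule.finrank_map_subtype_eq S, Submodule.map_comap_subtype, inf_comm] at h
  omega

theorem sE2 : SE2 := by
  intro n N r q E f G F M hq hE h1 hT hF hM
  have hli : LinearIndependent ℂ (Fin.cons 1 G : Fin (N + 1) → Fin (N + 1) → ℂ) := by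
    refine linearIndependent_of_top_le_span_of_card_eq_finrank ?_ (by simp)
    rw [← hT, FS_eq_E2 G le_rfl]
    exact Submodule.span_mono (Set.range_comp_subset_range _ _)
  have hr : finrank ℂ (FS G q) = q + 1 := by
    rw [FS_eq_E2 G hq, finrank_span_eq_card (hli.comp _ (Fin.castLE_injective _)), Fintype.card_fin]
  have hm : (FS G q).map f = colSp M q := by
    unfold FS colSp
    rw [Submodule.map_span, Set.image_insert_eq, h1, Submodule.span_insert_zero, Set.image_image]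
    congr 2
    funext j i
    exact (hM i j).symm
  rw [Submodule.map_inf_eq_map_inf_comap, hF,
    ← (Submodule.equivMapOfInjective E hE _).finrank_eq, ← hm, rank_E2, hr]

end Pool.Agent.MP_8b9287_co.Geo

end

section

namespace Pool.Agent.MP_8b9287_co.Geo

open Module

theorem mono_E3 {r N : ℕ} (M : Mat r N) {q q' : ℕ} (h : q ≤ q') :
    finrank ℂ (colSp M q) ≤ finrank ℂ (colSp M q') :=
  Submodule.finrank_mono (Submodule.span_mono (Set.image_mono fun _ hj => lt_of_lt_of_le hj h))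

theorem zero_E3 {r N : ℕ} (M : Mat r N) : finrank ℂ (colSp M 0) = 0 := by
  have : colSp M 0 = ⊥ := by simp [colSp]
  rw [this, finrank_bot]

theorem top_E3 {r N : ℕ} (M : Mat r N) (q : ℕ) : finrank ℂ (colSp M q) ≤ r :=
  (Submodule.finrank_le _).trans_eq (by simp)

theorem succ_E3 {r N : ℕ} (M : Mat r N) (q : ℕ) :
    finrank ℂ (colSp M (q + 1)) ≤ finrank ℂ (colSp M q) + 1 := by
  classical
  obtain ⟨v, hv⟩ : ∃ v : Fin r → ℂ, ∀ j : Fin N, (j : ℕ) = q → (fun i => M i j) = v := by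
    by_cases h : q < N
    · exact ⟨fun i => M i ⟨q, h⟩, fun j hj => by subst hj; rfl⟩
    · exact ⟨0, fun j hj => absurd (hj ▸ j.2) h⟩
  have h1 : colSp M (q + 1) ≤ colSp M q ⊔ Submodule.span ℂ {v} := by
    refine Submodule.span_le.2 ?_
    rintro _ ⟨j, hj, rfl⟩
    rcases Nat.lt_succ_iff_lt_or_eq.1 hj with h | h
    · exact Submodule.mem_sup_left (Submodule.subset_span ⟨j, h, rfl⟩)
    · exact Submodule.mem_sup_right (Submodule.subset_span (hv j h))
  refine (Submodule.finrank_mono h1).trans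
    ((Submodule.finrank_add_le_finrank_add_finrank _ _).trans (Nat.add_le_add_left ?_ _))
  exact (finrank_span_le_card ({v} : Set (Fin r → ℂ))).trans (by simp)

theorem add_E3 {r N : ℕ} (M : Mat r N) (q x : ℕ) :
    finrank ℂ (colSp M (q + x)) ≤ finrank ℂ (colSp M q) + x := by
  induction x with
  | zero => exact le_rfl
  | succ x ih => exact (succ_E3 M (q + x)).trans (Nat.add_le_add_right ih 1)

theorem comb_E3 {c r : ℕ} (d : ℕ → ℕ) (hm : ∀ q q', q ≤ q' → d q ≤ d q') (h0 : d 0 = 0)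
    (ha : ∀ q x, d (q + x) ≤ d q + x) (hr : ∀ q, d q ≤ r) (lam : Fin c → ℕ) (hl : Antitone lam)
    (hlr : ∀ a, lam a ≤ r) :
    (∀ a : Fin c, d (r + a + 1 - lam a) ≤ r - lam a) ↔
      ∀ s : Fin r, d (s + (Finset.univ.filter fun a : Fin c => r ≤ (s : ℕ) + lam a).card) ≤ s := by
  constructor
  · intro h s
    rcases (Finset.univ.filter fun a : Fin c => r ≤ (s : ℕ) + lam a).eq_empty_or_nonempty with
      h1 | h1
    · have := ha 0 s
      rw [h1, Finset.card_empty, add_zero]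
      rwa [h0, zero_add] at this
    · obtain ⟨a, h2, h3⟩ := Finset.exists_max_image _ id h1
      have h4 : (Finset.univ.filter fun a : Fin c => r ≤ (s : ℕ) + lam a).card ≤ a + 1 := by
        rw [← Fin.card_Iic]
        exact Finset.card_le_card fun b hb => Finset.mem_Iic.2 (h3 b hb)
      have h5 := (Finset.mem_filter.1 h2).2
      have h6 := h a
      have h7 := hlr a
      have h8 := ha (r + a + 1 - lam a) (s - (r - lam a))
      refine (hm _ (r + a + 1 - lam a + (s - (r - lam a))) (by omega)).trans (by omega)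
  · intro h a
    rcases Nat.eq_zero_or_pos (lam a) with h1 | h1
    · rw [h1]
      exact hr _
    · have h7 := hlr a
      have h2 := h ⟨r - lam a, by omega⟩
      have h4 : (a : ℕ) + 1 ≤
          (Finset.univ.filter fun b : Fin c => r ≤ r - lam a + lam b).card := by
        rw [← Fin.card_Iic]
        refine Finset.card_le_card fun b hb => Finset.mem_filter.2 ⟨Finset.mem_univ _, ?_⟩
        have := hl (Finset.mem_Iic.1 hb)
        omega
      exact (hm _ _ (by simp only; omega)).trans h2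

theorem sE3 (hR : SRk) : SE3 := by
  intro n c r p η g W M hn hp hr hη h0 hW hj
  have hle : ∀ a : Fin c, η a.succ ≤ r + p - 1 := fun a => by
    have := hη (Fin.zero_le a.succ)
    omega
  have key : W ∈ schub η g ↔ ∀ a : Fin c,
      finrank ℂ (colSp M (r + p + a + 1 - η a.succ - p)) + a + 1 ≤
        r + p + a + 1 - η a.succ - p := by
    simp only [schub, Set.mem_ofPred_eq, hW, true_and]
    rw [Fin.forall_fin_succ, and_iff_right]
    · refine forall_congr' fun a => ?_
      have h1 := hle a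
      have h2 := a.2
      have e : n - (c + 1) + (((a.succ : Fin (c + 1)) : ℕ) + 1) - η a.succ =
          r + p + a + 1 - η a.succ := by
        rw [Fin.val_succ]
        omega
      have h3 := hj (r + p + a + 1 - η a.succ) (by omega) (by omega)
      rw [e, Fin.val_succ]
      omega
    · have e : n - (c + 1) + (((0 : Fin (c + 1)) : ℕ) + 1) - η 0 = 1 := by
        rw [Fin.val_zero]
        omega
      have h3 := hj 1 le_rfl (by omega)
      rw [Nat.sub_eq_zero_of_le hp, zero_E3] at h3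
      rw [e, Fin.val_zero]
      omega
  refine ⟨fun js hl hJ => ?_, fun ⟨a, ha⟩ h => ?_⟩
  · have h1 : Om js M ↔ ∀ s : Fin r, finrank ℂ (colSp M
        (s + (Finset.univ.filter fun a : Fin c => r ≤ (s : ℕ) + η a.succ).card)) ≤ s :=
      forall_congr' fun s => (hR r (r + c) M (js s) s).trans (by rw [hJ s])
    rw [key, h1, ← comb_E3 (fun q => finrank ℂ (colSp M q)) (fun _ _ => mono_E3 M) (zero_E3 M) (add_E3 M)
      (top_E3 M) (fun a : Fin c => η a.succ) (fun _ _ h => hη (Fin.succ_le_succ_iff.2 h)) hl]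
    refine forall_congr' fun a => ?_
    have h2 := hl a
    rw [show r + p + a + 1 - η a.succ - p = r + a + 1 - η a.succ by omega]
    omega
  · have := key.1 h a
    omega

end Pool.Agent.MP_8b9287_co.Geo

end
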