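import Pool.Agent.MP_8b9287_co.Geo.St2

section

/-! The matroid of the columns of a matrix. -/

namespace Pool.Agent.MP_8b9287_co.Geo

theorem ncard_le_VM {n : ℕ} {V : Type} [AddCommGroup V] [Module ℂ V] (c : Fin n → V)
    {I J : Set (Fin n)} (hJ : LinearIndepOn ℂ c J)
    (h : ∀ e ∈ J, c e ∈ Submodule.span ℂ (c '' I)) : J.ncard ≤ I.ncard := by
  classical
  let : Fintype J := J.toFinite.fintype
  let : Fintype (c '' I) := (I.toFinite.image c).fintype
  have h1 := linearIndependent_le_span_aux' (R := ℂ) (fun j : J => c j) hJ (c '' I)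
    (by rintro _ ⟨j, rfl⟩; exact h j j.2)
  have h2 : (c '' I).ncard ≤ I.ncard := Set.ncard_image_le I.toFinite
  rw [← Nat.card_eq_fintype_card, ← Nat.card_eq_fintype_card, Nat.card_coe_set_eq,
    Nat.card_coe_set_eq] at h1
  exact h1.trans h2

noncomputable def vm_VM {n : ℕ} {V : Type} [AddCommGroup V] [Module ℂ V] (c : Fin n → V) :
    Matroid (Fin n) :=
  (IndepMatroid.ofFinite (E := Set.univ) Set.finite_univ (fun I => LinearIndepOn ℂ c I)
    (linearIndepOn_empty ℂ c) (fun _ _ hJ hIJ => hJ.mono hIJ)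
    (by
      intro I J hI hJ hlt
      by_contra hcon
      push Not at hcon
      refine absurd (ncard_le_VM c (I := I) hJ fun e he => ?_) (not_le.2 hlt)
      by_cases heI : e ∈ I
      · exact Submodule.subset_span ⟨e, heI, rfl⟩
      · by_contra hs
        exact hcon e he heI (hI.insert hs))
    (fun _ _ => Set.subset_univ _)).matroid

theorem sVM : SVM := by
  intro k n X ⟨B₀, hB₀, hI₀⟩
  set c : Fin n → Fin k → ℂ := fun j i => X i j with hc
  have hind : ∀ I, (vm_VM c).Indep I ↔ LinearIndepOn ℂ c I := fun I => Iff.rfl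
  have hle : ∀ I : Set (Fin n), LinearIndepOn ℂ c I → I.ncard ≤ k := by
    intro I hI
    let : Fintype I := I.toFinite.fintype
    have := LinearIndependent.fintype_card_le_finrank (R := ℂ) (b := fun j : I => c j) hI
    rw [← Nat.card_eq_fintype_card, Nat.card_coe_set_eq] at this
    simpa using this
  have hbase : ∀ B : Finset (Fin n), B.card = k → LinearIndepOn ℂ c (B : Set (Fin n)) →
      (vm_VM c).IsBase (B : Set (Fin n)) := by
    intro B hB hI
    refine ((hind _).2 hI).isBase_of_maximal fun J hJ hBJ => ?_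
    refine Set.eq_of_subset_of_ncard_le hBJ ?_ J.toFinite
    rw [Set.ncard_coe_finset, hB]
    exact hle J ((hind _).1 hJ)
  have h₀ := hbase B₀ hB₀ hI₀
  refine ⟨vm_VM c, ⟨rfl, ?_⟩, hind, fun B => ⟨fun hB => ⟨?_, (hind _).1 hB.indep⟩,
    fun h => hbase B h.1 h.2⟩⟩
  · rw [← h₀.encard_eq_eRank, Set.encard_coe_eq_coe_finsetCard, hB₀]
  · have := hB.ncard_eq_ncard_of_isBase h₀
    rwa [Set.ncard_coe_finset, Set.ncard_coe_finset, hB₀] at this

end Pool.Agent.MP_8b9287_co.Geo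

end

section

namespace Pool.Agent.MP_8b9287_co.Geo

theorem sMatLam (hV : SVM) (h3 : SGP3) : SMatLam := by
  classical
  intro n k N H hH hk hN
  let e := Finset.equivFinOfCardEq hH
  obtain ⟨π, hπ⟩ : ∃ π : Fin n → Fin (N + 1),
      π = fun i => if h : i ∈ H then (e ⟨i, h⟩).castSucc else Fin.last N := ⟨_, rfl⟩
  have p1 : ∀ i (h : i ∈ H), π i = (e ⟨i, h⟩).castSucc := fun i h => by rw [hπ]; exact dif_pos h
  have p2 : ∀ i, i ∉ H → π i = Fin.last N := fun i h => by rw [hπ]; exact dif_neg h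
  have hinj : ∀ B : Finset (Fin n), Set.InjOn π (B : Set (Fin n)) ↔ (B \ H).card ≤ 1 := by
    intro B
    rw [Finset.card_le_one]
    constructor
    · intro h a ha b hb
      rw [Finset.mem_sdiff] at ha hb
      exact h ha.1 hb.1 ((p2 a ha.2).trans (p2 b hb.2).symm)
    · intro h a ha b hb hab
      by_cases c : a ∈ H <;> by_cases d : b ∈ H
      · rw [p1 a c, p1 b d] at hab
        exact congrArg Subtype.val (e.injective (Fin.castSucc_injective _ hab))
      · rw [p1 a c, p2 b d] at hab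
        exact absurd hab (Fin.castSucc_ne_last _)
      · rw [p2 a c, p1 b d] at hab
        exact absurd hab.symm (Fin.castSucc_ne_last _)
      · exact h a (Finset.mem_sdiff.2 ⟨ha, c⟩) b (Finset.mem_sdiff.2 ⟨hb, d⟩)
  refine ⟨π, fun j => ?_, fun X hX => ?_⟩
  · induction j using Fin.lastCases with
    | last =>
      obtain ⟨i, hi⟩ : ∃ i, i ∉ H := by
        by_contra c
        push Not at c
        rw [Finset.eq_univ_of_forall c, Finset.card_univ, Fintype.card_fin] at hH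
        omega
      exact ⟨i, p2 i hi⟩
    | cast j => exact ⟨(e.symm j).1, by rw [p1 _ (e.symm j).2]; simp⟩
  · have key : ∀ B : Finset (Fin n), B.card = k →
        (LinearIndepOn ℂ (fun (j : Fin n) (i : Fin k) => X i (π j)) (B : Set (Fin n)) ↔
          (B \ H).card ≤ 1) := by
      intro B hB
      rw [← hinj]
      constructor
      · intro h a ha b hb hab
        exact h.injOn ha hb (by simp only [hab])
      · intro h
        have := (h3 k (N + 1) X hX (by omega)).2 (B.image π) (Finset.card_image_le.trans hB.le)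
        rw [Finset.coe_image] at this
        exact this.comp_of_image h
    obtain ⟨B, hB1, hB2⟩ := Finset.exists_subset_card_eq (s := H) (n := k) (by omega)
    obtain ⟨M, h1, h2, h4⟩ := hV k n (fun a i => X a (π i)) ⟨B, hB2, (key B hB2).2 (by
      rw [Finset.sdiff_eq_empty_iff_subset.2 hB1]; simp)⟩
    exact ⟨M, h1, h2, fun B => (h4 B).trans (and_congr_right (key B))⟩

end Pool.Agent.MP_8b9287_co.Geo

end

section

namespace Pool.Agent.MP_8b9287_co.Geo

open Finset

theorem key_MatPi {n c : ℕ} (H : Finset (Fin n)) (Y : Fin c → Fin n → ℂ)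
    (hY : ∀ I : Finset (Fin n), I.card ≤ c →
      LinearIndepOn ℂ (fun (j : Fin n) (a : Fin c) => Y a j) (I : Set (Fin n)))
    (v : Fin n → Fin (c + 1) → ℂ) (h0 : ∀ j, v j 0 = if j ∈ H then 0 else 1)
    (hs : ∀ j a, v j (Fin.succ a) = if j ∈ H then Y a j else 0) (B : Finset (Fin n))
    (hB : B.card = c + 1) : LinearIndepOn ℂ v (B : Set (Fin n)) ↔ (B \ H).card = 1 := by
  constructor
  · intro h
    refine le_antisymm (card_le_one.2 fun x hx y hy => ?_) (Nat.pos_of_ne_zero fun e => ?_)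
    · rw [mem_sdiff] at hx hy
      refine h.injOn hx.1 hy.1 (funext fun a => ?_)
      refine Fin.cases ?_ (fun a => ?_) a
      · rw [h0, h0, if_neg hx.2, if_neg hy.2]
      · rw [hs, hs, if_neg hx.2, if_neg hy.2]
    · rw [card_eq_zero, sdiff_eq_empty_iff_subset] at e
      have h1 : LinearIndepOn ℂ (fun (j : Fin n) (a : Fin c) => Y a j) (B : Set (Fin n)) := by
        rw [linearIndepOn_finset_iff] at h ⊢
        refine fun f hf => h f (funext fun a => ?_)
        rw [Finset.sum_apply]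
        refine Fin.cases (sum_eq_zero fun j hj => ?_) (fun a => ?_) a
        · rw [Pi.smul_apply, h0, if_pos (e hj), smul_zero]
        · refine Eq.trans ?_ (congrFun hf a)
          rw [Finset.sum_apply]
          exact sum_congr rfl fun j hj => by rw [Pi.smul_apply, hs, if_pos (e hj)]; rfl
      have h2 := LinearIndependent.fintype_card_le_finrank h1
      simp only [coe_sort_coe, Fintype.card_coe, Module.finrank_fintype_fun_eq_card,
        Fintype.card_fin] at h2
      omega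
  · intro h
    have h1 := card_sdiff_add_card_inter B H
    obtain ⟨x, hx⟩ := card_eq_one.1 h
    rw [linearIndepOn_finset_iff]
    intro f hf i hi
    by_cases hH : i ∈ H
    · refine linearIndepOn_finset_iff.1 (hY (B ∩ H) (by omega)) f (funext fun a => ?_) i
        (mem_inter.2 ⟨hi, hH⟩)
      refine Eq.trans ?_ (congrFun hf a.succ)
      simp only [Finset.sum_apply, Pi.smul_apply, hs, smul_eq_mul, mul_ite, mul_zero, sum_ite_mem]
    · have h2 := congrFun hf 0
      simp only [Finset.sum_apply, Pi.smul_apply, h0, smul_eq_mul, mul_ite, mul_zero, mul_one,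
        Pi.zero_apply] at h2
      rw [sum_ite, sum_const_zero, zero_add, ← sdiff_eq_filter, hx, sum_singleton] at h2
      have h3 := mem_sdiff.2 ⟨hi, hH⟩
      rw [hx, mem_singleton] at h3
      rwa [h3]

theorem sMatPi (hV : SVM) (h1 : SGP1) (h3 : SGP3) : SMatPi := by
  intro n c H hc hn
  obtain ⟨Y, hY, -⟩ := h1 c (Fin n)
  have key := key_MatPi H Y (h3 c n Y hY (by omega)).2
    (fun j => Fin.cons (if j ∈ H then 0 else 1) fun a => if j ∈ H then Y a j else 0)
    (fun _ => rfl) fun _ _ => rfl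
  obtain ⟨B, hB, hB'⟩ := exists_subset_card_eq hc
  obtain ⟨x, -, hx⟩ := exists_mem_notMem_of_card_lt_card (s := H) (t := univ) (by simpa using hn)
  have e1 : (insert x B).card = c + 1 := by rw [card_insert_of_notMem fun h => hx (hB h), hB']
  have e2 : (insert x B \ H).card = 1 := by
    rw [insert_sdiff_of_notMem _ hx, sdiff_eq_empty_iff_subset.2 hB]
    rfl
  obtain ⟨M, m1, m2, m3⟩ := hV (c + 1) n (fun i j =>
    (Fin.cons (if j ∈ H then 0 else 1) fun a => if j ∈ H then Y a j else 0 : Fin (c + 1) → ℂ) i)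
    ⟨_, e1, (key _ e1).2 e2⟩
  exact ⟨_, M, m1, m2, fun B => (m3 B).trans (and_congr_right (key B))⟩

end Pool.Agent.MP_8b9287_co.Geo

end

section

/-! Paving matroids from a family of sets with small pairwise intersections. -/

namespace Pool.Agent.MP_8b9287_co.Geo

theorem exch_PV {n c : ℕ} {𝒮 : Finset (Finset (Fin n))}
    (hS : ∀ H ∈ 𝒮, ∀ H' ∈ 𝒮, H ≠ H' → (H ∩ H').card + 1 ≤ c) {X Y : Finset (Fin n)}
    (hX : X.card = c + 1) (hY : Y.card = c + 1) (hY' : ∀ H ∈ 𝒮, ¬ Y ⊆ H) {a : Fin n}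
    (ha : a ∈ X) (ha' : a ∉ Y) :
    ∃ b ∈ Y, b ∉ X ∧ (insert b (X.erase a)).card = c + 1 ∧
      ∀ H ∈ 𝒮, ¬ insert b (X.erase a) ⊆ H := by
  have hc : (X.erase a).card = c := by rw [Finset.card_erase_of_mem ha, hX]; rfl
  have hin : ∀ b, b ∉ X → (insert b (X.erase a)).card = c + 1 := fun b hb => by
    rw [Finset.card_insert_of_notMem fun h => hb (Finset.mem_of_mem_erase h), hc]
  by_cases h : ∃ H ∈ 𝒮, X.erase a ⊆ H
  · obtain ⟨H0, h0, hs⟩ := h
    obtain ⟨b, hb, hb'⟩ := Finset.not_subset.1 (hY' H0 h0)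
    have hbX : b ∉ X := fun h => hb' (hs (Finset.mem_erase.2 ⟨fun e => ha' (e ▸ hb), h⟩))
    refine ⟨b, hb, hbX, hin b hbX, fun H hH s => ?_⟩
    have h1 := hS H hH H0 h0 fun e => hb' (e ▸ s (Finset.mem_insert_self _ _))
    have h2 := Finset.card_le_card
      (Finset.subset_inter ((Finset.subset_insert _ _).trans s) hs)
    omega
  · have hn : ¬ Y ⊆ X := fun s => by
      have := Finset.card_le_card (Finset.subset_erase.2 ⟨s, ha'⟩)
      omega
    obtain ⟨b, hb, hbX⟩ := Finset.not_subset.1 hn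
    exact ⟨b, hb, hbX, hin b hbX, fun H hH s => h ⟨H, hH, (Finset.subset_insert _ _).trans s⟩⟩

theorem sPV : SPV := by
  intro n c 𝒮 hS ⟨B0, hB0⟩
  have ex : Matroid.ExchangeProperty fun X : Set (Fin n) =>
      ∃ B : Finset (Fin n), X = B ∧ B.card = c + 1 ∧ ∀ H ∈ 𝒮, ¬ B ⊆ H := by
    rintro _ _ ⟨X, rfl, hX, -⟩ ⟨Y, rfl, hY, hY'⟩ a ⟨ha, ha'⟩
    obtain ⟨b, hb, hbX, h⟩ := exch_PV hS hX hY hY' (Finset.mem_coe.1 ha)
      fun h => ha' (Finset.mem_coe.2 h)
    exact ⟨b, ⟨Finset.mem_coe.2 hb, fun h => hbX (Finset.mem_coe.1 h)⟩, _,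
      by rw [Finset.coe_insert, Finset.coe_erase], h⟩
  have hb : HasBases (Matroid.ofIsBaseOfFinite (E := Set.univ) Set.finite_univ _
      ⟨_, B0, rfl, hB0⟩ ex fun _ _ => Set.subset_univ _)
      fun B => B.card = c + 1 ∧ ∀ H ∈ 𝒮, ¬ B ⊆ H := fun B => by
    rw [Matroid.ofIsBaseOfFinite_isBase]
    exact ⟨fun ⟨B', e, h⟩ => by rwa [Finset.coe_injective e], fun h => ⟨B, rfl, h⟩⟩
  refine ⟨_, ⟨rfl, ?_⟩, hb⟩
  rw [← ((hb B0).2 hB0).encard_eq_eRank, Set.encard_coe_eq_coe_finsetCard, hB0.1]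

end Pool.Agent.MP_8b9287_co.Geo

end

section

namespace Pool.Agent.MP_8b9287_co.Geo

open Classical in
theorem sum01_HY {n : ℕ} (K : Finset (Fin n)) (x : Fin n → ℝ) (h : ∀ j ∈ K, x j = 0 ∨ x j = 1) :
    ∑ j ∈ K, x j = ((K.filter fun j => x j = 1).card : ℝ) := by
  rw [Finset.card_filter]
  push_cast
  refine Finset.sum_congr rfl fun j hj => ?_
  rcases h j hj with e | e <;> simp [e]

theorem second_HY {n m : ℕ} (K : Finset (Fin n)) (x : Fin n → ℝ) (h0 : ∀ i, 0 ≤ x i)
    (h1 : ∀ i, x i ≤ 1) (hs : ∑ j ∈ K, x j = m) {i : Fin n} (hi : i ∈ K) (p : 0 < x i)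
    (q : x i < 1) : ∃ j ∈ K, j ≠ i ∧ 0 < x j ∧ x j < 1 := by
  classical
  by_contra hc
  push Not at hc
  have h2 : ∀ j ∈ K.erase i, x j = 0 ∨ x j = 1 := fun j hj => by
    rcases (h0 j).eq_or_lt with e | e
    · exact Or.inl e.symm
    · exact Or.inr (le_antisymm (h1 j)
        (hc j (Finset.mem_of_mem_erase hj) (Finset.ne_of_mem_erase hj) e))
  have h3 := sum01_HY _ x h2
  rw [← Finset.add_sum_erase K x hi, h3] at hs
  generalize ((K.erase i).filter fun j => x j = 1).card = N at hs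
  have a : (N : ℝ) < m := by linarith
  have b : (m : ℝ) < N + 1 := by linarith
  have a' : N < m := by exact_mod_cast a
  have b' : m < N + 1 := by exact_mod_cast b
  omega

/-- the point moved from `j` to `i` by `a` -/
noncomputable def mov_HY {n : ℕ} (x : Fin n → ℝ) (i j : Fin n) (a : ℝ) : Fin n → ℝ :=
  fun k => x k + (if k = i then a else 0) - (if k = j then a else 0)

theorem mov_sum_HY {n : ℕ} (x : Fin n → ℝ) (i j : Fin n) (a : ℝ) (K : Finset (Fin n))
    (h : i ∈ K ↔ j ∈ K) : ∑ k ∈ K, mov_HY x i j a k = ∑ k ∈ K, x k := by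
  simp only [mov_HY, Finset.sum_sub_distrib, Finset.sum_add_distrib, Finset.sum_ite_eq']
  by_cases c : i ∈ K
  · simp [c, h.1 c]
  · simp [c, mt h.2 c]

open Classical in
/-- the fractional coordinates -/
noncomputable def fr_HY {n : ℕ} (x : Fin n → ℝ) : Finset (Fin n) :=
  Finset.univ.filter fun k => 0 < x k ∧ x k < 1

theorem mem_fr_HY {n : ℕ} {x : Fin n → ℝ} {k : Fin n} : k ∈ fr_HY x ↔ 0 < x k ∧ x k < 1 := by
  simp [fr_HY]

theorem mov_ok_HY {n : ℕ} (x : Fin n → ℝ) (h0 : ∀ i, 0 ≤ x i) (h1 : ∀ i, x i ≤ 1) {i j : Fin n}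
    (hij : j ≠ i) (hi : i ∈ fr_HY x) (hj : j ∈ fr_HY x) :
    (∀ k, 0 ≤ mov_HY x i j (min (1 - x i) (x j)) k) ∧
    (∀ k, mov_HY x i j (min (1 - x i) (x j)) k ≤ 1) ∧
    (fr_HY (mov_HY x i j (min (1 - x i) (x j)))).card < (fr_HY x).card := by
  have hi' := mem_fr_HY.1 hi
  have hj' := mem_fr_HY.1 hj
  have m1 := min_le_left (1 - x i) (x j)
  have m2 := min_le_right (1 - x i) (x j)
  have m0 : 0 < min (1 - x i) (x j) := lt_min (by linarith [hi'.2]) hj'.1
  have ei : mov_HY x i j (min (1 - x i) (x j)) i = x i + min (1 - x i) (x j) := by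
    simp [mov_HY, hij.symm]
  have ej : mov_HY x i j (min (1 - x i) (x j)) j = x j - min (1 - x i) (x j) := by
    simp [mov_HY, hij]
  have ek : ∀ k, k ≠ i → k ≠ j → mov_HY x i j (min (1 - x i) (x j)) k = x k := fun k a b => by
    simp [mov_HY, a, b]
  refine ⟨fun k => ?_, fun k => ?_, Finset.card_lt_card ⟨fun k hk => ?_, fun hs => ?_⟩⟩
  · by_cases a : k = i
    · rw [a, ei]; linarith [h0 i]
    by_cases b : k = j
    · rw [b, ej]; linarith
    · rw [ek k a b]; exact h0 k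
  · by_cases a : k = i
    · rw [a, ei]; linarith
    by_cases b : k = j
    · rw [b, ej]; linarith [h1 j]
    · rw [ek k a b]; exact h1 k
  · by_cases a : k = i
    · exact a ▸ hi
    by_cases b : k = j
    · exact b ▸ hj
    · rw [mem_fr_HY, ek k a b] at hk
      exact mem_fr_HY.2 hk
  · have a := mem_fr_HY.1 (hs hi)
    have b := mem_fr_HY.1 (hs hj)
    rw [ei] at a
    rw [ej] at b
    rcases min_choice (1 - x i) (x j) with e | e
    · rw [e] at a; linarith [a.2]
    · rw [e] at b; linarith [b.1]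

theorem sHY : SHY := by
  classical
  intro n c H x
  induction hN : (fr_HY x).card using Nat.strong_induction_on generalizing x with
  | _ N ih =>
    subst hN
    intro h0 h1 s1 s2
    rcases (fr_HY x).eq_empty_or_nonempty with e | ⟨i, hi⟩
    · have h2 : ∀ j, x j = 0 ∨ x j = 1 := fun j => by
        rcases (h0 j).eq_or_lt with a | a
        · exact Or.inl a.symm
        rcases (h1 j).eq_or_lt with b | b
        · exact Or.inr b
        · exact absurd (mem_fr_HY.2 ⟨a, b⟩) (by simp [e])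
      rw [sum01_HY H x fun j _ => h2 j] at s1
      rw [sum01_HY Hᶜ x fun j _ => h2 j] at s2
      have t1 : (H.filter fun j => x j = 1).card = c := by exact_mod_cast s1
      have t2 : (Hᶜ.filter fun j => x j = 1).card = 1 := by exact_mod_cast s2
      have u2 : (Finset.univ.filter fun j => x j = 1) \ H = Hᶜ.filter fun j => x j = 1 := by
        ext j; simp [and_comm]
      have u1 : (Finset.univ.filter fun j => x j = 1) ∩ H = H.filter fun j => x j = 1 := by
        ext j; simp [and_comm]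
      refine subset_convexHull ℝ _ ⟨Finset.univ.filter fun j => x j = 1, ⟨?_, by rw [u2, t2]⟩, ?_⟩
      · rw [← Finset.card_sdiff_add_card_inter _ H, u1, u2, t1, t2, add_comm]
      · ext j
        rcases h2 j with a | a <;> simp [Set.indicator, a]
    · have hi' := mem_fr_HY.1 hi
      obtain ⟨j, hij, hj, hH⟩ : ∃ j, j ≠ i ∧ j ∈ fr_HY x ∧ (i ∈ H ↔ j ∈ H) := by
        by_cases a : i ∈ H
        · obtain ⟨j, b, d, e⟩ := second_HY H x h0 h1 s1 a hi'.1 hi'.2
          exact ⟨j, d, mem_fr_HY.2 e, iff_of_true a b⟩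
        · obtain ⟨j, b, d, e⟩ := second_HY (m := 1) Hᶜ x h0 h1 (by simpa using s2)
            (Finset.mem_compl.2 a) hi'.1 hi'.2
          exact ⟨j, d, mem_fr_HY.2 e, iff_of_false a (Finset.mem_compl.1 b)⟩
      have hj' := mem_fr_HY.1 hj
      have hC : i ∈ Hᶜ ↔ j ∈ Hᶜ := by simp only [Finset.mem_compl, hH]
      obtain ⟨p0, p1, p2⟩ := mov_ok_HY x h0 h1 hij hi hj
      obtain ⟨q0, q1, q2⟩ := mov_ok_HY x h0 h1 hij.symm hj hi
      have P := ih _ p2 _ rfl p0 p1 (by rw [mov_sum_HY _ _ _ _ _ hH, s1])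
        (by rw [mov_sum_HY _ _ _ _ _ hC, s2])
      have Q := ih _ q2 _ rfl q0 q1 (by rw [mov_sum_HY _ _ _ _ _ hH.symm, s1])
        (by rw [mov_sum_HY _ _ _ _ _ hC.symm, s2])
      have a0 : 0 < min (1 - x i) (x j) := lt_min (by linarith [hi'.2]) hj'.1
      have b0 : 0 < min (1 - x j) (x i) := lt_min (by linarith [hj'.2]) hi'.1
      generalize min (1 - x i) (x j) = a at P a0
      generalize min (1 - x j) (x i) = b at Q b0
      have ab : 0 < a + b := add_pos a0 b0
      have R := convex_convexHull ℝ _ P Q (a := b / (a + b)) (b := a / (a + b))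
        (by positivity) (by positivity) (by field_simp; ring)
      have E : (b / (a + b)) • mov_HY x i j a + (a / (a + b)) • mov_HY x j i b = x := by
        ext k
        simp only [mov_HY, Pi.add_apply, Pi.smul_apply, smul_eq_mul]
        split_ifs <;> field_simp <;> ring
      rw [E] at R
      exact R

end Pool.Agent.MP_8b9287_co.Geo

end

section

namespace Pool.Agent.MP_8b9287_co.Geo

theorem min_PO {n : ℕ} {F : Finset (Fin n) → Prop} {K : Set (Fin n → ℝ)} (hK : Convex ℝ K)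
    (h : ∀ B, F B → Set.indicator (B : Set (Fin n)) 1 ∈ K) : cv F ⊆ K :=
  convexHull_min (by rintro x ⟨B, hB, rfl⟩; exact h B hB) hK

theorem conv_PO {n : ℕ} (F : Finset (Fin n) → Prop) : Convex ℝ (cv F) := convex_convexHull ℝ _

theorem mem_PO {n : ℕ} {F : Finset (Fin n) → Prop} {B : Finset (Fin n)} (h : F B) :
    Set.indicator (B : Set (Fin n)) 1 ∈ cv F := subset_convexHull ℝ _ ⟨B, h, rfl⟩

theorem mono_PO {n : ℕ} {F F' : Finset (Fin n) → Prop} (h : ∀ B, F B → F' B) : cv F ⊆ cv F' :=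
  min_PO (conv_PO F') fun B hB => mem_PO (h B hB)

theorem sum_PO {n : ℕ} (S B : Finset (Fin n)) :
    ∑ i ∈ S, Set.indicator (B : Set (Fin n)) (1 : Fin n → ℝ) i = ((S ∩ B).card : ℝ) := by
  simp [Set.indicator_apply]

theorem lin_PO {n : ℕ} (S : Finset (Fin n)) (a b : ℝ) (x y : Fin n → ℝ) :
    ∑ i ∈ S, (a • x + b • y) i = a * ∑ i ∈ S, x i + b * ∑ i ∈ S, y i := by
  simp [Finset.sum_add_distrib, Finset.mul_sum]

theorem box_PO (n c : ℕ) : Convex ℝ {x : Fin n → ℝ | (∀ i, 0 ≤ x i) ∧ (∀ i, x i ≤ 1) ∧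
    ∑ i, x i = c + 1} := by
  intro x hx y hy a b ha hb hab
  refine ⟨fun i => ?_, fun i => ?_, ?_⟩
  · exact add_nonneg (mul_nonneg ha (hx.1 i)) (mul_nonneg hb (hy.1 i))
  · have h1 := mul_le_mul_of_nonneg_left (hx.2.1 i) ha
    have h2 := mul_le_mul_of_nonneg_left (hy.2.1 i) hb
    change a * x i + b * y i ≤ 1
    linarith
  · rw [lin_PO, hx.2.2, hy.2.2, ← add_mul, hab, one_mul]

theorem sPO (hH : SHY) : SPO := by
  intro n c H F hF hL
  have hbox : cv F ⊆ {x : Fin n → ℝ | (∀ i, 0 ≤ x i) ∧ (∀ i, x i ≤ 1) ∧ ∑ i, x i = c + 1} :=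
    min_PO (box_PO n c) fun B hB => ⟨fun i => Set.indicator_nonneg (fun _ _ => zero_le_one) i,
      fun i => Set.indicator_le_self' (fun _ _ => zero_le_one) i, by
        rw [sum_PO, Finset.univ_inter, hF B hB]
        simp⟩
  have hc : ∀ B : Finset (Fin n), Hᶜ ∩ B = B \ H := fun B => by
    ext i
    simp [and_comm]
  have hA : (cv fun B => F B ∧ ¬ B ⊆ H) ⊆ {x | 1 ≤ ∑ i ∈ Hᶜ, x i} :=
    min_PO (fun x hx y hy a b ha hb hab => by
      have h1 := mul_le_mul_of_nonneg_left (show 1 ≤ ∑ i ∈ Hᶜ, x i from hx) ha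
      have h2 := mul_le_mul_of_nonneg_left (show 1 ≤ ∑ i ∈ Hᶜ, y i from hy) hb
      change 1 ≤ ∑ i ∈ Hᶜ, (a • x + b • y) i
      rw [lin_PO]
      linarith) fun B hB => by
      rw [Set.mem_ofPred_eq, sum_PO, hc]
      exact_mod_cast Finset.card_pos.2 (Finset.sdiff_nonempty.2 hB.2)
  have hB : (cv fun B => B.card = c + 1 ∧ (B \ H).card ≤ 1) ⊆ {x | ∑ i ∈ Hᶜ, x i ≤ 1} :=
    min_PO (fun x hx y hy a b ha hb hab => by
      have h1 := mul_le_mul_of_nonneg_left (show ∑ i ∈ Hᶜ, x i ≤ 1 from hx) ha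
      have h2 := mul_le_mul_of_nonneg_left (show ∑ i ∈ Hᶜ, y i ≤ 1 from hy) hb
      change ∑ i ∈ Hᶜ, (a • x + b • y) i ≤ 1
      rw [lin_PO]
      linarith) fun B hB => by
      rw [Set.mem_ofPred_eq, sum_PO, hc]
      exact_mod_cast hB.2
  have face : ∀ x ∈ cv F, ∑ i ∈ Hᶜ, x i = 1 →
      x ∈ cv fun B => B.card = c + 1 ∧ (B \ H).card = 1 := fun x hx h => by
    have b := hbox hx
    refine hH n c H x b.1 b.2.1 ?_ h
    have := Finset.sum_add_sum_compl H x
    linarith [b.2.2]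
  have s1 : (cv fun B => B.card = c + 1 ∧ (B \ H).card = 1) ⊆ cv fun B => F B ∧ ¬ B ⊆ H :=
    mono_PO fun B h => ⟨hL B h.1 h.2.le, Finset.sdiff_nonempty.1 (Finset.card_pos.1 (by omega))⟩
  have s2 : (cv fun B => B.card = c + 1 ∧ (B \ H).card = 1) ⊆
      cv fun B => B.card = c + 1 ∧ (B \ H).card ≤ 1 := mono_PO fun B h => ⟨h.1, h.2.le⟩
  have s3 : (cv fun B => F B ∧ ¬ B ⊆ H) ⊆ cv F := mono_PO fun B h => h.1
  have s4 : (cv fun B => B.card = c + 1 ∧ (B \ H).card ≤ 1) ⊆ cv F :=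
    mono_PO fun B h => hL B h.1 h.2
  have key : ∀ y ∈ cv fun B => F B ∧ ¬ B ⊆ H,
      ∀ z ∈ cv fun B => B.card = c + 1 ∧ (B \ H).card ≤ 1, openSegment ℝ y z ⊆
        (cv fun B => F B ∧ ¬ B ⊆ H) ∪ cv fun B => B.card = c + 1 ∧ (B \ H).card ≤ 1 := by
    intro y hy z hz
    obtain ⟨t, ht, hw⟩ := intermediate_value_Icc' zero_le_one
      (f := fun t : ℝ => ∑ i ∈ Hᶜ, AffineMap.lineMap y z t i) (by fun_prop)
      (show (1 : ℝ) ∈ _ from ⟨by simpa using hB hz, by simpa using hA hy⟩)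
    have w := face _ ((conv_PO F).lineMap_mem (s3 hy) (s4 hz) ht) hw
    refine (openSegment_subset_union y z ⟨t, rfl⟩).trans ?_
    rintro x (rfl | h | h)
    · exact Or.inl (s1 w)
    · exact Or.inl ((conv_PO _).openSegment_subset hy (s1 w) h)
    · exact Or.inr ((conv_PO _).openSegment_subset (s2 w) hz h)
  refine ⟨Set.Subset.antisymm (min_PO (convex_iff_openSegment_subset.2 ?_) fun B h => ?_)
    (Set.union_subset s3 s4), Set.Subset.antisymm (Set.subset_inter s1 s2) fun x hx =>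
      face x (s3 hx.1) (le_antisymm (hB hx.2) (hA hx.1)), ⟨s1, ?_⟩, ⟨s2, ?_⟩⟩
  · rintro y (hy | hy) z (hz | hz)
    · exact ((conv_PO _).openSegment_subset hy hz).trans Set.subset_union_left
    · exact key y hy z hz
    · rw [openSegment_symm]
      exact key z hz y hy
    · exact ((conv_PO _).openSegment_subset hy hz).trans Set.subset_union_right
  · by_cases e : B ⊆ H
    · exact Or.inr (mem_PO ⟨hF B h, by simp [Finset.sdiff_eq_empty_iff_subset.2 e]⟩)
    · exact Or.inl (mem_PO ⟨h, e⟩)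
  · rintro x hx y hy _ hz ⟨a, b, ha, hb, hab, rfl⟩
    have h1 : 1 ≤ ∑ i ∈ Hᶜ, x i := hA hx
    have h2 : 1 ≤ ∑ i ∈ Hᶜ, y i := hA hy
    have h3 : ∑ i ∈ Hᶜ, (a • x + b • y) i ≤ 1 := hB (s2 hz)
    rw [lin_PO] at h3
    exact face x (s3 hx) (le_antisymm (by nlinarith) h1)
  · rintro x hx y hy _ hz ⟨a, b, ha, hb, hab, rfl⟩
    have h1 : ∑ i ∈ Hᶜ, x i ≤ 1 := hB hx
    have h2 : ∑ i ∈ Hᶜ, y i ≤ 1 := hB hy
    have h3 : 1 ≤ ∑ i ∈ Hᶜ, (a • x + b • y) i := hA (s1 hz)
    rw [lin_PO] at h3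
    exact face x (s4 hx) (le_antisymm h1 (by nlinarith))

end Pool.Agent.MP_8b9287_co.Geo

end

section

/-! The bases of a paving matroid are the sets outside the large hyperplanes. -/

namespace Pool.Agent.MP_8b9287_co.Geo

open Finset

theorem sPav : SPav := by
  classical
  intro n c M hM hI
  have h : Pav M c := ⟨hM.1, hM.2, fun I hc => hI I hc.le⟩
  have mem : ∀ H : Finset (Fin n),
      H ∈ ((powersetCard c univ).image (cl M)).filter (fun H => c + 1 ≤ H.card) ↔
        (∃ I : Finset (Fin n), I.card = c ∧ cl M I = H) ∧ c + 1 ≤ H.card := fun H => by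
    simp only [mem_filter, mem_image, mem_powersetCard, subset_univ, true_and]
  refine ⟨((powersetCard c univ).image (cl M)).filter (fun H => c + 1 ≤ H.card), fun H hH => ?_,
    fun H hH H' hH' hne => ?_, fun B => ⟨fun hB => ?_, fun hB => ?_⟩⟩
  · obtain ⟨⟨I, h1, rfl⟩, h2⟩ := (mem H).1 hH
    obtain ⟨x, hx⟩ := h.cl_ne h1
    refine ⟨h2, ?_⟩
    have := card_lt_card (ssubset_univ_iff.2 fun e : cl M I = univ => hx (e ▸ mem_univ x))
    rwa [card_univ, Fintype.card_fin] at this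
  · obtain ⟨⟨I, h1, rfl⟩, -⟩ := (mem H).1 hH
    obtain ⟨⟨I', h1', rfl⟩, -⟩ := (mem H').1 hH'
    by_contra hc
    obtain ⟨J, j1, j2⟩ := exists_subset_card_eq (s := cl M I ∩ cl M I') (n := c) (by omega)
    exact hne ((h.cl_eq h1 j2 (j1.trans inter_subset_left)).symm.trans
      (h.cl_eq h1' j2 (j1.trans inter_subset_right)))
  · have e := hB.encard_eq_eRank
    rw [h.hr, Set.encard_coe_eq_coe_finsetCard] at e
    have e' : B.card = c + 1 := by exact_mod_cast e
    refine ⟨e', fun H hH hBH => ?_⟩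
    obtain ⟨⟨I, h1, rfl⟩, -⟩ := (mem H).1 hH
    have h2 := M.eRk_mono (a := (B : Set (Fin n))) (b := M.closure (I : Set (Fin n)))
      fun x hx => mem_cl.1 (hBH hx)
    rw [Matroid.eRk_closure_eq, h.eRk h1, hB.indep.eRk_eq_encard,
      Set.encard_coe_eq_coe_finsetCard, e'] at h2
    have : c + 1 ≤ c := by exact_mod_cast h2
    omega
  · obtain ⟨x, hx⟩ := card_pos.1 (by rw [hB.1]; omega : 0 < B.card)
    have h1 : (B.erase x).card = c := by rw [card_erase_of_mem hx, hB.1]; rfl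
    have h2 : x ∉ cl M (B.erase x) := fun hc => by
      have h3 : B ⊆ cl M (B.erase x) := fun y hy => by
        by_cases e : y = x
        · rwa [e]
        · exact h.subset_cl _ (mem_erase.2 ⟨e, hy⟩)
      exact hB.2 _ ((mem _).2 ⟨⟨_, h1, rfl⟩, hB.1 ▸ card_le_card h3⟩) h3
    have e : (B : Set (Fin n)) = insert x ((B.erase x : Finset (Fin n)) : Set (Fin n)) := by
      rw [← coe_insert, insert_erase hx]
    have h4 : M.Indep (insert x ((B.erase x : Finset (Fin n)) : Set (Fin n))) := by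
      rw [(h.hi _ h1).insert_indep_iff_of_notMem (by simp), h.hE]
      exact ⟨Set.mem_univ _, fun h' => h2 (mem_cl.2 h')⟩
    rw [e]
    exact h4.isBase_of_ground_subset_closure fun y _ => h.span h1 h2 y

end Pool.Agent.MP_8b9287_co.Geo

end

section

namespace Pool.Agent.MP_8b9287_co.Geo

theorem span_Disc {n : ℕ} {M : Matroid (Fin n)} (hE : M.E = Set.univ) {I X : Set (Fin n)}
    (hI : M.Indep I) (hIX : I ⊆ X) (h : M.eRk X ≤ I.encard) : X ⊆ M.closure I := by
  intro y hy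
  by_contra hc
  have hyI : y ∉ I := fun h' => hc (M.subset_closure I hI.subset_ground h')
  have h1 : M.Indep (insert y I) :=
    (hI.insert_indep_iff_of_notMem hyI).2 ⟨by rw [hE]; trivial, hc⟩
  have h2 := (h1.encard_le_eRk_of_subset (Set.insert_subset hy hIX)).trans h
  rw [Set.encard_insert_of_notMem hyI] at h2
  obtain ⟨m, hm⟩ := ENat.ne_top_iff_exists.1 I.toFinite.encard_lt_top.ne
  rw [← hm] at h2
  have h3 : m + 1 ≤ m := by exact_mod_cast h2
  omega

theorem gen_Disc {n c : ℕ} {M : Matroid (Fin n)} (hM : OfRank (c + 1) M)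
    (hI : ∀ I : Finset (Fin n), I.card ≤ c → M.Indep (I : Set (Fin n))) (H : Finset (Fin n))
    (h1 : M.eRk (H : Set (Fin n)) ≤ c) (h2 : M.eRk (H : Set (Fin n))ᶜ ≤ 1)
    (h3 : ∀ x, x ∉ H → M.Indep {x}) :
    HasBases M fun B => B.card = c + 1 ∧ (B \ H).card = 1 := by
  intro B
  have hs : (B \ H).card + (B ∩ H).card = B.card := Finset.card_sdiff_add_card_inter B H
  constructor
  · intro hB
    have e1 : B.card = c + 1 := by
      have := hB.encard_eq_eRank
      rw [hM.2, Set.encard_coe_eq_coe_finsetCard] at this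
      exact_mod_cast this
    have e2 : (B ∩ H).card ≤ c := by
      have i1 : M.Indep ((B ∩ H : Finset (Fin n)) : Set (Fin n)) :=
        hB.indep.subset (by intro x hx; simp at hx; exact hx.1)
      have := (i1.encard_le_eRk_of_subset (X := (H : Set (Fin n)))
        (by intro x hx; simp at hx; exact hx.2)).trans h1
      rw [Set.encard_coe_eq_coe_finsetCard] at this
      exact_mod_cast this
    have e3 : (B \ H).card ≤ 1 := by
      have i1 : M.Indep ((B \ H : Finset (Fin n)) : Set (Fin n)) :=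
        hB.indep.subset (by intro x hx; simp at hx; exact hx.1)
      have := (i1.encard_le_eRk_of_subset (X := (H : Set (Fin n))ᶜ)
        (by intro x hx; simp at hx; exact hx.2)).trans h2
      rw [Set.encard_coe_eq_coe_finsetCard] at this
      exact_mod_cast this
    exact ⟨e1, by omega⟩
  · rintro ⟨e1, e2⟩
    obtain ⟨x, hx⟩ := Finset.card_eq_one.1 e2
    have hx' : x ∈ B \ H := by rw [hx]; simp
    rw [Finset.mem_sdiff] at hx'
    have e3 : (B ∩ H).card = c := by omega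
    have s1 : (H : Set (Fin n)) ⊆ M.closure ((B ∩ H : Finset (Fin n)) : Set (Fin n)) :=
      span_Disc hM.1 (hI _ e3.le) (by intro y hy; simp at hy; exact hy.2)
        (by rw [Set.encard_coe_eq_coe_finsetCard, e3]; exact h1)
    have s2 : (H : Set (Fin n))ᶜ ⊆ M.closure {x} :=
      span_Disc hM.1 (h3 x hx'.2) (by intro y hy; rw [hy]; simpa using hx'.2)
        (by rw [Set.encard_singleton]; exact h2)
    have sp : M.Spanning (B : Set (Fin n)) := by
      rw [Matroid.spanning_iff_ground_subset_closure (by rw [hM.1]; exact Set.subset_univ _)]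
      intro y _
      by_cases hy : y ∈ H
      · exact M.closure_mono (by intro z hz; simp at hz; exact hz.1) (s1 hy)
      · exact M.closure_mono (by intro z hz; rw [hz]; simpa using hx'.1) (s2 hy)
    obtain ⟨B', hB', hsub⟩ := sp.exists_isBase_subset
    have : B' = B := B'.toFinite.eq_of_subset_of_encard_le hsub (by
      rw [hB'.encard_eq_eRank, hM.2, Set.encard_coe_eq_coe_finsetCard, e1])
    rw [← this]
    exact hB'

theorem rk_Disc {n c : ℕ} {M : Matroid (Fin n)}
    (hI : ∀ I : Finset (Fin n), I.card ≤ c → M.Indep (I : Set (Fin n))) (T : Finset (Fin n))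
    {a : ℕ} (ha : M.eRk (T : Set (Fin n)) = a) : c ≤ a ∨ a = T.card := by
  rcases le_total c T.card with h | h
  · obtain ⟨U, hU, hc⟩ := Finset.exists_subset_card_eq h
    have := (hI U hc.le).encard_le_eRk_of_subset (X := (T : Set (Fin n))) (by exact_mod_cast hU)
    rw [ha, Set.encard_coe_eq_coe_finsetCard, hc] at this
    exact Or.inl (by exact_mod_cast this)
  · have := (hI T h).eRk_eq_encard
    rw [ha, Set.encard_coe_eq_coe_finsetCard] at this
    exact Or.inr (by exact_mod_cast this)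

theorem side_Disc {n c : ℕ} {M : Matroid (Fin n)} (hM : OfRank (c + 1) M)
    (hI : ∀ I : Finset (Fin n), I.card ≤ c → M.Indep (I : Set (Fin n))) (hc : 1 ≤ c)
    (H : Finset (Fin n)) (h1 : M.eRk (H : Set (Fin n)) = c) (h2 : M.eRk (H : Set (Fin n))ᶜ = 1)
    (h3 : H.card < n) :
    ∃ H : Finset (Fin n), c ≤ H.card ∧ H.card < n ∧
      HasBases M fun B => B.card = c + 1 ∧ (B \ H).card = 1 := by
  refine ⟨H, ?_, h3, gen_Disc hM hI H h1.le h2.le fun x _ => ?_⟩
  · have := M.eRk_le_encard (H : Set (Fin n))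
    rw [h1, Set.encard_coe_eq_coe_finsetCard] at this
    exact_mod_cast this
  · simpa using hI {x} (by simpa using hc)

theorem sDisc : SDisc := by
  classical
  intro n c M hn hM hI hC
  rcases Nat.eq_zero_or_pos c with rfl | hc
  · have hH : ((Finset.univ.filter fun x => x ∈ M.loops : Finset (Fin n)) : Set (Fin n)) =
        M.loops := by ext x; simp
    refine ⟨Finset.univ.filter fun x => x ∈ M.loops, Nat.zero_le _, ?_,
      gen_Disc hM hI _ (by rw [hH]; simp) ?_ fun x hx => ?_⟩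
    · by_contra hcon
      have h1 : (Finset.univ.filter fun x => x ∈ M.loops) = Finset.univ :=
        Finset.eq_univ_of_card _ (le_antisymm (Finset.card_le_univ _) (by simpa using hcon))
      rw [h1, Finset.coe_univ] at hH
      have h2 := M.eRk_loops
      rw [← hH, ← hM.1, Matroid.eRk_ground, hM.2] at h2
      simp at h2
    · exact (M.eRk_le_eRank _).trans (by rw [hM.2]; simp)
    · have h1 : x ∉ M.loops := by simpa using hx
      exact Matroid.indep_singleton.2
        ((Matroid.not_isLoop_iff (by rw [hM.1]; trivial)).1 h1)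
  · unfold Conn at hC
    push Not at hC
    obtain ⟨S, hS, hne, hnu⟩ := hC
    obtain ⟨H, rfl⟩ : ∃ H : Finset (Fin n), (H : Set (Fin n)) = S :=
      ⟨S.toFinite.toFinset, S.toFinite.coe_toFinset⟩
    have hcc : ((Hᶜ : Finset (Fin n)) : Set (Fin n)) = (H : Set (Fin n))ᶜ := by simp
    have fin : ∀ X : Set (Fin n), ∃ a : ℕ, M.eRk X = a := fun X => by
      obtain ⟨a, ha⟩ := ENat.ne_top_iff_exists.1
        ((M.eRk_le_encard X).trans_lt X.toFinite.encard_lt_top).ne
      exact ⟨a, ha.symm⟩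
    have pos : ∀ (X : Set (Fin n)) (a : ℕ), X.Nonempty → M.eRk X = a → 1 ≤ a := by
      rintro X a ⟨x, hx⟩ ha
      have i1 : M.Indep {x} := by simpa using hI {x} (by rw [Finset.card_singleton]; exact hc)
      have := i1.encard_le_eRk_of_subset (X := X) (by simpa using hx)
      rw [ha, Set.encard_singleton] at this
      exact_mod_cast this
    obtain ⟨a, ha⟩ := fin (H : Set (Fin n))
    obtain ⟨b, hb⟩ := fin (H : Set (Fin n))ᶜ
    have hab : a + b = c + 1 := by
      rw [ha, hb, hM.2] at hS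
      exact_mod_cast hS
    have hn2 : ((H : Set (Fin n))ᶜ).Nonempty := Set.nonempty_compl.2 hnu
    have a1 := pos _ a hne ha
    have b1 := pos _ b hn2 hb
    have r1 := rk_Disc hI H ha
    have r2 := rk_Disc hI Hᶜ (hcc ▸ hb)
    have cs : H.card + Hᶜ.card = n := by simp
    have p1 : 0 < H.card := Finset.card_pos.2 (by exact_mod_cast hne)
    have p2 : 0 < Hᶜ.card := Finset.card_pos.2 (by rw [← hcc] at hn2; exact_mod_cast hn2)
    by_cases hca : c ≤ a
    · have e1 : a = c := by omega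
      have e2 : b = 1 := by omega
      exact side_Disc hM hI hc H (by rw [ha, e1]) (by rw [hb, e2]; rfl) (by omega)
    · have e1 : b = c := by omega
      have e2 : a = 1 := by omega
      exact side_Disc hM hI hc Hᶜ (by rw [hcc, hb, e1])
        (by rw [hcc, compl_compl, ha, e2]; rfl) (by omega)

end Pool.Agent.MP_8b9287_co.Geo

end

section

/-! Uniform matroids of intermediate rank are connected. -/

namespace Pool.Agent.MP_8b9287_co.Geo

open Finset

theorem low_ConnU {n k : ℕ} {M : Matroid (Fin n)} (hk : k ≤ n)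
    (h : HasBases M (fun B => B.card = k)) (S : Finset (Fin n)) :
    ((min S.card k : ℕ) : ℕ∞) ≤ M.eRk (S : Set (Fin n)) := by
  obtain ⟨J, j1, j2⟩ := exists_subset_card_eq (s := S) (min_le_left S.card k)
  obtain ⟨B, b1, b2⟩ := exists_superset_card_eq (s := J) (n := k) (j2 ▸ min_le_right _ _)
    (by rwa [Fintype.card_fin])
  have hJ : M.Indep (J : Set (Fin n)) := ((h B).2 b2).indep.subset (coe_subset.2 b1)
  rw [← j2, ← Set.encard_coe_eq_coe_finsetCard, ← hJ.eRk_eq_encard]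
  exact M.eRk_mono (coe_subset.2 j1)

theorem sConnU : SConnU := by
  classical
  intro n k M h0 hk hM h S hS
  obtain ⟨T, rfl⟩ : ∃ T : Finset (Fin n), (T : Set (Fin n)) = S :=
    ⟨S.toFinite.toFinset, S.toFinite.coe_toFinset⟩
  have h1 := add_le_add (low_ConnU hk.le h T) (low_ConnU hk.le h Tᶜ)
  rw [coe_compl, hS, hM.2] at h1
  have h2 : min T.card k + min Tᶜ.card k ≤ k := by exact_mod_cast h1
  have h3 := card_add_card_compl T
  rw [Fintype.card_fin] at h3
  rcases (by omega : T.card = 0 ∨ Tᶜ.card = 0) with e | e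
  · exact Or.inl (by rw [card_eq_zero.1 e, coe_empty])
  · exact Or.inr (by rw [compl_eq_empty_iff _ |>.1 (card_eq_zero.1 e), coe_univ])

end Pool.Agent.MP_8b9287_co.Geo

end

section

namespace Pool.Agent.MP_8b9287_co.Geo

open Module Filter Topology

theorem sCore (hge : SCoreGe) (hle : SCoreLe) (hG : SGen) (hU : STropUp) (hL : STropLow) :
    SCore := by
  intro c r N js l₀ hr hc hj hgood
  obtain ⟨U, hUo, hUn, hU'⟩ := hU c r N js hr hc hj
  obtain ⟨U', hUo', hUn', hL'⟩ := hL c r N js hr hc hj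
  have h1 : cnt js l₀ ≤ (HG js).encard := by
    refine ENat.forall_natCast_le_iff_le.1 fun e he => ?_
    obtain ⟨V, hV, hVo, hV0⟩ := eventually_nhds_iff.1 (hge c r N js l₀ hj hgood e he)
    obtain ⟨l₁, h₁, l₂, h₂, h⟩ := hG _ _ _ js V U hVo hUo ⟨_, hV0⟩ hUn
    exact (hV _ h₁).trans (h ▸ hU' _ h₂)
  have hfin : cnt js l₀ ≠ ⊤ := ne_top_of_le_ne_top (Set.toFinite _).encard_lt_top.ne h1
  refine le_antisymm h1 ?_
  obtain ⟨V, hV, hVo, hV0⟩ := eventually_nhds_iff.1 (hle c r N js l₀ hj hgood hfin)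
  obtain ⟨l₁, h₁, l₂, h₂, h⟩ := hG _ _ _ js V U' hVo hUo' ⟨_, hV0⟩ hUn'
  exact (hL' _ h₂).trans (h ▸ hV _ h₁)

theorem flg_top {n : ℕ} {g : Fin n → Fin n → ℂ} (hg : LinearIndependent ℂ g) : flg g n = ⊤ := by
  have : {i : Fin n | (i : ℕ) < n} = Set.univ := by ext i; simp
  rw [flg, this, Set.image_univ]
  exact hg.span_eq_top_of_card_eq_finrank' (by simp)

theorem sLam (hFree : SFree) (hLI : SFreeLI) (hE0 : SE0) (hE1a : SE1a) (hE1b : SE1b) (hE2 : SE2)
    (hE3 : SE3) (hE4 : SE4) (hG1a : SG1a) (hKA : SKA) (hA : SLamA) (hJ : SJS) (hC : SCore)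
    (hF5 : SF5) : SLam := by
  intro n c r p η π X d hn hp hr hη h0 hs hπ hX hcol hgen
  obtain ⟨P, hP, hcount⟩ := hgen
  obtain ⟨A, hAk, hAs⟩ := hG1a (c + 1) r (r + c + 1) X (by omega) hX
  set S : Set ℂ := Set.range (fun q : Fin r × Fin (r + c + 1) => A q.1 q.2) ∪
    Set.range (fun q : Fin (c + 1) × Fin (r + c + 1) => X q.1 q.2) with hS
  obtain ⟨g, hgP, hgF⟩ := hFree n S ((Set.finite_range _).union (Set.finite_range _)) P hP
  obtain ⟨hg, hg0⟩ := hLI n S g hgF
  have hd := hcount g hg hgP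
  let z : Fin n := ⟨0, by omega⟩
  have hEi : Function.Injective (Emb (g z) π) := Emb_inj (hg0 z) hπ
  have hco := hE0 n (r + c) p S g π z hn hp rfl hπ hgF
  have hex : ∀ q : Fin (r + c), ∃ w, g ⟨p + q, by omega⟩ - Emb (g z) π w ∈ mid g p := by
    intro q
    have : g ⟨p + q, by omega⟩ ∈ LinearMap.range (Emb (g z) π) ⊔ mid g p := by
      rw [hco.sup_eq_top]; trivial
    obtain ⟨y, ⟨w, rfl⟩, u, hu, h⟩ := Submodule.mem_sup.1 this
    exact ⟨w, by rw [← h]; simpa using hu⟩
  choose G hG using hex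
  have hG' : ∀ (q : Fin (r + c)) (i : Fin n), (i : ℕ) = p + q →
      g i - Emb (g z) π (G q) ∈ mid g p := by
    intro q i hi
    have : i = ⟨p + q, by omega⟩ := Fin.ext hi
    rw [this]; exact hG q
  have hfl := hE1a n (r + c) p g π z G hn hp rfl hEi hco.disjoint hG'
  have hGF := hE1b n (r + c) p S g π z G hn hp rfl hEi hco.disjoint hG' hgF
  have htop : FS G (r + c) = ⊤ := by
    have := hfl n (by omega)
    rw [flg_top hg, Submodule.comap_top, show n - p = r + c by omega] at this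
    exact this.symm
  have hW : ∀ v, v ≠ 0 → finrank ℂ (Wv (g z) π A X v) = c + 1 := by
    intro v hv
    have h1 := LinearMap.finrank_range_add_finrank_ker (mv A X v)
    rw [LinearMap.range_eq_top.2 (hAs v hv), finrank_top] at h1
    simp only [finrank_fintype_fun_eq_card, Fintype.card_fin] at h1
    rw [Wv, ← (Submodule.equivMapOfInjective _ hEi _).finrank_eq]
    omega
  have h3 := fun v (hv : v ≠ 0) => hE3 n c r p η g (Wv (g z) π A X v) (ap (lA A X G) v) hn hp hr
    hη h0 (hW v hv) (fun j h1 h2 => hE2 n (r + c) r (j - p) (Emb (g z) π) (mv A X v) G (flg g j)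
      (ap (lA A X G) v) (by omega) hEi (mv_one hAk v) htop (hfl j h1) (ap_lA A X G v))
  have hsch : ∀ W ∈ schub η g, g z ∈ W := fun W hW => hE4 n c η g W z rfl h0 hW
  have key : (∀ a : Fin c, η a.succ ≤ r) → d = (SS (fun a : Fin c => η a.succ) r).ncard := by
    intro hle
    obtain ⟨js, hcod, hjs⟩ := hJ c r (fun a => η a.succ) hs hle
    obtain ⟨hgood, hnz⟩ := hKA c r (r + c + 1) (r + c) js A X G S hcod
      (fun i j => Or.inl ⟨(i, j), rfl⟩) (fun a j => Or.inr ⟨(a, j), rfl⟩) hGF hAk hAs hcol htop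
    have e1 := hA (c + 1) r (r + c + 1) n A X π (g z) (schub η g) {v | Om js (ap (lA A X G) v)}
      (by omega) hr hπ (hg0 z) hAk hX hAs hsch (fun v hv => (h3 v hv).1 js hle hjs) hnz
    have e2 := hC c r (r + c) js (lA A X G) hr (by omega) hcod hgood
    have e3 := hF5 c r (r + c) (fun a => η a.succ) js
      (fun a b hab => hη (Fin.succ_le_succ_iff.2 hab)) hle hjs
    rw [← hd, ← e3, Set.ncard_def, Set.ncard_def, e1]
    exact congrArg (fun x : ℕ∞ => (x.toNat : ℤ)) e2
  refine ⟨?_, key⟩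
  by_cases hle : ∀ a : Fin c, η a.succ ≤ r
  · exact (key hle).le
  · have hex : ∃ a : Fin c, r < η a.succ := by simpa using hle
    have e1 := hA (c + 1) r (r + c + 1) n A X π (g z) (schub η g) ∅
      (by omega) hr hπ (hg0 z) hAk hX hAs hsch
      (fun v hv => ⟨fun h => ((h3 v hv).2 hex h).elim, fun h => h.elim⟩) (fun v _ h => h.elim)
    rw [← hd, Set.ncard_def, e1]
    simp [lines]

end Pool.Agent.MP_8b9287_co.Geo

end

section

namespace Pool.Agent.MP_8b9287_co.Geo

open Module Filter Topology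

theorem om_smul_Lam0 {k r N : ℕ} {js : Fin r → Fin N} {l : Fin k → Mat r N} {v : Fin k → ℂ}
    (h : Om js (ap l v)) (a : ℂ) : Om js (ap l (a • v)) := by
  intro s I J hJ
  have e : (Matrix.of fun x y => ap l (a • v) (I x) (J y)) =
      a • Matrix.of fun x y => ap l v (I x) (J y) := by
    ext x y
    simp [ap_apply, Finset.mul_sum, mul_assoc]
  have h0 := h s I J hJ
  unfold mnr at h0 ⊢
  rw [e, Matrix.det_smul, h0, mul_zero]

theorem sLam0 (hFree : SFree) (hLI : SFreeLI) (hE0 : SE0) (hE1a : SE1a) (hE1b : SE1b)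
    (hE2 : SE2) (hE3 : SE3) (hE4 : SE4) (hG1a : SG1a) (hb3 : SG1b3) (hB : SLamB) (hJ : SJS2)
    (hKB : SKB) (hK1 : SKC1) (hK2 : SKC2) : SLam0 := by
  intro n c r p η π X d hn hp hr hη h0 hs hπ hX hgen
  obtain ⟨P, hP, hcount⟩ := hgen
  obtain ⟨A, hAk, hAs⟩ := hG1a (c + 1) r (r + c + 1) X (by omega) hX
  set S : Set ℂ := Set.range (fun q : Fin r × Fin (r + c + 1) => A q.1 q.2) ∪
    Set.range (fun q : Fin (c + 1) × Fin (r + c + 1) => X q.1 q.2) with hS
  obtain ⟨g, hgP, hgF⟩ := hFree n S ((Set.finite_range _).union (Set.finite_range _)) P hP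
  obtain ⟨hg, hg0⟩ := hLI n S g hgF
  have hd := hcount g hg hgP
  let z : Fin n := ⟨0, by omega⟩
  have hEi : Function.Injective (Emb (g z) π) := Emb_inj (hg0 z) hπ
  have hco := hE0 n (r + c) p S g π z hn hp rfl hπ hgF
  have hex : ∀ q : Fin (r + c), ∃ w, g ⟨p + q, by omega⟩ - Emb (g z) π w ∈ mid g p := by
    intro q
    have : g ⟨p + q, by omega⟩ ∈ LinearMap.range (Emb (g z) π) ⊔ mid g p := by
      rw [hco.sup_eq_top]; trivial
    obtain ⟨y, ⟨w, rfl⟩, u, hu, h⟩ := Submodule.mem_sup.1 this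
    exact ⟨w, by rw [← h]; simpa using hu⟩
  choose G hG using hex
  have hG' : ∀ (q : Fin (r + c)) (i : Fin n), (i : ℕ) = p + q →
      g i - Emb (g z) π (G q) ∈ mid g p := by
    intro q i hi
    have : i = ⟨p + q, by omega⟩ := Fin.ext hi
    rw [this]; exact hG q
  have hfl := hE1a n (r + c) p g π z G hn hp rfl hEi hco.disjoint hG'
  have hGF := hE1b n (r + c) p S g π z G hn hp rfl hEi hco.disjoint hG' hgF
  have htop : FS G (r + c) = ⊤ := by
    have := hfl n (by omega)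
    rw [flg_top hg, Submodule.comap_top, show n - p = r + c by omega] at this
    exact this.symm
  have hW : ∀ v, v ≠ 0 → finrank ℂ (Wv (g z) π A X v) = c + 1 := by
    intro v hv
    have h1 := LinearMap.finrank_range_add_finrank_ker (mv A X v)
    rw [LinearMap.range_eq_top.2 (hAs v hv), finrank_top] at h1
    simp only [finrank_fintype_fun_eq_card, Fintype.card_fin] at h1
    rw [Wv, ← (Submodule.equivMapOfInjective _ hEi _).finrank_eq]
    omega
  have h3 := fun v (hv : v ≠ 0) => hE3 n c r p η g (Wv (g z) π A X v) (ap (lA A X G) v) hn hp hr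
    hη h0 (hW v hv) (fun j h1 h2 => hE2 n (r + c) r (j - p) (Emb (g z) π) (mv A X v) G (flg g j)
      (ap (lA A X G) v) (by omega) hEi (mv_one hAk v) htop (hfl j h1) (ap_lA A X G v))
  have hsch : ∀ W ∈ schub η g, g z ∈ W := fun W hW => hE4 n c η g W z rfl h0 hW
  have hAS : ∀ i j, A i j ∈ S := fun i j => Or.inl ⟨(i, j), rfl⟩
  have hXS : ∀ a j, X a j ∈ S := fun a j => Or.inr ⟨(a, j), rfl⟩
  rw [← hd]
  rcases (orbCl (fun a i => X a (π i)) ∩ schub η g).eq_empty_or_nonempty with he | ⟨W, hW1, hW2⟩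
  · rw [he]; simp
  obtain ⟨v, hv, rfl⟩ := hb3 (c + 1) r (r + c + 1) n A X π (g z) W (by omega) (by omega) hπ
    (hg0 z) hAk hAs hW1 (hsch W hW2)
  have hle : ∀ a : Fin c, η a.succ ≤ r := by
    by_contra hcon
    exact (h3 v hv).2 (by simpa using hcon) hW2
  obtain ⟨js, hcod, hjs⟩ := hJ c r (fun a => η a.succ) hle
  have hom : Om js (ap (lA A X G) v) := ((h3 v hv).1 js hle hjs).1 hW2
  rcases lt_or_gt_of_ne hs with hlt | hgt
  · obtain ⟨i, hi⟩ : ∃ i, v i ≠ 0 := Function.ne_iff.1 hv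
    obtain ⟨jj, a1, a2, a3, a4, a5, w, b1, b2, b3, b4⟩ := hK1 c _ r (r + c + 1) (r + c) js A X G S
      hlt (by omega) hcod hAS hXS hGF hAk hX hAs htop ((v i)⁻¹ • v) i (by simp [hi])
      (om_smul_Lam0 hom _)
    have e1 := hK2 (c + 1) r (r + c + 1) (r + c) js jj (lA A X G) X ((v i)⁻¹ • v) w i hcod.1 a1 a2
      (by simp [hi]) a3 a4 a5 b1 b2 b3 b4
    have e2 := hB (c + 1) r (r + c + 1) n A X π (g z) (schub η g)
      {u | Om js (ap (lA A X G) u) ∧ ∀ j, vX X u j ≠ 0} (by omega) hπ (hg0 z) hAk hX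
      (fun u hu h => ⟨((h3 u hu).1 js hle hjs).2 h.1, h.2⟩)
    rw [e1, top_le_iff] at e2
    rw [Set.ncard_def, e2]
    simp
  · exact (hKB c _ r (r + c + 1) (r + c) js A X G S hgt hcod hAS hXS hGF hAk hAs htop v hv
      hom).elim

end Pool.Agent.MP_8b9287_co.Geo

end

section

namespace Pool.Agent.MP_8b9287_co.Geo

open Module

theorem gen_nonneg (hFree : SFree) (hLI : SFreeLI) {k n : ℕ} {X : Fin k → Fin n → ℂ}
    {η : Fin k → ℕ} {d : ℤ} (h : GenCount X η d) : 0 ≤ d := by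
  obtain ⟨P, hP, hc⟩ := h
  obtain ⟨g, hg, hF⟩ := hFree n ∅ Set.finite_empty P hP
  rw [← hc g (hLI n ∅ g hF).1 hg]
  exact Int.natCast_nonneg _

theorem pack_multi {n c : ℕ} (𝓜 : Multiset ℕ) (𝒮 : Finset (Finset (Fin n)))
    (h1 : ∀ H ∈ 𝒮, H.card < n) (h2 : ∀ H ∈ 𝒮, ∀ H' ∈ 𝒮, H ≠ H' → (H ∩ H').card + 1 ≤ c) :
    ∑ H ∈ 𝒮, (𝓜.map fun m : ℕ => M2 c ((H.card : ℤ) - (c + 1) - m)).sum ≤
      (𝓜.map fun m : ℕ => M2 c ((n : ℤ) - 1 - (c + 1) - m)).sum := by
  induction 𝓜 using Multiset.induction_on with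
  | empty => simp
  | cons m 𝓜 ih =>
    simp only [Multiset.map_cons, Multiset.sum_cons, Finset.sum_add_distrib]
    refine add_le_add ?_ ih
    have := pack (m : ℤ) (Int.natCast_nonneg m) n (Finset.univ : Finset (Fin n)) (by simp) c 𝒮 id
      (fun H hH => ⟨Finset.subset_univ _, by simpa using h1 H hH⟩) h2
    simpa using this

/-- The inductive step over the dependent hyperplanes. -/
theorem chain (hPV : SPV) (hPO : SPO) {n c : ℕ} (D : Matroid (Fin n) → ℤ)
    (hval : Valuative (c + 1) D) (f : Finset (Fin n) → ℤ) (f₀ : ℤ)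
    (hU : ∀ M, OfRank (c + 1) M → HasBases M (fun B => B.card = c + 1) → f₀ ≤ D M)
    (hL : ∀ H : Finset (Fin n), c + 1 ≤ H.card → H.card < n → ∃ M, OfRank (c + 1) M ∧
      HasBases M (fun B => B.card = c + 1 ∧ (B \ H).card ≤ 1) ∧ D M ≤ f H)
    (hP : ∀ H : Finset (Fin n), c + 1 ≤ H.card → H.card < n → ∃ M, OfRank (c + 1) M ∧
      HasBases M (fun B => B.card = c + 1 ∧ (B \ H).card = 1) ∧ 0 ≤ D M)
    (𝒮 : Finset (Finset (Fin n))) :
    (∀ H ∈ 𝒮, c + 1 ≤ H.card ∧ H.card < n) →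
    (∀ H ∈ 𝒮, ∀ H' ∈ 𝒮, H ≠ H' → (H ∩ H').card + 1 ≤ c) →
    ∀ M, OfRank (c + 1) M → HasBases M (fun B => B.card = c + 1 ∧ ∀ H ∈ 𝒮, ¬ B ⊆ H) →
      f₀ - ∑ H ∈ 𝒮, f H ≤ D M := by
  induction 𝒮 using Finset.induction_on with
  | empty =>
    intro _ _ M hM hB
    simpa using hU M hM fun B => (hB B).trans (by simp)
  | insert H 𝒮 hH ih =>
    intro h1 h2 M hM hB
    have h1' : ∀ H' ∈ 𝒮, c + 1 ≤ H'.card ∧ H'.card < n :=
      fun H' h => h1 H' (Finset.mem_insert_of_mem h)
    have h2' : ∀ H₁ ∈ 𝒮, ∀ H₂ ∈ 𝒮, H₁ ≠ H₂ → (H₁ ∩ H₂).card + 1 ≤ c :=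
      fun H₁ a H₂ b => h2 H₁ (Finset.mem_insert_of_mem a) H₂ (Finset.mem_insert_of_mem b)
    obtain ⟨B₀, hB₀⟩ := M.exists_isBase
    have hB₁ := (hB B₀.toFinite.toFinset).1 (by simpa using hB₀)
    obtain ⟨M', hM', hB'⟩ := hPV n c 𝒮 h2'
      ⟨_, hB₁.1, fun H' h => hB₁.2 H' (Finset.mem_insert_of_mem h)⟩
    have hH1 := h1 H (Finset.mem_insert_self _ _)
    obtain ⟨ML, hML, hBL, hDL⟩ := hL H hH1.1 hH1.2
    obtain ⟨MP, hMP, hBP, hDP⟩ := hP H hH1.1 hH1.2
    have hBM : HasBases M fun B => (B.card = c + 1 ∧ ∀ H' ∈ 𝒮, ¬ B ⊆ H') ∧ ¬ B ⊆ H :=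
      fun B => (hB B).trans (by simp only [Finset.forall_mem_insert]; tauto)
    obtain ⟨p1, p2, p3, p4⟩ := hPO n c H (fun B => B.card = c + 1 ∧ ∀ H' ∈ 𝒮, ¬ B ⊆ H')
      (fun B h => h.1) (fun B hc hle => ⟨hc, fun H' hH' hs => by
        have hne : H ≠ H' := fun h => hH (h ▸ hH')
        have h3 := h2 H (Finset.mem_insert_self _ _) H' (Finset.mem_insert_of_mem hH') hne
        have h4 : B ∩ H ⊆ H ∩ H' := fun x hx => by
          rw [Finset.mem_inter] at hx ⊢
          exact ⟨hx.2, hs hx.1⟩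
        have h5 := Finset.card_le_card h4
        have h6 := Finset.card_sdiff_add_card_inter B H
        omega⟩)
    have hv := hval M' M ML MP hM' hM hML hMP (by rw [hB'.poly, hBM.poly, hBL.poly]; exact p1)
      (by rw [hBP.poly, hBM.poly, hBL.poly]; exact p2) (by rw [hBP.poly, hBM.poly]; exact p3)
      (by rw [hBP.poly, hBL.poly]; exact p4)
    have := ih h1' h2' M' hM' hB'
    rw [Finset.sum_insert hH]
    linarith

theorem final (hFree : SFree) (hLI : SFreeLI) (hLam : SLam) (hLam0 : SLam0) (hPP : SPP3)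
    (hGP : SGP1) (hML : SMatLam) (hMP : SMatPi) (hPV : SPV) (hPO : SPO) (hPav : SPav)
    (hDisc : SDisc) (hCU : SConnU)
    (n c : ℕ) (hkn : c + 1 < n) (D₀ : Matroid (Fin n) → ℤ) (η : Fin (c + 1) → ℕ)
    (hgeo : ∀ (M : Matroid (Fin n)) (X : Fin (c + 1) → Fin n → ℂ), OfRank (c + 1) M →
      Represents X M → GenCount X η (D₀ M))
    (hval : Valuative (c + 1) D₀ ∨ Valuative (c + 1) (Set.indicator {M | Conn M} D₀))
    (M : Matroid (Fin n)) (hM : OfRank (c + 1) M)
    (hpav : ∀ I : Finset (Fin n), I.card ≤ c → M.Indep (I : Set (Fin n)))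
    (hη : IsShape n η) (hrow : η 0 = n - (c + 1)) :
    0 ≤ D₀ M := by
  have hP₀ : ∀ H : Finset (Fin n), c ≤ H.card → H.card < n → ∃ M, OfRank (c + 1) M ∧
      HasBases M (fun B => B.card = c + 1 ∧ (B \ H).card = 1) ∧ 0 ≤ D₀ M := by
    intro H h1 h2
    obtain ⟨X, M', hM', hX, hB⟩ := hMP n c H h1 h2
    exact ⟨M', hM', hB, gen_nonneg hFree hLI (hgeo M' X hM' hX)⟩
  by_cases hc : Conn M
  swap
  · obtain ⟨H, h1, h2, hB⟩ := hDisc n c M hkn hM hpav hc
    obtain ⟨M', hM', hB', h0⟩ := hP₀ H h1 h2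
    rwa [HasBases.ext hM hM' hB hB' fun _ => Iff.rfl]
  obtain ⟨D, hD, hD1, hD2⟩ : ∃ D : Matroid (Fin n) → ℤ, Valuative (c + 1) D ∧
      (∀ M', D M' = D₀ M' ∨ D M' = 0) ∧ ∀ M', Conn M' → D M' = D₀ M' := by
    rcases hval with h | h
    · exact ⟨D₀, h, fun _ => Or.inl rfl, fun _ _ => rfl⟩
    · refine ⟨_, h, fun M' => ?_, fun M' h' => Set.indicator_of_mem (s := {M | Conn M}) h' _⟩
      by_cases h' : Conn M'
      · exact Or.inl (Set.indicator_of_mem (s := {M | Conn M}) h' _)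
      · exact Or.inr (Set.indicator_of_notMem (s := {M | Conn M}) h' _)
  -- the value of the count as a function of the size of the hyperplane
  obtain ⟨F, hF, hFp⟩ : ∃ F : ℕ → ℕ,
      (∀ H : Finset (Fin n), c + 1 ≤ H.card → H.card < n → ∃ M, OfRank (c + 1) M ∧
        HasBases M (fun B => B.card = c + 1 ∧ (B \ H).card ≤ 1) ∧ D₀ M ≤ F H.card ∧
        (H.card = n - 1 → D₀ M = F H.card)) ∧
      ∀ 𝒮 : Finset (Finset (Fin n)), (∀ H ∈ 𝒮, c + 1 ≤ H.card ∧ H.card < n) →
        (∀ H ∈ 𝒮, ∀ H' ∈ 𝒮, H ≠ H' → (H ∩ H').card + 1 ≤ c) →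
        ∑ H ∈ 𝒮, F H.card ≤ F (n - 1) := by
    by_cases htail : ∑ a : Fin c, η a.succ = c
    · obtain ⟨𝓜, h𝓜⟩ := hPP c (fun a => η a.succ) htail
      refine ⟨fun h => (SS (fun a : Fin c => η a.succ) (h - c)).ncard, fun H h1 h2 => ?_,
        fun 𝒮 h1 h2 => ?_⟩
      · obtain ⟨π, hπ, hX⟩ := hML n (c + 1) (H.card - c + c) H (by omega) (by omega) (by omega)
        obtain ⟨X, hgp, hcol⟩ := hGP (c + 1) (Fin (H.card - c + c + 1))
        obtain ⟨M', hM', hrep, hB⟩ := hX X hgp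
        have := hLam n c (H.card - c) (n - H.card) η π X _ (by omega) (by omega)
          (by omega) hη.1 hrow htail hπ hgp (hcol (by omega)) (hgeo M' _ hM' hrep)
        exact ⟨M', hM', hB, this.1, fun h => this.2 fun a => by have := hη.2 a.succ; omega⟩
      · simp only
        rw [h𝓜 _ (by omega)]
        have hp := pack_multi (c := c) 𝓜 𝒮 (fun H h => (h1 H h).2) h2
        have e0 : ((n - 1 - c : ℕ) : ℤ) - 1 = (n : ℤ) - 1 - (c + 1) := by omega
        rw [e0]
        refine le_trans (le_of_eq (Finset.sum_congr rfl fun H hH => ?_)) hp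
        have := h1 H hH
        have e1 : ((H.card - c : ℕ) : ℤ) - 1 = (H.card : ℤ) - (c + 1) := by omega
        rw [h𝓜 _ (by omega), e1]
    · refine ⟨fun _ => 0, fun H h1 h2 => ?_, fun 𝒮 _ _ => by simp⟩
      obtain ⟨π, hπ, hX⟩ := hML n (c + 1) (H.card - c + c) H (by omega) (by omega) (by omega)
      obtain ⟨X, hgp, -⟩ := hGP (c + 1) (Fin (H.card - c + c + 1))
      obtain ⟨M', hM', hrep, hB⟩ := hX X hgp
      have := hLam0 n c (H.card - c) (n - H.card) η π X _ (by omega) (by omega)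
        (by omega) hη.1 hrow htail hπ hgp (hgeo M' _ hM' hrep)
      exact ⟨M', hM', hB, by simp [this], fun _ => by simp [this]⟩
  obtain ⟨𝒮, h1, h2, hB⟩ := hPav n c M hM hpav
  have hch := chain hPV hPO D hD (fun H => (F H.card : ℤ)) (F (n - 1) : ℤ)
    (by
      intro U hU hBU
      let z : Fin n := ⟨0, by omega⟩
      have hz : (Finset.univ.erase z).card = n - 1 := by simp
      obtain ⟨M', hM', hB', -, h4⟩ := hF (Finset.univ.erase z) (by omega) (by omega)
      have hUM : U = M' := HasBases.ext hU hM' hBU hB' fun B => ⟨fun h => ⟨h, by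
        refine (Finset.card_le_card (t := {z}) fun x hx => ?_).trans (by simp)
        simp only [Finset.mem_sdiff, Finset.mem_erase, Finset.mem_univ, and_true, not_not] at hx
        simp [hx.2]⟩, fun h => h.1⟩
      rw [hD2 U (hCU n (c + 1) U (by omega) hkn hU hBU), hUM, h4 hz, hz])
    (fun H a b => by
      obtain ⟨M', p1, p2, p3, -⟩ := hF H a b
      refine ⟨M', p1, p2, ?_⟩
      rcases hD1 M' with h | h
      · rwa [h]
      · rw [h]; exact Int.natCast_nonneg _)
    (fun H a b => by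
      obtain ⟨M', p1, p2, p3⟩ := hP₀ H (by omega) b
      refine ⟨M', p1, p2, ?_⟩
      rcases hD1 M' with h | h
      · rwa [h]
      · exact h.ge) 𝒮 h1 h2 M hM hB
  rw [← hD2 M hc]
  refine le_trans ?_ hch
  rw [sub_nonneg, ← Nat.cast_sum, Nat.cast_le]
  exact hFp 𝒮 h1 h2

end Pool.Agent.MP_8b9287_co.Geo

end
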