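import Pool.Agent.MP_8b9287_co.Geo.MA
import Pool.Agent.MP_8b9287_co.Geo.MB
import Pool.Agent.MP_8b9287_co.Geo.MC
import Pool.Agent.MP_8b9287_co.Geo.MD

namespace Pool.Agent.MP_8b9287_co.Geo

theorem free_ok : SFree := sFree sDense sDer

theorem ka1_ok : SKA1 := sKA1 sDerDet (sKStr sDerDet)

theorem gt3_ok : SGT3 := sGT3 sGT1 sGT2b sGT2c

theorem core_ok : SCore :=
  sCore (sCoreGe sIFT sALge sDerDet (sLoc1 sRk) (sLoc2 sRk) sForb)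
    (sCoreLe sIFT sALle sDerDet (sLoc1 sRk)) (sGen sDense sAut sCntAut)
    (sTropUp sALle sGP1 sGP2 sTropDet sScl (sTropU1 sIFT) gt3_ok)
    (sTropLow sALge sGP1 sGP2 sScl
      (sParam (sPathFun sPathPot sPathVal) (sOmSum sRk) sGT2a sGT2c) (sTropL1 sIFT) gt3_ok)

theorem lam_ok : SLam :=
  sLam free_ok sFreeLI (sE0 sFreeLI) sE1a sE1b sE2 (sE3 sRk) sE4 (sG1aX sGP3)
    (sKA (sPiv sRk) (sLoc1 sRk) sForb ka1_ok)
    (sLamA (sG1b3 sG1b1 sG1b2) sG1c (sG1d sGP2 sGP3) sGP3) sJS core_ok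
    (sF5 sF1 sF2 sF3 (sF4 sGT2a) sGT2c)

theorem lam0_ok : SLam0 :=
  sLam0 free_ok sFreeLI (sE0 sFreeLI) sE1a sE1b sE2 (sE3 sRk) sE4 (sG1aX sGP3)
    (sG1b3 sG1b1 sG1b2) (sLamB sG1c (sG1d sGP2 sGP3) sGP3) sJS2
    (sKB (sPiv sRk) (sLoc1 sRk) sForb ka1_ok) (sKC1 (sPiv sRk) (sLoc1 sRk) sForb ka1_ok sGP3)
    (sKC2 sCurve sDerDet (sLoc3 sRk))

theorem main_geo (n c : ℕ) (hkn : c + 1 < n) (D₀ : Matroid (Fin n) → ℤ) (η : Fin (c + 1) → ℕ)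
    (hgeo : ∀ (M : Matroid (Fin n)) (X : Fin (c + 1) → Fin n → ℂ), OfRank (c + 1) M →
      Represents X M → GenCount X η (D₀ M))
    (hval : Valuative (c + 1) D₀ ∨ Valuative (c + 1) (Set.indicator {M | Conn M} D₀))
    (M : Matroid (Fin n)) (hM : OfRank (c + 1) M)
    (hpav : ∀ I : Finset (Fin n), I.card ≤ c → M.Indep (I : Set (Fin n)))
    (hη : IsShape n η) (hrow : η 0 = n - (c + 1)) : 0 ≤ D₀ M :=
  final free_ok sFreeLI lam_ok lam0_ok (sPP3 (sPP1 sPP2)) sGP1 (sMatLam sVM sGP3)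
    (sMatPi sVM sGP1 sGP3) sPV (sPO sHY) sPav sDisc sConnU n c hkn D₀ η hgeo hval M hM hpav hη hrow

end Pool.Agent.MP_8b9287_co.Geo
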