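import Pool.Agent.MP_8b9287_co.Geo.St

/-! Field automorphisms of the complex numbers act transitively on algebraically independent
tuples. -/

namespace Pool.Agent.MP_8b9287_co.Geo

open Cardinal

theorem exists_equiv_Aut {ι κ : Type} (v : ι → ℂ) (w : κ → ℂ) (e : ι ≃ κ)
    (hv : IsTranscendenceBasis ℚ v) (hw : IsTranscendenceBasis ℚ w) :
    ∃ σ : ℂ ≃+* ℂ, ∀ i, σ (v i) = w (e i) := by
  letI := IsAlgClosed.isAlgClosure_of_transcendence_basis v hv
  letI := IsAlgClosed.isAlgClosure_of_transcendence_basis w hw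
  let f : Algebra.adjoin ℚ (Set.range v) ≃+* Algebra.adjoin ℚ (Set.range w) :=
    ((hv.1.aevalEquiv.symm.trans (MvPolynomial.renameEquiv ℚ e)).trans hw.1.aevalEquiv).toRingEquiv
  refine ⟨IsAlgClosure.equivOfEquiv ℂ ℂ f, fun i => ?_⟩
  have h1 : v i = algebraMap (Algebra.adjoin ℚ (Set.range v)) ℂ
      (hv.1.aevalEquiv (MvPolynomial.X i)) := by
    rw [hv.1.algebraMap_aevalEquiv, MvPolynomial.aeval_X]
  rw [h1, IsAlgClosure.equivOfEquiv_algebraMap]
  have h2 : f (hv.1.aevalEquiv (MvPolynomial.X i)) = hw.1.aevalEquiv (MvPolynomial.X (e i)) := by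
    simp [f]
  rw [h2, hw.1.algebraMap_aevalEquiv, MvPolynomial.aeval_X]

theorem sAut : SAut := by
  intro ι _ x y hx hy
  obtain ⟨s, hs, hs'⟩ := exists_isTranscendenceBasis_superset (s := Set.range x) hx.to_subtype_range
  obtain ⟨t, ht, ht'⟩ := exists_isTranscendenceBasis_superset (s := Set.range y) hy.to_subtype_range
  have hC : ℵ₀ < #ℂ := by rw [mk_complex]; exact aleph0_lt_continuum
  have h1 := IsAlgClosed.cardinal_eq_cardinal_transcendence_basis_of_aleph0_lt' _ hs'
    (le_of_eq mkRat) hC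
  have h2 := IsAlgClosed.cardinal_eq_cardinal_transcendence_basis_of_aleph0_lt' _ ht'
    (le_of_eq mkRat) hC
  let x' : ι → s := fun i => ⟨x i, hs ⟨i, rfl⟩⟩
  let y' : ι → t := fun i => ⟨y i, ht ⟨i, rfl⟩⟩
  have hx' : Function.Injective x' := fun a b h => hx.injective (congrArg Subtype.val h)
  have hy' : Function.Injective y' := fun a b h => hy.injective (congrArg Subtype.val h)
  let f : Set.range x' ↪ t :=
    (Equiv.ofInjective x' hx').symm.toEmbedding.trans ⟨y', hy'⟩
  obtain ⟨e, he⟩ := extend_function_of_lt f (by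
    rw [← h1]
    exact (lt_aleph0_of_finite _).trans hC) (Cardinal.eq.1 (h1.symm.trans h2))
  obtain ⟨σ, hσ⟩ := exists_equiv_Aut _ _ e hs' ht'
  refine ⟨σ, fun i => ?_⟩
  have h3 := he ⟨x' i, i, rfl⟩
  have h4 : f ⟨x' i, i, rfl⟩ = y' i := by
    simp [f, Equiv.ofInjective_symm_apply]
  exact (hσ (x' i)).trans (congrArg Subtype.val (h3.trans h4))

end Pool.Agent.MP_8b9287_co.Geo
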