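import Pool.Agent.MP_8b9287_co.Geo.Defs
import Pool.Agent.Mg.F8b9287.Gbf9237

/-! Working definitions for the geometric count. -/

namespace Pool.Agent.MP_8b9287_co.Geo

open Module

abbrev Mat (r N : ℕ) := Fin r → Fin N → ℂ

/-- The minor with rows `I` and columns `J`. -/
noncomputable def mnr {r N s : ℕ} (M : Mat r N) (I : Fin s → Fin r) (J : Fin s → Fin N) : ℂ :=
  Matrix.det (Matrix.of fun a b => M (I a) (J b))

/-- The first `js s` columns have rank at most `s`, for all `s`. -/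
def Om {r N : ℕ} (js : Fin r → Fin N) (M : Mat r N) : Prop :=
  ∀ (s : Fin r) (I : Fin ((s : ℕ) + 1) → Fin r) (J : Fin ((s : ℕ) + 1) → Fin N),
    (∀ b, J b < js s) → mnr M I J = 0

noncomputable def ap {k r N : ℕ} (l : Fin k → Mat r N) (v : Fin k → ℂ) : Mat r N :=
  ∑ a, v a • l a

/-- The number of lines spanned by nonzero vectors of `S`. -/
noncomputable def lines {k : ℕ} (S : Set (Fin k → ℂ)) : ℕ∞ :=
  ((fun v : Fin k → ℂ => Submodule.span ℂ ({v} : Set (Fin k → ℂ))) '' {v | v ≠ 0 ∧ v ∈ S}).encard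

noncomputable def cnt {k r N : ℕ} (js : Fin r → Fin N) (l : Fin k → Mat r N) : ℕ∞ :=
  lines {v | Om js (ap l v)}

/-- The span of the first `q` columns. -/
def colSp {r N : ℕ} (M : Mat r N) (q : ℕ) : Submodule ℂ (Fin r → ℂ) :=
  Submodule.span ℂ ((fun (j : Fin N) (i : Fin r) => M i j) '' {j | (j : ℕ) < q})

abbrev Forb {r N : ℕ} (js : Fin r → Fin N) :=
  {p : Fin r × Fin N // (∀ s, js s ≠ p.2) ∧ p.2 < js p.1}

noncomputable def Phi {r N : ℕ} (js : Fin r → Fin N) (M : Mat r N) : Forb js → ℂ :=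
  fun p => mnr M id (Function.update js p.1.1 p.1.2)

def Good {k r N : ℕ} (js : Fin r → Fin N) (l : Fin k → Mat r N) : Prop :=
  ∀ (i : Fin k) (v : Fin k → ℂ), v i = 1 → Om js (ap l v) →
    mnr (ap l v) id js ≠ 0 ∧
      ∀ v' : Fin k → ℂ, v' i = 0 → fderiv ℂ (Phi js) (ap l v) (ap l v') = 0 → v' = 0

def Cod {r N : ℕ} (c : ℕ) (js : Fin r → Fin N) : Prop :=
  StrictMono js ∧ ∑ s, (js s : ℕ) = c + ∑ s : Fin r, (s : ℕ)

noncomputable def vX {k : ℕ} {ι : Type} (X : Fin k → ι → ℂ) (v : Fin k → ℂ) : ι → ℂ :=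
  fun j => ∑ a, v a * X a j

/-- General position: a nonzero combination of the rows has fewer than `k` zeros. -/
def GP {k : ℕ} {ι : Type} (X : Fin k → ι → ℂ) : Prop :=
  ∀ v : Fin k → ℂ, v ≠ 0 → ∀ S : Finset ι, (∀ j ∈ S, vX X v j = 0) → S.card < k

/-- The entries of `g` can be moved freely by derivations killing `S`. -/
def Free {α β : Type} (S : Set ℂ) (g : α → β → ℂ) : Prop :=
  ∀ Δ : α → β → ℂ, ∃ δ : Derivation ℤ ℂ ℂ, (∀ s ∈ S, δ s = 0) ∧ ∀ i j, δ (g i j) = Δ i j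

noncomputable def sc {r N : ℕ} (t : ℂ) (Y : Mat r N) : Mat r N :=
  fun i j => t ^ ((r - (i : ℕ)) * (j : ℕ)) * Y i j

def Hit {r N : ℕ} (js : Fin r → Fin N) (Z : Finset (Fin r × Fin N)) : Prop :=
  ∀ (s : Fin r) (I : Fin ((s : ℕ) + 1) → Fin r) (J : Fin ((s : ℕ) + 1) → Fin N),
    StrictMono I → StrictMono J → (∀ b, J b < js s) → ∃ a, (I a, J a) ∈ Z

def IsGT (r : ℕ) (L : ℕ → ℕ → ℕ) : Prop :=
  ∀ i m, m ≤ i → i + 1 < r → L (i + 1) m ≤ L i m ∧ L i m < L (i + 1) (m + 1)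

def hole (L : ℕ → ℕ → ℕ) (i j : ℕ) : Prop :=
  ∃ m, m ≤ i ∧ j < L i m ∧ (m = 0 ∨ L (i - 1) (m - 1) < j)

def onP (L : ℕ → ℕ → ℕ) (m i j : ℕ) : Prop :=
  m ≤ i ∧ L i m ≤ j ∧ (i = m ∨ j ≤ L (i - 1) m)

/-- The hole sets of the patterns with bottom row `js`. -/
def HG {r N : ℕ} (js : Fin r → Fin N) : Set (Finset (Fin r × Fin N)) :=
  {Z | ∃ L : ℕ → ℕ → ℕ, IsGT r L ∧ (∀ m : Fin r, L (r - 1) m = js m) ∧
    ∀ p : Fin r × Fin N, p ∈ Z ↔ hole L p.1 p.2}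

abbrev Box {c : ℕ} (lam : Fin c → ℕ) := Σ a : Fin c, Fin (lam a)

/-- Semistandard fillings with entries below `r`. -/
def SS {c : ℕ} (lam : Fin c → ℕ) (r : ℕ) : Set (Box lam → ℕ) :=
  {T | (∀ b, T b < r) ∧ (∀ b b' : Box lam, (b.2 : ℕ) = b'.2 → b.1 < b'.1 → T b ≤ T b') ∧
    ∀ b b' : Box lam, b.1 = b'.1 → (b.2 : ℕ) < b'.2 → T b < T b'}

def LTab {c : ℕ} (lam : Fin c → ℕ) (T : Box lam → ℕ) (i m : ℕ) : ℕ :=
  m + (Finset.univ.filter fun b : Box lam => (b.2 : ℕ) = i - m ∧ T b ≤ i).card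

def IsJ {c r N : ℕ} (lam : Fin c → ℕ) (js : Fin r → Fin N) : Prop :=
  ∀ s : Fin r, (js s : ℕ) = s + (Finset.univ.filter fun a : Fin c => r ≤ (s : ℕ) + lam a).card

def Emb {n m : ℕ} (φ : Fin n → ℂ) (π : Fin n → Fin m) : (Fin m → ℂ) →ₗ[ℂ] (Fin n → ℂ) where
  toFun w := fun i => φ i * w (π i)
  map_add' w w' := by ext i; simp [mul_add]
  map_smul' a w := by ext i; simp; ring

theorem Emb_apply {n m : ℕ} (φ : Fin n → ℂ) (π : Fin n → Fin m) (w : Fin m → ℂ) (i : Fin n) :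
    Emb φ π w i = φ i * w (π i) := rfl

theorem Emb_inj {n m : ℕ} {φ : Fin n → ℂ} {π : Fin n → Fin m} (hφ : ∀ i, φ i ≠ 0)
    (hπ : Function.Surjective π) : Function.Injective (Emb φ π) := by
  intro w w' h
  ext j
  obtain ⟨i, rfl⟩ := hπ j
  exact mul_left_cancel₀ (hφ i) (congrFun h i)

noncomputable def mv {k r m : ℕ} (A : Fin r → Fin m → ℂ) (X : Fin k → Fin m → ℂ)
    (v : Fin k → ℂ) : (Fin m → ℂ) →ₗ[ℂ] (Fin r → ℂ) where
  toFun w := fun i => ∑ j, A i j * (vX X v j * w j)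
  map_add' w w' := by ext i; simp [mul_add, Finset.sum_add_distrib]
  map_smul' a w := by
    ext i
    simp only [Pi.smul_apply, smul_eq_mul, RingHom.id_apply, Finset.mul_sum]
    exact Finset.sum_congr rfl fun j _ => by ring

theorem mv_apply {k r m : ℕ} (A : Fin r → Fin m → ℂ) (X : Fin k → Fin m → ℂ)
    (v : Fin k → ℂ) (w : Fin m → ℂ) (i : Fin r) :
    mv A X v w i = ∑ j, A i j * (vX X v j * w j) := rfl

def IsKer {k r m : ℕ} (A : Fin r → Fin m → ℂ) (X : Fin k → Fin m → ℂ) : Prop :=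
  ∀ w : Fin m → ℂ, (∀ i, ∑ j, A i j * w j = 0) ↔ w ∈ rowSp X

noncomputable def Wv {k r m n : ℕ} (φ : Fin n → ℂ) (π : Fin n → Fin m) (A : Fin r → Fin m → ℂ)
    (X : Fin k → Fin m → ℂ) (v : Fin k → ℂ) : Submodule ℂ (Fin n → ℂ) :=
  (LinearMap.ker (mv A X v)).map (Emb φ π)

noncomputable def lA {k r m N : ℕ} (A : Fin r → Fin m → ℂ) (X : Fin k → Fin m → ℂ)
    (G : Fin N → Fin m → ℂ) : Fin k → Mat r N :=
  fun a i q => ∑ j, A i j * (X a j * G q j)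

theorem ap_apply {k r N : ℕ} (l : Fin k → Mat r N) (v : Fin k → ℂ) (i : Fin r) (j : Fin N) :
    ap l v i j = ∑ a, v a * l a i j := by
  simp [ap, Finset.sum_apply]

theorem ap_lA {k r m N : ℕ} (A : Fin r → Fin m → ℂ) (X : Fin k → Fin m → ℂ)
    (G : Fin N → Fin m → ℂ) (v : Fin k → ℂ) (i : Fin r) (q : Fin N) :
    ap (lA A X G) v i q = mv A X v (G q) i := by
  rw [ap_apply, mv_apply]
  simp only [lA, vX, Finset.mul_sum, Finset.sum_mul]
  rw [Finset.sum_comm]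
  exact Finset.sum_congr rfl fun j _ => Finset.sum_congr rfl fun a _ => by ring

theorem vX_mem {k m : ℕ} (X : Fin k → Fin m → ℂ) (v : Fin k → ℂ) : vX X v ∈ rowSp X := by
  have : vX X v = ∑ a, v a • X a := by ext j; simp [vX, Finset.sum_apply]
  rw [this]
  exact Submodule.sum_mem _ fun a _ =>
    Submodule.smul_mem _ _ (Submodule.subset_span ⟨a, rfl⟩)

theorem mem_rowSp {k m : ℕ} (X : Fin k → Fin m → ℂ) (w : Fin m → ℂ) :
    w ∈ rowSp X ↔ ∃ v, vX X v = w := by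
  refine ⟨fun h => ?_, fun ⟨v, hv⟩ => hv ▸ vX_mem X v⟩
  obtain ⟨v, hv⟩ := (Submodule.mem_span_range_iff_exists_fun ℂ).1 h
  exact ⟨v, by rw [← hv]; ext j; simp [vX, Finset.sum_apply]⟩

theorem mv_one {k r m : ℕ} {A : Fin r → Fin m → ℂ} {X : Fin k → Fin m → ℂ} (h : IsKer A X)
    (v : Fin k → ℂ) : mv A X v 1 = 0 := by
  ext i
  simpa [mv_apply] using (h _).2 (vX_mem X v) i

/-- The span of the all-ones vector and the first `q` rows of `G`. -/
def FS {N m : ℕ} (G : Fin N → Fin m → ℂ) (q : ℕ) : Submodule ℂ (Fin m → ℂ) :=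
  Submodule.span ℂ (insert 1 (G '' {i | (i : ℕ) < q}))

/-- The span of the rows `1, …, p - 1`. -/
def mid {n : ℕ} (g : Fin n → Fin n → ℂ) (p : ℕ) : Submodule ℂ (Fin n → ℂ) :=
  Submodule.span ℂ (g '' {i | 1 ≤ (i : ℕ) ∧ (i : ℕ) < p})

def cv {n : ℕ} (F : Finset (Fin n) → Prop) : Set (Fin n → ℝ) :=
  convexHull ℝ {x | ∃ B : Finset (Fin n), F B ∧ x = Set.indicator (B : Set (Fin n)) 1}

def HasBases {n : ℕ} (M : Matroid (Fin n)) (F : Finset (Fin n) → Prop) : Prop :=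
  ∀ B : Finset (Fin n), M.IsBase (B : Set (Fin n)) ↔ F B

theorem HasBases.poly {n : ℕ} {M : Matroid (Fin n)} {F : Finset (Fin n) → Prop}
    (h : HasBases M F) : basePoly M = cv F := by
  unfold basePoly cv
  congr 1
  ext x
  constructor
  · rintro ⟨B, hB, rfl⟩
    exact ⟨B.toFinite.toFinset, (h _).1 (by simpa using hB), by simp⟩
  · rintro ⟨B, hB, rfl⟩
    exact ⟨B, (h _).2 hB, rfl⟩

theorem HasBases.ext {n k : ℕ} {M M' : Matroid (Fin n)} {F F' : Finset (Fin n) → Prop}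
    (hM : OfRank k M) (hM' : OfRank k M') (h : HasBases M F) (h' : HasBases M' F')
    (hF : ∀ B, F B ↔ F' B) : M = M' := by
  refine Matroid.ext_isBase (hM.1.trans hM'.1.symm) fun B _ => ?_
  have := (h B.toFinite.toFinset).trans ((hF _).trans (h' B.toFinite.toFinset).symm)
  simpa using this

end Pool.Agent.MP_8b9287_co.Geo
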