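import Pool.Agent.MP_8b9287_co.Geo.St2

/-! Uniform matroids of intermediate rank are connected. -/

namespace Pool.Agent.MP_8b9287_co.Geo

open Finset

theorem low_ConnU {n k : ℕ} {M : Matroid (Fin n)} (hk : k ≤ n)
    (h : HasBases M (fun B => B.card = k)) (S : Finset (Fin n)) :
    ((min S.card k : ℕ) : ℕ∞) ≤ M.eRk (S : Set (Fin n)) := by
  obtain ⟨J, j1, j2⟩ := exists_subset_card_eq (s := S) (min_le_left S.card k)
  obtain ⟨B, b1, b2⟩ := exists_superset_card_eq (s := J) (n := k) (j2 ▸ min_le_right _ _)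
    (by rwa [Fintype.card_fin])
  have hJ : M.Indep (J : Set (Fin n)) := ((h B).2 b2).indep.subset (coe_subset.2 b1)
  rw [← j2, ← Set.encard_coe_eq_coe_finsetCard, ← hJ.eRk_eq_encard]
  exact M.eRk_mono (coe_subset.2 j1)

theorem sConnU : SConnU := by
  classical
  intro n k M h0 hk hM h S hS
  obtain ⟨T, rfl⟩ : ∃ T : Finset (Fin n), (T : Set (Fin n)) = S :=
    ⟨S.toFinite.toFinset, S.toFinite.coe_toFinset⟩
  have h1 := add_le_add (low_ConnU hk.le h T) (low_ConnU hk.le h Tᶜ)
  rw [coe_compl, hS, hM.2] at h1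
  have h2 : min T.card k + min Tᶜ.card k ≤ k := by exact_mod_cast h1
  have h3 := card_add_card_compl T
  rw [Fintype.card_fin] at h3
  rcases (by omega : T.card = 0 ∨ Tᶜ.card = 0) with e | e
  · exact Or.inl (by rw [card_eq_zero.1 e, coe_empty])
  · exact Or.inr (by rw [compl_eq_empty_iff _ |>.1 (card_eq_zero.1 e), coe_univ])

end Pool.Agent.MP_8b9287_co.Geo
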