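import Pool.Agent.MP_8b9287_co.Geo.St

namespace Pool.Agent.MP_8b9287_co.Geo

open Module Filter Topology

theorem sCore (hge : SCoreGe) (hle : SCoreLe) (hG : SGen) (hU : STropUp) (hL : STropLow) :
    SCore := by
  intro c r N js l₀ hr hc hj hgood
  obtain ⟨U, hUo, hUn, hU'⟩ := hU c r N js hr hc hj
  obtain ⟨U', hUo', hUn', hL'⟩ := hL c r N js hr hc hj
  have h1 : cnt js l₀ ≤ (HG js).encard := by
    refine ENat.forall_natCast_le_iff_le.1 fun e he => ?_
    obtain ⟨V, hV, hVo, hV0⟩ := eventually_nhds_iff.1 (hge c r N js l₀ hj hgood e he)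
    obtain ⟨l₁, h₁, l₂, h₂, h⟩ := hG _ _ _ js V U hVo hUo ⟨_, hV0⟩ hUn
    exact (hV _ h₁).trans (h ▸ hU' _ h₂)
  have hfin : cnt js l₀ ≠ ⊤ := ne_top_of_le_ne_top (Set.toFinite _).encard_lt_top.ne h1
  refine le_antisymm h1 ?_
  obtain ⟨V, hV, hVo, hV0⟩ := eventually_nhds_iff.1 (hle c r N js l₀ hj hgood hfin)
  obtain ⟨l₁, h₁, l₂, h₂, h⟩ := hG _ _ _ js V U' hVo hUo' ⟨_, hV0⟩ hUn'
  exact (hL' _ h₂).trans (h ▸ hV _ h₁)

theorem flg_top {n : ℕ} {g : Fin n → Fin n → ℂ} (hg : LinearIndependent ℂ g) : flg g n = ⊤ := by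
  have : {i : Fin n | (i : ℕ) < n} = Set.univ := by ext i; simp
  rw [flg, this, Set.image_univ]
  exact hg.span_eq_top_of_card_eq_finrank' (by simp)

theorem sLam (hFree : SFree) (hLI : SFreeLI) (hE0 : SE0) (hE1a : SE1a) (hE1b : SE1b) (hE2 : SE2)
    (hE3 : SE3) (hE4 : SE4) (hG1a : SG1a) (hKA : SKA) (hA : SLamA) (hJ : SJS) (hC : SCore)
    (hF5 : SF5) : SLam := by
  intro n c r p η π X d hn hp hr hη h0 hs hπ hX hcol hgen
  obtain ⟨P, hP, hcount⟩ := hgen
  obtain ⟨A, hAk, hAs⟩ := hG1a (c + 1) r (r + c + 1) X (by omega) hX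
  set S : Set ℂ := Set.range (fun q : Fin r × Fin (r + c + 1) => A q.1 q.2) ∪
    Set.range (fun q : Fin (c + 1) × Fin (r + c + 1) => X q.1 q.2) with hS
  obtain ⟨g, hgP, hgF⟩ := hFree n S ((Set.finite_range _).union (Set.finite_range _)) P hP
  obtain ⟨hg, hg0⟩ := hLI n S g hgF
  have hd := hcount g hg hgP
  let z : Fin n := ⟨0, by omega⟩
  have hEi : Function.Injective (Emb (g z) π) := Emb_inj (hg0 z) hπ
  have hco := hE0 n (r + c) p S g π z hn hp rfl hπ hgF
  have hex : ∀ q : Fin (r + c), ∃ w, g ⟨p + q, by omega⟩ - Emb (g z) π w ∈ mid g p := by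
    intro q
    have : g ⟨p + q, by omega⟩ ∈ LinearMap.range (Emb (g z) π) ⊔ mid g p := by
      rw [hco.sup_eq_top]; trivial
    obtain ⟨y, ⟨w, rfl⟩, u, hu, h⟩ := Submodule.mem_sup.1 this
    exact ⟨w, by rw [← h]; simpa using hu⟩
  choose G hG using hex
  have hG' : ∀ (q : Fin (r + c)) (i : Fin n), (i : ℕ) = p + q →
      g i - Emb (g z) π (G q) ∈ mid g p := by
    intro q i hi
    have : i = ⟨p + q, by omega⟩ := Fin.ext hi
    rw [this]; exact hG q
  have hfl := hE1a n (r + c) p g π z G hn hp rfl hEi hco.disjoint hG'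
  have hGF := hE1b n (r + c) p S g π z G hn hp rfl hEi hco.disjoint hG' hgF
  have htop : FS G (r + c) = ⊤ := by
    have := hfl n (by omega)
    rw [flg_top hg, Submodule.comap_top, show n - p = r + c by omega] at this
    exact this.symm
  have hW : ∀ v, v ≠ 0 → finrank ℂ (Wv (g z) π A X v) = c + 1 := by
    intro v hv
    have h1 := LinearMap.finrank_range_add_finrank_ker (mv A X v)
    rw [LinearMap.range_eq_top.2 (hAs v hv), finrank_top] at h1
    simp only [finrank_fintype_fun_eq_card, Fintype.card_fin] at h1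
    rw [Wv, ← (Submodule.equivMapOfInjective _ hEi _).finrank_eq]
    omega
  have h3 := fun v (hv : v ≠ 0) => hE3 n c r p η g (Wv (g z) π A X v) (ap (lA A X G) v) hn hp hr
    hη h0 (hW v hv) (fun j h1 h2 => hE2 n (r + c) r (j - p) (Emb (g z) π) (mv A X v) G (flg g j)
      (ap (lA A X G) v) (by omega) hEi (mv_one hAk v) htop (hfl j h1) (ap_lA A X G v))
  have hsch : ∀ W ∈ schub η g, g z ∈ W := fun W hW => hE4 n c η g W z rfl h0 hW
  have key : (∀ a : Fin c, η a.succ ≤ r) → d = (SS (fun a : Fin c => η a.succ) r).ncard := by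
    intro hle
    obtain ⟨js, hcod, hjs⟩ := hJ c r (fun a => η a.succ) hs hle
    obtain ⟨hgood, hnz⟩ := hKA c r (r + c + 1) (r + c) js A X G S hcod
      (fun i j => Or.inl ⟨(i, j), rfl⟩) (fun a j => Or.inr ⟨(a, j), rfl⟩) hGF hAk hAs hcol htop
    have e1 := hA (c + 1) r (r + c + 1) n A X π (g z) (schub η g) {v | Om js (ap (lA A X G) v)}
      (by omega) hr hπ (hg0 z) hAk hX hAs hsch (fun v hv => (h3 v hv).1 js hle hjs) hnz
    have e2 := hC c r (r + c) js (lA A X G) hr (by omega) hcod hgood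
    have e3 := hF5 c r (r + c) (fun a => η a.succ) js
      (fun a b hab => hη (Fin.succ_le_succ_iff.2 hab)) hle hjs
    rw [← hd, ← e3, Set.ncard_def, Set.ncard_def, e1]
    exact congrArg (fun x : ℕ∞ => (x.toNat : ℤ)) e2
  refine ⟨?_, key⟩
  by_cases hle : ∀ a : Fin c, η a.succ ≤ r
  · exact (key hle).le
  · have hex : ∃ a : Fin c, r < η a.succ := by simpa using hle
    have e1 := hA (c + 1) r (r + c + 1) n A X π (g z) (schub η g) ∅
      (by omega) hr hπ (hg0 z) hAk hX hAs hsch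
      (fun v hv => ⟨fun h => ((h3 v hv).2 hex h).elim, fun h => h.elim⟩) (fun v _ h => h.elim)
    rw [← hd, Set.ncard_def, e1]
    simp [lines]

end Pool.Agent.MP_8b9287_co.Geo
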