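import Pool.Agent.MP_8b9287_co.Geo.St

namespace Pool.Agent.MP_8b9287_co.Geo

open Module Filter Topology

theorem smul_CoreGe {k r N : ℕ} (l : Fin k → Mat r N) (a : ℂ) (v : Fin k → ℂ) :
    ap l (a • v) = a • ap l v := by
  simp only [ap, Finset.smul_sum, Pi.smul_apply, smul_eq_mul, mul_smul]

theorem om_CoreGe {r N : ℕ} {js : Fin r → Fin N} {M : Mat r N} (a : ℂ) (h : Om js M) :
    Om js (a • M) := by
  intro s I J hJ
  have e : (Matrix.of fun x y => (a • M) (I x) (J y)) = a • Matrix.of fun x y => M (I x) (J y) := rfl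
  have h0 : Matrix.det (Matrix.of fun x y => M (I x) (J y)) = 0 := h s I J hJ
  rw [mnr, e, Matrix.det_smul, h0, mul_zero]

noncomputable def apL_CoreGe {k r N : ℕ} (l : Fin k → Mat r N) : (Fin k → ℂ) →L[ℂ] Mat r N :=
  LinearMap.toContinuousLinearMap
    { toFun := ap l
      map_add' := fun v w => by simp only [ap, Pi.add_apply, add_smul, Finset.sum_add_distrib]
      map_smul' := fun a v => smul_CoreGe l a v }

theorem cd_CoreGe {k r N : ℕ} :
    ContDiff ℂ 1 (fun q : (Fin k → Mat r N) × (Fin k → ℂ) => ap q.1 q.2) := by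
  unfold ap
  fun_prop

theorem loc_CoreGe (hI : SIFT) (hD : SDerDet) (h1 : SLoc1) (h2 : SLoc2) (hF : SForb)
    {c r N : ℕ} {js : Fin r → Fin N} {l₀ : Fin (c + 1) → Mat r N} (hc : Cod c js)
    (hg : Good js l₀) {u : Fin (c + 1) → ℂ} {i : Fin (c + 1)} (hu : u i = 1)
    (ho : Om js (ap l₀ u)) (W : Set (Fin (c + 1) → ℂ)) (hW : W ∈ 𝓝 u) :
    ∀ᶠ l in 𝓝 l₀, ∃ v ∈ W, Om js (ap l v) := by
  obtain ⟨g1, g2⟩ := hg i u hu ho
  have hP : ContDiff ℂ 1 (Phi js : Mat r N → Forb js → ℂ) :=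
    contDiff_pi.2 fun p => (hD r N r id (Function.update js p.1.1 p.1.2)).1
  let F : (Fin (c + 1) → Mat r N) × (Fin (c + 1) → ℂ) → (Forb js → ℂ) × ℂ :=
    fun q => (Phi js (ap q.1 q.2), q.2 i)
  have hc1 : ContDiff ℂ 1 F := (hP.comp cd_CoreGe).prodMk (by fun_prop)
  have inj : ∀ x : Fin (c + 1) → ℂ, fderiv ℂ F (l₀, u) (0, x) = 0 → x = 0 := by
    intro x hx
    have d1 : HasFDerivAt (fun v => F (l₀, v))
        ((fderiv ℂ F (l₀, u)).comp (ContinuousLinearMap.inr ℂ _ _)) u :=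
      (hc1.differentiable one_ne_zero (l₀, u)).hasFDerivAt.comp u (hasFDerivAt_prodMk_right l₀ u)
    have d2 : HasFDerivAt (fun v => F (l₀, v))
        (((fderiv ℂ (Phi js) (ap l₀ u)).comp (apL_CoreGe l₀)).prod
          (ContinuousLinearMap.proj (R := ℂ) (φ := fun _ => ℂ) i)) u :=
      ((hP.differentiable one_ne_zero (ap l₀ u)).hasFDerivAt.comp u
        (apL_CoreGe l₀).hasFDerivAt).prodMk
        (ContinuousLinearMap.proj (R := ℂ) (φ := fun _ => ℂ) i).hasFDerivAt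
    have e : fderiv ℂ F (l₀, u) (0, x) = (fderiv ℂ (Phi js) (ap l₀ u) (ap l₀ x), x i) :=
      DFunLike.congr_fun (d1.unique d2) x
    rw [hx] at e
    exact g2 x (congrArg Prod.snd e).symm (congrArg Prod.fst e).symm
  have hr : finrank ℂ (Fin (c + 1) → ℂ) = finrank ℂ ((Forb js → ℂ) × ℂ) := by
    have := hF r N js hc.1
    have := hc.2
    rw [finrank_prod, finrank_self, finrank_fintype_fun_eq_card, finrank_fintype_fun_eq_card,
      Fintype.card_fin]
    omega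
  have hm : Continuous fun q : (Fin (c + 1) → Mat r N) × (Fin (c + 1) → ℂ) =>
      mnr (ap q.1 q.2) id js := ((hD r N r id js).1.comp cd_CoreGe).continuous
  have hn : {q : (Fin (c + 1) → Mat r N) × (Fin (c + 1) → ℂ) |
      q.2 ∈ W ∧ mnr (ap q.1 q.2) id js ≠ 0} ∈ 𝓝 (l₀, u) :=
    Filter.inter_mem (continuous_snd.continuousAt.preimage_mem_nhds hW)
      (hm.continuousAt.eventually_ne g1)
  filter_upwards [(hI _ _ _ F l₀ u hc1.contDiffAt inj).2 hr _ hn] with l hl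
  obtain ⟨v, ⟨hv1, hv2⟩, hv3⟩ := hl
  exact ⟨v, hv1, h2 r N js _ hc.1 hv2 ((congrArg Prod.fst hv3).trans (h1 r N js _ hc.1 ho))⟩

theorem sCoreGe (hI : SIFT) (hA : SALge) (hD : SDerDet) (h1 : SLoc1) (h2 : SLoc2) (hF : SForb) :
    SCoreGe := by
  intro c r N js l₀ hc hg e he
  obtain ⟨T, hT, hTe⟩ := Set.exists_subset_encard_eq he
  have hfin : T.Finite := Set.finite_of_encard_eq_coe hTe
  have : Fintype T := hfin.fintype
  have ex : ∀ t : T, ∃ (u : Fin (c + 1) → ℂ) (i : Fin (c + 1)), u i = 1 ∧ Om js (ap l₀ u) ∧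
      Submodule.span ℂ ({u} : Set (Fin (c + 1) → ℂ)) = t.1 := by
    intro t
    obtain ⟨v, ⟨hv0, hv⟩, hs⟩ := hT t.2
    obtain ⟨i, hi⟩ := Function.ne_iff.1 hv0
    have hi' : v i ≠ 0 := hi
    refine ⟨(v i)⁻¹ • v, i, inv_mul_cancel₀ hi', ?_, ?_⟩
    · rw [smul_CoreGe]
      exact om_CoreGe _ hv
    · rw [Submodule.span_singleton_smul_eq (IsUnit.mk0 _ (inv_ne_zero hi'))]
      exact hs
  choose u co hu ho hs using ex
  have hcard : (Fintype.card T : ℕ∞) = e := by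
    rw [← hTe, Set.encard_eq_coe_toFinset_card, Set.toFinset_card]
  have := hA (c + 1) _ (𝓝 l₀) (fun l => {v | Om js (ap l v)}) T u
    (fun t h0 => by simpa [h0] using hu t)
    (fun t t' h => Subtype.ext ((hs t).symm.trans (h.trans (hs t'))))
    (fun t W hW => loc_CoreGe hI hD h1 h2 hF hc hg (hu t) (ho t) W hW)
  rw [hcard] at this
  exact this

end Pool.Agent.MP_8b9287_co.Geo
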