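import Pool.Agent.MP_8b9287_co.Geo.St

namespace Pool.Agent.MP_8b9287_co.Geo

open Module Filter Topology

theorem ap_smul_CoreLe {k r N : ℕ} (l : Fin k → Mat r N) (a : ℂ) (v : Fin k → ℂ) :
    ap l (a • v) = a • ap l v := by
  simp [ap, Finset.smul_sum, mul_smul]

theorem om_smul_CoreLe {r N : ℕ} {js : Fin r → Fin N} {M : Mat r N} (h : Om js M) (a : ℂ) :
    Om js (a • M) := by
  intro s I J hJ
  have h1 := h s I J hJ
  unfold mnr at h1 ⊢
  have e : (Matrix.of fun a' b => (a • M) (I a') (J b)) =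
      a • Matrix.of fun a' b => M (I a') (J b) := rfl
  rw [e, Matrix.det_smul, h1, mul_zero]

theorem ap_cd_CoreLe {k r N : ℕ} :
    ContDiff ℂ 1 fun q : (Fin k → Mat r N) × (Fin k → ℂ) => ap q.1 q.2 := by
  unfold ap
  fun_prop

theorem ap_der_CoreLe {k r N : ℕ} (l : Fin k → Mat r N) :
    ∃ L : (Fin k → ℂ) →L[ℂ] Mat r N, ∀ v, L v = ap l v :=
  ⟨∑ a, (ContinuousLinearMap.proj a : (Fin k → ℂ) →L[ℂ] ℂ).smulRight (l a), fun v => by
    simp [ap]⟩

theorem loc_CoreLe (hI : SIFT) (hD : SDerDet) (h1 : SLoc1) {k r N : ℕ} {js : Fin r → Fin N}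
    (hs : StrictMono js) {l₀ : Fin k → Mat r N} (hG : Good js l₀) {u : Fin k → ℂ} {i : Fin k}
    (hu : u i = 1) (hO : Om js (ap l₀ u)) :
    ∃ W ∈ 𝓝 (l₀, u), ∀ p v v', (p, v) ∈ W → (p, v') ∈ W → Om js (ap p v) → Om js (ap p v') →
      v i = 1 → v' i = 1 → v = v' := by
  have hP : ContDiff ℂ 1 (Phi js) := contDiff_pi.2 fun p => (hD r N r id _).1
  let F : (Fin k → Mat r N) × (Fin k → ℂ) → (Forb js → ℂ) × ℂ :=
    fun q => (Phi js (ap q.1 q.2), q.2 i)
  have hF : ContDiff ℂ 1 F := (hP.comp ap_cd_CoreLe).prodMk (by fun_prop)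
  obtain ⟨L, hL⟩ := ap_der_CoreLe l₀
  have d1 : HasFDerivAt (fun v => F (l₀, v))
      ((fderiv ℂ F (l₀, u)).comp (ContinuousLinearMap.inr ℂ _ _)) u :=
    (hF.differentiable one_ne_zero (l₀, u)).hasFDerivAt.comp u (hasFDerivAt_prodMk_right l₀ u)
  have d2 : HasFDerivAt (fun v => F (l₀, v))
      (((fderiv ℂ (Phi js) (ap l₀ u)).comp L).prod (ContinuousLinearMap.proj i)) u := by
    have e : (fun v => F (l₀, v)) = fun v => (Phi js (L v), v i) := by
      funext v
      rw [hL]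
    rw [e, ← hL u]
    exact ((hP.differentiable one_ne_zero (L u)).hasFDerivAt.comp u L.hasFDerivAt).prodMk
      (hasFDerivAt_apply i u)
  obtain ⟨W, hW, hi⟩ := (hI _ _ _ F l₀ u hF.contDiffAt fun x' hx => by
    have e := congrArg (fun T => T x') (d1.unique d2)
    simp only [ContinuousLinearMap.comp_apply, ContinuousLinearMap.inr_apply, hx,
      ContinuousLinearMap.prod_apply, ContinuousLinearMap.proj_apply, hL] at e
    exact (hG i u hu hO).2 x' (congrArg Prod.snd e).symm (congrArg Prod.fst e).symm).1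
  refine ⟨W, hW, fun p v v' a b c d e f => hi p v v' a b ?_⟩
  simp only [F, h1 r N js _ hs c, h1 r N js _ hs d, e, f]

theorem sCoreLe (hI : SIFT) (hA : SALle) (hD : SDerDet) (h1 : SLoc1) : SCoreLe := by
  intro c r N js l₀ hc hG hfin
  set T := (fun v : Fin (c + 1) → ℂ => Submodule.span ℂ ({v} : Set (Fin (c + 1) → ℂ))) ''
    {v | v ≠ 0 ∧ v ∈ {v | Om js (ap l₀ v)}} with hT
  have hTf : T.Finite := Set.encard_ne_top_iff.1 hfin
  have := hTf.fintype
  have hex : ∀ t : T, ∃ (u : Fin (c + 1) → ℂ) (i : Fin (c + 1)), u i = 1 ∧ Om js (ap l₀ u) ∧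
      Submodule.span ℂ {u} = t.1 := by
    rintro ⟨_, v, ⟨hv, hO⟩, rfl⟩
    obtain ⟨i, hi⟩ := Function.ne_iff.1 hv
    have hi' : v i ≠ 0 := hi
    refine ⟨(v i)⁻¹ • v, i, by simp [hi'], ?_, ?_⟩
    · rw [ap_smul_CoreLe]
      exact om_smul_CoreLe hO _
    · exact Submodule.span_singleton_smul_eq (inv_ne_zero hi').isUnit v
  choose u co hu hO hsp using hex
  choose W hW hi using fun t : T => loc_CoreLe hI hD h1 hc.1 hG (hu t) (hO t)
  have hC : IsClosed {q : (Fin (c + 1) → Mat r N) × (Fin (c + 1) → ℂ) | Om js (ap q.1 q.2)} := by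
    simp only [Om, Set.ofPred_forall]
    exact isClosed_iInter fun s => isClosed_iInter fun I => isClosed_iInter fun J =>
      isClosed_iInter fun _ => isClosed_eq
        ((hD r N _ I J).1.continuous.comp ap_cd_CoreLe.continuous) continuous_const
  have key := hA (c + 1) _ _ l₀ T u co W hC (fun p v a h => by
      change Om js (ap p (a • v))
      rw [ap_smul_CoreLe]
      exact om_smul_CoreLe h a) hu (fun v hv h => by
      have hm : v ∈ Submodule.span ℂ {u ⟨_, v, ⟨hv, h⟩, rfl⟩} := by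
        rw [hsp]
        exact Submodule.mem_span_singleton_self v
      obtain ⟨a, ha⟩ := Submodule.mem_span_singleton.1 hm
      exact ⟨_, a, ha.symm⟩) hW hi
  rw [Set.coe_fintypeCard] at key
  exact key

end Pool.Agent.MP_8b9287_co.Geo
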