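import Pool.Agent.MP_8b9287_co.Geo.St2

/-! A curve in a level set, and a local description of a Schubert condition. -/

namespace Pool.Agent.MP_8b9287_co.Geo

open Module Filter Topology

theorem sCurve : SCurve := by
  intro V T _ _ _ _ _ _ F v₀ w hF hs hw
  have : CompleteSpace V := FiniteDimensional.complete ℂ V
  have hf : HasStrictFDerivAt F (fderiv ℂ F v₀) v₀ := hF.hasStrictFDerivAt one_ne_zero
  have hr : (fderiv ℂ F v₀).range = ⊤ := LinearMap.range_eq_top.2 hs
  let w' : (fderiv ℂ F v₀).ker := ⟨w, hw⟩
  have h1 : HasDerivAt (fun x : ℂ => x • w') w' 0 := by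
    simpa using (hasDerivAt_id (0 : ℂ)).smul_const w'
  refine ⟨fun x => hf.implicitFunction F _ hr (F v₀) (x • w'), ?_, ?_, ?_⟩
  · simp only [zero_smul]
    exact hf.implicitFunction_apply_image hr
  · exact (hf.to_implicitFunction hr).hasFDerivAt.comp_hasDerivAt_of_eq 0 h1 (by simp)
  · have h2 : Tendsto (fun x : ℂ => (F v₀, x • w')) (𝓝 0) (𝓝 (F v₀, 0)) := by
      refine tendsto_const_nhds.prodMk_nhds ?_
      simpa using h1.continuousAt.tendsto
    exact h2.eventually (hf.map_implicitFunction_eq hr)

theorem sLoc3 (hR : SRk) : SLoc3 := by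
  intro r N js jj M hjs hjj hle' hdet hPhi s I J hJ
  refine (hR r N M (js s) s).2 ?_ I J fun b => hJ b
  have hle : (s : ℕ) ≤ r := s.2.le
  set B : Matrix (Fin r) (Fin r) ℂ := Matrix.of fun a b => M a (jj b) with hB
  have hdet' : B.det ≠ 0 := hdet
  set T := Submodule.span ℂ
    (Set.range fun (m : Fin s) (i : Fin r) => M i (jj (Fin.castLE hle m))) with hT
  have hmem : ∀ m : Fin r, m < s → (fun i => M i (jj m)) ∈ T := fun m hm =>
    Submodule.subset_span ⟨⟨m, hm⟩, rfl⟩
  have h3 : colSp M (js s) ≤ T := by
    refine Submodule.span_le.2 ?_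
    rintro _ ⟨j, hj, rfl⟩
    have hj' : j < js s := hj
    by_cases c : ∃ m, jj m = j
    · obtain ⟨m, rfl⟩ := c
      exact hmem m (hjj.lt_iff_lt.1 (hj'.trans_le (hle' s)))
    · have hc : ∀ m, jj m ≠ j := fun m d => c ⟨m, d⟩
      have h1 := Matrix.mulVec_cramer B fun i => M i j
      have h2 : ∀ m : Fin r, ¬ m < s → B.cramer (fun i => M i j) m = 0 := by
        intro m hm
        have h0 : j < js m := hj'.trans_le (hjs.monotone (not_lt.1 hm))
        have h4 := hPhi ⟨(m, j), hc, h0.trans_le (hle' m)⟩ h0
        rw [Matrix.cramer_apply]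
        have h5 : B.updateCol m (fun i => M i j) =
            Matrix.of fun a b => M a (Function.update jj m j b) := by
          ext a b
          by_cases d : b = m
          · subst d; simp
          · simp [Matrix.updateCol_ne d, Function.update_of_ne d, hB]
        rw [h5]
        exact h4
      have h6 : B.mulVec (B.cramer fun i => M i j) ∈ T := by
        have h7 : B.mulVec (B.cramer fun i => M i j) =
            ∑ m, B.cramer (fun i => M i j) m • fun i => M i (jj m) := by
          ext i
          simp [Matrix.mulVec, dotProduct, Finset.sum_apply, hB, mul_comm]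
        rw [h7]
        refine Submodule.sum_mem _ fun m _ => ?_
        by_cases d : m < s
        · exact Submodule.smul_mem _ _ (hmem m d)
        · rw [h2 m d, zero_smul]; exact T.zero_mem
      rw [h1] at h6
      exact (Submodule.smul_mem_iff _ hdet').1 h6
  refine (Submodule.finrank_mono h3).trans ?_
  have h8 := finrank_range_le_card (R := ℂ)
    fun (m : Fin s) (i : Fin r) => M i (jj (Fin.castLE hle m))
  rw [Fintype.card_fin] at h8
  exact h8

end Pool.Agent.MP_8b9287_co.Geo
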