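import Mathlib

/-! Schubert coefficients of matroids: the geometric vocabulary of the problem file. -/

namespace Pool.Agent.MP_8b9287_co.Geo

open Module

/-- The row space of a `k × n` complex matrix. -/
def rowSp {k n : ℕ} (B : Fin k → Fin n → ℂ) : Submodule ℂ (Fin n → ℂ) :=
  Submodule.span ℂ (Set.range B)

/-- The Zariski closure in `G(k,n)` of the torus orbit of the row space of `X`: the
`k`-dimensional subspaces having a basis matrix `B` at which every polynomial vanishes that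
vanishes at all matrices whose row space lies in the orbit. -/
def orbCl {k n : ℕ} (X : Fin k → Fin n → ℂ) : Set (Submodule ℂ (Fin n → ℂ)) :=
  {W | finrank ℂ W = k ∧ ∃ B : Fin k → Fin n → ℂ, rowSp B = W ∧
    ∀ Q : MvPolynomial (Fin k × Fin n) ℂ,
      (∀ (B' : Fin k → Fin n → ℂ) (t : Fin n → ℂ), (∀ j, t j ≠ 0) →
        rowSp B' = rowSp (fun i j => X i j * t j) →
        MvPolynomial.eval (fun p => B' p.1 p.2) Q = 0) →
      MvPolynomial.eval (fun p => B p.1 p.2) Q = 0}

/-- The span of the first `j` rows of `g`. -/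
def flg {n : ℕ} (g : Fin n → Fin n → ℂ) (j : ℕ) : Submodule ℂ (Fin n → ℂ) :=
  Submodule.span ℂ (g '' {i | (i : ℕ) < j})

/-- The Schubert variety of codimension `|η|` for the flag of rows of `g`. -/
def schub {k n : ℕ} (η : Fin k → ℕ) (g : Fin n → Fin n → ℂ) :
    Set (Submodule ℂ (Fin n → ℂ)) :=
  {W | finrank ℂ W = k ∧
    ∀ i : Fin k, (i : ℕ) + 1 ≤ finrank ℂ ↥(W ⊓ flg g (n - k + ((i : ℕ) + 1) - η i))}

/-- For a general flag the orbit closure of `X` meets the Schubert variety of shape `η` in `d`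
points (`d = 0` when the intersection is infinite). -/
def GenCount {k n : ℕ} (X : Fin k → Fin n → ℂ) (η : Fin k → ℕ) (d : ℤ) : Prop :=
  ∃ P : MvPolynomial (Fin n × Fin n) ℂ, P ≠ 0 ∧ ∀ g : Fin n → Fin n → ℂ,
    LinearIndependent ℂ g → MvPolynomial.eval (fun p => g p.1 p.2) P ≠ 0 →
    ((orbCl X ∩ schub η g).ncard : ℤ) = d

/-- The base polytope. -/
def basePoly {n : ℕ} (M : Matroid (Fin n)) : Set (Fin n → ℝ) :=
  convexHull ℝ {x | ∃ B : Set (Fin n), M.IsBase B ∧ x = Set.indicator B 1}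

/-- A matroid of rank `k` on the whole ground set. -/
def OfRank {n : ℕ} (k : ℕ) (M : Matroid (Fin n)) : Prop :=
  M.E = Set.univ ∧ M.eRank = k

/-- Inclusion-exclusion over subdivisions of a base polytope into two base polytopes meeting in
a common face. -/
def Valuative {n : ℕ} (k : ℕ) (D : Matroid (Fin n) → ℤ) : Prop :=
  ∀ M M₁ M₂ M₃ : Matroid (Fin n), OfRank k M → OfRank k M₁ → OfRank k M₂ → OfRank k M₃ →
    basePoly M = basePoly M₁ ∪ basePoly M₂ → basePoly M₃ = basePoly M₁ ∩ basePoly M₂ →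
    IsExtreme ℝ (basePoly M₁) (basePoly M₃) → IsExtreme ℝ (basePoly M₂) (basePoly M₃) →
    D M = D M₁ + D M₂ - D M₃

/-- The columns of `X` represent `M`. -/
def Represents {k n : ℕ} (X : Fin k → Fin n → ℂ) (M : Matroid (Fin n)) : Prop :=
  ∀ I : Set (Fin n), M.Indep I ↔ LinearIndepOn ℂ (fun (j : Fin n) (i : Fin k) => X i j) I

/-- Connected: no proper nonempty separator. -/
def Conn {n : ℕ} (M : Matroid (Fin n)) : Prop :=
  ∀ S : Set (Fin n), M.eRk S + M.eRk Sᶜ = M.eRank → S = ∅ ∨ S = Set.univ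

/-- A Young diagram inside the `k × (n - k)` rectangle. -/
def IsShape {k : ℕ} (n : ℕ) (η : Fin k → ℕ) : Prop :=
  Antitone η ∧ ∀ i, η i ≤ n - k

/-- The complement in the rectangle, rotated. -/
def cpl {k : ℕ} (n : ℕ) (η : Fin k → ℕ) : Fin k → ℕ :=
  fun i => n - k - η (Fin.rev i)

end Pool.Agent.MP_8b9287_co.Geo
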