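import Pool.Agent.MP_8b9287_co.Geo.St

namespace Pool.Agent.MP_8b9287_co.Geo

theorem dense_Dense {ι : Type} [Fintype ι] {Q : MvPolynomial ι ℂ} (h : Q ≠ 0) :
    Dense {x : ι → ℂ | MvPolynomial.eval x Q ≠ 0} := by
  refine dense_iff_inter_open.2 fun U hU ⟨x, hx⟩ => ?_
  obtain ⟨u, h1, h2⟩ := isOpen_pi_iff'.1 hU x hx
  by_contra hn
  refine h (MvPolynomial.funext_set u
    (fun i => infinite_of_mem_nhds (x i) ((h1 i).1.mem_nhds (h1 i).2)) fun y hy => ?_)
  rw [map_zero]
  exact not_not.1 fun k => hn ⟨y, h2 hy, k⟩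

theorem sDense : SDense := by
  intro K hK ι _
  have : Countable K := hK.to_subtype
  have : Countable (MvPolynomial ι K) := Cardinal.mk_le_aleph0_iff.1
    (MvPolynomial.cardinalMk_le_max.trans (by simp))
  have h := dense_iInter_of_isOpen (f := fun Q : {Q : MvPolynomial ι K // Q ≠ 0} =>
    {x : ι → ℂ | MvPolynomial.eval x (MvPolynomial.map (algebraMap K ℂ) Q.1) ≠ 0})
    (fun Q => isOpen_ne_fun (MvPolynomial.continuous_eval _) continuous_const)
    fun Q => dense_Dense fun e => Q.2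
      (MvPolynomial.map_injective _ (algebraMap K ℂ).injective (e.trans (map_zero _).symm))
  refine h.mono fun x hx => algebraicIndependent_iff.2 fun Q hQ => not_not.1 fun k => ?_
  refine Set.mem_iInter.1 hx ⟨Q, k⟩ ?_
  rwa [MvPolynomial.eval_map, ← MvPolynomial.aeval_def]

end Pool.Agent.MP_8b9287_co.Geo
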