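import Pool.Agent.MP_8b9287_co.Geo.St

namespace Pool.Agent.MP_8b9287_co.Geo

theorem der_Der (F E : Type) [Field F] [Field E] [Algebra F E] [CharZero F] (ι : Type) (x : ι → E)
    (hx : AlgebraicIndependent F x) (Δ : ι → E) : ∃ δ : Derivation F E E, ∀ i, δ (x i) = Δ i := by
  classical
  have h1 : AlgebraicIndepOn F id (Set.range x) := hx.coe_range
  obtain ⟨t, ht, hb⟩ := exists_isTranscendenceBasis_superset h1
  let A := MvPolynomial t F
  let K := FractionRing A
  let L := IntermediateField.adjoin F (Set.range ((↑) : t → E))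
  let e : K ≃ₐ[F] L := hb.1.aevalEquivField
  let _ : Algebra K E := ((algebraMap L E).comp e.toRingEquiv.toRingHom).toAlgebra
  let _ : Algebra A E := (MvPolynomial.aeval (R := F) ((↑) : t → E)).toRingHom.toAlgebra
  have : IsScalarTower A K E := IsScalarTower.of_algebraMap_eq fun a =>
    (hb.1.aevalEquivField_algebraMap_apply_coe a).symm
  have : IsScalarTower F A E := IsScalarTower.of_algebraMap_eq fun a =>
    ((MvPolynomial.aeval (R := F) ((↑) : t → E)).commutes a).symm
  have : Algebra.IsAlgebraic L E := hb.isAlgebraic_field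
  have : Algebra.IsAlgebraic K E :=
    Algebra.IsAlgebraic.of_ringHom_of_comp_eq e.toRingEquiv.toRingHom (RingHom.id E)
      e.surjective Function.injective_id rfl
  have : CharZero K := algebraRat.charZero K
  have : Algebra.FormallyEtale A K := Algebra.FormallyEtale.of_isLocalization (nonZeroDivisors A)
  have : Algebra.FormallyEtale K E := Algebra.FormallyEtale.of_isSeparable K E
  have : Algebra.FormallyEtale A E := Algebra.FormallyEtale.comp A K E
  have hbc := KaehlerDifferential.isBaseChange_of_formallyEtale F A E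
  let δ : Derivation F A E :=
    MvPolynomial.mkDerivation F fun b : t => Function.extend x Δ 0 (b : E)
  let l : KaehlerDifferential F E →ₗ[E] E := hbc.lift δ.liftKaehlerDifferential
  refine ⟨l.compDer (KaehlerDifferential.D F E), fun i => ?_⟩
  let i0 : t := ⟨x i, ht ⟨i, rfl⟩⟩
  have hx' : x i = algebraMap A E (MvPolynomial.X i0) :=
    (MvPolynomial.aeval_X (R := F) ((↑) : t → E) i0).symm
  have h2 : KaehlerDifferential.D F E (x i) =
      KaehlerDifferential.map F F A E (KaehlerDifferential.D F A (MvPolynomial.X i0)) := by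
    rw [KaehlerDifferential.map_D, ← hx']
  change l (KaehlerDifferential.D F E (x i)) = Δ i
  rw [h2, IsBaseChange.lift_eq, Derivation.liftKaehlerDifferential_comp_D]
  exact (MvPolynomial.mkDerivation_X F _ i0).trans (hx.injective.extend_apply Δ 0 i)

theorem sDer : SDer := by
  intro K ι x hx Δ
  obtain ⟨δ, h⟩ := der_Der K ℂ ι x hx Δ
  exact ⟨δ.restrictScalars ℤ, fun s hs => δ.map_algebraMap ⟨s, hs⟩, h⟩

end Pool.Agent.MP_8b9287_co.Geo
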