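import Pool.Agent.MP_8b9287_co.Geo.St

namespace Pool.Agent.MP_8b9287_co.Geo

/-- Smooth functions satisfying the chain rule for derivations. -/
def Ok_DerDet {r N : ℕ} (f : Mat r N → ℂ) : Prop :=
  ContDiff ℂ 1 f ∧ ∀ (δ : Derivation ℤ ℂ ℂ) (M : Mat r N),
    δ (f M) = fderiv ℂ f M (fun i j => δ (M i j))

theorem int_DerDet {r N : ℕ} (n : ℤ) : Ok_DerDet fun _ : Mat r N => (n : ℂ) :=
  ⟨contDiff_const, fun δ M => by simp⟩

theorem coord_DerDet {r N : ℕ} (i : Fin r) (j : Fin N) : Ok_DerDet fun M : Mat r N => M i j := by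
  let L : Mat r N →L[ℂ] ℂ := (ContinuousLinearMap.proj j : (Fin N → ℂ) →L[ℂ] ℂ).comp
    (ContinuousLinearMap.proj i : Mat r N →L[ℂ] (Fin N → ℂ))
  refine ⟨L.contDiff, fun δ M => ?_⟩
  change _ = fderiv ℂ L M _
  rw [L.fderiv]; rfl

theorem add_DerDet {r N : ℕ} {f g : Mat r N → ℂ} (hf : Ok_DerDet f) (hg : Ok_DerDet g) :
    Ok_DerDet fun M => f M + g M :=
  ⟨hf.1.add hg.1, fun δ M => by
    rw [fderiv_fun_add (hf.1.differentiable one_ne_zero M) (hg.1.differentiable one_ne_zero M),
      map_add, hf.2, hg.2]; rfl⟩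

theorem mul_DerDet {r N : ℕ} {f g : Mat r N → ℂ} (hf : Ok_DerDet f) (hg : Ok_DerDet g) :
    Ok_DerDet fun M => f M * g M :=
  ⟨hf.1.mul hg.1, fun δ M => by
    rw [fderiv_fun_mul (hf.1.differentiable one_ne_zero M) (hg.1.differentiable one_ne_zero M),
      δ.leibniz, hf.2, hg.2]; rfl⟩

theorem sum_DerDet {r N : ℕ} {ι : Type} (s : Finset ι) {f : ι → Mat r N → ℂ}
    (hf : ∀ a, Ok_DerDet (f a)) : Ok_DerDet fun M => ∑ a ∈ s, f a M := by
  classical
  induction s using Finset.induction with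
  | empty => simpa using int_DerDet (r := r) (N := N) 0
  | insert a s ha ih => simpa only [Finset.sum_insert ha] using add_DerDet (hf a) ih

theorem prod_DerDet {r N : ℕ} {ι : Type} (s : Finset ι) {f : ι → Mat r N → ℂ}
    (hf : ∀ a, Ok_DerDet (f a)) : Ok_DerDet fun M => ∏ a ∈ s, f a M := by
  classical
  induction s using Finset.induction with
  | empty => simpa using int_DerDet (r := r) (N := N) 1
  | insert a s ha ih => simpa only [Finset.prod_insert ha] using mul_DerDet (hf a) ih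

theorem sDerDet : SDerDet := by
  intro r N s I J
  simp only [mnr, Matrix.det_apply', Matrix.of_apply]
  exact sum_DerDet _ fun σ => mul_DerDet (int_DerDet _) (prod_DerDet _ fun a => coord_DerDet _ _)

theorem sKStr (hD : SDerDet) : SKStr := by
  classical
  intro r N js M hM τ
  obtain ⟨T, hT⟩ : ∃ T : Fin r → Fin N → ℂ, T = fun s j =>
    if h : (∀ s', js s' ≠ j) ∧ j < js s then τ ⟨(s, j), h⟩ / mnr M id js else 0 := ⟨_, rfl⟩
  obtain ⟨Y, hY⟩ : ∃ Y : Mat r N, Y = fun i j => ∑ s, T s j • M i (js s) := ⟨_, rfl⟩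
  have Y0 : ∀ i s, Y i (js s) = 0 := fun i s => by
    rw [hY]
    exact Finset.sum_eq_zero fun s' _ => by rw [hT]; simp only []; rw [dif_neg fun h => h.1 s rfl, zero_smul]
  have up : ∀ (x : ℂ) (s : Fin r) (j : Fin N), mnr (M + x • Y) id (Function.update js s j) =
      ((Matrix.of fun a b => M a (js b)).updateCol s
        ((fun a => M a j) + x • fun a => Y a j)).det := fun x s j => by
    rw [mnr]
    congr 1
    ext a b
    by_cases h : b = s
    · subst h; simp
    · simp [Matrix.updateCol_ne h, Function.update_of_ne h, Y0]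
  have key : ∀ x : ℂ, Phi js (M + x • Y) = Phi js M + x • τ := fun x => by
    ext ⟨⟨s, j⟩, h⟩
    have u0 := up 0 s j
    have u1 := Matrix.det_updateCol_sum (Matrix.of fun a b => M a (js b)) s (fun s' => T s' j)
    simp only [zero_smul, add_zero] at u0
    have u2 : T s j * mnr M id js = τ ⟨(s, j), h⟩ := by
      rw [hT]; simp only []; rw [dif_pos h, div_mul_cancel₀ _ hM]
    simp only [Phi, Pi.add_apply, Pi.smul_apply, smul_eq_mul]
    rw [up, u0, Matrix.det_updateCol_add, Matrix.det_updateCol_smul, ← u2, hY]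
    exact congrArg (fun z => _ + x * z) u1
  have dP : Differentiable ℂ (Phi js : Mat r N → Forb js → ℂ) :=
    differentiable_pi.2 fun p => (hD r N r _ _).1.differentiable one_ne_zero
  have l1 : HasDerivAt (fun x : ℂ => M + x • Y) Y 0 := by
    simpa using ((hasDerivAt_id (0 : ℂ)).smul_const Y).const_add M
  have l2 : HasDerivAt (fun x : ℂ => Phi js M + x • τ) τ 0 := by
    simpa using ((hasDerivAt_id (0 : ℂ)).smul_const τ).const_add (Phi js M)
  have l3 := (dP M).hasFDerivAt.comp_hasDerivAt_of_eq 0 l1 (by simp)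
  refine ⟨Y, l3.unique ?_⟩
  rwa [show Phi js ∘ (fun x : ℂ => M + x • Y) = _ from funext key]

end Pool.Agent.MP_8b9287_co.Geo
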