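import Pool.Agent.MP_8b9287_co.Geo.St

namespace Pool.Agent.MP_8b9287_co.Geo

theorem span_Disc {n : ℕ} {M : Matroid (Fin n)} (hE : M.E = Set.univ) {I X : Set (Fin n)}
    (hI : M.Indep I) (hIX : I ⊆ X) (h : M.eRk X ≤ I.encard) : X ⊆ M.closure I := by
  intro y hy
  by_contra hc
  have hyI : y ∉ I := fun h' => hc (M.subset_closure I hI.subset_ground h')
  have h1 : M.Indep (insert y I) :=
    (hI.insert_indep_iff_of_notMem hyI).2 ⟨by rw [hE]; trivial, hc⟩
  have h2 := (h1.encard_le_eRk_of_subset (Set.insert_subset hy hIX)).trans h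
  rw [Set.encard_insert_of_notMem hyI] at h2
  obtain ⟨m, hm⟩ := ENat.ne_top_iff_exists.1 I.toFinite.encard_lt_top.ne
  rw [← hm] at h2
  have h3 : m + 1 ≤ m := by exact_mod_cast h2
  omega

theorem gen_Disc {n c : ℕ} {M : Matroid (Fin n)} (hM : OfRank (c + 1) M)
    (hI : ∀ I : Finset (Fin n), I.card ≤ c → M.Indep (I : Set (Fin n))) (H : Finset (Fin n))
    (h1 : M.eRk (H : Set (Fin n)) ≤ c) (h2 : M.eRk (H : Set (Fin n))ᶜ ≤ 1)
    (h3 : ∀ x, x ∉ H → M.Indep {x}) :
    HasBases M fun B => B.card = c + 1 ∧ (B \ H).card = 1 := by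
  intro B
  have hs : (B \ H).card + (B ∩ H).card = B.card := Finset.card_sdiff_add_card_inter B H
  constructor
  · intro hB
    have e1 : B.card = c + 1 := by
      have := hB.encard_eq_eRank
      rw [hM.2, Set.encard_coe_eq_coe_finsetCard] at this
      exact_mod_cast this
    have e2 : (B ∩ H).card ≤ c := by
      have i1 : M.Indep ((B ∩ H : Finset (Fin n)) : Set (Fin n)) :=
        hB.indep.subset (by intro x hx; simp at hx; exact hx.1)
      have := (i1.encard_le_eRk_of_subset (X := (H : Set (Fin n)))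
        (by intro x hx; simp at hx; exact hx.2)).trans h1
      rw [Set.encard_coe_eq_coe_finsetCard] at this
      exact_mod_cast this
    have e3 : (B \ H).card ≤ 1 := by
      have i1 : M.Indep ((B \ H : Finset (Fin n)) : Set (Fin n)) :=
        hB.indep.subset (by intro x hx; simp at hx; exact hx.1)
      have := (i1.encard_le_eRk_of_subset (X := (H : Set (Fin n))ᶜ)
        (by intro x hx; simp at hx; exact hx.2)).trans h2
      rw [Set.encard_coe_eq_coe_finsetCard] at this
      exact_mod_cast this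
    exact ⟨e1, by omega⟩
  · rintro ⟨e1, e2⟩
    obtain ⟨x, hx⟩ := Finset.card_eq_one.1 e2
    have hx' : x ∈ B \ H := by rw [hx]; simp
    rw [Finset.mem_sdiff] at hx'
    have e3 : (B ∩ H).card = c := by omega
    have s1 : (H : Set (Fin n)) ⊆ M.closure ((B ∩ H : Finset (Fin n)) : Set (Fin n)) :=
      span_Disc hM.1 (hI _ e3.le) (by intro y hy; simp at hy; exact hy.2)
        (by rw [Set.encard_coe_eq_coe_finsetCard, e3]; exact h1)
    have s2 : (H : Set (Fin n))ᶜ ⊆ M.closure {x} :=
      span_Disc hM.1 (h3 x hx'.2) (by intro y hy; rw [hy]; simpa using hx'.2)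
        (by rw [Set.encard_singleton]; exact h2)
    have sp : M.Spanning (B : Set (Fin n)) := by
      rw [Matroid.spanning_iff_ground_subset_closure (by rw [hM.1]; exact Set.subset_univ _)]
      intro y _
      by_cases hy : y ∈ H
      · exact M.closure_mono (by intro z hz; simp at hz; exact hz.1) (s1 hy)
      · exact M.closure_mono (by intro z hz; rw [hz]; simpa using hx'.1) (s2 hy)
    obtain ⟨B', hB', hsub⟩ := sp.exists_isBase_subset
    have : B' = B := B'.toFinite.eq_of_subset_of_encard_le hsub (by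
      rw [hB'.encard_eq_eRank, hM.2, Set.encard_coe_eq_coe_finsetCard, e1])
    rw [← this]
    exact hB'

theorem rk_Disc {n c : ℕ} {M : Matroid (Fin n)}
    (hI : ∀ I : Finset (Fin n), I.card ≤ c → M.Indep (I : Set (Fin n))) (T : Finset (Fin n))
    {a : ℕ} (ha : M.eRk (T : Set (Fin n)) = a) : c ≤ a ∨ a = T.card := by
  rcases le_total c T.card with h | h
  · obtain ⟨U, hU, hc⟩ := Finset.exists_subset_card_eq h
    have := (hI U hc.le).encard_le_eRk_of_subset (X := (T : Set (Fin n))) (by exact_mod_cast hU)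
    rw [ha, Set.encard_coe_eq_coe_finsetCard, hc] at this
    exact Or.inl (by exact_mod_cast this)
  · have := (hI T h).eRk_eq_encard
    rw [ha, Set.encard_coe_eq_coe_finsetCard] at this
    exact Or.inr (by exact_mod_cast this)

theorem side_Disc {n c : ℕ} {M : Matroid (Fin n)} (hM : OfRank (c + 1) M)
    (hI : ∀ I : Finset (Fin n), I.card ≤ c → M.Indep (I : Set (Fin n))) (hc : 1 ≤ c)
    (H : Finset (Fin n)) (h1 : M.eRk (H : Set (Fin n)) = c) (h2 : M.eRk (H : Set (Fin n))ᶜ = 1)
    (h3 : H.card < n) :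
    ∃ H : Finset (Fin n), c ≤ H.card ∧ H.card < n ∧
      HasBases M fun B => B.card = c + 1 ∧ (B \ H).card = 1 := by
  refine ⟨H, ?_, h3, gen_Disc hM hI H h1.le h2.le fun x _ => ?_⟩
  · have := M.eRk_le_encard (H : Set (Fin n))
    rw [h1, Set.encard_coe_eq_coe_finsetCard] at this
    exact_mod_cast this
  · simpa using hI {x} (by simpa using hc)

theorem sDisc : SDisc := by
  classical
  intro n c M hn hM hI hC
  rcases Nat.eq_zero_or_pos c with rfl | hc
  · have hH : ((Finset.univ.filter fun x => x ∈ M.loops : Finset (Fin n)) : Set (Fin n)) =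
        M.loops := by ext x; simp
    refine ⟨Finset.univ.filter fun x => x ∈ M.loops, Nat.zero_le _, ?_,
      gen_Disc hM hI _ (by rw [hH]; simp) ?_ fun x hx => ?_⟩
    · by_contra hcon
      have h1 : (Finset.univ.filter fun x => x ∈ M.loops) = Finset.univ :=
        Finset.eq_univ_of_card _ (le_antisymm (Finset.card_le_univ _) (by simpa using hcon))
      rw [h1, Finset.coe_univ] at hH
      have h2 := M.eRk_loops
      rw [← hH, ← hM.1, Matroid.eRk_ground, hM.2] at h2
      simp at h2
    · exact (M.eRk_le_eRank _).trans (by rw [hM.2]; simp)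
    · have h1 : x ∉ M.loops := by simpa using hx
      exact Matroid.indep_singleton.2
        ((Matroid.not_isLoop_iff (by rw [hM.1]; trivial)).1 h1)
  · unfold Conn at hC
    push Not at hC
    obtain ⟨S, hS, hne, hnu⟩ := hC
    obtain ⟨H, rfl⟩ : ∃ H : Finset (Fin n), (H : Set (Fin n)) = S :=
      ⟨S.toFinite.toFinset, S.toFinite.coe_toFinset⟩
    have hcc : ((Hᶜ : Finset (Fin n)) : Set (Fin n)) = (H : Set (Fin n))ᶜ := by simp
    have fin : ∀ X : Set (Fin n), ∃ a : ℕ, M.eRk X = a := fun X => by
      obtain ⟨a, ha⟩ := ENat.ne_top_iff_exists.1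
        ((M.eRk_le_encard X).trans_lt X.toFinite.encard_lt_top).ne
      exact ⟨a, ha.symm⟩
    have pos : ∀ (X : Set (Fin n)) (a : ℕ), X.Nonempty → M.eRk X = a → 1 ≤ a := by
      rintro X a ⟨x, hx⟩ ha
      have i1 : M.Indep {x} := by simpa using hI {x} (by rw [Finset.card_singleton]; exact hc)
      have := i1.encard_le_eRk_of_subset (X := X) (by simpa using hx)
      rw [ha, Set.encard_singleton] at this
      exact_mod_cast this
    obtain ⟨a, ha⟩ := fin (H : Set (Fin n))
    obtain ⟨b, hb⟩ := fin (H : Set (Fin n))ᶜ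
    have hab : a + b = c + 1 := by
      rw [ha, hb, hM.2] at hS
      exact_mod_cast hS
    have hn2 : ((H : Set (Fin n))ᶜ).Nonempty := Set.nonempty_compl.2 hnu
    have a1 := pos _ a hne ha
    have b1 := pos _ b hn2 hb
    have r1 := rk_Disc hI H ha
    have r2 := rk_Disc hI Hᶜ (hcc ▸ hb)
    have cs : H.card + Hᶜ.card = n := by simp
    have p1 : 0 < H.card := Finset.card_pos.2 (by exact_mod_cast hne)
    have p2 : 0 < Hᶜ.card := Finset.card_pos.2 (by rw [← hcc] at hn2; exact_mod_cast hn2)
    by_cases hca : c ≤ a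
    · have e1 : a = c := by omega
      have e2 : b = 1 := by omega
      exact side_Disc hM hI hc H (by rw [ha, e1]) (by rw [hb, e2]; rfl) (by omega)
    · have e1 : b = c := by omega
      have e2 : a = 1 := by omega
      exact side_Disc hM hI hc Hᶜ (by rw [hcc, hb, e1])
        (by rw [hcc, compl_compl, ha, e2]; rfl) (by omega)

end Pool.Agent.MP_8b9287_co.Geo
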