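import Pool.Agent.MP_8b9287_co.Geo.St

namespace Pool.Agent.MP_8b9287_co.Geo

open Module

/-- The subspace is stable under the entrywise derivation. -/
def Stab_E0 {n : ℕ} (δ : Derivation ℤ ℂ ℂ) (U : Submodule ℂ (Fin n → ℂ)) : Prop :=
  ∀ u ∈ U, (fun j => δ (u j)) ∈ U

theorem span_E0 {n : ℕ} (δ : Derivation ℤ ℂ ℂ) (g : Fin n → Fin n → ℂ) (I : Set (Fin n))
    (h : ∀ i ∈ I, ∀ j, δ (g i j) = 0) : Stab_E0 δ (Submodule.span ℂ (g '' I)) := by
  intro u hu
  induction hu using Submodule.span_induction with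
  | mem x hx =>
    obtain ⟨i, hi, rfl⟩ := hx
    have : (fun j => δ (g i j)) = 0 := funext (h i hi)
    rw [this]
    exact Submodule.zero_mem _
  | zero =>
    have : (fun j : Fin n => δ ((0 : Fin n → ℂ) j)) = 0 := by ext j; simp
    rw [this]
    exact Submodule.zero_mem _
  | add x y _ _ hx hy =>
    have : (fun j => δ ((x + y) j)) = (fun j => δ (x j)) + fun j => δ (y j) := by ext j; simp
    rw [this]
    exact Submodule.add_mem _ hx hy
  | smul a x hx hx' =>
    have : (fun j => δ ((a • x) j)) = a • (fun j => δ (x j)) + δ a • x := by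
      ext j
      simp [mul_comm]
    rw [this]
    exact Submodule.add_mem _ (Submodule.smul_mem _ _ hx') (Submodule.smul_mem _ _ hx)

theorem range_E0 {n m : ℕ} (δ : Derivation ℤ ℂ ℂ) (φ : Fin n → ℂ) (π : Fin n → Fin m)
    (h : ∀ j, δ (φ j) = 0) : Stab_E0 δ (LinearMap.range (Emb φ π)) := by
  rintro _ ⟨w, rfl⟩
  refine ⟨fun j => δ (w j), ?_⟩
  ext i
  simp [Emb_apply, h]

theorem sup_E0 {n : ℕ} {δ : Derivation ℤ ℂ ℂ} {U V : Submodule ℂ (Fin n → ℂ)}
    (hU : Stab_E0 δ U) (hV : Stab_E0 δ V) : Stab_E0 δ (U ⊔ V) := by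
  intro u hu
  obtain ⟨x, hx, y, hy, rfl⟩ := Submodule.mem_sup.1 hu
  have : (fun j => δ ((x + y) j)) = (fun j => δ (x j)) + fun j => δ (y j) := by ext j; simp
  rw [this]
  exact Submodule.add_mem_sup (hU x hx) (hV y hy)

theorem top_E0 {n : ℕ} {S : Set ℂ} {g : Fin n → Fin n → ℂ} (hF : Free S g) (i₀ : Fin n)
    (U : Submodule ℂ (Fin n → ℂ))
    (hU : ∀ δ : Derivation ℤ ℂ ℂ, (∀ i, i ≠ i₀ → ∀ j, δ (g i j) = 0) → Stab_E0 δ U)
    (h : g i₀ ∈ U) : finrank ℂ U = n := by
  have : U = ⊤ := by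
    refine Submodule.eq_top_iff'.2 fun x => ?_
    obtain ⟨δ, -, h1⟩ := hF fun i j => if i = i₀ then x j else 0
    have h2 := hU δ (fun i hi j => by rw [h1, if_neg hi]) _ h
    have h3 : (fun j => δ (g i₀ j)) = x := by ext j; rw [h1, if_pos rfl]
    rwa [h3] at h2
  rw [this, finrank_top, finrank_fin_fun]

theorem le_E0 {n : ℕ} (g : Fin n → Fin n → ℂ) (I : Finset (Fin n)) :
    finrank ℂ (Submodule.span ℂ (g '' (I : Set (Fin n)))) ≤ I.card := by
  classical
  rw [← Finset.coe_image]
  exact (finrank_span_finset_le_card _).trans Finset.card_image_le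

theorem sFreeLI : SFreeLI := by
  intro n S g hF
  refine ⟨linearIndependent_iff_notMem_span.2 fun i hi => ?_, fun i j h => ?_⟩
  · have e : (Set.univ \ {i} : Set (Fin n)) = (Finset.univ.erase i : Finset (Fin n)) := by
      ext k
      simp
    rw [e] at hi
    have h1 := top_E0 hF i _ (fun δ hδ => span_E0 δ g _ fun k hk =>
      hδ k (Finset.mem_erase.1 (Finset.mem_coe.1 hk)).1) hi
    have h2 := le_E0 g (Finset.univ.erase i)
    rw [Finset.card_erase_of_mem (Finset.mem_univ _), Finset.card_univ, Fintype.card_fin] at h2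
    have := i.2
    omega
  · obtain ⟨δ, -, h1⟩ := hF fun _ _ => 1
    have := h1 i j
    rw [h, map_zero] at this
    exact zero_ne_one this

theorem sE0 (h : SFreeLI) : SE0 := by
  intro n N p S g π z hn hp hz hπ hF
  obtain ⟨hL, h0⟩ := h n S g hF
  set I : Finset (Fin n) := Finset.univ.filter fun i => 1 ≤ (i : ℕ) ∧ (i : ℕ) < p with hI
  have e : mid g p = Submodule.span ℂ (g '' (I : Set (Fin n))) := by
    unfold mid
    congr 2
    ext i
    simp [hI]
  have hc : I.card = p - 1 := by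
    have : I.map Fin.valEmbedding = Finset.Ico 1 p := by
      ext k
      simp only [hI, Finset.mem_map, Finset.mem_filter, Finset.mem_univ, true_and,
        Fin.valEmbedding_apply, Finset.mem_Ico]
      constructor
      · rintro ⟨i, hi, rfl⟩
        exact hi
      · intro hk
        exact ⟨⟨k, by omega⟩, hk, rfl⟩
    rw [← Finset.card_map Fin.valEmbedding, this, Nat.card_Ico]
  have hr : finrank ℂ (LinearMap.range (Emb (g z) π)) = N + 1 := by
    rw [LinearMap.finrank_range_of_inj (Emb_inj (h0 z) hπ), finrank_fin_fun]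
  have hm : finrank ℂ (mid g p) = p - 1 := by
    rw [e, Set.image_eq_range, ← hc]
    exact (finrank_span_eq_card (hL.comp (Subtype.val : I → Fin n) Subtype.val_injective)).trans
      (Fintype.card_coe I)
  have hd : Disjoint (LinearMap.range (Emb (g z) π)) (mid g p) := by
    refine Submodule.disjoint_def.2 fun x hx hx' => ?_
    rw [e] at hx'
    obtain ⟨c, hc'⟩ := (Submodule.mem_span_image_finset_iff_exists_fun' ℂ).1 hx'
    by_contra hne
    obtain ⟨i₀, hi₀, h1⟩ : ∃ i ∈ I, c i ≠ 0 := by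
      by_contra h2
      push Not at h2
      exact hne (by rw [← hc']; exact Finset.sum_eq_zero fun i hi => by rw [h2 i hi, zero_smul])
    have hz' : z ≠ i₀ := by
      rintro rfl
      have := (Finset.mem_filter.1 hi₀).2.1
      omega
    have h2 : g i₀ ∈ LinearMap.range (Emb (g z) π) ⊔
        Submodule.span ℂ (g '' ((I.erase i₀ : Finset (Fin n)) : Set (Fin n))) := by
      rw [← Finset.add_sum_erase _ _ hi₀] at hc'
      have h3 : c i₀ • g i₀ = x - ∑ i ∈ I.erase i₀, c i • g i := eq_sub_of_add_eq hc'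
      rw [← Submodule.smul_mem_iff _ h1, h3]
      exact Submodule.sub_mem _ (Submodule.mem_sup_left hx) (Submodule.mem_sup_right
        (Submodule.sum_mem _ fun i hi => Submodule.smul_mem _ _
          (Submodule.subset_span ⟨i, Finset.mem_coe.2 hi, rfl⟩)))
    have h3 := top_E0 hF i₀ _ (fun δ hδ => sup_E0 (range_E0 δ _ π (hδ z hz'))
      (span_E0 δ g _ fun k hk => hδ k (Finset.mem_erase.1 (Finset.mem_coe.1 hk)).1)) h2
    have h4 := Submodule.finrank_add_le_finrank_add_finrank (LinearMap.range (Emb (g z) π))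
      (Submodule.span ℂ (g '' ((I.erase i₀ : Finset (Fin n)) : Set (Fin n))))
    have h5 := le_E0 g (I.erase i₀)
    have h6 := Finset.card_pos.2 ⟨i₀, hi₀⟩
    rw [Finset.card_erase_of_mem hi₀] at h5
    omega
  refine ⟨hd, codisjoint_iff.2 (Submodule.eq_top_of_finrank_eq ?_)⟩
  have h1 := Submodule.finrank_sup_add_finrank_inf_eq (LinearMap.range (Emb (g z) π)) (mid g p)
  rw [hd.eq_bot, finrank_bot, hr, hm] at h1
  rw [finrank_fin_fun]
  omega

end Pool.Agent.MP_8b9287_co.Geo
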