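import Pool.Agent.MP_8b9287_co.Geo.St

/-! The flag induced on the embedded space. -/

namespace Pool.Agent.MP_8b9287_co.Geo

theorem one_E1 {n m : ℕ} (φ : Fin n → ℂ) (π : Fin n → Fin m) : Emb φ π 1 = φ := by
  ext i
  rw [Emb_apply, Pi.one_apply, mul_one]

theorem sE1a : SE1a := by
  intro n N p g π z G hn hp hz hE hd hG j hj
  apply le_antisymm
  · have key : flg g j ≤ (FS G (j - p)).map (Emb (g z) π) ⊔ mid g p := by
      refine Submodule.span_le.2 ?_
      rintro _ ⟨i, hi, rfl⟩
      have hi' : (i : ℕ) < j := hi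
      by_cases h0 : (i : ℕ) = 0
      · obtain rfl : i = z := Fin.ext (h0.trans hz.symm)
        exact Submodule.mem_sup_left
          ⟨1, Submodule.subset_span (Set.mem_insert _ _), one_E1 _ _⟩
      by_cases h1 : (i : ℕ) < p
      · exact Submodule.mem_sup_right (Submodule.subset_span ⟨i, ⟨by omega, h1⟩, rfl⟩)
      · have hq : (i : ℕ) - p < N := by have := i.2; omega
        have a := hG ⟨i - p, hq⟩ i (by simp only; omega)
        have b : G ⟨i - p, hq⟩ ∈ FS G (j - p) := Submodule.subset_span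
          (Set.mem_insert_of_mem _ ⟨_, show (i : ℕ) - p < j - p by omega, rfl⟩)
        have := Submodule.add_mem_sup (Submodule.mem_map_of_mem (f := Emb (g z) π) b) a
        rwa [add_sub_cancel] at this
    intro w hw
    obtain ⟨_, ⟨w', h1, rfl⟩, u, h2, e⟩ := Submodule.mem_sup.1 (key hw)
    have e' : Emb (g z) π (w - w') = u := by rw [map_sub, ← e, add_sub_cancel_left]
    have h0 := Submodule.disjoint_def.1 hd u ⟨_, e'⟩ h2
    rw [h0, add_zero] at e
    exact hE e ▸ h1
  · refine Submodule.span_le.2 ?_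
    rintro _ (rfl | ⟨q, hq, rfl⟩)
    · show Emb (g z) π 1 ∈ flg g j
      rw [one_E1]
      exact Submodule.subset_span ⟨z, show (z : ℕ) < j by omega, rfl⟩
    · have hq' : (q : ℕ) < j - p := hq
      have hi : p + q < n := by have := q.2; omega
      have a := hG q ⟨p + q, hi⟩ rfl
      have b : mid g p ≤ flg g j :=
        Submodule.span_mono (Set.image_mono fun i k => show (i : ℕ) < j by have := k.2; omega)
      have c : g ⟨p + q, hi⟩ ∈ flg g j :=
        Submodule.subset_span ⟨_, show p + q < j by omega, rfl⟩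
      have := Submodule.sub_mem _ c (b a)
      rwa [sub_sub_cancel] at this

theorem der_E1 {n p : ℕ} {g : Fin n → Fin n → ℂ} {δ : Derivation ℤ ℂ ℂ}
    (h : ∀ i : Fin n, (i : ℕ) < p → ∀ j, δ (g i j) = 0) {u : Fin n → ℂ} (hu : u ∈ mid g p) :
    (fun j => δ (u j)) ∈ mid g p := by
  induction hu using Submodule.span_induction with
  | mem x hx =>
    obtain ⟨i, hi, rfl⟩ := hx
    rw [funext (h i hi.2)]
    exact Submodule.zero_mem _
  | zero =>
    simp only [Pi.zero_apply, map_zero]
    exact Submodule.zero_mem _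
  | add x y _ _ a b =>
    simp only [Pi.add_apply, map_add]
    exact Submodule.add_mem _ a b
  | smul c x a b =>
    have e : (fun j => δ ((c • x) j)) = c • (fun j => δ (x j)) + δ c • x := by
      ext j
      simp [mul_comm]
    rw [e]
    exact Submodule.add_mem _ (Submodule.smul_mem _ _ b) (Submodule.smul_mem _ _ a)

theorem sE1b : SE1b := by
  intro n N p S g π z G hn hp hz hE hd hG hF Δ
  obtain ⟨δ, h1, h2⟩ := hF fun i => if h : p ≤ (i : ℕ) then
    Emb (g z) π (Δ ⟨i - p, by have := i.2; omega⟩) else 0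
  have h3 : ∀ i : Fin n, (i : ℕ) < p → ∀ j, δ (g i j) = 0 := fun i hi j => by
    rw [h2, dif_neg (not_le.2 hi), Pi.zero_apply]
  refine ⟨δ, h1, fun q => congrFun ?_⟩
  have hi : p + q < n := by have := q.2; omega
  have a := der_E1 h3 (hG q ⟨p + q, hi⟩ rfl)
  have e : Emb (g z) π (Δ q - fun j => δ (G q j)) =
      fun j => δ ((g ⟨p + q, hi⟩ - Emb (g z) π (G q)) j) := by
    ext j
    rw [Pi.sub_apply, map_sub δ, h2, dif_pos (Nat.le_add_right _ _)]
    simp [Emb_apply, h3 z (by omega) j, mul_sub]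
  have h0 := Submodule.disjoint_def.1 hd _ ⟨_, e⟩ a
  rw [h0] at e
  exact (sub_eq_zero.1 (hE (e.trans (map_zero _).symm))).symm

end Pool.Agent.MP_8b9287_co.Geo
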