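import Pool.Agent.MP_8b9287_co.Geo.St

namespace Pool.Agent.MP_8b9287_co.Geo

open Module

theorem FS_eq_E2 {N m q : ℕ} (G : Fin N → Fin m → ℂ) (h : q ≤ N) :
    FS G q = Submodule.span ℂ (Set.range
      ((Fin.cons 1 G : Fin (N + 1) → Fin m → ℂ) ∘ Fin.castLE (Nat.succ_le_succ h))) := by
  unfold FS
  congr 1
  ext w
  constructor
  · rintro (rfl | ⟨i, hi, rfl⟩)
    · exact ⟨0, rfl⟩
    · exact ⟨⟨i + 1, Nat.succ_lt_succ hi⟩, rfl⟩
  · rintro ⟨⟨_ | i, hi⟩, rfl⟩
    · exact Or.inl rfl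
    · exact Or.inr ⟨⟨i, by omega⟩, Nat.lt_of_succ_lt_succ hi, rfl⟩

theorem rank_E2 {V W : Type} [AddCommGroup V] [Module ℂ V] [FiniteDimensional ℂ V]
    [AddCommGroup W] [Module ℂ W] (f : V →ₗ[ℂ] W) (S : Submodule ℂ V) :
    finrank ℂ ↥(LinearMap.ker f ⊓ S) + finrank ℂ (S.map f) = finrank ℂ S := by
  have h := LinearMap.finrank_range_add_finrank_ker (f.domRestrict S)
  rw [LinearMap.range_domRestrict, LinearMap.ker_domRestrict,
    ← Submodule.finrank_map_subtype_eq S, Submodule.map_comap_subtype, inf_comm] at h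
  omega

theorem sE2 : SE2 := by
  intro n N r q E f G F M hq hE h1 hT hF hM
  have hli : LinearIndependent ℂ (Fin.cons 1 G : Fin (N + 1) → Fin (N + 1) → ℂ) := by
    refine linearIndependent_of_top_le_span_of_card_eq_finrank ?_ (by simp)
    rw [← hT, FS_eq_E2 G le_rfl]
    exact Submodule.span_mono (Set.range_comp_subset_range _ _)
  have hr : finrank ℂ (FS G q) = q + 1 := by
    rw [FS_eq_E2 G hq, finrank_span_eq_card (hli.comp _ (Fin.castLE_injective _)), Fintype.card_fin]
  have hm : (FS G q).map f = colSp M q := by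
    unfold FS colSp
    rw [Submodule.map_span, Set.image_insert_eq, h1, Submodule.span_insert_zero, Set.image_image]
    congr 2
    funext j i
    exact (hM i j).symm
  rw [Submodule.map_inf_eq_map_inf_comap, hF,
    ← (Submodule.equivMapOfInjective E hE _).finrank_eq, ← hm, rank_E2, hr]

end Pool.Agent.MP_8b9287_co.Geo
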