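import Pool.Agent.MP_8b9287_co.Geo.St

namespace Pool.Agent.MP_8b9287_co.Geo

open Module

theorem mono_E3 {r N : ℕ} (M : Mat r N) {q q' : ℕ} (h : q ≤ q') :
    finrank ℂ (colSp M q) ≤ finrank ℂ (colSp M q') :=
  Submodule.finrank_mono (Submodule.span_mono (Set.image_mono fun _ hj => lt_of_lt_of_le hj h))

theorem zero_E3 {r N : ℕ} (M : Mat r N) : finrank ℂ (colSp M 0) = 0 := by
  have : colSp M 0 = ⊥ := by simp [colSp]
  rw [this, finrank_bot]

theorem top_E3 {r N : ℕ} (M : Mat r N) (q : ℕ) : finrank ℂ (colSp M q) ≤ r :=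
  (Submodule.finrank_le _).trans_eq (by simp)

theorem succ_E3 {r N : ℕ} (M : Mat r N) (q : ℕ) :
    finrank ℂ (colSp M (q + 1)) ≤ finrank ℂ (colSp M q) + 1 := by
  classical
  obtain ⟨v, hv⟩ : ∃ v : Fin r → ℂ, ∀ j : Fin N, (j : ℕ) = q → (fun i => M i j) = v := by
    by_cases h : q < N
    · exact ⟨fun i => M i ⟨q, h⟩, fun j hj => by subst hj; rfl⟩
    · exact ⟨0, fun j hj => absurd (hj ▸ j.2) h⟩
  have h1 : colSp M (q + 1) ≤ colSp M q ⊔ Submodule.span ℂ {v} := by
    refine Submodule.span_le.2 ?_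
    rintro _ ⟨j, hj, rfl⟩
    rcases Nat.lt_succ_iff_lt_or_eq.1 hj with h | h
    · exact Submodule.mem_sup_left (Submodule.subset_span ⟨j, h, rfl⟩)
    · exact Submodule.mem_sup_right (Submodule.subset_span (hv j h))
  refine (Submodule.finrank_mono h1).trans
    ((Submodule.finrank_add_le_finrank_add_finrank _ _).trans (Nat.add_le_add_left ?_ _))
  exact (finrank_span_le_card ({v} : Set (Fin r → ℂ))).trans (by simp)

theorem add_E3 {r N : ℕ} (M : Mat r N) (q x : ℕ) :
    finrank ℂ (colSp M (q + x)) ≤ finrank ℂ (colSp M q) + x := by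
  induction x with
  | zero => exact le_rfl
  | succ x ih => exact (succ_E3 M (q + x)).trans (Nat.add_le_add_right ih 1)

theorem comb_E3 {c r : ℕ} (d : ℕ → ℕ) (hm : ∀ q q', q ≤ q' → d q ≤ d q') (h0 : d 0 = 0)
    (ha : ∀ q x, d (q + x) ≤ d q + x) (hr : ∀ q, d q ≤ r) (lam : Fin c → ℕ) (hl : Antitone lam)
    (hlr : ∀ a, lam a ≤ r) :
    (∀ a : Fin c, d (r + a + 1 - lam a) ≤ r - lam a) ↔
      ∀ s : Fin r, d (s + (Finset.univ.filter fun a : Fin c => r ≤ (s : ℕ) + lam a).card) ≤ s := by
  constructor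
  · intro h s
    rcases (Finset.univ.filter fun a : Fin c => r ≤ (s : ℕ) + lam a).eq_empty_or_nonempty with
      h1 | h1
    · have := ha 0 s
      rw [h1, Finset.card_empty, add_zero]
      rwa [h0, zero_add] at this
    · obtain ⟨a, h2, h3⟩ := Finset.exists_max_image _ id h1
      have h4 : (Finset.univ.filter fun a : Fin c => r ≤ (s : ℕ) + lam a).card ≤ a + 1 := by
        rw [← Fin.card_Iic]
        exact Finset.card_le_card fun b hb => Finset.mem_Iic.2 (h3 b hb)
      have h5 := (Finset.mem_filter.1 h2).2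
      have h6 := h a
      have h7 := hlr a
      have h8 := ha (r + a + 1 - lam a) (s - (r - lam a))
      refine (hm _ (r + a + 1 - lam a + (s - (r - lam a))) (by omega)).trans (by omega)
  · intro h a
    rcases Nat.eq_zero_or_pos (lam a) with h1 | h1
    · rw [h1]
      exact hr _
    · have h7 := hlr a
      have h2 := h ⟨r - lam a, by omega⟩
      have h4 : (a : ℕ) + 1 ≤
          (Finset.univ.filter fun b : Fin c => r ≤ r - lam a + lam b).card := by
        rw [← Fin.card_Iic]
        refine Finset.card_le_card fun b hb => Finset.mem_filter.2 ⟨Finset.mem_univ _, ?_⟩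
        have := hl (Finset.mem_Iic.1 hb)
        omega
      exact (hm _ _ (by simp only; omega)).trans h2

theorem sE3 (hR : SRk) : SE3 := by
  intro n c r p η g W M hn hp hr hη h0 hW hj
  have hle : ∀ a : Fin c, η a.succ ≤ r + p - 1 := fun a => by
    have := hη (Fin.zero_le a.succ)
    omega
  have key : W ∈ schub η g ↔ ∀ a : Fin c,
      finrank ℂ (colSp M (r + p + a + 1 - η a.succ - p)) + a + 1 ≤
        r + p + a + 1 - η a.succ - p := by
    simp only [schub, Set.mem_ofPred_eq, hW, true_and]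
    rw [Fin.forall_fin_succ, and_iff_right]
    · refine forall_congr' fun a => ?_
      have h1 := hle a
      have h2 := a.2
      have e : n - (c + 1) + (((a.succ : Fin (c + 1)) : ℕ) + 1) - η a.succ =
          r + p + a + 1 - η a.succ := by
        rw [Fin.val_succ]
        omega
      have h3 := hj (r + p + a + 1 - η a.succ) (by omega) (by omega)
      rw [e, Fin.val_succ]
      omega
    · have e : n - (c + 1) + (((0 : Fin (c + 1)) : ℕ) + 1) - η 0 = 1 := by
        rw [Fin.val_zero]
        omega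
      have h3 := hj 1 le_rfl (by omega)
      rw [Nat.sub_eq_zero_of_le hp, zero_E3] at h3
      rw [e, Fin.val_zero]
      omega
  refine ⟨fun js hl hJ => ?_, fun ⟨a, ha⟩ h => ?_⟩
  · have h1 : Om js M ↔ ∀ s : Fin r, finrank ℂ (colSp M
        (s + (Finset.univ.filter fun a : Fin c => r ≤ (s : ℕ) + η a.succ).card)) ≤ s :=
      forall_congr' fun s => (hR r (r + c) M (js s) s).trans (by rw [hJ s])
    rw [key, h1, ← comb_E3 (fun q => finrank ℂ (colSp M q)) (fun _ _ => mono_E3 M) (zero_E3 M) (add_E3 M)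
      (top_E3 M) (fun a : Fin c => η a.succ) (fun _ _ h => hη (Fin.succ_le_succ_iff.2 h)) hl]
    refine forall_congr' fun a => ?_
    have h2 := hl a
    rw [show r + p + a + 1 - η a.succ - p = r + a + 1 - η a.succ by omega]
    omega
  · have := key.1 h a
    omega

end Pool.Agent.MP_8b9287_co.Geo
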