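import Pool.Agent.MP_8b9287_co.Geo.St

/-! From fillings to patterns. -/

namespace Pool.Agent.MP_8b9287_co.Geo

open Finset

open Classical in
/-- the columns whose entry in row `k` is at most `i` -/
noncomputable def col_F1 {c : ℕ} (lam : Fin c → ℕ) (T : Box lam → ℕ) (k i : ℕ) : Finset (Fin c) :=
  univ.filter fun a => ∃ h : k < lam a, T ⟨a, ⟨k, h⟩⟩ ≤ i

theorem mem_F1 {c : ℕ} {lam : Fin c → ℕ} {T : Box lam → ℕ} {k i : ℕ} {a : Fin c} :
    a ∈ col_F1 lam T k i ↔ ∃ h : k < lam a, T ⟨a, ⟨k, h⟩⟩ ≤ i := by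
  simp [col_F1]

theorem LTab_F1 {c : ℕ} (lam : Fin c → ℕ) (T : Box lam → ℕ) (i m : ℕ) :
    LTab lam T i m = m + (col_F1 lam T (i - m) i).card := by
  unfold LTab
  congr 1
  generalize i - m = k
  refine card_bij (fun b _ => b.1) ?_ ?_ ?_
  · rintro ⟨a, k', h⟩ hb
    obtain ⟨rfl, h2⟩ : k' = k ∧ _ := (mem_filter.1 hb).2
    exact mem_F1.2 ⟨h, h2⟩
  · rintro ⟨a, k', h⟩ hb ⟨a', k'', h'⟩ hb' (rfl : a = a')
    obtain ⟨rfl, -⟩ : k' = k ∧ _ := (mem_filter.1 hb).2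
    obtain ⟨rfl, -⟩ : k'' = k' ∧ _ := (mem_filter.1 hb').2
    rfl
  · intro a ha
    obtain ⟨h, h2⟩ := mem_F1.1 ha
    exact ⟨⟨a, k, h⟩, mem_filter.2 ⟨mem_univ _, rfl, h2⟩, rfl⟩

theorem sF1 : SF1 := by
  rintro c r lam T ⟨h1, -, h3⟩
  refine ⟨fun i m hm _ => ?_, fun m hm => ?_⟩
  · simp only [LTab_F1]
    rw [show i + 1 - m = i - m + 1 by omega, show i + 1 - (m + 1) = i - m by omega]
    generalize i - m = k
    have a1 : col_F1 lam T (k + 1) (i + 1) ⊆ col_F1 lam T k i := fun a ha => by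
      obtain ⟨h, h2⟩ := mem_F1.1 ha
      have := h3 ⟨a, k, by omega⟩ ⟨a, k + 1, h⟩ rfl (Nat.lt_succ_self k)
      exact mem_F1.2 ⟨by omega, by omega⟩
    have a2 : col_F1 lam T k i ⊆ col_F1 lam T k (i + 1) := fun a ha =>
      mem_F1.2 ((mem_F1.1 ha).imp fun _ h => h.trans (Nat.le_succ i))
    have := card_le_card a1
    have := card_le_card a2
    omega
  · rw [LTab_F1]
    congr 2
    ext a
    rw [mem_F1, mem_filter]
    refine ⟨fun ⟨h, _⟩ => ⟨mem_univ _, by omega⟩, fun ⟨_, h⟩ => ⟨by omega, ?_⟩⟩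
    exact Nat.le_sub_one_of_lt (h1 _)

theorem le_F1 {c r : ℕ} {lam : Fin c → ℕ} {T T' : Box lam → ℕ} (hl : Antitone lam)
    (hT : T ∈ SS lam r) (hT' : T' ∈ SS lam r)
    (h : ∀ i m, m ≤ i → i < r → LTab lam T i m = LTab lam T' i m) (b : Box lam) : T' b ≤ T b := by
  obtain ⟨a, k, hk⟩ := b
  have low : ∀ k (hk : k < lam a), k ≤ T ⟨a, k, hk⟩ := fun k => by
    induction k with
    | zero => exact fun _ => Nat.zero_le _
    | succ k ih =>
      intro hk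
      have h1 := hT.2.2 ⟨a, k, by omega⟩ ⟨a, k + 1, hk⟩ rfl (Nat.lt_succ_self k)
      have h2 := ih (by omega)
      omega
  have ls : ∀ {S : Box lam → ℕ}, S ∈ SS lam r → ∀ i,
      IsLowerSet (col_F1 lam S k i : Set (Fin c)) := fun {S} hS i x y hxy hx => by
    obtain ⟨h1, h2⟩ := mem_F1.1 hx
    rcases hxy.eq_or_lt with rfl | l
    · exact hx
    · exact mem_F1.2 ⟨h1.trans_le (hl hxy),
        (hS.2.1 ⟨y, k, h1.trans_le (hl hxy)⟩ ⟨x, k, h1⟩ rfl l).trans h2⟩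
  obtain ⟨i, hi⟩ : ∃ i, i = T ⟨a, k, hk⟩ := ⟨_, rfl⟩
  have h1 := low k hk
  have h2 := h i (i - k) (Nat.sub_le _ _) (hi ▸ hT.1 _)
  rw [LTab_F1, LTab_F1, show i - (i - k) = k by omega] at h2
  have h3 : col_F1 lam T k i ⊆ col_F1 lam T' k i := by
    rcases (ls hT i).total (ls hT' i) with e | e
    · exact coe_subset.1 e
    · exact (eq_of_subset_of_card_le (coe_subset.1 e) (by omega)).ge
  obtain ⟨_, h4⟩ := mem_F1.1 (h3 (mem_F1.2 ⟨hk, hi.ge⟩))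
  exact hi ▸ h4

theorem sF3 : SF3 := fun _ _ _ _ _ hl hT hT' h => funext fun b =>
  le_antisymm (le_F1 hl hT' hT (fun i m h1 h2 => (h i m h1 h2).symm) b) (le_F1 hl hT hT' h b)

end Pool.Agent.MP_8b9287_co.Geo
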