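import Pool.Agent.MP_8b9287_co.Geo.St

namespace Pool.Agent.MP_8b9287_co.Geo

/-- The number of entries at most `i` in the line `k`. -/
def y_F2 (L : ℕ → ℕ → ℕ) (i k : ℕ) : ℕ := L i (i - k) - (i - k)

theorem ge_F2 {r : ℕ} {L : ℕ → ℕ → ℕ} (h : IsGT r L) {i : ℕ} (hi : i < r) :
    ∀ m, m ≤ i → m ≤ L i m := by
  induction i with
  | zero => intro m hm; omega
  | succ i ih =>
    intro m hm
    rcases m with _ | m
    · exact Nat.zero_le _
    · have h1 := ih (by omega) m (by omega)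
      have h2 := (h i m (by omega) hi).2
      omega

theorem mono_F2 {r : ℕ} {L : ℕ → ℕ → ℕ} (h : IsGT r L) {i j k : ℕ} (hk : k ≤ i) (hij : i ≤ j)
    (hj : j < r) : y_F2 L i k ≤ y_F2 L j k := by
  induction j, hij using Nat.le_induction with
  | base => exact le_rfl
  | succ j hij ih =>
    refine (ih (by omega)).trans ?_
    have h2 := (h j (j - k) (by omega) hj).2
    unfold y_F2
    rw [show j + 1 - k = j - k + 1 by omega]
    omega

theorem diag_F2 {r : ℕ} {L : ℕ → ℕ → ℕ} (h : IsGT r L) {i k : ℕ} (d : ℕ)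
    (hj : i + d < r) : y_F2 L (i + d) (k + d) ≤ y_F2 L i k := by
  induction d with
  | zero => exact le_rfl
  | succ d ih =>
    refine le_trans ?_ (ih (by omega))
    have h2 := (h (i + d) (i + d - (k + d)) (by omega) hj).1
    unfold y_F2
    rw [show i + (d + 1) - (k + (d + 1)) = i + d - (k + d) by omega]
    exact Nat.sub_le_sub_right h2 _

theorem sF2 : SF2 := by
  classical
  intro c r lam L hl hr h hb
  have top : ∀ k, k < r →
      y_F2 L (r - 1) k = (Finset.univ.filter fun a : Fin c => k < lam a).card := fun k hk => by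
    rw [y_F2, hb _ (by omega), Nat.add_sub_cancel_left]
    exact congrArg _ (Finset.filter_congr fun a _ => by omega)
  have top' : ∀ k, k < r → ∀ a : Fin c, (a : ℕ) < y_F2 L (r - 1) k ↔ k < lam a := fun k hk a => by
    rw [top k hk]
    exact Tuple.lt_card_gt_iff_apply_gt_of_antitone hl
  have ex : ∀ b : Box lam, ∃ i, ((b.2 : ℕ) ≤ i ∧ i < r) ∧ (b.1 : ℕ) < y_F2 L i b.2 := fun b => by
    have h1 := b.2.2
    have h2 := hr b.1
    exact ⟨r - 1, ⟨by omega, by omega⟩, (top' _ (by omega) _).2 h1⟩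
  have s1 := fun b => Nat.find_spec (ex b)
  have s2 : ∀ (b : Box lam) (i : ℕ), (b.2 : ℕ) ≤ i → i < r →
      (Nat.find (ex b) ≤ i ↔ (b.1 : ℕ) < y_F2 L i b.2) := fun b i h1 h2 =>
    ⟨fun k => (s1 b).2.trans_le (mono_F2 h (s1 b).1.1 k h2),
      fun k => Nat.find_min' (ex b) ⟨⟨h1, h2⟩, k⟩⟩
  refine ⟨fun b => Nat.find (ex b), ⟨fun b => (s1 b).1.2, fun b b' e hab => ?_,
    fun b b' e hab => ?_⟩, fun i m hm hi => ?_⟩
  · refine (s2 b _ (e.trans_le (s1 b').1.1) (s1 b').1.2).2 ?_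
    rw [e]
    exact lt_trans hab (s1 b').2
  · obtain ⟨⟨a1, a2⟩, a3⟩ := s1 b'
    obtain ⟨d, hd⟩ := Nat.exists_eq_add_of_le hab.le
    obtain ⟨i, hi⟩ : ∃ i, Nat.find (ex b') = i + d := ⟨Nat.find (ex b') - d, by omega⟩
    rw [hi] at a1 a2 a3
    rw [hd, ← e] at a3
    have := (s2 b i (by omega) (by omega)).2 (a3.trans_le (diag_F2 h d a2))
    show Nat.find (ex b) < Nat.find (ex b')
    omega
  · have h1 : y_F2 L i (i - m) ≤ y_F2 L (r - 1) (i - m) :=
      mono_F2 h (by omega) (by omega) (by omega)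
    have h2 : y_F2 L i (i - m) ≤ c := by
      rw [top _ (by omega)] at h1
      exact h1.trans ((Finset.card_filter_le _ _).trans (by simp))
    have h3 : (Finset.univ.filter fun b : Box lam =>
        (b.2 : ℕ) = i - m ∧ Nat.find (ex b) ≤ i).card =
        (Finset.univ.filter fun a : Fin c => (a : ℕ) < y_F2 L i (i - m)).card := by
      refine Finset.card_bij (fun b _ => b.1) (fun b hb => ?_) (fun b hb b' hb' e => ?_)
        fun a ha => ?_
      · obtain ⟨k1, k2⟩ := (Finset.mem_filter.1 hb).2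
        exact Finset.mem_filter.2 ⟨Finset.mem_univ _, k1 ▸ (s2 b i (by omega) hi).1 k2⟩
      · obtain ⟨a, k⟩ := b
        obtain ⟨a', k'⟩ := b'
        obtain rfl : a = a' := e
        obtain rfl : k = k' :=
          Fin.ext ((Finset.mem_filter.1 hb).2.1.trans (Finset.mem_filter.1 hb').2.1.symm)
        rfl
      · have k1 := (Finset.mem_filter.1 ha).2
        have k2 := (top' (i - m) (by omega) a).1 (k1.trans_le h1)
        exact ⟨⟨a, ⟨i - m, k2⟩⟩, Finset.mem_filter.2 ⟨Finset.mem_univ _, rfl,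
          (s2 ⟨a, ⟨i - m, k2⟩⟩ i (Nat.sub_le _ _) hi).2 k1⟩, rfl⟩
    have h4 := ge_F2 h hi m hm
    rw [LTab, h3, Fin.card_filter_val_lt, min_eq_right h2, y_F2, show i - (i - m) = m by omega]
    omega

end Pool.Agent.MP_8b9287_co.Geo
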