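import Pool.Agent.MP_8b9287_co.Geo.St

namespace Pool.Agent.MP_8b9287_co.Geo

theorem hole_congr_F5 {r : ℕ} {L L' : ℕ → ℕ → ℕ}
    (h : ∀ i m, m ≤ i → i < r → L i m = L' i m) {i : ℕ} (hi : i < r) (j : ℕ) :
    hole L i j → hole L' i j := by
  rintro ⟨m, hm, hj, h0⟩
  refine ⟨m, hm, by rwa [← h i m hm hi], ?_⟩
  rcases h0 with h0 | h0
  · exact Or.inl h0
  · right
    rwa [← h (i - 1) (m - 1) (by omega) (by omega)]

theorem hole_lt_F5 (hC : SGT2c) {r N : ℕ} {L : ℕ → ℕ → ℕ} {js : Fin r → Fin N} (hL : IsGT r L)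
    (hb : ∀ m : Fin r, L (r - 1) m = js m) {i j : ℕ} (hi : i < r) (hh : hole L i j) : j < N := by
  obtain ⟨m, hm, hj, -⟩ := hh
  have h1 := hC r L hL i m hm hi
  have h2 := hb ⟨r - 1, by omega⟩
  have h3 := (js ⟨r - 1, by omega⟩).2
  simp only at h2
  omega

open Classical in
theorem sF5 (h1 : SF1) (h2 : SF2) (h3 : SF3) (h4 : SF4) (hC : SGT2c) : SF5 := by
  intro c r N lam js hA hl hJ
  let f : (Box lam → ℕ) → Finset (Fin r × Fin N) :=
    fun T => Finset.univ.filter fun p => hole (LTab lam T) p.1 p.2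
  have hf : ∀ T (p : Fin r × Fin N), p ∈ f T ↔ hole (LTab lam T) p.1 p.2 := by
    intro T p
    simp [f]
  have hb : ∀ T ∈ SS lam r, ∀ m : Fin r, LTab lam T (r - 1) m = js m := by
    intro T hT m
    rw [(h1 c r lam T hT).2 m m.2, hJ m]
  have him : HG js = f '' SS lam r := by
    ext Z
    constructor
    · rintro ⟨L, hL, hLb, hZ⟩
      obtain ⟨T, hT, hTL⟩ := h2 c r lam L hA hl hL (fun m hm => by
        have := hLb ⟨m, hm⟩
        rw [hJ ⟨m, hm⟩] at this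
        exact this)
      refine ⟨T, hT, ?_⟩
      ext p
      rw [hf, hZ]
      exact ⟨hole_congr_F5 hTL p.1.2 _,
        hole_congr_F5 (fun i m hm hi => (hTL i m hm hi).symm) p.1.2 _⟩
    · rintro ⟨T, hT, rfl⟩
      exact ⟨LTab lam T, (h1 c r lam T hT).1, hb T hT, hf T⟩
  rw [him]
  refine Set.InjOn.ncard_image ?_
  intro T hT T' hT' he
  refine h3 c r lam T T' hA hT hT' (h4 r _ _ (h1 c r lam T hT).1 (h1 c r lam T' hT').1 ?_)
  intro i j hi
  constructor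
  · intro hh
    have hj := hole_lt_F5 hC (h1 c r lam T hT).1 (hb T hT) hi hh
    have : ((⟨i, hi⟩, ⟨j, hj⟩) : Fin r × Fin N) ∈ f T := (hf T _).2 hh
    rw [he] at this
    exact (hf T' _).1 this
  · intro hh
    have hj := hole_lt_F5 hC (h1 c r lam T' hT').1 (hb T' hT') hi hh
    have : ((⟨i, hi⟩, ⟨j, hj⟩) : Fin r × Fin N) ∈ f T' := (hf T' _).2 hh
    rw [← he] at this
    exact (hf T _).1 this

end Pool.Agent.MP_8b9287_co.Geo
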