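import Pool.Agent.MP_8b9287_co.Geo.St2

namespace Pool.Agent.MP_8b9287_co.Geo

open Module

theorem gen_nonneg (hFree : SFree) (hLI : SFreeLI) {k n : ℕ} {X : Fin k → Fin n → ℂ}
    {η : Fin k → ℕ} {d : ℤ} (h : GenCount X η d) : 0 ≤ d := by
  obtain ⟨P, hP, hc⟩ := h
  obtain ⟨g, hg, hF⟩ := hFree n ∅ Set.finite_empty P hP
  rw [← hc g (hLI n ∅ g hF).1 hg]
  exact Int.natCast_nonneg _

theorem pack_multi {n c : ℕ} (𝓜 : Multiset ℕ) (𝒮 : Finset (Finset (Fin n)))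
    (h1 : ∀ H ∈ 𝒮, H.card < n) (h2 : ∀ H ∈ 𝒮, ∀ H' ∈ 𝒮, H ≠ H' → (H ∩ H').card + 1 ≤ c) :
    ∑ H ∈ 𝒮, (𝓜.map fun m : ℕ => M2 c ((H.card : ℤ) - (c + 1) - m)).sum ≤
      (𝓜.map fun m : ℕ => M2 c ((n : ℤ) - 1 - (c + 1) - m)).sum := by
  induction 𝓜 using Multiset.induction_on with
  | empty => simp
  | cons m 𝓜 ih =>
    simp only [Multiset.map_cons, Multiset.sum_cons, Finset.sum_add_distrib]
    refine add_le_add ?_ ih
    have := pack (m : ℤ) (Int.natCast_nonneg m) n (Finset.univ : Finset (Fin n)) (by simp) c 𝒮 id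
      (fun H hH => ⟨Finset.subset_univ _, by simpa using h1 H hH⟩) h2
    simpa using this

/-- The inductive step over the dependent hyperplanes. -/
theorem chain (hPV : SPV) (hPO : SPO) {n c : ℕ} (D : Matroid (Fin n) → ℤ)
    (hval : Valuative (c + 1) D) (f : Finset (Fin n) → ℤ) (f₀ : ℤ)
    (hU : ∀ M, OfRank (c + 1) M → HasBases M (fun B => B.card = c + 1) → f₀ ≤ D M)
    (hL : ∀ H : Finset (Fin n), c + 1 ≤ H.card → H.card < n → ∃ M, OfRank (c + 1) M ∧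
      HasBases M (fun B => B.card = c + 1 ∧ (B \ H).card ≤ 1) ∧ D M ≤ f H)
    (hP : ∀ H : Finset (Fin n), c + 1 ≤ H.card → H.card < n → ∃ M, OfRank (c + 1) M ∧
      HasBases M (fun B => B.card = c + 1 ∧ (B \ H).card = 1) ∧ 0 ≤ D M)
    (𝒮 : Finset (Finset (Fin n))) :
    (∀ H ∈ 𝒮, c + 1 ≤ H.card ∧ H.card < n) →
    (∀ H ∈ 𝒮, ∀ H' ∈ 𝒮, H ≠ H' → (H ∩ H').card + 1 ≤ c) →
    ∀ M, OfRank (c + 1) M → HasBases M (fun B => B.card = c + 1 ∧ ∀ H ∈ 𝒮, ¬ B ⊆ H) →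
      f₀ - ∑ H ∈ 𝒮, f H ≤ D M := by
  induction 𝒮 using Finset.induction_on with
  | empty =>
    intro _ _ M hM hB
    simpa using hU M hM fun B => (hB B).trans (by simp)
  | insert H 𝒮 hH ih =>
    intro h1 h2 M hM hB
    have h1' : ∀ H' ∈ 𝒮, c + 1 ≤ H'.card ∧ H'.card < n :=
      fun H' h => h1 H' (Finset.mem_insert_of_mem h)
    have h2' : ∀ H₁ ∈ 𝒮, ∀ H₂ ∈ 𝒮, H₁ ≠ H₂ → (H₁ ∩ H₂).card + 1 ≤ c :=
      fun H₁ a H₂ b => h2 H₁ (Finset.mem_insert_of_mem a) H₂ (Finset.mem_insert_of_mem b)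
    obtain ⟨B₀, hB₀⟩ := M.exists_isBase
    have hB₁ := (hB B₀.toFinite.toFinset).1 (by simpa using hB₀)
    obtain ⟨M', hM', hB'⟩ := hPV n c 𝒮 h2'
      ⟨_, hB₁.1, fun H' h => hB₁.2 H' (Finset.mem_insert_of_mem h)⟩
    have hH1 := h1 H (Finset.mem_insert_self _ _)
    obtain ⟨ML, hML, hBL, hDL⟩ := hL H hH1.1 hH1.2
    obtain ⟨MP, hMP, hBP, hDP⟩ := hP H hH1.1 hH1.2
    have hBM : HasBases M fun B => (B.card = c + 1 ∧ ∀ H' ∈ 𝒮, ¬ B ⊆ H') ∧ ¬ B ⊆ H :=
      fun B => (hB B).trans (by simp only [Finset.forall_mem_insert]; tauto)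
    obtain ⟨p1, p2, p3, p4⟩ := hPO n c H (fun B => B.card = c + 1 ∧ ∀ H' ∈ 𝒮, ¬ B ⊆ H')
      (fun B h => h.1) (fun B hc hle => ⟨hc, fun H' hH' hs => by
        have hne : H ≠ H' := fun h => hH (h ▸ hH')
        have h3 := h2 H (Finset.mem_insert_self _ _) H' (Finset.mem_insert_of_mem hH') hne
        have h4 : B ∩ H ⊆ H ∩ H' := fun x hx => by
          rw [Finset.mem_inter] at hx ⊢
          exact ⟨hx.2, hs hx.1⟩
        have h5 := Finset.card_le_card h4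
        have h6 := Finset.card_sdiff_add_card_inter B H
        omega⟩)
    have hv := hval M' M ML MP hM' hM hML hMP (by rw [hB'.poly, hBM.poly, hBL.poly]; exact p1)
      (by rw [hBP.poly, hBM.poly, hBL.poly]; exact p2) (by rw [hBP.poly, hBM.poly]; exact p3)
      (by rw [hBP.poly, hBL.poly]; exact p4)
    have := ih h1' h2' M' hM' hB'
    rw [Finset.sum_insert hH]
    linarith

theorem final (hFree : SFree) (hLI : SFreeLI) (hLam : SLam) (hLam0 : SLam0) (hPP : SPP3)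
    (hGP : SGP1) (hML : SMatLam) (hMP : SMatPi) (hPV : SPV) (hPO : SPO) (hPav : SPav)
    (hDisc : SDisc) (hCU : SConnU)
    (n c : ℕ) (hkn : c + 1 < n) (D₀ : Matroid (Fin n) → ℤ) (η : Fin (c + 1) → ℕ)
    (hgeo : ∀ (M : Matroid (Fin n)) (X : Fin (c + 1) → Fin n → ℂ), OfRank (c + 1) M →
      Represents X M → GenCount X η (D₀ M))
    (hval : Valuative (c + 1) D₀ ∨ Valuative (c + 1) (Set.indicator {M | Conn M} D₀))
    (M : Matroid (Fin n)) (hM : OfRank (c + 1) M)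
    (hpav : ∀ I : Finset (Fin n), I.card ≤ c → M.Indep (I : Set (Fin n)))
    (hη : IsShape n η) (hrow : η 0 = n - (c + 1)) :
    0 ≤ D₀ M := by
  have hP₀ : ∀ H : Finset (Fin n), c ≤ H.card → H.card < n → ∃ M, OfRank (c + 1) M ∧
      HasBases M (fun B => B.card = c + 1 ∧ (B \ H).card = 1) ∧ 0 ≤ D₀ M := by
    intro H h1 h2
    obtain ⟨X, M', hM', hX, hB⟩ := hMP n c H h1 h2
    exact ⟨M', hM', hB, gen_nonneg hFree hLI (hgeo M' X hM' hX)⟩
  by_cases hc : Conn M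
  swap
  · obtain ⟨H, h1, h2, hB⟩ := hDisc n c M hkn hM hpav hc
    obtain ⟨M', hM', hB', h0⟩ := hP₀ H h1 h2
    rwa [HasBases.ext hM hM' hB hB' fun _ => Iff.rfl]
  obtain ⟨D, hD, hD1, hD2⟩ : ∃ D : Matroid (Fin n) → ℤ, Valuative (c + 1) D ∧
      (∀ M', D M' = D₀ M' ∨ D M' = 0) ∧ ∀ M', Conn M' → D M' = D₀ M' := by
    rcases hval with h | h
    · exact ⟨D₀, h, fun _ => Or.inl rfl, fun _ _ => rfl⟩
    · refine ⟨_, h, fun M' => ?_, fun M' h' => Set.indicator_of_mem (s := {M | Conn M}) h' _⟩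
      by_cases h' : Conn M'
      · exact Or.inl (Set.indicator_of_mem (s := {M | Conn M}) h' _)
      · exact Or.inr (Set.indicator_of_notMem (s := {M | Conn M}) h' _)
  -- the value of the count as a function of the size of the hyperplane
  obtain ⟨F, hF, hFp⟩ : ∃ F : ℕ → ℕ,
      (∀ H : Finset (Fin n), c + 1 ≤ H.card → H.card < n → ∃ M, OfRank (c + 1) M ∧
        HasBases M (fun B => B.card = c + 1 ∧ (B \ H).card ≤ 1) ∧ D₀ M ≤ F H.card ∧
        (H.card = n - 1 → D₀ M = F H.card)) ∧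
      ∀ 𝒮 : Finset (Finset (Fin n)), (∀ H ∈ 𝒮, c + 1 ≤ H.card ∧ H.card < n) →
        (∀ H ∈ 𝒮, ∀ H' ∈ 𝒮, H ≠ H' → (H ∩ H').card + 1 ≤ c) →
        ∑ H ∈ 𝒮, F H.card ≤ F (n - 1) := by
    by_cases htail : ∑ a : Fin c, η a.succ = c
    · obtain ⟨𝓜, h𝓜⟩ := hPP c (fun a => η a.succ) htail
      refine ⟨fun h => (SS (fun a : Fin c => η a.succ) (h - c)).ncard, fun H h1 h2 => ?_,
        fun 𝒮 h1 h2 => ?_⟩
      · obtain ⟨π, hπ, hX⟩ := hML n (c + 1) (H.card - c + c) H (by omega) (by omega) (by omega)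
        obtain ⟨X, hgp, hcol⟩ := hGP (c + 1) (Fin (H.card - c + c + 1))
        obtain ⟨M', hM', hrep, hB⟩ := hX X hgp
        have := hLam n c (H.card - c) (n - H.card) η π X _ (by omega) (by omega)
          (by omega) hη.1 hrow htail hπ hgp (hcol (by omega)) (hgeo M' _ hM' hrep)
        exact ⟨M', hM', hB, this.1, fun h => this.2 fun a => by have := hη.2 a.succ; omega⟩
      · simp only
        rw [h𝓜 _ (by omega)]
        have hp := pack_multi (c := c) 𝓜 𝒮 (fun H h => (h1 H h).2) h2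
        have e0 : ((n - 1 - c : ℕ) : ℤ) - 1 = (n : ℤ) - 1 - (c + 1) := by omega
        rw [e0]
        refine le_trans (le_of_eq (Finset.sum_congr rfl fun H hH => ?_)) hp
        have := h1 H hH
        have e1 : ((H.card - c : ℕ) : ℤ) - 1 = (H.card : ℤ) - (c + 1) := by omega
        rw [h𝓜 _ (by omega), e1]
    · refine ⟨fun _ => 0, fun H h1 h2 => ?_, fun 𝒮 _ _ => by simp⟩
      obtain ⟨π, hπ, hX⟩ := hML n (c + 1) (H.card - c + c) H (by omega) (by omega) (by omega)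
      obtain ⟨X, hgp, -⟩ := hGP (c + 1) (Fin (H.card - c + c + 1))
      obtain ⟨M', hM', hrep, hB⟩ := hX X hgp
      have := hLam0 n c (H.card - c) (n - H.card) η π X _ (by omega) (by omega)
        (by omega) hη.1 hrow htail hπ hgp (hgeo M' _ hM' hrep)
      exact ⟨M', hM', hB, by simp [this], fun _ => by simp [this]⟩
  obtain ⟨𝒮, h1, h2, hB⟩ := hPav n c M hM hpav
  have hch := chain hPV hPO D hD (fun H => (F H.card : ℤ)) (F (n - 1) : ℤ)
    (by
      intro U hU hBU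
      let z : Fin n := ⟨0, by omega⟩
      have hz : (Finset.univ.erase z).card = n - 1 := by simp
      obtain ⟨M', hM', hB', -, h4⟩ := hF (Finset.univ.erase z) (by omega) (by omega)
      have hUM : U = M' := HasBases.ext hU hM' hBU hB' fun B => ⟨fun h => ⟨h, by
        refine (Finset.card_le_card (t := {z}) fun x hx => ?_).trans (by simp)
        simp only [Finset.mem_sdiff, Finset.mem_erase, Finset.mem_univ, and_true, not_not] at hx
        simp [hx.2]⟩, fun h => h.1⟩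
      rw [hD2 U (hCU n (c + 1) U (by omega) hkn hU hBU), hUM, h4 hz, hz])
    (fun H a b => by
      obtain ⟨M', p1, p2, p3, -⟩ := hF H a b
      refine ⟨M', p1, p2, ?_⟩
      rcases hD1 M' with h | h
      · rwa [h]
      · rw [h]; exact Int.natCast_nonneg _)
    (fun H a b => by
      obtain ⟨M', p1, p2, p3⟩ := hP₀ H (by omega) b
      refine ⟨M', p1, p2, ?_⟩
      rcases hD1 M' with h | h
      · rwa [h]
      · exact h.ge) 𝒮 h1 h2 M hM hB
  rw [← hD2 M hc]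
  refine le_trans ?_ hch
  rw [sub_nonneg, ← Nat.cast_sum, Nat.cast_le]
  exact hFp 𝒮 h1 h2

end Pool.Agent.MP_8b9287_co.Geo
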