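import Pool.Agent.MP_8b9287_co.Geo.St

namespace Pool.Agent.MP_8b9287_co.Geo

theorem sFree (hD : SDense) (hR : SDer) : SFree := by
  intro n S hS P hP
  have hK : ((Subfield.closure S : Subfield ℂ) : Set ℂ).Countable := by
    rw [← Cardinal.le_aleph0_iff_set_countable]
    exact (Subfield.cardinalMk_closure_le_max S).trans
      (max_le (Cardinal.le_aleph0_iff_set_countable.2 hS.countable) le_rfl)
  have ho : IsOpen {x : Fin n × Fin n → ℂ | MvPolynomial.eval x P ≠ 0} :=
    isOpen_ne_fun (MvPolynomial.continuous_eval P) continuous_const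
  have hne : {x : Fin n × Fin n → ℂ | MvPolynomial.eval x P ≠ 0}.Nonempty := by
    by_contra h
    rw [Set.not_nonempty_iff_eq_empty, Set.eq_empty_iff_forall_notMem] at h
    exact hP (MvPolynomial.funext fun x => by simpa using h x)
  obtain ⟨x, hx, hx'⟩ := (hD _ hK (Fin n × Fin n)).inter_open_nonempty _ ho hne
  refine ⟨fun i j => x (i, j), hx, fun Δ => ?_⟩
  obtain ⟨δ, h1, h2⟩ := hR _ _ x hx' fun p => Δ p.1 p.2
  exact ⟨δ, fun s hs => h1 s (Subfield.subset_closure hs), fun i j => h2 (i, j)⟩

theorem sForb : SForb := by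
  intro r N js hjs
  have h1 : Fintype.card (Forb js) =
      ∑ s : Fin r, (Finset.univ.filter fun j : Fin N => (∀ t, js t ≠ j) ∧ j < js s).card := by
    rw [Fintype.card_subtype, Finset.card_filter, Fintype.sum_prod_type]
    simp only [Finset.card_filter]
  rw [h1, ← Finset.sum_add_distrib]
  refine Finset.sum_congr rfl fun s _ => ?_
  rw [← Fin.card_Iio s, ← Finset.card_image_of_injective (Finset.Iio s) hjs.injective,
    ← Fin.card_Iio (js s), ← Finset.card_union_of_disjoint]
  · congr 1
    ext j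
    simp only [Finset.mem_union, Finset.mem_filter, Finset.mem_univ, true_and, Finset.mem_image,
      Finset.mem_Iio]
    constructor
    · rintro (h | ⟨t, ht, rfl⟩)
      exacts [h.2, hjs ht]
    · intro h
      by_cases hj : ∀ t, js t ≠ j
      · exact Or.inl ⟨hj, h⟩
      · push Not at hj
        obtain ⟨t, rfl⟩ := hj
        exact Or.inr ⟨t, hjs.lt_iff_lt.1 h, rfl⟩
  · rw [Finset.disjoint_left]
    intro j h h'
    obtain ⟨t, -, rfl⟩ := Finset.mem_image.1 h'
    exact (Finset.mem_filter.1 h).2.1 t rfl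

end Pool.Agent.MP_8b9287_co.Geo
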