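import Pool.Agent.MP_8b9287_co.Geo.St2

namespace Pool.Agent.MP_8b9287_co.Geo

open Module

theorem vals_G1aX {k m : ℕ} {X : Fin k → Fin m → ℂ} {J : Set (Fin m)}
    (h : LinearIndepOn ℂ (fun (j : Fin m) (a : Fin k) => X a j) J) (x : Fin m → ℂ) :
    ∃ u : Fin k → ℂ, ∀ j ∈ J, vX X u j = x j := by
  obtain ⟨φ, hφ⟩ := LinearMap.exists_extend
    ((Basis.span h.linearIndependent).constr ℂ fun j => x j.1)
  refine ⟨fun a => φ fun b => if a = b then 1 else 0, fun j hj => ?_⟩
  have h1 := LinearMap.congr_fun hφ (Basis.span h.linearIndependent ⟨j, hj⟩)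
  rw [Basis.constr_basis, LinearMap.comp_apply, Submodule.subtype_apply, Basis.coe_span_apply,
    LinearMap.pi_apply_eq_sum_univ] at h1
  exact (Finset.sum_congr rfl fun a _ => mul_comm _ _).trans h1

theorem sG1aX (h : SGP3) : SG1a := by
  classical
  intro k r m X hm hX
  obtain ⟨hli, hcol⟩ := h k m X hX (by omega)
  have hV : finrank ℂ (rowSp X) = k := by
    rw [rowSp, finrank_span_eq_card hli, Fintype.card_fin]
  have hQ : finrank ℂ ((Fin m → ℂ) ⧸ rowSp X) = finrank ℂ (Fin r → ℂ) := by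
    have := (rowSp X).finrank_quotient_add_finrank
    simp only [finrank_fintype_fun_eq_card, Fintype.card_fin] at this ⊢
    omega
  let e := LinearEquiv.ofFinrankEq _ _ hQ
  let f : (Fin m → ℂ) →ₗ[ℂ] (Fin r → ℂ) := e.toLinearMap ∘ₗ (rowSp X).mkQ
  have hf : ∀ w i, ∑ j, f (fun b => if j = b then 1 else 0) i * w j = f w i := by
    intro w i
    rw [LinearMap.pi_apply_eq_sum_univ f w, Finset.sum_apply]
    exact Finset.sum_congr rfl fun j _ => by simp [mul_comm]
  have hk : ∀ w, f w = 0 ↔ w ∈ rowSp X := by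
    intro w
    simp [f]
  refine ⟨fun i j => f (fun b => if j = b then 1 else 0) i, fun w => ?_, fun v hv y => ?_⟩
  · rw [← hk, funext_iff]
    simp only [hf, Pi.zero_apply]
  · obtain ⟨x, rfl⟩ : ∃ x, f x = y :=
      (e.surjective.comp (rowSp X).mkQ_surjective) y
    let Z : Finset (Fin m) := Finset.univ.filter fun j => vX X v j = 0
    have hZ : Z.card < k := hX v hv Z fun j hj => (Finset.mem_filter.1 hj).2
    obtain ⟨u, hu⟩ := vals_G1aX (hcol Z hZ.le) x
    refine ⟨fun j => (x j - vX X u j) / vX X v j, ?_⟩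
    ext i
    rw [mv_apply]
    have e1 : ∀ j, vX X v j * ((x j - vX X u j) / vX X v j) = (x - vX X u) j := by
      intro j
      by_cases h0 : vX X v j = 0
      · have := hu j (by simp [Z, h0])
        simp [h0, this]
      · rw [mul_div_cancel₀ _ h0]; rfl
    simp only [e1]
    rw [hf, map_sub, (hk _).2 (vX_mem X u), sub_zero]

end Pool.Agent.MP_8b9287_co.Geo
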