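import Pool.Agent.MP_8b9287_co.Geo.St

/-! Points of the orbit closure through a vector without zero entries. -/

namespace Pool.Agent.MP_8b9287_co.Geo

open Module

theorem minor_G1b1 {k m n : ℕ} {X : Fin k → Fin m → ℂ} {π : Fin n → Fin m}
    {W : Submodule ℂ (Fin n → ℂ)} (hW : W ∈ orbCl (fun a i => X a (π i))) {i i' : Fin n}
    (h : π i = π i') {w w' : Fin n → ℂ} (hw : w ∈ W) (hw' : w' ∈ W) :
    w i * w' i' = w i' * w' i := by
  obtain ⟨-, B, rfl, hB⟩ := hW
  have key : ∀ a a', B a i * B a' i' = B a i' * B a' i := by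
    intro a a'
    have := hB (MvPolynomial.X (a, i) * MvPolynomial.X (a', i') -
      MvPolynomial.X (a, i') * MvPolynomial.X (a', i)) fun B' t _ e => ?_
    · simpa [sub_eq_zero] using this
    · have row : ∀ c, ∃ F : Fin m → ℂ, ∀ j, B' c j = F (π j) * t j := fun c => by
        have hc : B' c ∈ rowSp B' := Submodule.subset_span ⟨c, rfl⟩
        rw [e, mem_rowSp] at hc
        obtain ⟨y, hy⟩ := hc
        refine ⟨vX X y, fun j => ?_⟩
        rw [← hy]
        simp only [vX, Finset.sum_mul, mul_assoc]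
      obtain ⟨F, hF⟩ := row a
      obtain ⟨F', hF'⟩ := row a'
      simp only [map_sub, map_mul, MvPolynomial.eval_X, hF, hF', h]
      ring
  obtain ⟨u, rfl⟩ := (mem_rowSp B w).1 hw
  obtain ⟨u', rfl⟩ := (mem_rowSp B w').1 hw'
  simp only [vX, Finset.sum_mul_sum]
  refine Finset.sum_congr rfl fun a _ => Finset.sum_congr rfl fun a' _ => ?_
  linear_combination u a * u' a' * key a a'

theorem emb_G1b1 {k m n : ℕ} {X : Fin k → Fin m → ℂ} {π : Fin n → Fin m} {φ : Fin n → ℂ}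
    {W : Submodule ℂ (Fin n → ℂ)} {ρ : Fin m → Fin n} (hρ : ∀ j, π (ρ j) = j) (hφ : ∀ i, φ i ≠ 0)
    (hW : W ∈ orbCl (fun a i => X a (π i))) (h : φ ∈ W) {w : Fin n → ℂ} (hw : w ∈ W) :
    Emb φ π (fun j => w (ρ j) / φ (ρ j)) = w := by
  ext i
  have := minor_G1b1 hW (hρ (π i)).symm hw h
  rw [Emb_apply, ← mul_div_assoc, div_eq_iff (hφ _), this, mul_comm]

theorem sG1b1 : SG1b1 := fun _ _ _ _ _ _ _ hπ hφ hW h _ hw =>
  ⟨_, emb_G1b1 (Function.surjInv_eq hπ) hφ hW h hw⟩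

theorem sG1b3 (h1 : SG1b1) (h2 : SG1b2) : SG1b3 := by
  intro k r m n A X π φ W hm h0 hπ hφ hK hs hW h
  have hρ := Function.surjInv_eq hπ
  set ρ := Function.surjInv hπ
  obtain ⟨s, hs0, hs1⟩ := h2 k r m n A X π W ρ h0 hρ hK hW
  obtain ⟨v, hv⟩ := (mem_rowSp X _).1 ((hK fun j => s j * φ (ρ j)).1 (hs1 φ h))
  have hv0 : v ≠ 0 := by
    rintro rfl
    refine hs0 (funext fun j => ?_)
    have := congrFun hv j
    simp only [vX, Pi.zero_apply, zero_mul, Finset.sum_const_zero] at this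
    exact (mul_eq_zero.1 this.symm).resolve_right (hφ _)
  refine ⟨v, hv0, Submodule.eq_of_le_of_finrank_eq (fun w hw => ?_) ?_⟩
  · obtain ⟨y, rfl⟩ := h1 k m n X π φ W hπ hφ hW h hw
    refine ⟨y, LinearMap.mem_ker.2 (funext fun i => ?_), rfl⟩
    rw [mv_apply, hv, Pi.zero_apply, ← hs1 _ hw i]
    refine Finset.sum_congr rfl fun j _ => ?_
    rw [Emb_apply, hρ, mul_assoc]
  · have e1 := LinearMap.finrank_range_add_finrank_ker (mv A X v)
    rw [LinearMap.range_eq_top.2 (hs v hv0), finrank_top, Module.finrank_fin_fun,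
      Module.finrank_fin_fun] at e1
    rw [hW.1, Wv, ← (Submodule.equivMapOfInjective _ (Emb_inj hφ hπ) _).finrank_eq]
    omega

end Pool.Agent.MP_8b9287_co.Geo
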