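import Pool.Agent.MP_8b9287_co.Geo.St

namespace Pool.Agent.MP_8b9287_co.Geo

open Matrix

theorem sG1b2 : SG1b2 := by
  intro k r m n A X π W ρ hm hρ hA hW
  obtain ⟨-, B, rfl, hQ⟩ := hW
  by_contra hn
  let Cm : (Fin k → Fin n → ℂ) → Matrix (Fin r × Fin k) (Fin m) ℂ :=
    fun B => Matrix.of fun p j => A p.1 j * B p.2 (ρ j)
  have inj : LinearMap.ker (Matrix.toLin' (Cm B)) = ⊥ := by
    rw [LinearMap.ker_eq_bot']
    intro s hs
    by_contra h0
    refine hn ⟨s, h0, fun w hw i => ?_⟩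
    obtain ⟨v, rfl⟩ := (mem_rowSp B w).1 hw
    have h1 : ∀ a, ∑ j, A i j * B a (ρ j) * s j = 0 := fun a => congrFun hs (i, a)
    calc ∑ j, A i j * (s j * vX B v (ρ j)) = ∑ a, v a * ∑ j, A i j * B a (ρ j) * s j := by
          simp only [vX, Finset.mul_sum]
          rw [Finset.sum_comm]
          exact Finset.sum_congr rfl fun a _ => Finset.sum_congr rfl fun j _ => by ring
      _ = 0 := by simp [h1]
  obtain ⟨L, hL⟩ := LinearMap.exists_leftInverse_of_injective _ inj
  have hLm : LinearMap.toMatrix' L * Cm B = 1 := by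
    have := congrArg LinearMap.toMatrix' hL
    rwa [LinearMap.toMatrix'_comp, LinearMap.toMatrix'_toLin', LinearMap.toMatrix'_id] at this
  have ev : ∀ B' : Fin k → Fin n → ℂ, MvPolynomial.eval (fun p : Fin k × Fin n => B' p.1 p.2)
      (Matrix.det (Matrix.of fun i j : Fin m => ∑ p : Fin r × Fin k,
        MvPolynomial.C (LinearMap.toMatrix' L i p) *
          (MvPolynomial.C (A p.1 j) * MvPolynomial.X (p.2, ρ j)))) =
      (LinearMap.toMatrix' L * Cm B').det := by
    intro B'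
    rw [RingHom.map_det]
    congr 1
    ext i j
    simp [Cm, Matrix.mul_apply]
  have key := hQ _ fun B' t ht hB => (ev B').trans (by
    rw [← Matrix.exists_mulVec_eq_zero_iff]
    refine ⟨fun j => (t (ρ j))⁻¹, fun h => inv_ne_zero (ht _) (congrFun h ⟨0, hm⟩), ?_⟩
    have : Cm B' *ᵥ (fun j => (t (ρ j))⁻¹) = 0 := by
      ext ⟨i, a⟩
      have h1 : B' a ∈ rowSp B' := Submodule.subset_span ⟨a, rfl⟩
      rw [hB, mem_rowSp] at h1
      obtain ⟨y, hy⟩ := h1
      show ∑ j, A i j * B' a (ρ j) * (t (ρ j))⁻¹ = 0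
      refine Eq.trans (Finset.sum_congr rfl fun j _ => ?_) ((hA _).2 (vX_mem X y) i)
      have h2 : B' a (ρ j) = vX X y j * t (ρ j) := by
        rw [← hy]
        simp only [vX, hρ, Finset.sum_mul, mul_assoc]
      rw [h2, mul_assoc, mul_assoc, mul_inv_cancel₀ (ht _), mul_one]
    rw [← Matrix.mulVec_mulVec, this, Matrix.mulVec_zero])
  rw [ev, hLm, Matrix.det_one] at key
  exact one_ne_zero key

end Pool.Agent.MP_8b9287_co.Geo
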