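import Pool.Agent.MP_8b9287_co.Geo.St

namespace Pool.Agent.MP_8b9287_co.Geo

open Module

theorem ker_G1c {k r m : ℕ} {A : Fin r → Fin m → ℂ} {X : Fin k → Fin m → ℂ} (h : IsKer A X)
    (v : Fin k → ℂ) (w : Fin m → ℂ) :
    w ∈ LinearMap.ker (mv A X v) ↔ ∃ y, vX X y = fun j => vX X v j * w j := by
  rw [LinearMap.mem_ker, funext_iff, ← mem_rowSp, ← h]
  exact Iff.rfl

theorem scale_G1c {k m n : ℕ} (X : Fin k → Fin m → ℂ) (π : Fin n → Fin m) (t : Fin n → ℂ)
    (y : Fin k → ℂ) (i : Fin n) : vX (fun a i => X a (π i) * t i) y i = vX X y (π i) * t i := by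
  simp only [vX, Finset.sum_mul, mul_assoc]

theorem sum_G1c {k m : ℕ} (X : Fin k → Fin m → ℂ) (y : Fin k → ℂ) (j : Fin m) :
    (∑ a, y a • X a) j = vX X y j := by
  simp only [vX, Finset.sum_apply, Pi.smul_apply, smul_eq_mul]

theorem orb_G1c {k n : ℕ} (Y : Fin k → Fin n → ℂ) (t : Fin n → ℂ) (ht : ∀ i, t i ≠ 0)
    (li : LinearIndependent ℂ (fun a i => Y a i * t i)) :
    rowSp (fun a i => Y a i * t i) ∈ orbCl Y := by
  unfold orbCl
  rw [Set.mem_ofPred_eq]
  refine ⟨?_, fun a i => Y a i * t i, rfl, fun Q hQ => hQ (fun a i => Y a i * t i) t ht rfl⟩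
  rw [rowSp, finrank_span_eq_card li, Fintype.card_fin]

theorem sG1c : SG1c := by
  intro k r m n A X π φ v hπ hφ hK hX hv
  have ht : ∀ i, φ i / vX X v (π i) ≠ 0 := fun i => div_ne_zero (hφ i) (hv _)
  have e : rowSp (fun a i => X a (π i) * (φ i / vX X v (π i))) = Wv φ π A X v := by
    ext x
    rw [mem_rowSp, Wv, Submodule.mem_map]
    constructor
    · rintro ⟨y, rfl⟩
      refine ⟨fun j => vX X y j / vX X v j, (ker_G1c hK v _).2 ⟨y, funext fun j => ?_⟩,
        funext fun i => ?_⟩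
      · rw [mul_div_cancel₀ _ (hv j)]
      · rw [Emb_apply, scale_G1c X π (fun i => φ i / vX X v (π i))]
        ring
    · rintro ⟨w, hw, rfl⟩
      obtain ⟨y, hy⟩ := (ker_G1c hK v w).1 hw
      refine ⟨y, funext fun i => ?_⟩
      have := hv (π i)
      rw [Emb_apply, scale_G1c X π (fun i => φ i / vX X v (π i)), hy]
      field_simp
  have li : LinearIndependent ℂ (fun a i => X a (π i) * (φ i / vX X v (π i))) := by
    rw [Fintype.linearIndependent_iff] at hX ⊢
    refine fun g hg => hX g (funext fun j => ?_)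
    obtain ⟨i, rfl⟩ := hπ j
    have h1 := congrFun hg i
    rw [sum_G1c, scale_G1c X π (fun i => φ i / vX X v (π i))] at h1
    rw [sum_G1c]
    exact (mul_eq_zero.1 h1).resolve_right (ht i)
  rw [← e]
  exact orb_G1c (fun a i => X a (π i)) (fun i => φ i / vX X v (π i)) ht li

theorem sG1d (h2 : SGP2) (h3 : SGP3) : SG1d := by
  intro k r m n A X π φ v v' hk hπ hφ hK hG hv hv' hW
  rcases k with _ | c
  · rw [Subsingleton.elim v v']
  have hker : LinearMap.ker (mv A X v) = LinearMap.ker (mv A X v') :=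
    Submodule.map_injective_of_injective (Emb_inj hφ hπ) hW
  have key : ∀ y, ∃ y', vX X y' = fun j => vX X v' j * (vX X y j / vX X v j) := fun y =>
    (ker_G1c hK v' _).1 (hker ▸ (ker_G1c hK v _).2 ⟨y, funext fun j => by
      rw [mul_div_cancel₀ _ (hv j)]⟩)
  have rat : ∀ j j', vX X v' j / vX X v j = vX X v' j' / vX X v j' := by
    intro j j'
    have c1 := Finset.pred_card_le_card_erase (s := (Finset.univ : Finset (Fin m))) (a := j)
    have c2 := Finset.pred_card_le_card_erase (s := Finset.univ.erase j) (a := j')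
    rw [Finset.card_univ, Fintype.card_fin] at c1
    obtain ⟨Z, hZ, hc⟩ := Finset.exists_subset_card_eq
      (show c ≤ ((Finset.univ.erase j).erase j').card by omega)
    have n1 : j ∉ Z := fun h => (Finset.mem_erase.1 (Finset.mem_erase.1 (hZ h)).2).1 rfl
    have n2 : j' ∉ Z := fun h => (Finset.mem_erase.1 (hZ h)).1 rfl
    obtain ⟨u, i, -, hu, hall⟩ := h2 c _ X Z hG hc ⟨j, n1⟩
    obtain ⟨y, hy⟩ := key u
    have e := hall y fun z hz => by
      rw [hy]
      show vX X v' z * (vX X u z / vX X v z) = 0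
      rw [(hu z).2 hz, zero_div, mul_zero]
    have f : ∀ z, z ∉ Z → vX X v' z / vX X v z = y i := by
      intro z hz
      have u0 : vX X u z ≠ 0 := fun h => hz ((hu z).1 h)
      have e1 : vX X y z = y i * vX X u z := by
        conv_lhs => rw [e]
        simp only [vX, Pi.smul_apply, smul_eq_mul, Finset.mul_sum, mul_assoc]
      rw [hy] at e1
      refine mul_right_cancel₀ u0 (Eq.trans ?_ e1)
      ring
    rw [f j n1, f j' n2]
  have li := Fintype.linearIndependent_iff.1 (h3 _ _ X hG hk.le).1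
  obtain ⟨μ, h0, hμ⟩ : ∃ μ : ℂ, μ ≠ 0 ∧ ∀ j, vX X v' j = μ * vX X v j :=
    ⟨vX X v' ⟨0, by omega⟩ / vX X v ⟨0, by omega⟩, div_ne_zero (hv' _) (hv _), fun j => by
      rw [← rat j, div_mul_cancel₀ _ (hv j)]⟩
  have e : v' = μ • v := by
    funext a
    refine sub_eq_zero.1 (li (fun a => v' a - μ * v a) (funext fun j => ?_) a)
    have := hμ j
    rw [sum_G1c]
    simp only [vX, Finset.mul_sum] at this
    simp only [vX, sub_mul, Finset.sum_sub_distrib, mul_assoc, this, sub_self, Pi.zero_apply]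
  rw [e, Submodule.span_singleton_smul_eq h0.isUnit]

end Pool.Agent.MP_8b9287_co.Geo
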