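import Pool.Agent.MP_8b9287_co.Geo.St

namespace Pool.Agent.MP_8b9287_co.Geo

theorem sGP1 : SGP1 := by
  intro k ι _
  refine ⟨fun a j => ((Fintype.equivFin ι j : ℕ) : ℂ) ^ (a : ℕ), fun v hv S hS => ?_,
    fun hk j => ⟨⟨0, hk⟩, by simp⟩⟩
  by_contra h
  obtain ⟨S', h1, h2⟩ := Finset.exists_subset_card_eq (not_lt.1 h)
  refine hv (Matrix.eq_zero_of_forall_index_sum_mul_pow_eq_zero
    (f := fun b => ((Fintype.equivFin ι ((S'.equivFinOfCardEq h2).symm b) : ℕ) : ℂ))
    (fun b b' e => ?_) fun b => hS _ (h1 ((S'.equivFinOfCardEq h2).symm b).2))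
  exact (S'.equivFinOfCardEq h2).symm.injective (Subtype.ext
    ((Fintype.equivFin ι).injective (Fin.ext (Nat.cast_injective e))))

theorem vX_lin_GP {k : ℕ} {ι : Type} (X : Fin k → ι → ℂ) (a b : ℂ) (v u : Fin k → ℂ) (j : ι) :
    vX X (a • v - b • u) j = a * vX X v j - b * vX X u j := by
  simp only [vX, Pi.sub_apply, Pi.smul_apply, smul_eq_mul, Finset.mul_sum,
    ← Finset.sum_sub_distrib]
  exact Finset.sum_congr rfl fun c _ => by ring

theorem sGP2 : SGP2 := by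
  classical
  intro c ι X Z hX hZ ⟨j₀, hj₀⟩
  have ins : ∀ (v : Fin (c + 1) → ℂ) (j : ι), j ∉ Z → (∀ j ∈ Z, vX X v j = 0) → vX X v j = 0 →
      v = 0 := fun v j hj h1 h2 => by
    by_contra h
    have := hX v h (insert j Z) (by simpa [h2] using h1)
    rw [Finset.card_insert_of_notMem hj] at this
    omega
  let f : (Fin (c + 1) → ℂ) →ₗ[ℂ] (Z → ℂ) := (Matrix.of fun a (z : Z) => X a z).vecMulLinear
  obtain ⟨y, hy, hy0⟩ := (Submodule.ne_bot_iff _).1
    (LinearMap.ker_ne_bot_of_finrank_lt (f := f) (by simp [hZ]))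
  obtain ⟨i, hi⟩ := Function.ne_iff.1 hy0
  have h1 : ∀ j ∈ Z, vX X ((y i)⁻¹ • y - (0 : ℂ) • y) j = 0 := fun j hj => by
    have : vX X y j = 0 := congrFun (LinearMap.mem_ker.1 hy) ⟨j, hj⟩
    rw [vX_lin_GP, this]; simp
  have h2 : ((y i)⁻¹ • y - (0 : ℂ) • y) i = 1 := by simpa using inv_mul_cancel₀ hi
  generalize (y i)⁻¹ • y - (0 : ℂ) • y = u at h1 h2
  have h3 : ∀ j, vX X u j = 0 ↔ j ∈ Z := fun j => ⟨fun h => by
    by_contra hj
    simp [ins u j hj h1 h] at h2, h1 j⟩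
  refine ⟨u, i, h2, h3, fun v hv => ?_⟩
  have h4 : ∀ j ∈ Z, vX X ((1 : ℂ) • v - v i • u) j = 0 := fun j hj => by
    rw [vX_lin_GP, hv j hj, h1 j hj]; simp
  have h5 : ((1 : ℂ) • v - v i • u) i = 0 := by simp [h2]
  have h6 := ins (vX X u j₀ • ((1 : ℂ) • v - v i • u) - vX X ((1 : ℂ) • v - v i • u) j₀ • u) j₀ hj₀
    (fun j hj => by rw [vX_lin_GP, h4 j hj, h1 j hj]; simp) (by rw [vX_lin_GP]; ring)
  have h7 := congrFun h6 i
  rw [Pi.sub_apply, Pi.smul_apply, h5, Pi.smul_apply, h2] at h7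
  simpa [sub_eq_zero] using ins _ j₀ hj₀ h4 (by simpa using h7)

theorem sGP3 : SGP3 := by
  intro k m X hX hkm
  refine ⟨Fintype.linearIndependent_iff.2 fun g hg => ?_, fun I hI => ?_⟩
  · by_contra h
    have := hX g (fun e => h fun i => congrFun e i) Finset.univ fun j _ => by
      simpa [vX, Finset.sum_apply] using congrFun hg j
    simp at this
    omega
  · obtain ⟨I', h1, h2⟩ := Finset.exists_superset_card_eq hI (by simpa using hkm)
    have h3 : IsUnit (Matrix.of fun a b => X a (I'.orderEmbOfFin h2 b)) := by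
      refine Matrix.vecMul_injective_iff_isUnit.1 fun v w hvw => ?_
      by_contra h
      refine (hX ((1 : ℂ) • v - (1 : ℂ) • w) (by simpa [sub_eq_zero] using h) I'
        fun j hj => ?_).ne h2
      obtain ⟨b, rfl⟩ : j ∈ Set.range (I'.orderEmbOfFin h2) := by simpa using hj
      rw [vX_lin_GP, one_mul, one_mul, sub_eq_zero]
      exact congrFun hvw b
    have h4 := (linearIndepOn_range_iff (R := ℂ) (I'.orderEmbOfFin h2).injective
      fun (j : Fin m) (a : Fin k) => X a j).2 (Matrix.linearIndependent_cols_iff_isUnit.2 h3)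
    exact h4.mono (by simpa using h1)

end Pool.Agent.MP_8b9287_co.Geo
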