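import Pool.Agent.MP_8b9287_co.Geo.St

namespace Pool.Agent.MP_8b9287_co.Geo

/-- A chain of `m + 1` good cells with rows at most `i` and last column `j`. -/
def Ch_GT1 (bad : ℕ → ℕ → Prop) (i m j : ℕ) : Prop :=
  ∃ I J : ℕ → ℕ, (∀ a < m, I a < I (a + 1)) ∧ (∀ a < m, J a < J (a + 1)) ∧ I m ≤ i ∧
    (∀ a ≤ m, ¬ bad (I a) (J a)) ∧ J m = j

theorem mono_GT1 {I : ℕ → ℕ} {m : ℕ} (h : ∀ a < m, I a < I (a + 1)) (a : ℕ) (ha : a ≤ m) :
    I a ≤ I m := by
  induction m with
  | zero => rw [Nat.le_zero.mp ha]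
  | succ m ih =>
    rcases ha.lt_or_eq with h1 | h1
    · exact (ih (fun b hb => h b (by omega)) (by omega)).trans (h m (by omega)).le
    · rw [h1]

theorem sGT1 : SGT1 := by
  intro r N js Z hZ
  let bad : ℕ → ℕ → Prop := fun i j => ∃ p ∈ Z, (p.1 : ℕ) = i ∧ (p.2 : ℕ) = j
  have hne : ∀ i m, m ≤ i → {j | Ch_GT1 bad i m j}.Nonempty := fun i m h =>
    ⟨N + m, id, fun a => N + a, fun a _ => Nat.lt_succ_self a,
      fun a _ => Nat.lt_succ_self (N + a), h,
      fun a _ ⟨p, _, _, h2⟩ => by have := p.2.2; simp only at h2; omega, rfl⟩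
  refine ⟨fun i m => sInf {j | Ch_GT1 bad i m j}, fun i m hm _ => ⟨?_, ?_⟩, fun m => ?_,
    fun i j hi ⟨m, hm, h1, h2⟩ => ?_⟩
  · obtain ⟨I, J, h1, h2, h3, h4, h5⟩ := Nat.sInf_mem (hne i m hm)
    exact Nat.sInf_le ⟨I, J, h1, h2, by omega, h4, h5⟩
  · obtain ⟨I, J, h1, h2, h3, h4, h5⟩ := Nat.sInf_mem (hne (i + 1) (m + 1) (by omega))
    have h6 := h1 m (by omega)
    have h7 := h2 m (by omega)
    refine lt_of_le_of_lt (Nat.sInf_le (m := J m) ⟨I, J, fun a ha => h1 a (by omega),
      fun a ha => h2 a (by omega), by omega, fun a ha => h4 a (by omega), rfl⟩) ?_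
    simp only
    omega
  · have hm := m.2
    obtain ⟨I, J, h1, h2, h3, h4, h5⟩ := Nat.sInf_mem (hne (r - 1) m (by omega))
    by_contra hlt
    have hJ : J m < js m := by
      rw [h5]
      exact not_le.mp hlt
    have hN := (js m).2
    have b1 : ∀ a : Fin ((m : ℕ) + 1), I a < r := fun a => by
      have := mono_GT1 h1 a (Nat.lt_succ_iff.mp a.2)
      omega
    have b2 : ∀ a : Fin ((m : ℕ) + 1), J a < js m := fun a => by
      have := mono_GT1 h2 a (Nat.lt_succ_iff.mp a.2)
      omega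
    obtain ⟨a, ha⟩ := hZ m (fun a => ⟨I a, b1 a⟩) (fun a => ⟨J a, (b2 a).trans hN⟩)
      (Fin.strictMono_iff_lt_succ.mpr fun a => h1 a a.2)
      (Fin.strictMono_iff_lt_succ.mpr fun a => h2 a a.2) b2
    exact h4 a (Nat.lt_succ_iff.mp a.2) ⟨_, ha, rfl, rfl⟩
  · by_contra hb
    refine absurd h1 (not_lt.mpr (Nat.sInf_le ?_))
    rcases m with _ | m
    · exact ⟨fun _ => i, fun _ => j, fun a ha => absurd ha (by omega),
        fun a ha => absurd ha (by omega), le_rfl, fun _ _ => hb, rfl⟩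
    · obtain ⟨I, J, k1, k2, k3, k4, k5⟩ := Nat.sInf_mem (hne (i - 1) m (by omega))
      have h3 : J m < j := by
        rw [k5]
        exact h2.resolve_left (by omega)
      refine ⟨fun a => if a ≤ m then I a else i, fun a => if a ≤ m then J a else j,
        fun a ha => ?_, fun a ha => ?_, by simp, fun a ha => ?_, by simp⟩
      · simp only [if_pos (show a ≤ m by omega)]
        split_ifs with h
        · exact k1 a h
        · rw [show a = m by omega]
          omega
      · simp only [if_pos (show a ≤ m by omega)]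
        split_ifs with h
        · exact k2 a h
        · rw [show a = m by omega]
          exact h3
      · simp only
        split_ifs with h
        · exact k4 a h
        · exact hb

end Pool.Agent.MP_8b9287_co.Geo
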