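import Pool.Agent.MP_8b9287_co.Geo.St

/-! Holes and paths of interlacing patterns. -/

namespace Pool.Agent.MP_8b9287_co.Geo

theorem step_GT2 {r : ℕ} {L : ℕ → ℕ → ℕ} (h : IsGT r L) {i m : ℕ} (hi : i < r) (hm : m < i) :
    L i m ≤ L (i - 1) m ∧ L (i - 1) m < L i (m + 1) := by
  obtain ⟨i, rfl⟩ : ∃ k, i = k + 1 := ⟨i - 1, by omega⟩
  exact h i m (by omega) hi

theorem mono_GT2 {r : ℕ} {L : ℕ → ℕ → ℕ} (h : IsGT r L) {i m m' : ℕ} (hi : i < r) (hm : m ≤ m')
    (hm' : m' ≤ i) : L i m ≤ L i m' := by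
  induction m', hm using Nat.le_induction with
  | base => exact le_rfl
  | succ k _ ih =>
    have := step_GT2 h hi (show k < i from hm')
    have := ih (by omega)
    omega

theorem sGT2a : SGT2a := by
  intro r L h i j hi
  refine ⟨⟨fun hn => ?_, ?_⟩, ?_⟩
  · by_contra hp
    have key : ∀ m, m ≤ i → L i m ≤ j := by
      intro m
      induction m with
      | zero => exact fun _ => not_lt.1 fun k => hn ⟨0, Nat.zero_le _, k, Or.inl rfl⟩
      | succ m ih =>
        intro hm
        refine not_lt.1 fun k => hn ⟨m + 1, hm, k, Or.inr (not_le.1 fun k' => ?_)⟩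
        exact hp ⟨m, by omega, ih (by omega), Or.inr k'⟩
    exact hp ⟨i, le_rfl, key i le_rfl, Or.inl rfl⟩
  · rintro ⟨m, a1, a2, a3⟩ ⟨m', b1, b2, b3⟩
    have c1 : m < m' := not_le.1 fun k => by
      have := mono_GT2 h hi k a1
      omega
    have := mono_GT2 h (show i - 1 < r by omega) (show m ≤ m' - 1 by omega) (by omega)
    omega
  · have key : ∀ m m', onP L m i j → onP L m' i j → ¬ m < m' := by
      rintro m m' ⟨a1, a2, a3⟩ ⟨b1, b2, -⟩ k
      have := step_GT2 h hi (show m < i by omega)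
      have := mono_GT2 h hi (show m + 1 ≤ m' from k) b1
      omega
    exact fun m m' a b => le_antisymm (not_lt.1 (key m' m b a)) (not_lt.1 (key m m' a b))

theorem sGT2c : SGT2c := by
  intro r L h i m hm hi
  have key : ∀ d, i + d < r → L i m ≤ L (i + d) (m + d) := by
    intro d
    induction d with
    | zero => exact fun _ => le_rfl
    | succ d ih =>
      intro k
      exact (ih (by omega)).trans (h (i + d) (m + d) (by omega) k).2.le
  have := key (r - 1 - i) (by omega)
  rw [show i + (r - 1 - i) = r - 1 by omega] at this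
  exact this.trans (mono_GT2 h (by omega) (by omega) le_rfl)

theorem not_lt_GT2 (h : SGT2a) {r : ℕ} {L L' : ℕ → ℕ → ℕ} (hL : IsGT r L) {i m : ℕ} (hm : m ≤ i)
    (hi : i < r) (hh : ∀ j, hole L' i j → hole L i j)
    (ih : m ≠ 0 → L' (i - 1) (m - 1) = L (i - 1) (m - 1)) : ¬ L i m < L' i m := fun k => by
  refine (h r L hL i (L i m) hi).1.2 ⟨m, hm, le_rfl, ?_⟩ (hh _ ⟨m, hm, k, ?_⟩)
  · exact hm.eq_or_lt.imp Eq.symm fun a => (step_GT2 hL hi a).1
  · rcases m with _ | m
    · exact Or.inl rfl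
    · rw [ih m.succ_ne_zero]
      exact Or.inr (step_GT2 hL hi (show m < i from hm)).2

theorem sF4 (h : SGT2a) : SF4 := by
  intro r L L' hL hL' hh i
  induction i using Nat.strong_induction_on with
  | _ i ih =>
    intro m hm hi
    have e : m ≠ 0 → L (i - 1) (m - 1) = L' (i - 1) (m - 1) := fun k =>
      ih (i - 1) (by omega) (m - 1) (by omega) (by omega)
    exact le_antisymm (not_lt.1 (not_lt_GT2 h hL' hm hi (fun j => (hh i j hi).1) e))
      (not_lt.1 (not_lt_GT2 h hL hm hi (fun j => (hh i j hi).2) fun k => (e k).symm))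

end Pool.Agent.MP_8b9287_co.Geo
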