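import Pool.Agent.MP_8b9287_co.Geo.St

namespace Pool.Agent.MP_8b9287_co.Geo

open Finset

theorem row_GT2b (lo a : ℕ → ℕ) (n : ℕ) (h1 : ∀ m < n, lo m ≤ a m)
    (h2 : ∀ m, m + 1 < n → a m ≤ lo (m + 1)) : ∃ S : Finset ℕ,
    (∀ j, j ∈ S ↔ ∃ m < n, lo m ≤ j ∧ j < a m) ∧ (∀ j ∈ S, j < a (n - 1)) ∧
      S.card + ∑ m ∈ range n, lo m = ∑ m ∈ range n, a m := by
  induction n with
  | zero => exact ⟨∅, by simp, by simp, by simp⟩
  | succ n ih =>
    obtain ⟨S, e1, e2, e3⟩ := ih (fun m h => h1 m (by omega)) fun m h => h2 m (by omega)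
    have h3 := h1 n (by omega)
    have h4 : ∀ j ∈ S, j < lo n := fun j hj => by
      obtain ⟨m, hm, -⟩ := (e1 j).1 hj
      obtain ⟨k, rfl⟩ : ∃ k, n = k + 1 := ⟨n - 1, by omega⟩
      exact (e2 j hj).trans_le (h2 k (by omega))
    refine ⟨S ∪ Ico (lo n) (a n), fun j => ?_, fun j hj => ?_, ?_⟩
    · rw [mem_union, e1, mem_Ico, Nat.exists_lt_succ_right]
    · rcases mem_union.1 hj with h | h
      · exact (h4 j h).trans_le h3
      · exact (mem_Ico.1 h).2
    · rw [card_union_of_disjoint (disjoint_left.2 fun j hj h => absurd (h4 j hj)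
        (not_lt.2 (mem_Ico.1 h).1)), Nat.card_Ico, sum_range_succ, sum_range_succ]
      omega

theorem sGT2b : SGT2b := by
  intro r L h
  induction r with
  | zero => exact ⟨∅, by simp, by simp⟩
  | succ r ih =>
    obtain ⟨Y, e1, e2⟩ := ih fun i m h1 h2 => h i m h1 (by omega)
    have h3 : ∀ m < r, L r m ≤ L (r - 1) m ∧ L (r - 1) m < L r (m + 1) := fun m hm => by
      have h4 := h (r - 1) m (by omega) (by omega)
      rwa [Nat.sub_add_cancel (by omega)] at h4
    obtain ⟨S, f1, -, f2⟩ := row_GT2b (fun m => if m = 0 then 0 else L (r - 1) (m - 1) + 1) (L r)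
      (r + 1) (fun m hm => by
        rcases m with _ | m
        · exact Nat.zero_le _
        · exact (h3 m (by omega)).2) fun m hm => (h3 m (by omega)).1.trans (Nat.le_succ _)
    have f3 : ∀ j, j ∈ S ↔ hole L r j := fun j => by
      rw [f1]
      refine exists_congr fun m => ?_
      by_cases hm : m = 0
      · simp [hm]
      · simp only [hm, if_false, false_or]
        omega
    refine ⟨Y ∪ S.map ⟨Prod.mk r, Prod.mk_right_injective r⟩, fun p => ?_, ?_⟩
    · rw [mem_union, e1, mem_map]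
      constructor
      · rintro (⟨h1, h2⟩ | ⟨j, hj, rfl⟩)
        · exact ⟨by omega, h2⟩
        · exact ⟨Nat.lt_succ_self r, (f3 j).1 hj⟩
      · rintro ⟨h1, h2⟩
        rcases Nat.lt_succ_iff_lt_or_eq.1 h1 with h4 | h4
        · exact Or.inl ⟨h4, h2⟩
        · exact Or.inr ⟨p.2, (f3 _).2 (h4 ▸ h2), Prod.ext h4.symm rfl⟩
    · rw [card_union_of_disjoint (disjoint_left.2 fun p hp hq => by
        obtain ⟨j, -, rfl⟩ := mem_map.1 hq
        exact lt_irrefl r ((e1 _).1 hp).1), card_map, sum_range_succ, Nat.add_sub_cancel, ← f2,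
        sum_range_succ']
      simp only [Nat.succ_ne_zero, if_false, if_true, Nat.add_sub_cancel, sum_add_distrib,
        sum_const, card_range, smul_eq_mul, mul_one]
      omega

end Pool.Agent.MP_8b9287_co.Geo
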