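import Pool.Agent.MP_8b9287_co.Geo.St

namespace Pool.Agent.MP_8b9287_co.Geo

open Finset

theorem inj_GT3 (r N : ℕ) :
    Function.Injective (fun p : Fin r × Fin N => (((p.1 : ℕ), (p.2 : ℕ)) : ℕ × ℕ)) := by
  intro p q h
  simp only [Prod.mk.injEq] at h
  exact Prod.ext (Fin.ext h.1) (Fin.ext h.2)

theorem sGT3 (h1 : SGT1) (h2 : SGT2b) (h3 : SGT2c) : SGT3 := by
  intro c r N js Z hc
  have hZ : (Z.image fun p : Fin r × Fin N => (((p.1 : ℕ), (p.2 : ℕ)) : ℕ × ℕ)).card = Z.card :=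
    card_image_of_injective _ (inj_GT3 r N)
  have hs0 : ∑ m ∈ range r, m = ∑ s : Fin r, (s : ℕ) := (Fin.sum_univ_eq_sum_range (fun m => m) r).symm
  have key : Hit js Z → ∃ (L : ℕ → ℕ → ℕ) (Y : Finset (ℕ × ℕ)), IsGT r L ∧
      (∀ m : Fin r, (js m : ℕ) ≤ L (r - 1) m) ∧ (∀ p : ℕ × ℕ, p ∈ Y ↔ p.1 < r ∧ hole L p.1 p.2) ∧
      Y.card + ∑ s : Fin r, (s : ℕ) = ∑ m : Fin r, L (r - 1) m ∧
      Y ⊆ Z.image fun p : Fin r × Fin N => (((p.1 : ℕ), (p.2 : ℕ)) : ℕ × ℕ) := by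
    intro hH
    obtain ⟨L, hL, hle, hh⟩ := h1 r N js Z hH
    obtain ⟨Y, hY, hcard⟩ := h2 r L hL
    refine ⟨L, Y, hL, hle, hY, ?_, ?_⟩
    · rw [← hs0, hcard]
      exact (Fin.sum_univ_eq_sum_range (fun m => L (r - 1) m) r).symm
    · intro p hp
      obtain ⟨hp1, hp2⟩ := (hY p).1 hp
      obtain ⟨q, hq, e1, e2⟩ := hh p.1 p.2 hp1 hp2
      exact mem_image.2 ⟨q, hq, Prod.ext e1 e2⟩
  refine ⟨fun hH => ?_, fun hH hle' => ?_, fun hG => ?_⟩
  · obtain ⟨L, Y, -, hle, -, hcard, hsub⟩ := key hH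
    have a1 := card_le_card hsub
    have a2 : ∑ s, (js s : ℕ) ≤ ∑ m : Fin r, L (r - 1) m := sum_le_sum fun m _ => hle m
    have a3 := hc.2
    omega
  · obtain ⟨L, Y, hL, hle, hY, hcard, hsub⟩ := key hH
    have a1 := card_le_card hsub
    have a2 : ∑ s, (js s : ℕ) ≤ ∑ m : Fin r, L (r - 1) m := sum_le_sum fun m _ => hle m
    have a3 := hc.2
    have a4 : ∑ s, (js s : ℕ) = ∑ m : Fin r, L (r - 1) m := by omega
    have a5 := (sum_eq_sum_iff_of_le (s := univ) fun m _ => hle m).1 a4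
    have a6 := eq_of_subset_of_card_le hsub (by omega)
    refine ⟨L, hL, fun m => (a5 m (mem_univ m)).symm, fun p => ?_⟩
    have a7 := hY ((p.1 : ℕ), (p.2 : ℕ))
    rw [a6] at a7
    constructor
    · intro hp
      exact (a7.1 (mem_image.2 ⟨p, hp, rfl⟩)).2
    · intro hp
      obtain ⟨q, hq, e⟩ := mem_image.1 (a7.2 ⟨p.1.2, hp⟩)
      rwa [← inj_GT3 r N e]
  · obtain ⟨L, hL, hb, hmem⟩ := hG
    obtain ⟨Y, hY, hcard⟩ := h2 r L hL
    have a1 : ∑ m ∈ range r, L (r - 1) m = ∑ s, (js s : ℕ) := by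
      rw [← Fin.sum_univ_eq_sum_range (fun m => L (r - 1) m) r]
      exact sum_congr rfl fun m _ => hb m
    have a2 : Y = Z.image fun p : Fin r × Fin N => (((p.1 : ℕ), (p.2 : ℕ)) : ℕ × ℕ) := by
      ext p
      rw [hY, mem_image]
      constructor
      · rintro ⟨hp1, hp2⟩
        have hr : r - 1 < r := by omega
        have hN : p.2 < N := by
          obtain ⟨m, hm, hj, -⟩ := hp2
          have b1 := h3 r L hL p.1 m hm hp1
          have b2 := hb ⟨r - 1, hr⟩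
          have b3 := (js ⟨r - 1, hr⟩).2
          simp only at b2
          omega
        exact ⟨(⟨p.1, hp1⟩, ⟨p.2, hN⟩), (hmem _).2 hp2, rfl⟩
      · rintro ⟨q, hq, rfl⟩
        exact ⟨q.1.2, (hmem q).1 hq⟩
    have a3 := hc.2
    rw [a2, hZ] at hcard
    omega

theorem cnt_GT3 (r l : ℕ) (hl : l ≤ r) :
    (univ.filter fun s : Fin r => r ≤ (s : ℕ) + l).card = l := by
  have e : (univ.filter fun s : Fin r => r ≤ (s : ℕ) + l).card = (Ico (r - l) r).card := by
    refine card_bij (fun s _ => (s : ℕ)) ?_ ?_ ?_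
    · intro s hs
      have h1 := (mem_filter.1 hs).2
      have h2 := s.2
      exact mem_Ico.2 ⟨by omega, h2⟩
    · intro s _ t _ h
      exact Fin.ext h
    · intro x hx
      obtain ⟨h1, h2⟩ := mem_Ico.1 hx
      exact ⟨⟨x, h2⟩, mem_filter.2 ⟨mem_univ _, by simp only; omega⟩, rfl⟩
  rw [e, Nat.card_Ico]
  omega

theorem sJS : SJS := by
  intro c r lam hsum hle
  have hb : ∀ s : Fin r,
      (s : ℕ) + (univ.filter fun a : Fin c => r ≤ (s : ℕ) + lam a).card < r + c := by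
    intro s
    have h1 : (univ.filter fun a : Fin c => r ≤ (s : ℕ) + lam a).card ≤ c := by
      simpa using card_le_univ (univ.filter fun a : Fin c => r ≤ (s : ℕ) + lam a)
    have h2 := s.2
    omega
  refine ⟨fun s => ⟨_, hb s⟩, ⟨?_, ?_⟩, fun s => rfl⟩
  · intro s t hst
    have h0 : (s : ℕ) < t := hst
    have h1 : (univ.filter fun a : Fin c => r ≤ (s : ℕ) + lam a).card ≤
        (univ.filter fun a : Fin c => r ≤ (t : ℕ) + lam a).card := by
      refine card_le_card fun a ha => ?_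
      have h2 := (mem_filter.1 ha).2
      exact mem_filter.2 ⟨mem_univ _, by omega⟩
    show (s : ℕ) + _ < (t : ℕ) + _
    omega
  · show ∑ s : Fin r, ((s : ℕ) + (univ.filter fun a : Fin c => r ≤ (s : ℕ) + lam a).card) = _
    rw [sum_add_distrib, add_comm]
    congr 1
    refine Eq.trans ?_ hsum
    simp only [card_filter]
    rw [sum_comm]
    refine sum_congr rfl fun a _ => ?_
    rw [← card_filter]
    exact cnt_GT3 r (lam a) (hle a)

end Pool.Agent.MP_8b9287_co.Geo
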