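import Pool.Agent.MP_8b9287_co.Geo.St

/-! The count is the same at two suitable points of any two nonempty open sets. -/

namespace Pool.Agent.MP_8b9287_co.Geo

noncomputable def tw_Gen {k : ℕ} (σ : ℂ ≃+* ℂ) (L : Submodule ℂ (Fin k → ℂ)) :
    Submodule ℂ (Fin k → ℂ) :=
  Submodule.span ℂ ((fun (v : Fin k → ℂ) (a : Fin k) => σ (v a)) '' (L : Set (Fin k → ℂ)))

theorem tw_span_Gen {k : ℕ} (σ : ℂ ≃+* ℂ) (v : Fin k → ℂ) :
    tw_Gen σ (Submodule.span ℂ ({v} : Set (Fin k → ℂ))) =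
      Submodule.span ℂ ({fun a => σ (v a)} : Set (Fin k → ℂ)) := by
  apply le_antisymm
  · refine Submodule.span_le.2 ?_
    rintro _ ⟨w, hw, rfl⟩
    obtain ⟨c, rfl⟩ := Submodule.mem_span_singleton.1 hw
    refine Submodule.mem_span_singleton.2 ⟨σ c, ?_⟩
    ext a
    simp
  · refine Submodule.span_mono ?_
    rintro _ rfl
    exact ⟨v, Submodule.mem_span_singleton_self v, rfl⟩

theorem om_Gen {k r N : ℕ} (js : Fin r → Fin N) (l : Fin k → Mat r N) (σ : ℂ ≃+* ℂ)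
    (v : Fin k → ℂ) (h : Om js (ap l v)) :
    Om js (ap (fun a i j => σ (l a i j)) (fun a => σ (v a))) := by
  intro s I J hJ
  have h1 := h s I J hJ
  have h2 := RingHom.map_det (σ : ℂ →+* ℂ) (Matrix.of fun a b => ap l v (I a) (J b))
  unfold mnr at h1 ⊢
  rw [h1, map_zero] at h2
  rw [h2]
  congr 1
  ext a b
  simp [ap_apply]

theorem cnt_le_Gen {k r N : ℕ} (js : Fin r → Fin N) (l : Fin k → Mat r N) (σ : ℂ ≃+* ℂ) :
    cnt js l ≤ cnt js (fun a i j => σ (l a i j)) := by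
  unfold cnt lines
  refine Set.encard_le_encard_of_injOn (f := tw_Gen σ) ?_ ?_
  · rintro _ ⟨v, ⟨hv, hO⟩, rfl⟩
    refine ⟨fun a => σ (v a), ⟨?_, om_Gen js l σ v hO⟩, (tw_span_Gen σ v).symm⟩
    intro h0
    apply hv
    ext a
    simpa using congrFun h0 a
  · rintro _ ⟨v, -, rfl⟩ _ ⟨w, -, rfl⟩ h
    have := congrArg (tw_Gen σ.symm) h
    simpa [tw_span_Gen] using this

theorem sCntAut : SCntAut := by
  intro k r N js l σ
  refine le_antisymm ?_ (cnt_le_Gen js l σ)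
  simpa using cnt_le_Gen js (fun a i j => σ (l a i j)) σ.symm

theorem sGen (hD : SDense) (hA : SAut) (hC : SCntAut) : SGen := by
  intro k r N js U₁ U₂ h₁ h₂ n₁ n₂
  have hK : ((⊥ : Subfield ℂ) : Set ℂ).Countable := by
    refine (Set.countable_range (fun q : ℚ => (q : ℂ))).mono ?_
    have : (⊥ : Subfield ℂ) ≤ (algebraMap ℚ ℂ).fieldRange := bot_le
    intro x hx
    obtain ⟨q, hq⟩ := this hx
    exact ⟨q, by simpa using hq⟩
  have key : ∀ U : Set (Fin k → Mat r N), IsOpen U → U.Nonempty →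
      ∃ x : Fin k × Fin r × Fin N → ℂ, AlgebraicIndependent ℚ x ∧
        (fun a i j => x (a, i, j)) ∈ U := by
    intro U hU ⟨l, hl⟩
    have hc : Continuous fun (x : Fin k × Fin r × Fin N → ℂ) =>
        (fun a i j => x (a, i, j) : Fin k → Mat r N) := by fun_prop
    obtain ⟨x, hx1, hx2⟩ := (hD ⊥ hK (Fin k × Fin r × Fin N)).inter_open_nonempty _
      (hU.preimage hc) ⟨fun p => l p.1 p.2.1 p.2.2, hl⟩
    exact ⟨x, AlgebraicIndependent.restrictScalars (K := (⊥ : Subfield ℂ))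
      (algebraMap ℚ (⊥ : Subfield ℂ)).injective hx2, hx1⟩
  obtain ⟨x, hx, hxU⟩ := key U₁ h₁ n₁
  obtain ⟨y, hy, hyU⟩ := key U₂ h₂ n₂
  obtain ⟨σ, hσ⟩ := hA _ x y hx hy
  refine ⟨_, hxU, _, hyU, ?_⟩
  rw [← hC k r N js _ σ]
  simp only [hσ]

end Pool.Agent.MP_8b9287_co.Geo
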