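import Pool.Agent.MP_8b9287_co.Geo.St

namespace Pool.Agent.MP_8b9287_co.Geo

open Classical in
theorem sum01_HY {n : ℕ} (K : Finset (Fin n)) (x : Fin n → ℝ) (h : ∀ j ∈ K, x j = 0 ∨ x j = 1) :
    ∑ j ∈ K, x j = ((K.filter fun j => x j = 1).card : ℝ) := by
  rw [Finset.card_filter]
  push_cast
  refine Finset.sum_congr rfl fun j hj => ?_
  rcases h j hj with e | e <;> simp [e]

theorem second_HY {n m : ℕ} (K : Finset (Fin n)) (x : Fin n → ℝ) (h0 : ∀ i, 0 ≤ x i)
    (h1 : ∀ i, x i ≤ 1) (hs : ∑ j ∈ K, x j = m) {i : Fin n} (hi : i ∈ K) (p : 0 < x i)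
    (q : x i < 1) : ∃ j ∈ K, j ≠ i ∧ 0 < x j ∧ x j < 1 := by
  classical
  by_contra hc
  push Not at hc
  have h2 : ∀ j ∈ K.erase i, x j = 0 ∨ x j = 1 := fun j hj => by
    rcases (h0 j).eq_or_lt with e | e
    · exact Or.inl e.symm
    · exact Or.inr (le_antisymm (h1 j)
        (hc j (Finset.mem_of_mem_erase hj) (Finset.ne_of_mem_erase hj) e))
  have h3 := sum01_HY _ x h2
  rw [← Finset.add_sum_erase K x hi, h3] at hs
  generalize ((K.erase i).filter fun j => x j = 1).card = N at hs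
  have a : (N : ℝ) < m := by linarith
  have b : (m : ℝ) < N + 1 := by linarith
  have a' : N < m := by exact_mod_cast a
  have b' : m < N + 1 := by exact_mod_cast b
  omega

/-- the point moved from `j` to `i` by `a` -/
noncomputable def mov_HY {n : ℕ} (x : Fin n → ℝ) (i j : Fin n) (a : ℝ) : Fin n → ℝ :=
  fun k => x k + (if k = i then a else 0) - (if k = j then a else 0)

theorem mov_sum_HY {n : ℕ} (x : Fin n → ℝ) (i j : Fin n) (a : ℝ) (K : Finset (Fin n))
    (h : i ∈ K ↔ j ∈ K) : ∑ k ∈ K, mov_HY x i j a k = ∑ k ∈ K, x k := by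
  simp only [mov_HY, Finset.sum_sub_distrib, Finset.sum_add_distrib, Finset.sum_ite_eq']
  by_cases c : i ∈ K
  · simp [c, h.1 c]
  · simp [c, mt h.2 c]

open Classical in
/-- the fractional coordinates -/
noncomputable def fr_HY {n : ℕ} (x : Fin n → ℝ) : Finset (Fin n) :=
  Finset.univ.filter fun k => 0 < x k ∧ x k < 1

theorem mem_fr_HY {n : ℕ} {x : Fin n → ℝ} {k : Fin n} : k ∈ fr_HY x ↔ 0 < x k ∧ x k < 1 := by
  simp [fr_HY]

theorem mov_ok_HY {n : ℕ} (x : Fin n → ℝ) (h0 : ∀ i, 0 ≤ x i) (h1 : ∀ i, x i ≤ 1) {i j : Fin n}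
    (hij : j ≠ i) (hi : i ∈ fr_HY x) (hj : j ∈ fr_HY x) :
    (∀ k, 0 ≤ mov_HY x i j (min (1 - x i) (x j)) k) ∧
    (∀ k, mov_HY x i j (min (1 - x i) (x j)) k ≤ 1) ∧
    (fr_HY (mov_HY x i j (min (1 - x i) (x j)))).card < (fr_HY x).card := by
  have hi' := mem_fr_HY.1 hi
  have hj' := mem_fr_HY.1 hj
  have m1 := min_le_left (1 - x i) (x j)
  have m2 := min_le_right (1 - x i) (x j)
  have m0 : 0 < min (1 - x i) (x j) := lt_min (by linarith [hi'.2]) hj'.1
  have ei : mov_HY x i j (min (1 - x i) (x j)) i = x i + min (1 - x i) (x j) := by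
    simp [mov_HY, hij.symm]
  have ej : mov_HY x i j (min (1 - x i) (x j)) j = x j - min (1 - x i) (x j) := by
    simp [mov_HY, hij]
  have ek : ∀ k, k ≠ i → k ≠ j → mov_HY x i j (min (1 - x i) (x j)) k = x k := fun k a b => by
    simp [mov_HY, a, b]
  refine ⟨fun k => ?_, fun k => ?_, Finset.card_lt_card ⟨fun k hk => ?_, fun hs => ?_⟩⟩
  · by_cases a : k = i
    · rw [a, ei]; linarith [h0 i]
    by_cases b : k = j
    · rw [b, ej]; linarith
    · rw [ek k a b]; exact h0 k
  · by_cases a : k = i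
    · rw [a, ei]; linarith
    by_cases b : k = j
    · rw [b, ej]; linarith [h1 j]
    · rw [ek k a b]; exact h1 k
  · by_cases a : k = i
    · exact a ▸ hi
    by_cases b : k = j
    · exact b ▸ hj
    · rw [mem_fr_HY, ek k a b] at hk
      exact mem_fr_HY.2 hk
  · have a := mem_fr_HY.1 (hs hi)
    have b := mem_fr_HY.1 (hs hj)
    rw [ei] at a
    rw [ej] at b
    rcases min_choice (1 - x i) (x j) with e | e
    · rw [e] at a; linarith [a.2]
    · rw [e] at b; linarith [b.1]

theorem sHY : SHY := by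
  classical
  intro n c H x
  induction hN : (fr_HY x).card using Nat.strong_induction_on generalizing x with
  | _ N ih =>
    subst hN
    intro h0 h1 s1 s2
    rcases (fr_HY x).eq_empty_or_nonempty with e | ⟨i, hi⟩
    · have h2 : ∀ j, x j = 0 ∨ x j = 1 := fun j => by
        rcases (h0 j).eq_or_lt with a | a
        · exact Or.inl a.symm
        rcases (h1 j).eq_or_lt with b | b
        · exact Or.inr b
        · exact absurd (mem_fr_HY.2 ⟨a, b⟩) (by simp [e])
      rw [sum01_HY H x fun j _ => h2 j] at s1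
      rw [sum01_HY Hᶜ x fun j _ => h2 j] at s2
      have t1 : (H.filter fun j => x j = 1).card = c := by exact_mod_cast s1
      have t2 : (Hᶜ.filter fun j => x j = 1).card = 1 := by exact_mod_cast s2
      have u2 : (Finset.univ.filter fun j => x j = 1) \ H = Hᶜ.filter fun j => x j = 1 := by
        ext j; simp [and_comm]
      have u1 : (Finset.univ.filter fun j => x j = 1) ∩ H = H.filter fun j => x j = 1 := by
        ext j; simp [and_comm]
      refine subset_convexHull ℝ _ ⟨Finset.univ.filter fun j => x j = 1, ⟨?_, by rw [u2, t2]⟩, ?_⟩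
      · rw [← Finset.card_sdiff_add_card_inter _ H, u1, u2, t1, t2, add_comm]
      · ext j
        rcases h2 j with a | a <;> simp [Set.indicator, a]
    · have hi' := mem_fr_HY.1 hi
      obtain ⟨j, hij, hj, hH⟩ : ∃ j, j ≠ i ∧ j ∈ fr_HY x ∧ (i ∈ H ↔ j ∈ H) := by
        by_cases a : i ∈ H
        · obtain ⟨j, b, d, e⟩ := second_HY H x h0 h1 s1 a hi'.1 hi'.2
          exact ⟨j, d, mem_fr_HY.2 e, iff_of_true a b⟩
        · obtain ⟨j, b, d, e⟩ := second_HY (m := 1) Hᶜ x h0 h1 (by simpa using s2)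
            (Finset.mem_compl.2 a) hi'.1 hi'.2
          exact ⟨j, d, mem_fr_HY.2 e, iff_of_false a (Finset.mem_compl.1 b)⟩
      have hj' := mem_fr_HY.1 hj
      have hC : i ∈ Hᶜ ↔ j ∈ Hᶜ := by simp only [Finset.mem_compl, hH]
      obtain ⟨p0, p1, p2⟩ := mov_ok_HY x h0 h1 hij hi hj
      obtain ⟨q0, q1, q2⟩ := mov_ok_HY x h0 h1 hij.symm hj hi
      have P := ih _ p2 _ rfl p0 p1 (by rw [mov_sum_HY _ _ _ _ _ hH, s1])
        (by rw [mov_sum_HY _ _ _ _ _ hC, s2])
      have Q := ih _ q2 _ rfl q0 q1 (by rw [mov_sum_HY _ _ _ _ _ hH.symm, s1])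
        (by rw [mov_sum_HY _ _ _ _ _ hC.symm, s2])
      have a0 : 0 < min (1 - x i) (x j) := lt_min (by linarith [hi'.2]) hj'.1
      have b0 : 0 < min (1 - x j) (x i) := lt_min (by linarith [hj'.2]) hi'.1
      generalize min (1 - x i) (x j) = a at P a0
      generalize min (1 - x j) (x i) = b at Q b0
      have ab : 0 < a + b := add_pos a0 b0
      have R := convex_convexHull ℝ _ P Q (a := b / (a + b)) (b := a / (a + b))
        (by positivity) (by positivity) (by field_simp; ring)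
      have E : (b / (a + b)) • mov_HY x i j a + (a / (a + b)) • mov_HY x j i b = x := by
        ext k
        simp only [mov_HY, Pi.add_apply, Pi.smul_apply, smul_eq_mul]
        split_ifs <;> field_simp <;> ring
      rw [E] at R
      exact R

end Pool.Agent.MP_8b9287_co.Geo
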