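import Pool.Agent.MP_8b9287_co.Geo.St

namespace Pool.Agent.MP_8b9287_co.Geo

open Module Filter Topology

theorem sIFT : SIFT := by
  intro P X T _ _ _ _ _ _ _ _ _ F p₀ x₀ hF hinj
  have : CompleteSpace (P × X) := FiniteDimensional.complete ℂ _
  have : CompleteSpace (P × T) := FiniteDimensional.complete ℂ _
  set D : (P × X) →L[ℂ] (P × T) :=
    (ContinuousLinearMap.fst ℂ P X).prod (fderiv ℂ F (p₀, x₀)) with hD
  have hΨ : HasStrictFDerivAt (fun q : P × X => (q.1, F q)) D (p₀, x₀) :=
    hasStrictFDerivAt_fst.prodMk (hF.hasStrictFDerivAt one_ne_zero)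
  have hk : LinearMap.ker (D : (P × X) →ₗ[ℂ] (P × T)) = ⊥ := by
    rw [LinearMap.ker_eq_bot']
    rintro ⟨p, x⟩ h
    have h1 : p = 0 := congrArg Prod.fst h
    subst h1
    have h2 : fderiv ℂ F (p₀, x₀) (0, x) = 0 := congrArg Prod.snd h
    rw [hinj x h2]
    rfl
  constructor
  · obtain ⟨L, hL⟩ := LinearMap.exists_leftInverse_of_injective _ hk
    have h1 : HasStrictFDerivAt (fun q : P × X => L.toContinuousLinearMap (q.1, F q))
        ((ContinuousLinearEquiv.refl ℂ (P × X) : (P × X) ≃L[ℂ] (P × X)) : (P × X) →L[ℂ] (P × X))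
        (p₀, x₀) := by
      have h2 := (L.toContinuousLinearMap.hasStrictFDerivAt (x := (p₀, F (p₀, x₀)))).comp
        (p₀, x₀) hΨ
      have h3 : L.toContinuousLinearMap.comp D =
          ((ContinuousLinearEquiv.refl ℂ (P × X) : (P × X) ≃L[ℂ] (P × X)) :
            (P × X) →L[ℂ] (P × X)) :=
        ContinuousLinearMap.ext fun q => LinearMap.congr_fun hL q
      rw [h3] at h2
      exact h2
    refine ⟨_, h1.eventually_left_inverse, fun p x x' a b e => ?_⟩
    have a' : h1.localInverse _ _ _ (L.toContinuousLinearMap (p, F (p, x))) = (p, x) := a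
    have b' : h1.localInverse _ _ _ (L.toContinuousLinearMap (p, F (p, x'))) = (p, x') := b
    rw [e, b'] at a'
    exact (congrArg Prod.snd a').symm
  · intro hr W hW
    have hs : LinearMap.range (D : (P × X) →ₗ[ℂ] (P × T)) = ⊤ := by
      rw [LinearMap.range_eq_top, ← LinearMap.injective_iff_surjective_of_finrank_eq_finrank
        (by rw [finrank_prod, finrank_prod, hr]), ← LinearMap.ker_eq_bot]
      exact hk
    have h1 := hΨ.map_nhds_eq_of_surj hs
    have h2 : (fun q : P × X => (q.1, F q)) '' W ∈ 𝓝 (p₀, F (p₀, x₀)) := h1 ▸ image_mem_map hW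
    have h3 : Tendsto (fun p : P => (p, F (p₀, x₀))) (𝓝 p₀) (𝓝 (p₀, F (p₀, x₀))) :=
      (continuous_id.prodMk continuous_const).tendsto p₀
    filter_upwards [h3 h2] with p hp
    obtain ⟨⟨p', x⟩, a, b⟩ := hp
    have c : p' = p := congrArg Prod.fst b
    subst c
    exact ⟨x, a, congrArg Prod.snd b⟩

end Pool.Agent.MP_8b9287_co.Geo
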