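import Pool.Agent.MP_8b9287_co.Geo.St

namespace Pool.Agent.MP_8b9287_co.Geo

open Module

theorem ap_smul_KA {k r N : ℕ} (l : Fin k → Mat r N) (a : ℂ) (v : Fin k → ℂ) :
    ap l (a • v) = a • ap l v := by
  simp [ap, Finset.smul_sum, smul_smul]

theorem om_smul_KA {r N : ℕ} {js : Fin r → Fin N} {M : Mat r N} (h : Om js M) (a : ℂ) :
    Om js (a • M) := fun s I J hJ => by
  have e : (Matrix.of fun x y => (a • M) (I x) (J y)) = a • Matrix.of fun x y => M (I x) (J y) :=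
    rfl
  have := h s I J hJ
  unfold mnr at this ⊢
  rw [e, Matrix.det_smul, this, mul_zero]

theorem col_top_KA {k r m N : ℕ} {A : Fin r → Fin m → ℂ} {X : Fin k → Fin m → ℂ}
    {G : Fin N → Fin m → ℂ} {v : Fin k → ℂ} (hK : IsKer A X)
    (hs : Function.Surjective (mv A X v)) (hF : FS G N = ⊤) : colSp (ap (lA A X G) v) N = ⊤ := by
  rw [eq_top_iff, ← LinearMap.range_eq_top.2 hs, ← Submodule.map_top, ← hF, FS,
    Submodule.map_span_le]
  rintro w (rfl | ⟨q, hq, rfl⟩)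
  · rw [mv_one hK]
    exact zero_mem _
  · exact Submodule.subset_span ⟨q, hq, funext fun i => ap_lA A X G v i q⟩

theorem core_KA (hP : SPiv) (hL : SLoc1) (hF : SForb) (hK : SKA1) {c r m N : ℕ}
    {js : Fin r → Fin N} {A : Fin r → Fin m → ℂ} {X : Fin (c + 1) → Fin m → ℂ}
    {G : Fin N → Fin m → ℂ} {S : Set ℂ} (hc : Cod c js) (hA : ∀ i j, A i j ∈ S)
    (hX : ∀ a j, X a j ∈ S) (hG : Free S G) (hk : IsKer A X)
    (hs : ∀ v, v ≠ 0 → Function.Surjective (mv A X v)) (hT : FS G N = ⊤) (i : Fin (c + 1))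
    (v : Fin (c + 1) → ℂ) (hv : v i = 1) (hO : Om js (ap (lA A X G) v)) :
    mnr (ap (lA A X G) v) id js ≠ 0 ∧ (∀ v' : Fin (c + 1) → ℂ, v' i = 0 →
      fderiv ℂ (Phi js) (ap (lA A X G) v) (ap (lA A X G) v') = 0 → v' = 0) ∧
      ∀ v' : Fin (c + 1) → ℂ, v' i = 0 →
        ∃ δ : Derivation ℤ ℂ ℂ, (∀ s ∈ S, δ s = 0) ∧ v' = fun a => δ (v a) := by
  have v0 : v ≠ 0 := fun e => by simp [e] at hv
  obtain ⟨jj, j1, j2, j3, j4⟩ := hP r N js _ hO (col_top_KA hk (hs v v0) hT)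
  have sur := hK _ r m N A X G S v jj hA hX hG (hs v v0) j3 (hL r N jj _ j1 j4)
  let U : Submodule ℂ (Fin (c + 1) → ℂ) :=
    LinearMap.ker (LinearMap.proj (R := ℂ) (φ := fun _ => ℂ) i)
  have hU : finrank ℂ U = c := by
    have := (LinearMap.proj (R := ℂ) (φ := fun _ : Fin (c + 1) => ℂ) i).finrank_range_add_finrank_ker
    rw [LinearMap.range_eq_top.2 (LinearMap.proj_surjective i), finrank_top, finrank_self,
      finrank_fin_fun] at this
    exact Nat.add_right_cancel ((add_comm _ _).trans this)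
  let Lam : U →ₗ[ℂ] (Forb jj → ℂ) := (fderiv ℂ (Phi jj) (ap (lA A X G) v)).toLinearMap ∘ₗ
    Fintype.linearCombination ℂ (lA A X G) ∘ₗ U.subtype
  have hLam : ∀ u : U, Lam u = fderiv ℂ (Phi jj) (ap (lA A X G) v) (ap (lA A X G) u) :=
    fun u => rfl
  have mem : ∀ δ : Derivation ℤ ℂ ℂ, (fun a => δ (v a)) ∈ U := fun δ => by
    change δ (v i) = 0
    rw [hv, δ.map_one_eq_zero]
  have ls : Function.Surjective Lam := fun τ => by
    obtain ⟨δ, -, h2⟩ := sur τ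
    exact ⟨⟨_, mem δ⟩, h2⟩
  have le := LinearMap.finrank_le_finrank_of_surjective ls
  rw [hU, finrank_fintype_fun_eq_card] at le
  have f1 := hF r N jj j1
  have f2 := hc.2
  have s1 : ∑ s, (js s : ℕ) ≤ ∑ s, (jj s : ℕ) := Finset.sum_le_sum fun s _ => j2 s
  have e : js = jj := funext fun s => Fin.ext
    ((Finset.sum_eq_sum_iff_of_le (f := fun s => (js s : ℕ)) (g := fun s => (jj s : ℕ))
      fun s _ => j2 s).1 (by omega) s (Finset.mem_univ s))
  subst e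
  have li : Function.Injective Lam :=
    (LinearMap.injective_iff_surjective_of_finrank_eq_finrank
      (by rw [hU, finrank_fintype_fun_eq_card]; omega)).2 ls
  refine ⟨j3, fun v' h1 h2 => ?_, fun v' h1 => ?_⟩
  · exact congrArg Subtype.val (li (a₁ := ⟨v', h1⟩) (a₂ := 0) (by rw [map_zero]; exact h2))
  · obtain ⟨δ, h2, h3⟩ := sur (Lam ⟨v', h1⟩)
    exact ⟨δ, h2, congrArg Subtype.val (li (a₁ := ⟨v', h1⟩) (a₂ := ⟨_, mem δ⟩) h3.symm)⟩

theorem sKA (hP : SPiv) (hL : SLoc1) (hF : SForb) (hK : SKA1) : SKA := by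
  intro c r m N js A X G S hc hA hX hG hk hs hx hT
  refine ⟨fun i v hv hO => ?_, fun w w0 hO j hj => ?_⟩
  · obtain ⟨h1, h2, -⟩ := core_KA hP hL hF hK hc hA hX hG hk hs hT i v hv hO
    exact ⟨h1, h2⟩
  obtain ⟨i, hi⟩ := Function.ne_iff.1 w0
  have hi : w i ≠ 0 := hi
  obtain ⟨v, hv⟩ : ∃ v, v = (w i)⁻¹ • w := ⟨_, rfl⟩
  have v1 : v i = 1 := by rw [hv, Pi.smul_apply, smul_eq_mul, inv_mul_cancel₀ hi]
  have vj : ∑ a, v a * X a j = 0 := by
    have : ∑ a, w a * X a j = 0 := hj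
    simp only [hv, Pi.smul_apply, smul_eq_mul, mul_assoc]
    rw [← Finset.mul_sum, this, mul_zero]
  obtain ⟨-, -, h3⟩ := core_KA hP hL hF hK hc hA hX hG hk hs hT i v v1
    (by rw [hv, ap_smul_KA]; exact om_smul_KA hO _)
  have z : ∀ a, a ≠ i → X a j = 0 := fun a ha => by
    obtain ⟨δ, d1, d2⟩ := h3 (Pi.single a 1) (Pi.single_eq_of_ne ha.symm _)
    have t := congrArg δ vj
    rw [map_sum, map_zero] at t
    have t2 : ∑ b, (Pi.single a (1 : ℂ) : Fin (c + 1) → ℂ) b * X b j = 0 := by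
      rw [← t, d2]
      exact Finset.sum_congr rfl fun b _ => by
        rw [δ.leibniz, d1 _ (hX b j), smul_zero, zero_add, smul_eq_mul, mul_comm]
    simpa [Pi.single_apply] using t2
  obtain ⟨a, ha⟩ := hx j
  by_cases e : a = i
  · rw [Finset.sum_eq_single i (fun b _ hb => by rw [z b hb, mul_zero]) (by simp), v1,
      one_mul] at vj
    exact ha (e ▸ vj)
  · exact ha (z a e)

end Pool.Agent.MP_8b9287_co.Geo
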