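import Pool.Agent.MP_8b9287_co.Geo.St

/-! Every tangent value is reached by a derivation; the first flag vector. -/

namespace Pool.Agent.MP_8b9287_co.Geo

open Module

theorem der_KA1 {k r m : ℕ} (A : Fin r → Fin m → ℂ) (X : Fin k → Fin m → ℂ) (v : Fin k → ℂ)
    (w : Fin m → ℂ) (δ : Derivation ℤ ℂ ℂ) (hA : ∀ i j, δ (A i j) = 0)
    (hX : ∀ a j, δ (X a j) = 0) (i : Fin r) :
    δ (mv A X v w i) = mv A X (fun a => δ (v a)) w i + mv A X v (fun j => δ (w j)) i := by
  have h1 : ∀ j, δ (vX X v j) = vX X (fun a => δ (v a)) j := by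
    intro j
    simp only [vX, map_sum, Derivation.leibniz, hX, smul_eq_mul, mul_zero, zero_add]
    exact Finset.sum_congr rfl fun a _ => mul_comm _ _
  simp only [mv_apply, map_sum, Derivation.leibniz, hA, h1, smul_eq_mul, mul_zero, add_zero,
    ← Finset.sum_add_distrib]
  exact Finset.sum_congr rfl fun j _ => by ring

theorem sKA1 (hD : SDerDet) (hK : SKStr) : SKA1 := by
  intro k r m N A X G S v jj hA hX hF hs hm hP τ
  obtain ⟨Y, hY⟩ := hK r N jj _ hm τ
  choose Δ hΔ using fun q : Fin N => hs (fun i => -Y i q)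
  obtain ⟨δ, hδ, hG⟩ := hF Δ
  refine ⟨δ, hδ, ?_⟩
  have h1 : ap (lA A X G) (fun a => δ (v a))
      = (fun i q => δ (ap (lA A X G) v i q)) + Y := by
    ext i q
    have h2 : (fun j => δ (G q j)) = Δ q := funext fun j => hG q j
    rw [Pi.add_apply, Pi.add_apply, ap_lA, ap_lA,
      der_KA1 A X v (G q) δ (fun i j => hδ _ (hA i j)) (fun a j => hδ _ (hX a j)), h2, hΔ]
    ring
  have h3 : fderiv ℂ (Phi jj) (ap (lA A X G) v) (fun i q => δ (ap (lA A X G) v i q)) = 0 := by
    have h4 : fderiv ℂ (Phi jj) (ap (lA A X G) v) = ContinuousLinearMap.pi fun p : Forb jj =>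
        fderiv ℂ (fun M : Mat r N => mnr M id (Function.update jj p.1.1 p.1.2))
          (ap (lA A X G) v) :=
      fderiv_pi fun p => ((hD r N r id _).1.differentiable one_ne_zero).differentiableAt
    ext p
    rw [h4, ContinuousLinearMap.pi_apply, ← (hD r N r id _).2 δ]
    have h5 : mnr (ap (lA A X G) v) id (Function.update jj p.1.1 p.1.2) = 0 := congrFun hP p
    rw [h5, map_zero, Pi.zero_apply]
  rw [h1, map_add, h3, hY, zero_add]

theorem sE4 : SE4 := by
  intro n c η g W z hz hη hW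
  have h1 := hW.2 0
  have h2 : n - (c + 1) + (((0 : Fin (c + 1)) : ℕ) + 1) - η 0 = 1 := by
    rw [hη, Fin.val_zero]
    omega
  have h3 : flg g 1 = Submodule.span ℂ {g z} := by
    unfold flg
    congr 1
    ext x
    constructor
    · rintro ⟨i, hi, rfl⟩
      have h4 : i = z := Fin.ext (by simp only [Set.mem_ofPred_eq] at hi; omega)
      rw [h4]
      rfl
    · rintro rfl
      exact ⟨z, by simp only [Set.mem_ofPred_eq]; omega, rfl⟩
  rw [h2, h3] at h1
  have h4 : W ⊓ Submodule.span ℂ {g z} ≠ ⊥ := by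
    intro h
    rw [h, finrank_bot] at h1
    omega
  obtain ⟨x, hx, hx0⟩ := (Submodule.ne_bot_iff _).1 h4
  obtain ⟨a, rfl⟩ := Submodule.mem_span_singleton.1 hx.2
  have ha : a ≠ 0 := fun h => hx0 (by rw [h, zero_smul])
  exact (Submodule.smul_mem_iff W ha).1 hx.1

end Pool.Agent.MP_8b9287_co.Geo
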