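import Pool.Agent.MP_8b9287_co.Geo.St2
import Pool.Agent.MP_8b9287_co.Geo.KA

namespace Pool.Agent.MP_8b9287_co.Geo

open Module

theorem rank_KC1 {c : ℕ} (i : Fin (c + 1)) :
    finrank ℂ (LinearMap.ker (LinearMap.proj (R := ℂ) (φ := fun _ : Fin (c + 1) => ℂ) i)) = c := by
  have := (LinearMap.proj (R := ℂ) (φ := fun _ : Fin (c + 1) => ℂ) i).finrank_range_add_finrank_ker
  rw [LinearMap.range_eq_top.2 (LinearMap.proj_surjective i), finrank_top, finrank_self,
    finrank_fin_fun] at this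
  exact Nat.add_right_cancel ((add_comm _ _).trans this)

theorem card_KC1 {c r N : ℕ} {jj : Fin r → Fin N} (l : Fin (c + 1) → Mat r N) (M : Mat r N)
    (i : Fin (c + 1)) (h : ∀ τ : Forb jj → ℂ, ∃ v' : Fin (c + 1) → ℂ, v' i = 0 ∧
      fderiv ℂ (Phi jj) M (ap l v') = τ) : Fintype.card (Forb jj) ≤ c := by
  have le := LinearMap.finrank_le_finrank_of_surjective
    (f := (fderiv ℂ (Phi jj) M).toLinearMap ∘ₗ Fintype.linearCombination ℂ l ∘ₗ
      (LinearMap.ker (LinearMap.proj (R := ℂ) (φ := fun _ : Fin (c + 1) => ℂ) i)).subtype)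
    fun τ => by
      obtain ⟨v', h1, h2⟩ := h τ
      exact ⟨⟨v', h1⟩, h2⟩
  rwa [rank_KC1, finrank_fintype_fun_eq_card] at le

theorem sur_KC1 {k : ℕ} {ι : Type} {S : Set ℂ} {v : Fin k → ℂ} {i : Fin k} (hv : v i = 1)
    {L : (Fin k → ℂ) → ι → ℂ} (h : ∀ τ : ι → ℂ, ∃ δ : Derivation ℤ ℂ ℂ,
      (∀ s ∈ S, δ s = 0) ∧ L (fun a => δ (v a)) = τ) (τ : ι → ℂ) :
    ∃ v' : Fin k → ℂ, v' i = 0 ∧ L v' = τ := by
  obtain ⟨δ, -, h2⟩ := h τ
  exact ⟨_, by rw [hv, δ.map_one_eq_zero], h2⟩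

theorem ones_KC1 {k m : ℕ} {X : Fin k → Fin m → ℂ} {J : Set (Fin m)}
    (h : LinearIndepOn ℂ (fun (j : Fin m) (a : Fin k) => X a j) J) :
    ∃ u : Fin k → ℂ, ∀ j ∈ J, vX X u j = 1 := by
  obtain ⟨φ, hφ⟩ := LinearMap.exists_extend
    ((Basis.span h.linearIndependent).constr ℂ fun _ => (1 : ℂ))
  refine ⟨fun a => φ fun b => if a = b then 1 else 0, fun j hj => ?_⟩
  have h1 := LinearMap.congr_fun hφ (Basis.span h.linearIndependent ⟨j, hj⟩)
  rw [Basis.constr_basis, LinearMap.comp_apply, Submodule.subtype_apply, Basis.coe_span_apply,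
    LinearMap.pi_apply_eq_sum_univ] at h1
  exact (Finset.sum_congr rfl fun a _ => mul_comm _ _).trans h1

theorem sKB (hP : SPiv) (hL : SLoc1) (hF : SForb) (hK : SKA1) : SKB := by
  intro c c' r m N js A X G S hc' hc hA hX hG hk hs hT w w0 hO
  obtain ⟨i, hi⟩ := Function.ne_iff.1 w0
  have hi : w i ≠ 0 := hi
  obtain ⟨v, hv⟩ : ∃ v, v = (w i)⁻¹ • w := ⟨_, rfl⟩
  have v1 : v i = 1 := by rw [hv, Pi.smul_apply, smul_eq_mul, inv_mul_cancel₀ hi]
  have v0 : v ≠ 0 := fun e => by simp [e] at v1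
  have hO' : Om js (ap (lA A X G) v) := by rw [hv, ap_smul_KA]; exact om_smul_KA hO _
  obtain ⟨jj, j1, j2, j3, j4⟩ := hP r N js _ hO' (col_top_KA hk (hs v v0) hT)
  have le := card_KC1 _ _ i (sur_KC1 v1
    (L := fun u => fderiv ℂ (Phi jj) (ap (lA A X G) v) (ap (lA A X G) u))
    (hK _ r m N A X G S v jj hA hX hG (hs v v0) j3 (hL r N jj _ j1 j4)))
  have f1 := hF r N jj j1
  have f2 := hc.2
  have s1 : ∑ s, (js s : ℕ) ≤ ∑ s, (jj s : ℕ) := Finset.sum_le_sum fun s _ => j2 s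
  omega

theorem lt_KC1 {r N : ℕ} {js jj : Fin r → Fin N} (h1 : StrictMono js) (h2 : StrictMono jj)
    (h : ∀ s, js s ≤ jj s) (hne : js ≠ jj) :
    Fintype.card {p : Forb jj // p.1.2 < js p.1.1} < Fintype.card (Forb jj) := by
  classical
  obtain ⟨s, hs, hmin⟩ := (Finset.univ.filter fun s => js s ≠ jj s).exists_min_image id (by
    obtain ⟨s, hs⟩ := Function.ne_iff.1 hne
    exact ⟨s, by simpa using hs⟩)
  have hs' : js s < jj s := lt_of_le_of_ne (h s) (by simpa using hs)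
  refine Fintype.card_subtype_lt (x := ⟨(s, js s), fun t ht => ?_, hs'⟩) (lt_irrefl _)
  have ht : jj t = js s := ht
  rcases lt_or_ge t s with e | e
  · have : js t = jj t := by
      by_contra hn
      exact absurd (hmin t (by simpa using hn)) (not_le.2 e)
    exact (h1 e).ne (this.trans ht)
  · exact absurd (hs'.trans_le (h2.monotone e)) (by rw [ht]; exact lt_irrefl _)

theorem sKC1 (hP : SPiv) (hL : SLoc1) (hF : SForb) (hK : SKA1) (h3 : SGP3) : SKC1 := by
  classical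
  intro c c' r m N js A X G S hc' hm hc hA hX hG hk hgp hs hT v i hv hO
  have v0 : v ≠ 0 := fun e => by simp [e] at hv
  obtain ⟨jj, j1, j2, j3, j4⟩ := hP r N js _ hO (col_top_KA hk (hs v v0) hT)
  have z := hL r N jj _ j1 j4
  have sur := hK _ r m N A X G S v jj hA hX hG (hs v v0) j3 z
  have sur' := sur_KC1 hv
    (L := fun u => fderiv ℂ (Phi jj) (ap (lA A X G) v) (ap (lA A X G) u)) sur
  refine ⟨jj, j1, j2, j3, z, sur', ?_⟩
  by_cases hJ : ∃ j, vX X v j = 0
  · have hcard := hgp v v0 (Finset.univ.filter fun j => vX X v j = 0) fun j hj => by simpa using hj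
    obtain ⟨u, hu⟩ := ones_KC1 ((h3 _ _ X hgp hm).2 _ hcard.le)
    obtain ⟨δ, d1, d2⟩ := sur (fderiv ℂ (Phi jj) (ap (lA A X G) v) (ap (lA A X G) (u - u i • v)))
    have key : ∀ j, vX X v j = 0 → vX X (u - u i • v - fun a => δ (v a)) j = 1 := fun j hj => by
      have t := congrArg δ hj
      have h1 := hu j (by simpa using hj)
      unfold vX at t hj h1 ⊢
      rw [map_sum, map_zero] at t
      have t2 : ∑ a, δ (v a) * X a j = 0 := by
        rw [← t]
        exact Finset.sum_congr rfl fun b _ => by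
          rw [δ.leibniz, d1 _ (hX b j), smul_zero, zero_add, smul_eq_mul, mul_comm]
      simp only [Pi.sub_apply, Pi.smul_apply, smul_eq_mul, sub_mul, Finset.sum_sub_distrib,
        mul_assoc, ← Finset.mul_sum, hj, h1, t2, mul_zero, sub_zero]
    refine ⟨u - u i • v - fun a => δ (v a), fun e => ?_, ?_, fun p _ => ?_,
      fun j hj => by rw [key j hj]; exact one_ne_zero⟩
    · obtain ⟨j, hj⟩ := hJ
      have := key j hj
      rw [e] at this
      simp [vX] at this
    · simp [hv]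
    · have e : ap (lA A X G) (u - u i • v - fun a => δ (v a)) =
          ap (lA A X G) (u - u i • v) - ap (lA A X G) fun a => δ (v a) :=
        map_sub (Fintype.linearCombination ℂ (lA A X G)) _ _
      rw [e, map_sub, d2, sub_self]
      rfl
  · have le := card_KC1 _ _ i sur'
    have lt : Fintype.card {p : Forb jj // p.1.2 < js p.1.1} < c := by
      by_cases e : js = jj
      · subst e
        have f1 := hF r N js j1
        have f2 := hc.2
        have := Fintype.card_subtype_le fun p : Forb js => p.1.2 < js p.1.1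
        omega
      · exact (lt_KC1 hc.1 j1 j2 e).trans_le le
    obtain ⟨w, hw, w0⟩ := Submodule.exists_mem_ne_zero_of_ne_bot (LinearMap.ker_ne_bot_of_finrank_lt
      (f := LinearMap.funLeft ℂ ℂ (Subtype.val : {p : Forb jj // p.1.2 < js p.1.1} → Forb jj) ∘ₗ
        (fderiv ℂ (Phi jj) (ap (lA A X G) v)).toLinearMap ∘ₗ
        Fintype.linearCombination ℂ (lA A X G) ∘ₗ
        (LinearMap.ker (LinearMap.proj (R := ℂ) (φ := fun _ : Fin (c + 1) => ℂ) i)).subtype)
      (by rwa [rank_KC1, finrank_fintype_fun_eq_card]))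
    exact ⟨w.1, fun e => w0 (Subtype.ext e), w.2, fun p hp => congrFun hw ⟨p, hp⟩,
      fun j hj => absurd ⟨j, hj⟩ hJ⟩

end Pool.Agent.MP_8b9287_co.Geo
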