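import Pool.Agent.MP_8b9287_co.Geo.St2

namespace Pool.Agent.MP_8b9287_co.Geo

open Module Filter Topology

/-- The linear map `u ↦ ap l u`. -/
noncomputable def apL_KC2 {k r N : ℕ} (l : Fin k → Mat r N) : (Fin k → ℂ) →L[ℂ] Mat r N :=
  LinearMap.toContinuousLinearMap
    { toFun := ap l
      map_add' := fun v w => by simp only [ap, Pi.add_apply, add_smul, Finset.sum_add_distrib]
      map_smul' := fun a v => by
        simp only [ap, Finset.smul_sum, Pi.smul_apply, smul_eq_mul, mul_smul, RingHom.id_apply] }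

/-- The linear map `u ↦ vX X u j`. -/
noncomputable def vL_KC2 {k m : ℕ} (X : Fin k → Fin m → ℂ) (j : Fin m) : (Fin k → ℂ) →L[ℂ] ℂ :=
  LinearMap.toContinuousLinearMap
    { toFun := fun u => vX X u j
      map_add' := fun v w => by simp only [vX, Pi.add_apply, add_mul, Finset.sum_add_distrib]
      map_smul' := fun a v => by
        simp only [vX, Pi.smul_apply, smul_eq_mul, RingHom.id_apply, Finset.mul_sum, mul_assoc] }

theorem sKC2 (hC : SCurve) (hD : SDerDet) (hL : SLoc3) : SKC2 := by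
  classical
  intro k r m N js jj l X v w i h1 h2 h3 hv hm hΦ hs hw hwi hw' hX
  have hP : ContDiff ℂ 1 (Phi jj : Mat r N → Forb jj → ℂ) :=
    contDiff_pi.2 fun p => (hD r N r id (Function.update jj p.1.1 p.1.2)).1
  let E := {p : Forb jj // p.1.2 < js p.1.1}
  let ρ : (Forb jj → ℂ) →L[ℂ] (E → ℂ) :=
    ContinuousLinearMap.pi fun p : E => ContinuousLinearMap.proj (R := ℂ) (φ := fun _ => ℂ) p.1
  let π : (Fin k → ℂ) →L[ℂ] ℂ := ContinuousLinearMap.proj (R := ℂ) (φ := fun _ => ℂ) i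
  let F : (Fin k → ℂ) → (E → ℂ) × ℂ := fun u => (ρ (Phi jj (apL_KC2 l u)), π u)
  have hF : ContDiff ℂ 1 F :=
    (ρ.contDiff.comp (hP.comp (apL_KC2 l).contDiff)).prodMk π.contDiff
  have d : HasFDerivAt F
      ((ρ.comp ((fderiv ℂ (Phi jj) (ap l v)).comp (apL_KC2 l))).prod π) v :=
    (ρ.hasFDerivAt.comp v ((hP.differentiable one_ne_zero (ap l v)).hasFDerivAt.comp v
      (apL_KC2 l).hasFDerivAt)).prodMk π.hasFDerivAt
  have e : ∀ x, fderiv ℂ F v x = (ρ (fderiv ℂ (Phi jj) (ap l v) (apL_KC2 l x)), x i) :=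
    fun x => by rw [d.fderiv]; rfl
  obtain ⟨γ, g0, g1, g2⟩ := hC _ _ F v w hF.contDiffAt (by
    rintro ⟨τ, a⟩
    obtain ⟨v', b1, b2⟩ := hs ((fun p => if h : p.1.2 < js p.1.1 then τ ⟨p, h⟩ else 0) -
      fderiv ℂ (Phi jj) (ap l v) (apL_KC2 l (a • v)))
    refine ⟨a • v + v', ?_⟩
    have b3 : apL_KC2 l v' = ap l v' := rfl
    rw [e, map_add, map_add, b3, b2, add_sub_cancel]
    refine Prod.ext (funext fun p => ?_) ?_
    · exact dif_pos p.2
    · simp [hv, b1]) (by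
    rw [e]
    exact Prod.ext (funext fun p => hw' p.1 p.2) hwi)
  have gc : ContinuousAt γ 0 := g1.continuousAt
  have a1 : ∀ᶠ x in 𝓝 (0 : ℂ), mnr (ap l (γ x)) id jj ≠ 0 := by
    have : ContinuousAt (fun x => mnr (apL_KC2 l (γ x)) id jj) 0 :=
      (((hD r N r id jj).1.continuous.comp (apL_KC2 l).continuous).continuousAt).comp gc
    exact this.eventually_ne (by rw [g0]; exact hm)
  have a2 : ∀ j, ∀ᶠ x in 𝓝[≠] (0 : ℂ), vX X (γ x) j ≠ 0 := by
    intro j
    have b1 : HasDerivAt (fun x => vL_KC2 X j (γ x)) (vL_KC2 X j w) 0 :=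
      (vL_KC2 X j).hasFDerivAt.comp_hasDerivAt 0 g1
    by_cases hj : vX X v j = 0
    · exact b1.eventually_ne (hX j hj)
    · exact (b1.continuousAt.eventually_ne (by rw [g0]; exact hj)).filter_mono nhdsWithin_le_nhds
  have a3 : ∀ᶠ x in 𝓝[≠] (0 : ℂ), γ x ≠ v := g1.eventually_ne hw
  let R : Set (Fin k → ℂ) :=
    {u | (Om js (ap l u) ∧ ∀ j, vX X u j ≠ 0) ∧ u i = 1 ∧ u ≠ v}
  have a4 : ∀ᶠ x in 𝓝[≠] (0 : ℂ), γ x ∈ R := by
    filter_upwards [a1.filter_mono nhdsWithin_le_nhds, g2.filter_mono nhdsWithin_le_nhds,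
      eventually_all.2 a2, a3] with x b1 b2 b3 b4
    refine ⟨⟨hL r N js jj _ h1 h2 h3 b1 fun p hp => ?_, b3⟩, ?_, b4⟩
    · have b5 : Phi jj (ap l (γ x)) p = Phi jj (ap l v) p :=
        congrFun (congrArg Prod.fst b2) ⟨p, hp⟩
      rw [b5, hΦ]
      rfl
    · exact (congrArg Prod.snd b2).trans hv
  have hR : R.Infinite := by
    intro hfin
    have b1 : Tendsto γ (𝓝[≠] (0 : ℂ)) (𝓝 v) := g0 ▸ gc.tendsto.mono_left nhdsWithin_le_nhds
    exact (hfin.isClosed.mem_of_tendsto b1 a4).2.2 rfl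
  refine Set.Infinite.encard_eq ((hR.image (f := fun u : Fin k → ℂ =>
    Submodule.span ℂ ({u} : Set (Fin k → ℂ))) fun u hu u' hu' huu => ?_).mono
      (Set.image_mono fun u hu => ⟨fun h0 => ?_, hu.1⟩))
  · have b1 : u ∈ Submodule.span ℂ ({u'} : Set (Fin k → ℂ)) :=
      huu.le (Submodule.mem_span_singleton_self u)
    obtain ⟨a, rfl⟩ := Submodule.mem_span_singleton.1 b1
    have b2 : a * u' i = 1 := hu.2.1
    rw [hu'.2.1, mul_one] at b2
    rw [b2, one_smul]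
  · have b1 := hu.2.1
    rw [h0] at b1
    exact zero_ne_one b1

end Pool.Agent.MP_8b9287_co.Geo
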