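import Pool.Agent.MP_8b9287_co.Geo.St2
import Pool.Agent.MP_8b9287_co.Geo.Core

namespace Pool.Agent.MP_8b9287_co.Geo

open Module Filter Topology

theorem om_smul_Lam0 {k r N : ℕ} {js : Fin r → Fin N} {l : Fin k → Mat r N} {v : Fin k → ℂ}
    (h : Om js (ap l v)) (a : ℂ) : Om js (ap l (a • v)) := by
  intro s I J hJ
  have e : (Matrix.of fun x y => ap l (a • v) (I x) (J y)) =
      a • Matrix.of fun x y => ap l v (I x) (J y) := by
    ext x y
    simp [ap_apply, Finset.mul_sum, mul_assoc]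
  have h0 := h s I J hJ
  unfold mnr at h0 ⊢
  rw [e, Matrix.det_smul, h0, mul_zero]

theorem sLam0 (hFree : SFree) (hLI : SFreeLI) (hE0 : SE0) (hE1a : SE1a) (hE1b : SE1b)
    (hE2 : SE2) (hE3 : SE3) (hE4 : SE4) (hG1a : SG1a) (hb3 : SG1b3) (hB : SLamB) (hJ : SJS2)
    (hKB : SKB) (hK1 : SKC1) (hK2 : SKC2) : SLam0 := by
  intro n c r p η π X d hn hp hr hη h0 hs hπ hX hgen
  obtain ⟨P, hP, hcount⟩ := hgen
  obtain ⟨A, hAk, hAs⟩ := hG1a (c + 1) r (r + c + 1) X (by omega) hX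
  set S : Set ℂ := Set.range (fun q : Fin r × Fin (r + c + 1) => A q.1 q.2) ∪
    Set.range (fun q : Fin (c + 1) × Fin (r + c + 1) => X q.1 q.2) with hS
  obtain ⟨g, hgP, hgF⟩ := hFree n S ((Set.finite_range _).union (Set.finite_range _)) P hP
  obtain ⟨hg, hg0⟩ := hLI n S g hgF
  have hd := hcount g hg hgP
  let z : Fin n := ⟨0, by omega⟩
  have hEi : Function.Injective (Emb (g z) π) := Emb_inj (hg0 z) hπ
  have hco := hE0 n (r + c) p S g π z hn hp rfl hπ hgF
  have hex : ∀ q : Fin (r + c), ∃ w, g ⟨p + q, by omega⟩ - Emb (g z) π w ∈ mid g p := by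
    intro q
    have : g ⟨p + q, by omega⟩ ∈ LinearMap.range (Emb (g z) π) ⊔ mid g p := by
      rw [hco.sup_eq_top]; trivial
    obtain ⟨y, ⟨w, rfl⟩, u, hu, h⟩ := Submodule.mem_sup.1 this
    exact ⟨w, by rw [← h]; simpa using hu⟩
  choose G hG using hex
  have hG' : ∀ (q : Fin (r + c)) (i : Fin n), (i : ℕ) = p + q →
      g i - Emb (g z) π (G q) ∈ mid g p := by
    intro q i hi
    have : i = ⟨p + q, by omega⟩ := Fin.ext hi
    rw [this]; exact hG q
  have hfl := hE1a n (r + c) p g π z G hn hp rfl hEi hco.disjoint hG'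
  have hGF := hE1b n (r + c) p S g π z G hn hp rfl hEi hco.disjoint hG' hgF
  have htop : FS G (r + c) = ⊤ := by
    have := hfl n (by omega)
    rw [flg_top hg, Submodule.comap_top, show n - p = r + c by omega] at this
    exact this.symm
  have hW : ∀ v, v ≠ 0 → finrank ℂ (Wv (g z) π A X v) = c + 1 := by
    intro v hv
    have h1 := LinearMap.finrank_range_add_finrank_ker (mv A X v)
    rw [LinearMap.range_eq_top.2 (hAs v hv), finrank_top] at h1
    simp only [finrank_fintype_fun_eq_card, Fintype.card_fin] at h1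
    rw [Wv, ← (Submodule.equivMapOfInjective _ hEi _).finrank_eq]
    omega
  have h3 := fun v (hv : v ≠ 0) => hE3 n c r p η g (Wv (g z) π A X v) (ap (lA A X G) v) hn hp hr
    hη h0 (hW v hv) (fun j h1 h2 => hE2 n (r + c) r (j - p) (Emb (g z) π) (mv A X v) G (flg g j)
      (ap (lA A X G) v) (by omega) hEi (mv_one hAk v) htop (hfl j h1) (ap_lA A X G v))
  have hsch : ∀ W ∈ schub η g, g z ∈ W := fun W hW => hE4 n c η g W z rfl h0 hW
  have hAS : ∀ i j, A i j ∈ S := fun i j => Or.inl ⟨(i, j), rfl⟩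
  have hXS : ∀ a j, X a j ∈ S := fun a j => Or.inr ⟨(a, j), rfl⟩
  rw [← hd]
  rcases (orbCl (fun a i => X a (π i)) ∩ schub η g).eq_empty_or_nonempty with he | ⟨W, hW1, hW2⟩
  · rw [he]; simp
  obtain ⟨v, hv, rfl⟩ := hb3 (c + 1) r (r + c + 1) n A X π (g z) W (by omega) (by omega) hπ
    (hg0 z) hAk hAs hW1 (hsch W hW2)
  have hle : ∀ a : Fin c, η a.succ ≤ r := by
    by_contra hcon
    exact (h3 v hv).2 (by simpa using hcon) hW2
  obtain ⟨js, hcod, hjs⟩ := hJ c r (fun a => η a.succ) hle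
  have hom : Om js (ap (lA A X G) v) := ((h3 v hv).1 js hle hjs).1 hW2
  rcases lt_or_gt_of_ne hs with hlt | hgt
  · obtain ⟨i, hi⟩ : ∃ i, v i ≠ 0 := Function.ne_iff.1 hv
    obtain ⟨jj, a1, a2, a3, a4, a5, w, b1, b2, b3, b4⟩ := hK1 c _ r (r + c + 1) (r + c) js A X G S
      hlt (by omega) hcod hAS hXS hGF hAk hX hAs htop ((v i)⁻¹ • v) i (by simp [hi])
      (om_smul_Lam0 hom _)
    have e1 := hK2 (c + 1) r (r + c + 1) (r + c) js jj (lA A X G) X ((v i)⁻¹ • v) w i hcod.1 a1 a2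
      (by simp [hi]) a3 a4 a5 b1 b2 b3 b4
    have e2 := hB (c + 1) r (r + c + 1) n A X π (g z) (schub η g)
      {u | Om js (ap (lA A X G) u) ∧ ∀ j, vX X u j ≠ 0} (by omega) hπ (hg0 z) hAk hX
      (fun u hu h => ⟨((h3 u hu).1 js hle hjs).2 h.1, h.2⟩)
    rw [e1, top_le_iff] at e2
    rw [Set.ncard_def, e2]
    simp
  · exact (hKB c _ r (r + c + 1) (r + c) js A X G S hgt hcod hAS hXS hGF hAk hAs htop v hv
      hom).elim

end Pool.Agent.MP_8b9287_co.Geo
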