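import Pool.Agent.MP_8b9287_co.Geo.St

/-! The points of the orbit closure on a Schubert variety are counted by lines. -/

namespace Pool.Agent.MP_8b9287_co.Geo

theorem encard_le_LamA {α β γ : Type} (f : α → β) (g : α → γ) (S : Set α)
    (h : ∀ a ∈ S, ∀ b ∈ S, g a = g b → f a = f b) : (f '' S).encard ≤ (g '' S).encard := by
  classical
  rcases S.eq_empty_or_nonempty with rfl | ⟨a₀, ha₀⟩
  · simp
  have : Nonempty α := ⟨a₀⟩
  have hsub : f '' S ⊆ (fun y => f (Function.invFunOn g S y)) '' (g '' S) := by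
    rintro _ ⟨a, ha, rfl⟩
    have hex : ∃ b ∈ S, g b = g a := ⟨a, ha, rfl⟩
    exact ⟨g a, ⟨a, ha, rfl⟩,
      h _ (Function.invFunOn_mem hex) _ ha (Function.invFunOn_eq hex)⟩
  exact (Set.encard_le_encard hsub).trans (Set.encard_image_le _ _)

theorem mv_smul_LamA {k r m : ℕ} (A : Fin r → Fin m → ℂ) (X : Fin k → Fin m → ℂ)
    (a : ℂ) (v : Fin k → ℂ) (w : Fin m → ℂ) : mv A X (a • v) w = a • mv A X v w := by
  ext i
  simp only [mv_apply, vX, Pi.smul_apply, smul_eq_mul, Finset.mul_sum, Finset.sum_mul]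
  exact Finset.sum_congr rfl fun j _ => Finset.sum_congr rfl fun b _ => by ring

theorem Wv_smul_LamA {k r m n : ℕ} (φ : Fin n → ℂ) (π : Fin n → Fin m)
    (A : Fin r → Fin m → ℂ) (X : Fin k → Fin m → ℂ) (a : ℂ) (ha : a ≠ 0) (v : Fin k → ℂ) :
    Wv φ π A X (a • v) = Wv φ π A X v := by
  have : LinearMap.ker (mv A X (a • v)) = LinearMap.ker (mv A X v) := by
    ext w
    rw [LinearMap.mem_ker, LinearMap.mem_ker, mv_smul_LamA, smul_eq_zero]
    exact ⟨fun h => h.resolve_left ha, Or.inr⟩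
  unfold Wv
  rw [this]

theorem sLamA (hb : SG1b3) (hc : SG1c) (hd : SG1d) (h3 : SGP3) : SLamA := by
  intro k r m n A X π φ Sch T hm hr hπ hφ hK hGP hsurj hSch hT hne
  have hLI : LinearIndependent ℂ X := (h3 k m X hGP (by omega)).1
  have hE : orbCl (fun a i => X a (π i)) ∩ Sch = Wv φ π A X '' {v | v ≠ 0 ∧ v ∈ T} := by
    ext W
    constructor
    · rintro ⟨hW, hWS⟩
      obtain ⟨v, hv, rfl⟩ :=
        hb k r m n A X π φ W hm (by omega) hπ hφ hK hsurj hW (hSch W hWS)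
      exact ⟨v, ⟨hv, (hT v hv).1 hWS⟩, rfl⟩
    · rintro ⟨v, ⟨hv, hvT⟩, rfl⟩
      exact ⟨hc k r m n A X π φ v hπ hφ hK hLI (hne v hv hvT), (hT v hv).2 hvT⟩
  rw [hE]
  unfold lines
  refine le_antisymm (encard_le_LamA _ _ _ ?_) (encard_le_LamA _ _ _ ?_)
  · rintro v ⟨hv, _⟩ v' ⟨_, _⟩ h
    have hmem : v ∈ Submodule.span ℂ ({v'} : Set (Fin k → ℂ)) := by
      rw [← h]
      exact Submodule.mem_span_singleton_self v
    obtain ⟨a, rfl⟩ := Submodule.mem_span_singleton.1 hmem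
    have ha : a ≠ 0 := by
      rintro rfl
      exact hv (zero_smul ℂ v')
    exact Wv_smul_LamA φ π A X a ha v'
  · rintro v ⟨hv, hvT⟩ v' ⟨hv', hvT'⟩ h
    exact hd k r m n A X π φ v v' (by omega) hπ hφ hK hGP (hne v hv hvT) (hne v' hv' hvT') h

end Pool.Agent.MP_8b9287_co.Geo
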