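import Pool.Agent.MP_8b9287_co.Geo.St2
import Pool.Agent.MP_8b9287_co.Geo.LamA
import Pool.Agent.MP_8b9287_co.Geo.GT3

/-! A lower bound for the points of the orbit closure, and jump sequences of any size. -/

namespace Pool.Agent.MP_8b9287_co.Geo

open Finset

theorem sLamB (hc : SG1c) (hd : SG1d) (h3 : SGP3) : SLamB := by
  intro k r m n A X π φ Sch T hm hπ hφ hK hGP hT
  have hLI : LinearIndependent ℂ X := (h3 k m X hGP (by omega)).1
  have hE : Wv φ π A X '' {v | v ≠ 0 ∧ v ∈ T} ⊆ orbCl (fun a i => X a (π i)) ∩ Sch := by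
    rintro _ ⟨v, ⟨hv, hvT⟩, rfl⟩
    exact ⟨hc k r m n A X π φ v hπ hφ hK hLI (hT v hv hvT).2, (hT v hv hvT).1⟩
  refine le_trans ?_ (Set.encard_le_encard hE)
  unfold lines
  refine encard_le_LamA _ _ _ ?_
  rintro v ⟨hv, hvT⟩ v' ⟨hv', hvT'⟩ h
  exact hd k r m n A X π φ v v' (by omega) hπ hφ hK hGP (hT v hv hvT).2 (hT v' hv' hvT').2 h

theorem sJS2 : SJS2 := by
  intro c r lam hle
  have hb : ∀ s : Fin r,
      (s : ℕ) + (univ.filter fun a : Fin c => r ≤ (s : ℕ) + lam a).card < r + c := by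
    intro s
    have h1 : (univ.filter fun a : Fin c => r ≤ (s : ℕ) + lam a).card ≤ c := by
      simpa using card_le_univ (univ.filter fun a : Fin c => r ≤ (s : ℕ) + lam a)
    have h2 := s.2
    omega
  refine ⟨fun s => ⟨_, hb s⟩, ⟨?_, ?_⟩, fun s => rfl⟩
  · intro s t hst
    have h0 : (s : ℕ) < t := hst
    have h1 : (univ.filter fun a : Fin c => r ≤ (s : ℕ) + lam a).card ≤
        (univ.filter fun a : Fin c => r ≤ (t : ℕ) + lam a).card := by
      refine card_le_card fun a ha => ?_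
      have h2 := (mem_filter.1 ha).2
      exact mem_filter.2 ⟨mem_univ _, by omega⟩
    show (s : ℕ) + _ < (t : ℕ) + _
    omega
  · show ∑ s : Fin r, ((s : ℕ) + (univ.filter fun a : Fin c => r ≤ (s : ℕ) + lam a).card) = _
    rw [sum_add_distrib, add_comm]
    congr 1
    simp only [card_filter]
    rw [sum_comm]
    refine sum_congr rfl fun a _ => ?_
    rw [← card_filter]
    exact cnt_GT3 r (lam a) (hle a)

end Pool.Agent.MP_8b9287_co.Geo
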