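import Pool.Agent.MP_8b9287_co.Geo.St

namespace Pool.Agent.MP_8b9287_co.Geo

open Module

theorem col_mem_Loc {r N : ℕ} (M : Mat r N) {q : ℕ} {j : Fin N} (h : (j : ℕ) < q) :
    (fun i => M i j) ∈ colSp M q :=
  Submodule.subset_span ⟨j, h, rfl⟩

theorem sLoc1 (hR : SRk) : SLoc1 := by
  intro r N js M hjs hOm
  funext p
  obtain ⟨⟨s, j⟩, hne, hlt⟩ := p
  by_contra hdet
  have hdet' : (Matrix.of fun a b => M a (Function.update js s j b)).det ≠ 0 := hdet
  have hli := Matrix.linearIndependent_cols_of_det_ne_zero hdet'
  have hle : (s : ℕ) + 1 ≤ r := s.2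
  have hli2 := hli.comp (Fin.castLE hle) (Fin.castLE_injective hle)
  have h1 := finrank_span_eq_card hli2
  have h2 : finrank ℂ (colSp M (js s)) ≤ s :=
    (hR r N M (js s) s).1 fun I J hJ => hOm s I J fun b => hJ b
  have h3 : Submodule.span ℂ (Set.range
      ((Matrix.of fun a b => M a (Function.update js s j b)).col ∘ Fin.castLE hle)) ≤
      colSp M (js s) := by
    rw [Submodule.span_le]
    rintro _ ⟨m, rfl⟩
    have hm : ((Function.update js s j (Fin.castLE hle m) : Fin N) : ℕ) < js s := by
      by_cases c : Fin.castLE hle m = s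
      · rw [c, Function.update_self]; exact hlt
      · rw [Function.update_of_ne c]
        have : Fin.castLE hle m < s := by
          have h4 := m.2
          have h5 : (m : ℕ) ≠ s := fun d => c (Fin.ext d)
          rw [Fin.lt_def, Fin.val_castLE]; omega
        exact hjs this
    exact col_mem_Loc M hm
  have h4 := Submodule.finrank_mono h3
  rw [h1, Fintype.card_fin] at h4
  omega

theorem sLoc2 (hR : SRk) : SLoc2 := by
  intro r N js M hjs hdet hPhi s I J hJ
  refine (hR r N M (js s) s).2 ?_ I J fun b => hJ b
  have hle : (s : ℕ) ≤ r := s.2.le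
  set B : Matrix (Fin r) (Fin r) ℂ := Matrix.of fun a b => M a (js b) with hB
  have hdet' : B.det ≠ 0 := hdet
  set T := Submodule.span ℂ
    (Set.range fun (m : Fin s) (i : Fin r) => M i (js (Fin.castLE hle m))) with hT
  have hmem : ∀ m : Fin r, m < s → (fun i => M i (js m)) ∈ T := fun m hm =>
    Submodule.subset_span ⟨⟨m, hm⟩, rfl⟩
  have h3 : colSp M (js s) ≤ T := by
    refine Submodule.span_le.2 ?_
    rintro _ ⟨j, hj, rfl⟩
    have hj' : j < js s := hj
    by_cases c : ∃ m, js m = j
    · obtain ⟨m, rfl⟩ := c
      exact hmem m (hjs.lt_iff_lt.1 hj')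
    · have hc : ∀ m, js m ≠ j := fun m d => c ⟨m, d⟩
      have h1 := Matrix.mulVec_cramer B fun i => M i j
      have h2 : ∀ m : Fin r, ¬ m < s → B.cramer (fun i => M i j) m = 0 := by
        intro m hm
        have h4 := congrFun hPhi ⟨(m, j), hc, hj'.trans_le (hjs.monotone (not_lt.1 hm))⟩
        rw [Matrix.cramer_apply]
        have h5 : B.updateCol m (fun i => M i j) =
            Matrix.of fun a b => M a (Function.update js m j b) := by
          ext a b
          by_cases d : b = m
          · subst d; simp
          · simp [Matrix.updateCol_ne d, Function.update_of_ne d, hB]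
        rw [h5]
        exact h4
      have h6 : B.mulVec (B.cramer fun i => M i j) ∈ T := by
        have h7 : B.mulVec (B.cramer fun i => M i j) =
            ∑ m, B.cramer (fun i => M i j) m • fun i => M i (js m) := by
          ext i
          simp [Matrix.mulVec, dotProduct, Finset.sum_apply, hB, mul_comm]
        rw [h7]
        refine Submodule.sum_mem _ fun m _ => ?_
        by_cases d : m < s
        · exact Submodule.smul_mem _ _ (hmem m d)
        · rw [h2 m d, zero_smul]; exact T.zero_mem
      rw [h1] at h6
      exact (Submodule.smul_mem_iff _ hdet').1 h6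
  refine (Submodule.finrank_mono h3).trans ?_
  have h8 := finrank_range_le_card (R := ℂ)
    fun (m : Fin s) (i : Fin r) => M i (js (Fin.castLE hle m))
  rw [Fintype.card_fin] at h8
  exact h8

end Pool.Agent.MP_8b9287_co.Geo
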