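import Pool.Agent.MP_8b9287_co.Geo.St2

section

namespace Pool.Agent.MP_8b9287_co.Geo

open Module Filter Topology

theorem sIFT : SIFT := by
  intro P X T _ _ _ _ _ _ _ _ _ F p₀ x₀ hF hinj
  have : CompleteSpace (P × X) := FiniteDimensional.complete ℂ _
  have : CompleteSpace (P × T) := FiniteDimensional.complete ℂ _
  set D : (P × X) →L[ℂ] (P × T) :=
    (ContinuousLinearMap.fst ℂ P X).prod (fderiv ℂ F (p₀, x₀)) with hD
  have hΨ : HasStrictFDerivAt (fun q : P × X => (q.1, F q)) D (p₀, x₀) :=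
    hasStrictFDerivAt_fst.prodMk (hF.hasStrictFDerivAt one_ne_zero)
  have hk : LinearMap.ker (D : (P × X) →ₗ[ℂ] (P × T)) = ⊥ := by
    rw [LinearMap.ker_eq_bot']
    rintro ⟨p, x⟩ h
    have h1 : p = 0 := congrArg Prod.fst h
    subst h1
    have h2 : fderiv ℂ F (p₀, x₀) (0, x) = 0 := congrArg Prod.snd h
    rw [hinj x h2]
    rfl
  constructor
  · obtain ⟨L, hL⟩ := LinearMap.exists_leftInverse_of_injective _ hk
    have h1 : HasStrictFDerivAt (fun q : P × X => L.toContinuousLinearMap (q.1, F q))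
        ((ContinuousLinearEquiv.refl ℂ (P × X) : (P × X) ≃L[ℂ] (P × X)) : (P × X) →L[ℂ] (P × X))
        (p₀, x₀) := by
      have h2 := (L.toContinuousLinearMap.hasStrictFDerivAt (x := (p₀, F (p₀, x₀)))).comp
        (p₀, x₀) hΨ
      have h3 : L.toContinuousLinearMap.comp D =
          ((ContinuousLinearEquiv.refl ℂ (P × X) : (P × X) ≃L[ℂ] (P × X)) :
            (P × X) →L[ℂ] (P × X)) :=
        ContinuousLinearMap.ext fun q => LinearMap.congr_fun hL q
      rw [h3] at h2
      exact h2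
    refine ⟨_, h1.eventually_left_inverse, fun p x x' a b e => ?_⟩
    have a' : h1.localInverse _ _ _ (L.toContinuousLinearMap (p, F (p, x))) = (p, x) := a
    have b' : h1.localInverse _ _ _ (L.toContinuousLinearMap (p, F (p, x'))) = (p, x') := b
    rw [e, b'] at a'
    exact (congrArg Prod.snd a').symm
  · intro hr W hW
    have hs : LinearMap.range (D : (P × X) →ₗ[ℂ] (P × T)) = ⊤ := by
      rw [LinearMap.range_eq_top, ← LinearMap.injective_iff_surjective_of_finrank_eq_finrank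
        (by rw [finrank_prod, finrank_prod, hr]), ← LinearMap.ker_eq_bot]
      exact hk
    have h1 := hΨ.map_nhds_eq_of_surj hs
    have h2 : (fun q : P × X => (q.1, F q)) '' W ∈ 𝓝 (p₀, F (p₀, x₀)) := h1 ▸ image_mem_map hW
    have h3 : Tendsto (fun p : P => (p, F (p₀, x₀))) (𝓝 p₀) (𝓝 (p₀, F (p₀, x₀))) :=
      (continuous_id.prodMk continuous_const).tendsto p₀
    filter_upwards [h3 h2] with p hp
    obtain ⟨⟨p', x⟩, a, b⟩ := hp
    have c : p' = p := congrArg Prod.fst b
    subst c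
    exact ⟨x, a, congrArg Prod.snd b⟩

end Pool.Agent.MP_8b9287_co.Geo

end

section

/-! The number of lines of a closed cone does not jump up near simple solutions. -/

namespace Pool.Agent.MP_8b9287_co.Geo

open Module Filter Topology

theorem cover_ALle {k : ℕ} {ι : Type} [Fintype ι] (S : Set (Fin k → ℂ)) (f : ι → Fin k → ℂ)
    (h : ∀ v, v ≠ 0 → v ∈ S → ∃ (i : ι) (a : ℂ), a ≠ 0 ∧ a • v = f i) :
    lines S ≤ (Fintype.card ι : ℕ∞) := by
  have h1 : (fun v : Fin k → ℂ => Submodule.span ℂ ({v} : Set (Fin k → ℂ))) ''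
      {v | v ≠ 0 ∧ v ∈ S} ⊆
      (fun i => Submodule.span ℂ ({f i} : Set (Fin k → ℂ))) '' Set.univ := by
    rintro _ ⟨v, hv, rfl⟩
    obtain ⟨i, a, ha, e⟩ := h v hv.1 hv.2
    refine ⟨i, Set.mem_univ _, ?_⟩
    simp only [← e]
    exact Submodule.span_singleton_smul_eq ha.isUnit v
  refine (Set.encard_le_encard h1).trans ((Set.encard_image_le _ _).trans (le_of_eq ?_))
  rw [Set.encard_univ, ENat.card_eq_coe_fintype_card]

theorem sALle : SALle := by
  intro k P _ C p₀ ι _ u co W hC hs hu h0 hW huniq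
  have key := (isCompact_sphere (0 : Fin k → ℂ) 1).eventually_forall_of_forall_eventually
    (x₀ := p₀) (P := fun p w => (p, w) ∈ C → ∃ i, w (co i) ≠ 0 ∧ (p, (w (co i))⁻¹ • w) ∈ W i) (by
    intro v hv
    have v0 : v ≠ 0 := by
      rintro rfl
      simp at hv
    by_cases hvC : (p₀, v) ∈ C
    · obtain ⟨i, a, rfl⟩ := h0 v v0 hvC
      have a0 : a ≠ 0 := by
        rintro rfl
        simp at v0
      have e : (a • u i) (co i) = a := by rw [Pi.smul_apply, hu, smul_eq_mul, mul_one]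
      have c1 : ContinuousAt (fun z : P × (Fin k → ℂ) => z.2 (co i)) (p₀, a • u i) :=
        ((continuous_apply _).comp continuous_snd).continuousAt
      have c2 : ContinuousAt (fun z : P × (Fin k → ℂ) => (z.1, (z.2 (co i))⁻¹ • z.2))
          (p₀, a • u i) :=
        continuousAt_fst.prodMk ((c1.inv₀ (e.trans_ne a0)).smul continuousAt_snd)
      have c3 : W i ∈ 𝓝 ((fun z : P × (Fin k → ℂ) => (z.1, (z.2 (co i))⁻¹ • z.2))
          (p₀, a • u i)) := by
        simp only [e, inv_smul_smul₀ a0]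
        exact hW i
      filter_upwards [c1.eventually_ne (e.trans_ne a0), c2.eventually_mem c3]
        with z z1 z2 _
      exact ⟨i, z1, z2⟩
    · filter_upwards [hC.isOpen_compl.mem_nhds hvC] with z z1 z2
      exact absurd z2 z1)
  filter_upwards [key] with p hp
  have hf : ∀ i, ∃ f : Fin k → ℂ, ∀ w, (p, w) ∈ W i → (p, w) ∈ C → w (co i) = 1 → w = f := by
    intro i
    by_cases h : ∃ w, (p, w) ∈ W i ∧ (p, w) ∈ C ∧ w (co i) = 1
    · obtain ⟨f, f1, f2, f3⟩ := h
      exact ⟨f, fun w w1 w2 w3 => huniq i p w f w1 f1 w2 f2 w3 f3⟩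
    · exact ⟨0, fun w w1 w2 w3 => absurd ⟨w, w1, w2, w3⟩ h⟩
  choose f hf using hf
  refine cover_ALle _ f fun v v0 hv => ?_
  have n0 : ((‖v‖ : ℝ) : ℂ) ≠ 0 := by exact_mod_cast norm_ne_zero_iff.2 v0
  have h1 := hs p v ((‖v‖ : ℝ) : ℂ)⁻¹ hv
  obtain ⟨i, i1, i2⟩ := hp (((‖v‖ : ℝ) : ℂ)⁻¹ • v) (by
    rw [mem_sphere_zero_iff_norm, norm_smul, norm_inv, Complex.norm_real, norm_norm,
      inv_mul_cancel₀ (norm_ne_zero_iff.2 v0)]) h1
  refine ⟨i, _ * _, mul_ne_zero (inv_ne_zero i1) (inv_ne_zero n0), ?_⟩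
  rw [mul_smul]
  exact hf i _ i2 (hs p _ _ h1) (by rw [Pi.smul_apply, smul_eq_mul, inv_mul_cancel₀ i1])

end Pool.Agent.MP_8b9287_co.Geo

end

section

namespace Pool.Agent.MP_8b9287_co.Geo

open Module Filter Topology

theorem sALge : SALge := by
  intro k P 𝓕 S ι _ u hu hs hW
  have h1 : ∀ᶠ w in 𝓝 u, (∀ i, w i ≠ 0) ∧
      ∀ i i', i ≠ i' → LinearIndependent ℂ ![w i, w i'] := by
    refine (eventually_all.2 fun i => (continuous_apply i).continuousAt.eventually_ne (hu i)).and
      (eventually_all.2 fun i => eventually_all.2 fun i' => eventually_all.2 fun hne => ?_)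
    have hc : Continuous fun w : ι → Fin k → ℂ => ![w i, w i'] := by fun_prop
    refine (isOpen_setOfPred_linearIndependent.preimage hc).mem_nhds
      ((LinearIndependent.pair_iff' (hu i)).2 fun a ha => hne (hs i i' ?_))
    have h0 : a ≠ 0 := fun h => hu i' (by rw [← ha, h, zero_smul])
    rw [← ha, Submodule.span_singleton_smul_eq h0.isUnit]
  rw [nhds_pi] at h1
  obtain ⟨I, -, W, h2, h3⟩ := mem_pi.1 h1
  filter_upwards [eventually_all.2 fun i => hW i (W i) (h2 i)] with p hp
  choose v hv hvS using hp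
  obtain ⟨h4, h5⟩ := h3 (a := v) fun i _ => hv i
  have h6 : Function.Injective fun i => Submodule.span ℂ ({v i} : Set (Fin k → ℂ)) := by
    intro i i' h
    by_contra hne
    have h7 : v i' ∈ Submodule.span ℂ ({v i} : Set (Fin k → ℂ)) := by
      rw [show Submodule.span ℂ ({v i} : Set (Fin k → ℂ)) = Submodule.span ℂ {v i'} from h]
      exact Submodule.mem_span_singleton_self _
    obtain ⟨a, ha⟩ := Submodule.mem_span_singleton.1 h7
    exact (LinearIndependent.pair_iff' (h4 i)).1 (h5 i i' hne) a ha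
  rw [← ENat.card_eq_coe_fintype_card]
  refine h6.encard_range.trans (Set.encard_le_encard ?_)
  rintro _ ⟨i, rfl⟩
  exact ⟨v i, ⟨h4 i, hvS i⟩, rfl⟩

end Pool.Agent.MP_8b9287_co.Geo

end

section

namespace Pool.Agent.MP_8b9287_co.Geo

theorem dense_Dense {ι : Type} [Fintype ι] {Q : MvPolynomial ι ℂ} (h : Q ≠ 0) :
    Dense {x : ι → ℂ | MvPolynomial.eval x Q ≠ 0} := by
  refine dense_iff_inter_open.2 fun U hU ⟨x, hx⟩ => ?_
  obtain ⟨u, h1, h2⟩ := isOpen_pi_iff'.1 hU x hx
  by_contra hn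
  refine h (MvPolynomial.funext_set u
    (fun i => infinite_of_mem_nhds (x i) ((h1 i).1.mem_nhds (h1 i).2)) fun y hy => ?_)
  rw [map_zero]
  exact not_not.1 fun k => hn ⟨y, h2 hy, k⟩

theorem sDense : SDense := by
  intro K hK ι _
  have : Countable K := hK.to_subtype
  have : Countable (MvPolynomial ι K) := Cardinal.mk_le_aleph0_iff.1
    (MvPolynomial.cardinalMk_le_max.trans (by simp))
  have h := dense_iInter_of_isOpen (f := fun Q : {Q : MvPolynomial ι K // Q ≠ 0} =>
    {x : ι → ℂ | MvPolynomial.eval x (MvPolynomial.map (algebraMap K ℂ) Q.1) ≠ 0})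
    (fun Q => isOpen_ne_fun (MvPolynomial.continuous_eval _) continuous_const)
    fun Q => dense_Dense fun e => Q.2
      (MvPolynomial.map_injective _ (algebraMap K ℂ).injective (e.trans (map_zero _).symm))
  refine h.mono fun x hx => algebraicIndependent_iff.2 fun Q hQ => not_not.1 fun k => ?_
  refine Set.mem_iInter.1 hx ⟨Q, k⟩ ?_
  rwa [MvPolynomial.eval_map, ← MvPolynomial.aeval_def]

end Pool.Agent.MP_8b9287_co.Geo

end

section

/-! Field automorphisms of the complex numbers act transitively on algebraically independent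
tuples. -/

namespace Pool.Agent.MP_8b9287_co.Geo

open Cardinal

theorem exists_equiv_Aut {ι κ : Type} (v : ι → ℂ) (w : κ → ℂ) (e : ι ≃ κ)
    (hv : IsTranscendenceBasis ℚ v) (hw : IsTranscendenceBasis ℚ w) :
    ∃ σ : ℂ ≃+* ℂ, ∀ i, σ (v i) = w (e i) := by
  letI := IsAlgClosed.isAlgClosure_of_transcendence_basis v hv
  letI := IsAlgClosed.isAlgClosure_of_transcendence_basis w hw
  let f : Algebra.adjoin ℚ (Set.range v) ≃+* Algebra.adjoin ℚ (Set.range w) :=
    ((hv.1.aevalEquiv.symm.trans (MvPolynomial.renameEquiv ℚ e)).trans hw.1.aevalEquiv).toRingEquiv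
  refine ⟨IsAlgClosure.equivOfEquiv ℂ ℂ f, fun i => ?_⟩
  have h1 : v i = algebraMap (Algebra.adjoin ℚ (Set.range v)) ℂ
      (hv.1.aevalEquiv (MvPolynomial.X i)) := by
    rw [hv.1.algebraMap_aevalEquiv, MvPolynomial.aeval_X]
  rw [h1, IsAlgClosure.equivOfEquiv_algebraMap]
  have h2 : f (hv.1.aevalEquiv (MvPolynomial.X i)) = hw.1.aevalEquiv (MvPolynomial.X (e i)) := by
    simp [f]
  rw [h2, hw.1.algebraMap_aevalEquiv, MvPolynomial.aeval_X]

theorem sAut : SAut := by
  intro ι _ x y hx hy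
  obtain ⟨s, hs, hs'⟩ := exists_isTranscendenceBasis_superset (s := Set.range x) hx.to_subtype_range
  obtain ⟨t, ht, ht'⟩ := exists_isTranscendenceBasis_superset (s := Set.range y) hy.to_subtype_range
  have hC : ℵ₀ < #ℂ := by rw [mk_complex]; exact aleph0_lt_continuum
  have h1 := IsAlgClosed.cardinal_eq_cardinal_transcendence_basis_of_aleph0_lt' _ hs'
    (le_of_eq mkRat) hC
  have h2 := IsAlgClosed.cardinal_eq_cardinal_transcendence_basis_of_aleph0_lt' _ ht'
    (le_of_eq mkRat) hC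
  let x' : ι → s := fun i => ⟨x i, hs ⟨i, rfl⟩⟩
  let y' : ι → t := fun i => ⟨y i, ht ⟨i, rfl⟩⟩
  have hx' : Function.Injective x' := fun a b h => hx.injective (congrArg Subtype.val h)
  have hy' : Function.Injective y' := fun a b h => hy.injective (congrArg Subtype.val h)
  let f : Set.range x' ↪ t :=
    (Equiv.ofInjective x' hx').symm.toEmbedding.trans ⟨y', hy'⟩
  obtain ⟨e, he⟩ := extend_function_of_lt f (by
    rw [← h1]
    exact (lt_aleph0_of_finite _).trans hC) (Cardinal.eq.1 (h1.symm.trans h2))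
  obtain ⟨σ, hσ⟩ := exists_equiv_Aut _ _ e hs' ht'
  refine ⟨σ, fun i => ?_⟩
  have h3 := he ⟨x' i, i, rfl⟩
  have h4 : f ⟨x' i, i, rfl⟩ = y' i := by
    simp [f, Equiv.ofInjective_symm_apply]
  exact (hσ (x' i)).trans (congrArg Subtype.val (h3.trans h4))

end Pool.Agent.MP_8b9287_co.Geo

end

section

/-! The count is the same at two suitable points of any two nonempty open sets. -/

namespace Pool.Agent.MP_8b9287_co.Geo

noncomputable def tw_Gen {k : ℕ} (σ : ℂ ≃+* ℂ) (L : Submodule ℂ (Fin k → ℂ)) :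
    Submodule ℂ (Fin k → ℂ) :=
  Submodule.span ℂ ((fun (v : Fin k → ℂ) (a : Fin k) => σ (v a)) '' (L : Set (Fin k → ℂ)))

theorem tw_span_Gen {k : ℕ} (σ : ℂ ≃+* ℂ) (v : Fin k → ℂ) :
    tw_Gen σ (Submodule.span ℂ ({v} : Set (Fin k → ℂ))) =
      Submodule.span ℂ ({fun a => σ (v a)} : Set (Fin k → ℂ)) := by
  apply le_antisymm
  · refine Submodule.span_le.2 ?_
    rintro _ ⟨w, hw, rfl⟩
    obtain ⟨c, rfl⟩ := Submodule.mem_span_singleton.1 hw
    refine Submodule.mem_span_singleton.2 ⟨σ c, ?_⟩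
    ext a
    simp
  · refine Submodule.span_mono ?_
    rintro _ rfl
    exact ⟨v, Submodule.mem_span_singleton_self v, rfl⟩

theorem om_Gen {k r N : ℕ} (js : Fin r → Fin N) (l : Fin k → Mat r N) (σ : ℂ ≃+* ℂ)
    (v : Fin k → ℂ) (h : Om js (ap l v)) :
    Om js (ap (fun a i j => σ (l a i j)) (fun a => σ (v a))) := by
  intro s I J hJ
  have h1 := h s I J hJ
  have h2 := RingHom.map_det (σ : ℂ →+* ℂ) (Matrix.of fun a b => ap l v (I a) (J b))
  unfold mnr at h1 ⊢
  rw [h1, map_zero] at h2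
  rw [h2]
  congr 1
  ext a b
  simp [ap_apply]

theorem cnt_le_Gen {k r N : ℕ} (js : Fin r → Fin N) (l : Fin k → Mat r N) (σ : ℂ ≃+* ℂ) :
    cnt js l ≤ cnt js (fun a i j => σ (l a i j)) := by
  unfold cnt lines
  refine Set.encard_le_encard_of_injOn (f := tw_Gen σ) ?_ ?_
  · rintro _ ⟨v, ⟨hv, hO⟩, rfl⟩
    refine ⟨fun a => σ (v a), ⟨?_, om_Gen js l σ v hO⟩, (tw_span_Gen σ v).symm⟩
    intro h0
    apply hv
    ext a
    simpa using congrFun h0 a
  · rintro _ ⟨v, -, rfl⟩ _ ⟨w, -, rfl⟩ h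
    have := congrArg (tw_Gen σ.symm) h
    simpa [tw_span_Gen] using this

theorem sCntAut : SCntAut := by
  intro k r N js l σ
  refine le_antisymm ?_ (cnt_le_Gen js l σ)
  simpa using cnt_le_Gen js (fun a i j => σ (l a i j)) σ.symm

theorem sGen (hD : SDense) (hA : SAut) (hC : SCntAut) : SGen := by
  intro k r N js U₁ U₂ h₁ h₂ n₁ n₂
  have hK : ((⊥ : Subfield ℂ) : Set ℂ).Countable := by
    refine (Set.countable_range (fun q : ℚ => (q : ℂ))).mono ?_
    have : (⊥ : Subfield ℂ) ≤ (algebraMap ℚ ℂ).fieldRange := bot_le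
    intro x hx
    obtain ⟨q, hq⟩ := this hx
    exact ⟨q, by simpa using hq⟩
  have key : ∀ U : Set (Fin k → Mat r N), IsOpen U → U.Nonempty →
      ∃ x : Fin k × Fin r × Fin N → ℂ, AlgebraicIndependent ℚ x ∧
        (fun a i j => x (a, i, j)) ∈ U := by
    intro U hU ⟨l, hl⟩
    have hc : Continuous fun (x : Fin k × Fin r × Fin N → ℂ) =>
        (fun a i j => x (a, i, j) : Fin k → Mat r N) := by fun_prop
    obtain ⟨x, hx1, hx2⟩ := (hD ⊥ hK (Fin k × Fin r × Fin N)).inter_open_nonempty _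
      (hU.preimage hc) ⟨fun p => l p.1 p.2.1 p.2.2, hl⟩
    exact ⟨x, AlgebraicIndependent.restrictScalars (K := (⊥ : Subfield ℂ))
      (algebraMap ℚ (⊥ : Subfield ℂ)).injective hx2, hx1⟩
  obtain ⟨x, hx, hxU⟩ := key U₁ h₁ n₁
  obtain ⟨y, hy, hyU⟩ := key U₂ h₂ n₂
  obtain ⟨σ, hσ⟩ := hA _ x y hx hy
  refine ⟨_, hxU, _, hyU, ?_⟩
  rw [← hC k r N js _ σ]
  simp only [hσ]

end Pool.Agent.MP_8b9287_co.Geo

end

section

namespace Pool.Agent.MP_8b9287_co.Geo

theorem der_Der (F E : Type) [Field F] [Field E] [Algebra F E] [CharZero F] (ι : Type) (x : ι → E)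
    (hx : AlgebraicIndependent F x) (Δ : ι → E) : ∃ δ : Derivation F E E, ∀ i, δ (x i) = Δ i := by
  classical
  have h1 : AlgebraicIndepOn F id (Set.range x) := hx.coe_range
  obtain ⟨t, ht, hb⟩ := exists_isTranscendenceBasis_superset h1
  let A := MvPolynomial t F
  let K := FractionRing A
  let L := IntermediateField.adjoin F (Set.range ((↑) : t → E))
  let e : K ≃ₐ[F] L := hb.1.aevalEquivField
  let _ : Algebra K E := ((algebraMap L E).comp e.toRingEquiv.toRingHom).toAlgebra
  let _ : Algebra A E := (MvPolynomial.aeval (R := F) ((↑) : t → E)).toRingHom.toAlgebra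
  have : IsScalarTower A K E := IsScalarTower.of_algebraMap_eq fun a =>
    (hb.1.aevalEquivField_algebraMap_apply_coe a).symm
  have : IsScalarTower F A E := IsScalarTower.of_algebraMap_eq fun a =>
    ((MvPolynomial.aeval (R := F) ((↑) : t → E)).commutes a).symm
  have : Algebra.IsAlgebraic L E := hb.isAlgebraic_field
  have : Algebra.IsAlgebraic K E :=
    Algebra.IsAlgebraic.of_ringHom_of_comp_eq e.toRingEquiv.toRingHom (RingHom.id E)
      e.surjective Function.injective_id rfl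
  have : CharZero K := algebraRat.charZero K
  have : Algebra.FormallyEtale A K := Algebra.FormallyEtale.of_isLocalization (nonZeroDivisors A)
  have : Algebra.FormallyEtale K E := Algebra.FormallyEtale.of_isSeparable K E
  have : Algebra.FormallyEtale A E := Algebra.FormallyEtale.comp A K E
  have hbc := KaehlerDifferential.isBaseChange_of_formallyEtale F A E
  let δ : Derivation F A E :=
    MvPolynomial.mkDerivation F fun b : t => Function.extend x Δ 0 (b : E)
  let l : KaehlerDifferential F E →ₗ[E] E := hbc.lift δ.liftKaehlerDifferential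
  refine ⟨l.compDer (KaehlerDifferential.D F E), fun i => ?_⟩
  let i0 : t := ⟨x i, ht ⟨i, rfl⟩⟩
  have hx' : x i = algebraMap A E (MvPolynomial.X i0) :=
    (MvPolynomial.aeval_X (R := F) ((↑) : t → E) i0).symm
  have h2 : KaehlerDifferential.D F E (x i) =
      KaehlerDifferential.map F F A E (KaehlerDifferential.D F A (MvPolynomial.X i0)) := by
    rw [KaehlerDifferential.map_D, ← hx']
  change l (KaehlerDifferential.D F E (x i)) = Δ i
  rw [h2, IsBaseChange.lift_eq, Derivation.liftKaehlerDifferential_comp_D]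
  exact (MvPolynomial.mkDerivation_X F _ i0).trans (hx.injective.extend_apply Δ 0 i)

theorem sDer : SDer := by
  intro K ι x hx Δ
  obtain ⟨δ, h⟩ := der_Der K ℂ ι x hx Δ
  exact ⟨δ.restrictScalars ℤ, fun s hs => δ.map_algebraMap ⟨s, hs⟩, h⟩

end Pool.Agent.MP_8b9287_co.Geo

end

section

namespace Pool.Agent.MP_8b9287_co.Geo

theorem sFree (hD : SDense) (hR : SDer) : SFree := by
  intro n S hS P hP
  have hK : ((Subfield.closure S : Subfield ℂ) : Set ℂ).Countable := by
    rw [← Cardinal.le_aleph0_iff_set_countable]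
    exact (Subfield.cardinalMk_closure_le_max S).trans
      (max_le (Cardinal.le_aleph0_iff_set_countable.2 hS.countable) le_rfl)
  have ho : IsOpen {x : Fin n × Fin n → ℂ | MvPolynomial.eval x P ≠ 0} :=
    isOpen_ne_fun (MvPolynomial.continuous_eval P) continuous_const
  have hne : {x : Fin n × Fin n → ℂ | MvPolynomial.eval x P ≠ 0}.Nonempty := by
    by_contra h
    rw [Set.not_nonempty_iff_eq_empty, Set.eq_empty_iff_forall_notMem] at h
    exact hP (MvPolynomial.funext fun x => by simpa using h x)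
  obtain ⟨x, hx, hx'⟩ := (hD _ hK (Fin n × Fin n)).inter_open_nonempty _ ho hne
  refine ⟨fun i j => x (i, j), hx, fun Δ => ?_⟩
  obtain ⟨δ, h1, h2⟩ := hR _ _ x hx' fun p => Δ p.1 p.2
  exact ⟨δ, fun s hs => h1 s (Subfield.subset_closure hs), fun i j => h2 (i, j)⟩

theorem sForb : SForb := by
  intro r N js hjs
  have h1 : Fintype.card (Forb js) =
      ∑ s : Fin r, (Finset.univ.filter fun j : Fin N => (∀ t, js t ≠ j) ∧ j < js s).card := by
    rw [Fintype.card_subtype, Finset.card_filter, Fintype.sum_prod_type]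
    simp only [Finset.card_filter]
  rw [h1, ← Finset.sum_add_distrib]
  refine Finset.sum_congr rfl fun s _ => ?_
  rw [← Fin.card_Iio s, ← Finset.card_image_of_injective (Finset.Iio s) hjs.injective,
    ← Fin.card_Iio (js s), ← Finset.card_union_of_disjoint]
  · congr 1
    ext j
    simp only [Finset.mem_union, Finset.mem_filter, Finset.mem_univ, true_and, Finset.mem_image,
      Finset.mem_Iio]
    constructor
    · rintro (h | ⟨t, ht, rfl⟩)
      exacts [h.2, hjs ht]
    · intro h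
      by_cases hj : ∀ t, js t ≠ j
      · exact Or.inl ⟨hj, h⟩
      · push Not at hj
        obtain ⟨t, rfl⟩ := hj
        exact Or.inr ⟨t, hjs.lt_iff_lt.1 h, rfl⟩
  · rw [Finset.disjoint_left]
    intro j h h'
    obtain ⟨t, -, rfl⟩ := Finset.mem_image.1 h'
    exact (Finset.mem_filter.1 h).2.1 t rfl

end Pool.Agent.MP_8b9287_co.Geo

end

section

namespace Pool.Agent.MP_8b9287_co.Geo

/-- Smooth functions satisfying the chain rule for derivations. -/
def Ok_DerDet {r N : ℕ} (f : Mat r N → ℂ) : Prop :=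
  ContDiff ℂ 1 f ∧ ∀ (δ : Derivation ℤ ℂ ℂ) (M : Mat r N),
    δ (f M) = fderiv ℂ f M (fun i j => δ (M i j))

theorem int_DerDet {r N : ℕ} (n : ℤ) : Ok_DerDet fun _ : Mat r N => (n : ℂ) :=
  ⟨contDiff_const, fun δ M => by simp⟩

theorem coord_DerDet {r N : ℕ} (i : Fin r) (j : Fin N) : Ok_DerDet fun M : Mat r N => M i j := by
  let L : Mat r N →L[ℂ] ℂ := (ContinuousLinearMap.proj j : (Fin N → ℂ) →L[ℂ] ℂ).comp
    (ContinuousLinearMap.proj i : Mat r N →L[ℂ] (Fin N → ℂ))
  refine ⟨L.contDiff, fun δ M => ?_⟩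
  change _ = fderiv ℂ L M _
  rw [L.fderiv]; rfl

theorem add_DerDet {r N : ℕ} {f g : Mat r N → ℂ} (hf : Ok_DerDet f) (hg : Ok_DerDet g) :
    Ok_DerDet fun M => f M + g M :=
  ⟨hf.1.add hg.1, fun δ M => by
    rw [fderiv_fun_add (hf.1.differentiable one_ne_zero M) (hg.1.differentiable one_ne_zero M),
      map_add, hf.2, hg.2]; rfl⟩

theorem mul_DerDet {r N : ℕ} {f g : Mat r N → ℂ} (hf : Ok_DerDet f) (hg : Ok_DerDet g) :
    Ok_DerDet fun M => f M * g M :=
  ⟨hf.1.mul hg.1, fun δ M => by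
    rw [fderiv_fun_mul (hf.1.differentiable one_ne_zero M) (hg.1.differentiable one_ne_zero M),
      δ.leibniz, hf.2, hg.2]; rfl⟩

theorem sum_DerDet {r N : ℕ} {ι : Type} (s : Finset ι) {f : ι → Mat r N → ℂ}
    (hf : ∀ a, Ok_DerDet (f a)) : Ok_DerDet fun M => ∑ a ∈ s, f a M := by
  classical
  induction s using Finset.induction with
  | empty => simpa using int_DerDet (r := r) (N := N) 0
  | insert a s ha ih => simpa only [Finset.sum_insert ha] using add_DerDet (hf a) ih

theorem prod_DerDet {r N : ℕ} {ι : Type} (s : Finset ι) {f : ι → Mat r N → ℂ}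
    (hf : ∀ a, Ok_DerDet (f a)) : Ok_DerDet fun M => ∏ a ∈ s, f a M := by
  classical
  induction s using Finset.induction with
  | empty => simpa using int_DerDet (r := r) (N := N) 1
  | insert a s ha ih => simpa only [Finset.prod_insert ha] using mul_DerDet (hf a) ih

theorem sDerDet : SDerDet := by
  intro r N s I J
  simp only [mnr, Matrix.det_apply', Matrix.of_apply]
  exact sum_DerDet _ fun σ => mul_DerDet (int_DerDet _) (prod_DerDet _ fun a => coord_DerDet _ _)

theorem sKStr (hD : SDerDet) : SKStr := by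
  classical
  intro r N js M hM τ
  obtain ⟨T, hT⟩ : ∃ T : Fin r → Fin N → ℂ, T = fun s j =>
    if h : (∀ s', js s' ≠ j) ∧ j < js s then τ ⟨(s, j), h⟩ / mnr M id js else 0 := ⟨_, rfl⟩
  obtain ⟨Y, hY⟩ : ∃ Y : Mat r N, Y = fun i j => ∑ s, T s j • M i (js s) := ⟨_, rfl⟩
  have Y0 : ∀ i s, Y i (js s) = 0 := fun i s => by
    rw [hY]
    exact Finset.sum_eq_zero fun s' _ => by rw [hT]; simp only []; rw [dif_neg fun h => h.1 s rfl, zero_smul]
  have up : ∀ (x : ℂ) (s : Fin r) (j : Fin N), mnr (M + x • Y) id (Function.update js s j) =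
      ((Matrix.of fun a b => M a (js b)).updateCol s
        ((fun a => M a j) + x • fun a => Y a j)).det := fun x s j => by
    rw [mnr]
    congr 1
    ext a b
    by_cases h : b = s
    · subst h; simp
    · simp [Matrix.updateCol_ne h, Function.update_of_ne h, Y0]
  have key : ∀ x : ℂ, Phi js (M + x • Y) = Phi js M + x • τ := fun x => by
    ext ⟨⟨s, j⟩, h⟩
    have u0 := up 0 s j
    have u1 := Matrix.det_updateCol_sum (Matrix.of fun a b => M a (js b)) s (fun s' => T s' j)
    simp only [zero_smul, add_zero] at u0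
    have u2 : T s j * mnr M id js = τ ⟨(s, j), h⟩ := by
      rw [hT]; simp only []; rw [dif_pos h, div_mul_cancel₀ _ hM]
    simp only [Phi, Pi.add_apply, Pi.smul_apply, smul_eq_mul]
    rw [up, u0, Matrix.det_updateCol_add, Matrix.det_updateCol_smul, ← u2, hY]
    exact congrArg (fun z => _ + x * z) u1
  have dP : Differentiable ℂ (Phi js : Mat r N → Forb js → ℂ) :=
    differentiable_pi.2 fun p => (hD r N r _ _).1.differentiable one_ne_zero
  have l1 : HasDerivAt (fun x : ℂ => M + x • Y) Y 0 := by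
    simpa using ((hasDerivAt_id (0 : ℂ)).smul_const Y).const_add M
  have l2 : HasDerivAt (fun x : ℂ => Phi js M + x • τ) τ 0 := by
    simpa using ((hasDerivAt_id (0 : ℂ)).smul_const τ).const_add (Phi js M)
  have l3 := (dP M).hasFDerivAt.comp_hasDerivAt_of_eq 0 l1 (by simp)
  refine ⟨Y, l3.unique ?_⟩
  rwa [show Phi js ∘ (fun x : ℂ => M + x • Y) = _ from funext key]

end Pool.Agent.MP_8b9287_co.Geo

end

section

namespace Pool.Agent.MP_8b9287_co.Geo

open Module

theorem pick_Rk {d m : ℕ} (S : Set (Fin d → ℂ)) (h : m ≤ finrank ℂ (Submodule.span ℂ S)) :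
    ∃ f : Fin m → Fin d → ℂ, (∀ i, f i ∈ S) ∧ LinearIndependent ℂ f := by
  obtain ⟨f, h1, -, h3⟩ := Submodule.exists_fun_fin_finrank_span_eq ℂ S
  exact ⟨fun i => f (Fin.castLE h i), fun i => h1 _, h3.comp _ (Fin.castLE_injective h)⟩

theorem sRk : SRk := by
  intro r N M q s
  constructor
  · intro h
    by_contra hlt
    have h1 : s + 1 ≤ finrank ℂ (colSp M q) := by omega
    obtain ⟨f, hf, hli⟩ := pick_Rk _ h1
    choose J hJ hJf using hf
    set A : Matrix (Fin r) (Fin (s + 1)) ℂ := Matrix.of fun i b => M i (J b) with hA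
    have hcol : A.col = f := by
      funext b
      rw [← hJf b]
      rfl
    have hrk : s + 1 ≤ finrank ℂ (Submodule.span ℂ (Set.range A.row)) := by
      rw [← Matrix.rank_eq_finrank_span_row, Matrix.rank_eq_finrank_span_cols, hcol,
        finrank_span_eq_card hli, Fintype.card_fin]
    obtain ⟨g, hg, hlg⟩ := pick_Rk _ hrk
    choose I hI using hg
    have hrow : (Matrix.of fun a b => M (I a) (J b)).row = g := by
      funext a
      rw [← hI a]
      rfl
    have hu : IsUnit (Matrix.of fun a b => M (I a) (J b)) :=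
      Matrix.linearIndependent_rows_iff_isUnit.1 (hrow ▸ hlg)
    exact ((Matrix.isUnit_iff_isUnit_det _).1 hu).ne_zero (h I J hJ)
  · intro h I J hJ
    by_contra hne
    have h1 := Matrix.linearIndependent_cols_of_det_ne_zero hne
    have h2 : LinearIndependent ℂ (fun (b : Fin (s + 1)) (i : Fin r) => M i (J b)) :=
      LinearIndependent.of_comp (LinearMap.funLeft ℂ ℂ I) h1
    have h3 : Submodule.span ℂ (Set.range fun (b : Fin (s + 1)) (i : Fin r) => M i (J b)) ≤
        colSp M q := by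
      refine Submodule.span_mono ?_
      rintro _ ⟨b, rfl⟩
      exact ⟨J b, hJ b, rfl⟩
    have h4 := Submodule.finrank_mono h3
    rw [finrank_span_eq_card h2, Fintype.card_fin] at h4
    omega

end Pool.Agent.MP_8b9287_co.Geo

end

section

namespace Pool.Agent.MP_8b9287_co.Geo

open Module

theorem col_mem_Loc {r N : ℕ} (M : Mat r N) {q : ℕ} {j : Fin N} (h : (j : ℕ) < q) :
    (fun i => M i j) ∈ colSp M q :=
  Submodule.subset_span ⟨j, h, rfl⟩

theorem sLoc1 (hR : SRk) : SLoc1 := by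
  intro r N js M hjs hOm
  funext p
  obtain ⟨⟨s, j⟩, hne, hlt⟩ := p
  by_contra hdet
  have hdet' : (Matrix.of fun a b => M a (Function.update js s j b)).det ≠ 0 := hdet
  have hli := Matrix.linearIndependent_cols_of_det_ne_zero hdet'
  have hle : (s : ℕ) + 1 ≤ r := s.2
  have hli2 := hli.comp (Fin.castLE hle) (Fin.castLE_injective hle)
  have h1 := finrank_span_eq_card hli2
  have h2 : finrank ℂ (colSp M (js s)) ≤ s :=
    (hR r N M (js s) s).1 fun I J hJ => hOm s I J fun b => hJ b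
  have h3 : Submodule.span ℂ (Set.range
      ((Matrix.of fun a b => M a (Function.update js s j b)).col ∘ Fin.castLE hle)) ≤
      colSp M (js s) := by
    rw [Submodule.span_le]
    rintro _ ⟨m, rfl⟩
    have hm : ((Function.update js s j (Fin.castLE hle m) : Fin N) : ℕ) < js s := by
      by_cases c : Fin.castLE hle m = s
      · rw [c, Function.update_self]; exact hlt
      · rw [Function.update_of_ne c]
        have : Fin.castLE hle m < s := by
          have h4 := m.2
          have h5 : (m : ℕ) ≠ s := fun d => c (Fin.ext d)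
          rw [Fin.lt_def, Fin.val_castLE]; omega
        exact hjs this
    exact col_mem_Loc M hm
  have h4 := Submodule.finrank_mono h3
  rw [h1, Fintype.card_fin] at h4
  omega

theorem sLoc2 (hR : SRk) : SLoc2 := by
  intro r N js M hjs hdet hPhi s I J hJ
  refine (hR r N M (js s) s).2 ?_ I J fun b => hJ b
  have hle : (s : ℕ) ≤ r := s.2.le
  set B : Matrix (Fin r) (Fin r) ℂ := Matrix.of fun a b => M a (js b) with hB
  have hdet' : B.det ≠ 0 := hdet
  set T := Submodule.span ℂ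
    (Set.range fun (m : Fin s) (i : Fin r) => M i (js (Fin.castLE hle m))) with hT
  have hmem : ∀ m : Fin r, m < s → (fun i => M i (js m)) ∈ T := fun m hm =>
    Submodule.subset_span ⟨⟨m, hm⟩, rfl⟩
  have h3 : colSp M (js s) ≤ T := by
    refine Submodule.span_le.2 ?_
    rintro _ ⟨j, hj, rfl⟩
    have hj' : j < js s := hj
    by_cases c : ∃ m, js m = j
    · obtain ⟨m, rfl⟩ := c
      exact hmem m (hjs.lt_iff_lt.1 hj')
    · have hc : ∀ m, js m ≠ j := fun m d => c ⟨m, d⟩
      have h1 := Matrix.mulVec_cramer B fun i => M i j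
      have h2 : ∀ m : Fin r, ¬ m < s → B.cramer (fun i => M i j) m = 0 := by
        intro m hm
        have h4 := congrFun hPhi ⟨(m, j), hc, hj'.trans_le (hjs.monotone (not_lt.1 hm))⟩
        rw [Matrix.cramer_apply]
        have h5 : B.updateCol m (fun i => M i j) =
            Matrix.of fun a b => M a (Function.update js m j b) := by
          ext a b
          by_cases d : b = m
          · subst d; simp
          · simp [Matrix.updateCol_ne d, Function.update_of_ne d, hB]
        rw [h5]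
        exact h4
      have h6 : B.mulVec (B.cramer fun i => M i j) ∈ T := by
        have h7 : B.mulVec (B.cramer fun i => M i j) =
            ∑ m, B.cramer (fun i => M i j) m • fun i => M i (js m) := by
          ext i
          simp [Matrix.mulVec, dotProduct, Finset.sum_apply, hB, mul_comm]
        rw [h7]
        refine Submodule.sum_mem _ fun m _ => ?_
        by_cases d : m < s
        · exact Submodule.smul_mem _ _ (hmem m d)
        · rw [h2 m d, zero_smul]; exact T.zero_mem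
      rw [h1] at h6
      exact (Submodule.smul_mem_iff _ hdet').1 h6
  refine (Submodule.finrank_mono h3).trans ?_
  have h8 := finrank_range_le_card (R := ℂ)
    fun (m : Fin s) (i : Fin r) => M i (js (Fin.castLE hle m))
  rw [Fintype.card_fin] at h8
  exact h8

end Pool.Agent.MP_8b9287_co.Geo

end

section

/-! A curve in a level set, and a local description of a Schubert condition. -/

namespace Pool.Agent.MP_8b9287_co.Geo

open Module Filter Topology

theorem sCurve : SCurve := by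
  intro V T _ _ _ _ _ _ F v₀ w hF hs hw
  have : CompleteSpace V := FiniteDimensional.complete ℂ V
  have hf : HasStrictFDerivAt F (fderiv ℂ F v₀) v₀ := hF.hasStrictFDerivAt one_ne_zero
  have hr : (fderiv ℂ F v₀).range = ⊤ := LinearMap.range_eq_top.2 hs
  let w' : (fderiv ℂ F v₀).ker := ⟨w, hw⟩
  have h1 : HasDerivAt (fun x : ℂ => x • w') w' 0 := by
    simpa using (hasDerivAt_id (0 : ℂ)).smul_const w'
  refine ⟨fun x => hf.implicitFunction F _ hr (F v₀) (x • w'), ?_, ?_, ?_⟩
  · simp only [zero_smul]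
    exact hf.implicitFunction_apply_image hr
  · exact (hf.to_implicitFunction hr).hasFDerivAt.comp_hasDerivAt_of_eq 0 h1 (by simp)
  · have h2 : Tendsto (fun x : ℂ => (F v₀, x • w')) (𝓝 0) (𝓝 (F v₀, 0)) := by
      refine tendsto_const_nhds.prodMk_nhds ?_
      simpa using h1.continuousAt.tendsto
    exact h2.eventually (hf.map_implicitFunction_eq hr)

theorem sLoc3 (hR : SRk) : SLoc3 := by
  intro r N js jj M hjs hjj hle' hdet hPhi s I J hJ
  refine (hR r N M (js s) s).2 ?_ I J fun b => hJ b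
  have hle : (s : ℕ) ≤ r := s.2.le
  set B : Matrix (Fin r) (Fin r) ℂ := Matrix.of fun a b => M a (jj b) with hB
  have hdet' : B.det ≠ 0 := hdet
  set T := Submodule.span ℂ
    (Set.range fun (m : Fin s) (i : Fin r) => M i (jj (Fin.castLE hle m))) with hT
  have hmem : ∀ m : Fin r, m < s → (fun i => M i (jj m)) ∈ T := fun m hm =>
    Submodule.subset_span ⟨⟨m, hm⟩, rfl⟩
  have h3 : colSp M (js s) ≤ T := by
    refine Submodule.span_le.2 ?_
    rintro _ ⟨j, hj, rfl⟩
    have hj' : j < js s := hj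
    by_cases c : ∃ m, jj m = j
    · obtain ⟨m, rfl⟩ := c
      exact hmem m (hjj.lt_iff_lt.1 (hj'.trans_le (hle' s)))
    · have hc : ∀ m, jj m ≠ j := fun m d => c ⟨m, d⟩
      have h1 := Matrix.mulVec_cramer B fun i => M i j
      have h2 : ∀ m : Fin r, ¬ m < s → B.cramer (fun i => M i j) m = 0 := by
        intro m hm
        have h0 : j < js m := hj'.trans_le (hjs.monotone (not_lt.1 hm))
        have h4 := hPhi ⟨(m, j), hc, h0.trans_le (hle' m)⟩ h0
        rw [Matrix.cramer_apply]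
        have h5 : B.updateCol m (fun i => M i j) =
            Matrix.of fun a b => M a (Function.update jj m j b) := by
          ext a b
          by_cases d : b = m
          · subst d; simp
          · simp [Matrix.updateCol_ne d, Function.update_of_ne d, hB]
        rw [h5]
        exact h4
      have h6 : B.mulVec (B.cramer fun i => M i j) ∈ T := by
        have h7 : B.mulVec (B.cramer fun i => M i j) =
            ∑ m, B.cramer (fun i => M i j) m • fun i => M i (jj m) := by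
          ext i
          simp [Matrix.mulVec, dotProduct, Finset.sum_apply, hB, mul_comm]
        rw [h7]
        refine Submodule.sum_mem _ fun m _ => ?_
        by_cases d : m < s
        · exact Submodule.smul_mem _ _ (hmem m d)
        · rw [h2 m d, zero_smul]; exact T.zero_mem
      rw [h1] at h6
      exact (Submodule.smul_mem_iff _ hdet').1 h6
  refine (Submodule.finrank_mono h3).trans ?_
  have h8 := finrank_range_le_card (R := ℂ)
    fun (m : Fin s) (i : Fin r) => M i (jj (Fin.castLE hle m))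
  rw [Fintype.card_fin] at h8
  exact h8

end Pool.Agent.MP_8b9287_co.Geo

end

section

namespace Pool.Agent.MP_8b9287_co.Geo

open Module

theorem mono_Piv {r N : ℕ} (M : Mat r N) {q q' : ℕ} (h : q ≤ q') : colSp M q ≤ colSp M q' :=
  Submodule.span_mono (Set.image_mono fun _ hj => lt_of_lt_of_le hj h)

theorem mem_Piv {r N : ℕ} (M : Mat r N) {q : ℕ} {j : Fin N} (h : (j : ℕ) < q) :
    (fun i => M i j) ∈ colSp M q :=
  Submodule.subset_span ⟨j, h, rfl⟩

theorem succ_Piv {r N : ℕ} (M : Mat r N) (j : Fin N) :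
    colSp M ((j : ℕ) + 1) ≤ colSp M j ⊔ Submodule.span ℂ {fun i => M i j} := by
  refine Submodule.span_le.2 ?_
  rintro _ ⟨j', hj', rfl⟩
  rcases Nat.lt_succ_iff_lt_or_eq.1 hj' with h | h
  · exact Submodule.mem_sup_left (mem_Piv M h)
  · obtain rfl : j' = j := Fin.ext h
    exact Submodule.mem_sup_right (Submodule.mem_span_singleton_self _)

theorem rk_Piv {r N : ℕ} (M : Mat r N) (j : Fin N) :
    finrank ℂ (colSp M ((j : ℕ) + 1)) ≤ finrank ℂ (colSp M j) + 1 := by
  refine (Submodule.finrank_mono (succ_Piv M j)).trans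
    ((Submodule.finrank_add_le_finrank_add_finrank _ _).trans (Nat.add_le_add_left ?_ _))
  simpa using finrank_span_le_card (R := ℂ) ({fun i => M i j} : Set (Fin r → ℂ))

theorem ex_Piv {r N : ℕ} (M : Mat r N) (hM : colSp M N = ⊤) (s : Fin r) :
    ∃ j : Fin N, finrank ℂ (colSp M j) ≤ s ∧ (s : ℕ) < finrank ℂ (colSp M ((j : ℕ) + 1)) := by
  have h0 : finrank ℂ (colSp M 0) = 0 := by
    have e : {j : Fin N | (j : ℕ) < 0} = ∅ := by
      ext j
      simp
    rw [colSp, e, Set.image_empty, Submodule.span_empty, finrank_bot]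
  have hN : finrank ℂ (colSp M N) = r := by
    rw [hM]
    simp
  have hex : ∃ q, (s : ℕ) < finrank ℂ (colSp M q) := ⟨N, hN.symm ▸ s.2⟩
  have h1 := Nat.find_spec hex
  have h2 : Nat.find hex ≤ N := Nat.find_min' hex (hN.symm ▸ s.2)
  have h3 : Nat.find hex ≠ 0 := fun h => by
    rw [h, h0] at h1
    omega
  obtain ⟨q, hq⟩ := Nat.exists_eq_succ_of_ne_zero h3
  refine ⟨⟨q, by omega⟩, not_lt.1 (Nat.find_min hex (by simp only; omega)), ?_⟩
  rwa [hq] at h1

theorem sPiv (hR : SRk) : SPiv := by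
  classical
  intro r N js M hO hM
  choose jj h1 h2 using ex_Piv M hM
  have dm : ∀ {q q' : ℕ}, q ≤ q' → finrank ℂ (colSp M q) ≤ finrank ℂ (colSp M q') :=
    fun h => Submodule.finrank_mono (mono_Piv M h)
  have hsm : StrictMono jj := by
    intro s t hst
    by_contra h
    have h3 : (jj t : ℕ) ≤ jj s := not_lt.1 h
    have h4 := dm (Nat.add_le_add_right h3 1)
    have h5 := rk_Piv M (jj s)
    have h6 := h1 s
    have h7 := h2 t
    have h8 : (s : ℕ) < t := hst
    have h9 := h2 s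
    rcases h3.eq_or_lt with e | e
    · omega
    · have := dm (show (jj t : ℕ) + 1 ≤ jj s from e)
      omega
  refine ⟨jj, hsm, fun s => ?_, ?_, fun s I J hJ => (hR r N M (jj s) s).2 (h1 s) I J hJ⟩
  · by_contra h
    have h3 : (jj s : ℕ) + 1 ≤ js s := not_le.1 h
    have h4 := (hR r N M (js s) s).1 fun I J hJ => hO s I J hJ
    have h5 := dm h3
    have h6 := h2 s
    omega
  · have hn : ∀ s, (fun i => M i (jj s)) ∉ colSp M (jj s) := by
      intro s hs
      have h3 : colSp M ((jj s : ℕ) + 1) ≤ colSp M (jj s) :=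
        (succ_Piv M (jj s)).trans (sup_le le_rfl ((Submodule.span_singleton_le_iff_mem _ _).2 hs))
      have h4 := Submodule.finrank_mono h3
      have h5 := h1 s
      have h6 := h2 s
      omega
    have hli : LinearIndependent ℂ fun (s : Fin r) (i : Fin r) => M i (jj s) := by
      rw [Fintype.linearIndependent_iff]
      intro g hg
      by_contra hne
      obtain ⟨s, hs, hmax⟩ := Finset.exists_max_image (Finset.univ.filter fun s => g s ≠ 0) id (by
        obtain ⟨s, hs⟩ := not_forall.1 hne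
        exact ⟨s, Finset.mem_filter.2 ⟨Finset.mem_univ _, hs⟩⟩)
      have hs0 : g s ≠ 0 := (Finset.mem_filter.1 hs).2
      apply hn s
      rw [← Finset.add_sum_erase _ _ (Finset.mem_univ s)] at hg
      have h3 : (∑ t ∈ Finset.univ.erase s, g t • fun i => M i (jj t)) ∈ colSp M (jj s) := by
        refine Submodule.sum_mem _ fun t ht => ?_
        by_cases h0 : g t = 0
        · rw [h0, zero_smul]
          exact Submodule.zero_mem _
        · have h4 : t ≤ s := hmax t (Finset.mem_filter.2 ⟨Finset.mem_univ _, h0⟩)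
          exact Submodule.smul_mem _ _
            (mem_Piv M (hsm (lt_of_le_of_ne h4 (Finset.ne_of_mem_erase ht))))
      rw [← Submodule.smul_mem_iff _ hs0, eq_neg_of_add_eq_zero_left hg]
      exact Submodule.neg_mem _ h3
    have hu : IsUnit (Matrix.of fun a b => M (id a) (jj b)) :=
      Matrix.linearIndependent_cols_iff_isUnit.1 hli
    exact ((Matrix.isUnit_iff_isUnit_det _).1 hu).ne_zero

end Pool.Agent.MP_8b9287_co.Geo

end

section

/-! Every tangent value is reached by a derivation; the first flag vector. -/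

namespace Pool.Agent.MP_8b9287_co.Geo

open Module

theorem der_KA1 {k r m : ℕ} (A : Fin r → Fin m → ℂ) (X : Fin k → Fin m → ℂ) (v : Fin k → ℂ)
    (w : Fin m → ℂ) (δ : Derivation ℤ ℂ ℂ) (hA : ∀ i j, δ (A i j) = 0)
    (hX : ∀ a j, δ (X a j) = 0) (i : Fin r) :
    δ (mv A X v w i) = mv A X (fun a => δ (v a)) w i + mv A X v (fun j => δ (w j)) i := by
  have h1 : ∀ j, δ (vX X v j) = vX X (fun a => δ (v a)) j := by
    intro j
    simp only [vX, map_sum, Derivation.leibniz, hX, smul_eq_mul, mul_zero, zero_add]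
    exact Finset.sum_congr rfl fun a _ => mul_comm _ _
  simp only [mv_apply, map_sum, Derivation.leibniz, hA, h1, smul_eq_mul, mul_zero, add_zero,
    ← Finset.sum_add_distrib]
  exact Finset.sum_congr rfl fun j _ => by ring

theorem sKA1 (hD : SDerDet) (hK : SKStr) : SKA1 := by
  intro k r m N A X G S v jj hA hX hF hs hm hP τ
  obtain ⟨Y, hY⟩ := hK r N jj _ hm τ
  choose Δ hΔ using fun q : Fin N => hs (fun i => -Y i q)
  obtain ⟨δ, hδ, hG⟩ := hF Δ
  refine ⟨δ, hδ, ?_⟩
  have h1 : ap (lA A X G) (fun a => δ (v a))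
      = (fun i q => δ (ap (lA A X G) v i q)) + Y := by
    ext i q
    have h2 : (fun j => δ (G q j)) = Δ q := funext fun j => hG q j
    rw [Pi.add_apply, Pi.add_apply, ap_lA, ap_lA,
      der_KA1 A X v (G q) δ (fun i j => hδ _ (hA i j)) (fun a j => hδ _ (hX a j)), h2, hΔ]
    ring
  have h3 : fderiv ℂ (Phi jj) (ap (lA A X G) v) (fun i q => δ (ap (lA A X G) v i q)) = 0 := by
    have h4 : fderiv ℂ (Phi jj) (ap (lA A X G) v) = ContinuousLinearMap.pi fun p : Forb jj =>
        fderiv ℂ (fun M : Mat r N => mnr M id (Function.update jj p.1.1 p.1.2))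
          (ap (lA A X G) v) :=
      fderiv_pi fun p => ((hD r N r id _).1.differentiable one_ne_zero).differentiableAt
    ext p
    rw [h4, ContinuousLinearMap.pi_apply, ← (hD r N r id _).2 δ]
    have h5 : mnr (ap (lA A X G) v) id (Function.update jj p.1.1 p.1.2) = 0 := congrFun hP p
    rw [h5, map_zero, Pi.zero_apply]
  rw [h1, map_add, h3, hY, zero_add]

theorem sE4 : SE4 := by
  intro n c η g W z hz hη hW
  have h1 := hW.2 0
  have h2 : n - (c + 1) + (((0 : Fin (c + 1)) : ℕ) + 1) - η 0 = 1 := by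
    rw [hη, Fin.val_zero]
    omega
  have h3 : flg g 1 = Submodule.span ℂ {g z} := by
    unfold flg
    congr 1
    ext x
    constructor
    · rintro ⟨i, hi, rfl⟩
      have h4 : i = z := Fin.ext (by simp only [Set.mem_ofPred_eq] at hi; omega)
      rw [h4]
      rfl
    · rintro rfl
      exact ⟨z, by simp only [Set.mem_ofPred_eq]; omega, rfl⟩
  rw [h2, h3] at h1
  have h4 : W ⊓ Submodule.span ℂ {g z} ≠ ⊥ := by
    intro h
    rw [h, finrank_bot] at h1
    omega
  obtain ⟨x, hx, hx0⟩ := (Submodule.ne_bot_iff _).1 h4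
  obtain ⟨a, rfl⟩ := Submodule.mem_span_singleton.1 hx.2
  have ha : a ≠ 0 := fun h => hx0 (by rw [h, zero_smul])
  exact (Submodule.smul_mem_iff W ha).1 hx.1

end Pool.Agent.MP_8b9287_co.Geo

end

section

namespace Pool.Agent.MP_8b9287_co.Geo

open Module

theorem ap_smul_KA {k r N : ℕ} (l : Fin k → Mat r N) (a : ℂ) (v : Fin k → ℂ) :
    ap l (a • v) = a • ap l v := by
  simp [ap, Finset.smul_sum, smul_smul]

theorem om_smul_KA {r N : ℕ} {js : Fin r → Fin N} {M : Mat r N} (h : Om js M) (a : ℂ) :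
    Om js (a • M) := fun s I J hJ => by
  have e : (Matrix.of fun x y => (a • M) (I x) (J y)) = a • Matrix.of fun x y => M (I x) (J y) :=
    rfl
  have := h s I J hJ
  unfold mnr at this ⊢
  rw [e, Matrix.det_smul, this, mul_zero]

theorem col_top_KA {k r m N : ℕ} {A : Fin r → Fin m → ℂ} {X : Fin k → Fin m → ℂ}
    {G : Fin N → Fin m → ℂ} {v : Fin k → ℂ} (hK : IsKer A X)
    (hs : Function.Surjective (mv A X v)) (hF : FS G N = ⊤) : colSp (ap (lA A X G) v) N = ⊤ := by
  rw [eq_top_iff, ← LinearMap.range_eq_top.2 hs, ← Submodule.map_top, ← hF, FS,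
    Submodule.map_span_le]
  rintro w (rfl | ⟨q, hq, rfl⟩)
  · rw [mv_one hK]
    exact zero_mem _
  · exact Submodule.subset_span ⟨q, hq, funext fun i => ap_lA A X G v i q⟩

theorem core_KA (hP : SPiv) (hL : SLoc1) (hF : SForb) (hK : SKA1) {c r m N : ℕ}
    {js : Fin r → Fin N} {A : Fin r → Fin m → ℂ} {X : Fin (c + 1) → Fin m → ℂ}
    {G : Fin N → Fin m → ℂ} {S : Set ℂ} (hc : Cod c js) (hA : ∀ i j, A i j ∈ S)
    (hX : ∀ a j, X a j ∈ S) (hG : Free S G) (hk : IsKer A X)
    (hs : ∀ v, v ≠ 0 → Function.Surjective (mv A X v)) (hT : FS G N = ⊤) (i : Fin (c + 1))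
    (v : Fin (c + 1) → ℂ) (hv : v i = 1) (hO : Om js (ap (lA A X G) v)) :
    mnr (ap (lA A X G) v) id js ≠ 0 ∧ (∀ v' : Fin (c + 1) → ℂ, v' i = 0 →
      fderiv ℂ (Phi js) (ap (lA A X G) v) (ap (lA A X G) v') = 0 → v' = 0) ∧
      ∀ v' : Fin (c + 1) → ℂ, v' i = 0 →
        ∃ δ : Derivation ℤ ℂ ℂ, (∀ s ∈ S, δ s = 0) ∧ v' = fun a => δ (v a) := by
  have v0 : v ≠ 0 := fun e => by simp [e] at hv
  obtain ⟨jj, j1, j2, j3, j4⟩ := hP r N js _ hO (col_top_KA hk (hs v v0) hT)
  have sur := hK _ r m N A X G S v jj hA hX hG (hs v v0) j3 (hL r N jj _ j1 j4)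
  let U : Submodule ℂ (Fin (c + 1) → ℂ) :=
    LinearMap.ker (LinearMap.proj (R := ℂ) (φ := fun _ => ℂ) i)
  have hU : finrank ℂ U = c := by
    have := (LinearMap.proj (R := ℂ) (φ := fun _ : Fin (c + 1) => ℂ) i).finrank_range_add_finrank_ker
    rw [LinearMap.range_eq_top.2 (LinearMap.proj_surjective i), finrank_top, finrank_self,
      finrank_fin_fun] at this
    exact Nat.add_right_cancel ((add_comm _ _).trans this)
  let Lam : U →ₗ[ℂ] (Forb jj → ℂ) := (fderiv ℂ (Phi jj) (ap (lA A X G) v)).toLinearMap ∘ₗ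
    Fintype.linearCombination ℂ (lA A X G) ∘ₗ U.subtype
  have hLam : ∀ u : U, Lam u = fderiv ℂ (Phi jj) (ap (lA A X G) v) (ap (lA A X G) u) :=
    fun u => rfl
  have mem : ∀ δ : Derivation ℤ ℂ ℂ, (fun a => δ (v a)) ∈ U := fun δ => by
    change δ (v i) = 0
    rw [hv, δ.map_one_eq_zero]
  have ls : Function.Surjective Lam := fun τ => by
    obtain ⟨δ, -, h2⟩ := sur τ
    exact ⟨⟨_, mem δ⟩, h2⟩
  have le := LinearMap.finrank_le_finrank_of_surjective ls
  rw [hU, finrank_fintype_fun_eq_card] at le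
  have f1 := hF r N jj j1
  have f2 := hc.2
  have s1 : ∑ s, (js s : ℕ) ≤ ∑ s, (jj s : ℕ) := Finset.sum_le_sum fun s _ => j2 s
  have e : js = jj := funext fun s => Fin.ext
    ((Finset.sum_eq_sum_iff_of_le (f := fun s => (js s : ℕ)) (g := fun s => (jj s : ℕ))
      fun s _ => j2 s).1 (by omega) s (Finset.mem_univ s))
  subst e
  have li : Function.Injective Lam :=
    (LinearMap.injective_iff_surjective_of_finrank_eq_finrank
      (by rw [hU, finrank_fintype_fun_eq_card]; omega)).2 ls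
  refine ⟨j3, fun v' h1 h2 => ?_, fun v' h1 => ?_⟩
  · exact congrArg Subtype.val (li (a₁ := ⟨v', h1⟩) (a₂ := 0) (by rw [map_zero]; exact h2))
  · obtain ⟨δ, h2, h3⟩ := sur (Lam ⟨v', h1⟩)
    exact ⟨δ, h2, congrArg Subtype.val (li (a₁ := ⟨v', h1⟩) (a₂ := ⟨_, mem δ⟩) h3.symm)⟩

theorem sKA (hP : SPiv) (hL : SLoc1) (hF : SForb) (hK : SKA1) : SKA := by
  intro c r m N js A X G S hc hA hX hG hk hs hx hT
  refine ⟨fun i v hv hO => ?_, fun w w0 hO j hj => ?_⟩
  · obtain ⟨h1, h2, -⟩ := core_KA hP hL hF hK hc hA hX hG hk hs hT i v hv hO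
    exact ⟨h1, h2⟩
  obtain ⟨i, hi⟩ := Function.ne_iff.1 w0
  have hi : w i ≠ 0 := hi
  obtain ⟨v, hv⟩ : ∃ v, v = (w i)⁻¹ • w := ⟨_, rfl⟩
  have v1 : v i = 1 := by rw [hv, Pi.smul_apply, smul_eq_mul, inv_mul_cancel₀ hi]
  have vj : ∑ a, v a * X a j = 0 := by
    have : ∑ a, w a * X a j = 0 := hj
    simp only [hv, Pi.smul_apply, smul_eq_mul, mul_assoc]
    rw [← Finset.mul_sum, this, mul_zero]
  obtain ⟨-, -, h3⟩ := core_KA hP hL hF hK hc hA hX hG hk hs hT i v v1
    (by rw [hv, ap_smul_KA]; exact om_smul_KA hO _)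
  have z : ∀ a, a ≠ i → X a j = 0 := fun a ha => by
    obtain ⟨δ, d1, d2⟩ := h3 (Pi.single a 1) (Pi.single_eq_of_ne ha.symm _)
    have t := congrArg δ vj
    rw [map_sum, map_zero] at t
    have t2 : ∑ b, (Pi.single a (1 : ℂ) : Fin (c + 1) → ℂ) b * X b j = 0 := by
      rw [← t, d2]
      exact Finset.sum_congr rfl fun b _ => by
        rw [δ.leibniz, d1 _ (hX b j), smul_zero, zero_add, smul_eq_mul, mul_comm]
    simpa [Pi.single_apply] using t2
  obtain ⟨a, ha⟩ := hx j
  by_cases e : a = i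
  · rw [Finset.sum_eq_single i (fun b _ hb => by rw [z b hb, mul_zero]) (by simp), v1,
      one_mul] at vj
    exact ha (e ▸ vj)
  · exact ha (z a e)

end Pool.Agent.MP_8b9287_co.Geo

end

section

namespace Pool.Agent.MP_8b9287_co.Geo

open Module

theorem rank_KC1 {c : ℕ} (i : Fin (c + 1)) :
    finrank ℂ (LinearMap.ker (LinearMap.proj (R := ℂ) (φ := fun _ : Fin (c + 1) => ℂ) i)) = c := by
  have := (LinearMap.proj (R := ℂ) (φ := fun _ : Fin (c + 1) => ℂ) i).finrank_range_add_finrank_ker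
  rw [LinearMap.range_eq_top.2 (LinearMap.proj_surjective i), finrank_top, finrank_self,
    finrank_fin_fun] at this
  exact Nat.add_right_cancel ((add_comm _ _).trans this)

theorem card_KC1 {c r N : ℕ} {jj : Fin r → Fin N} (l : Fin (c + 1) → Mat r N) (M : Mat r N)
    (i : Fin (c + 1)) (h : ∀ τ : Forb jj → ℂ, ∃ v' : Fin (c + 1) → ℂ, v' i = 0 ∧
      fderiv ℂ (Phi jj) M (ap l v') = τ) : Fintype.card (Forb jj) ≤ c := by
  have le := LinearMap.finrank_le_finrank_of_surjective
    (f := (fderiv ℂ (Phi jj) M).toLinearMap ∘ₗ Fintype.linearCombination ℂ l ∘ₗ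
      (LinearMap.ker (LinearMap.proj (R := ℂ) (φ := fun _ : Fin (c + 1) => ℂ) i)).subtype)
    fun τ => by
      obtain ⟨v', h1, h2⟩ := h τ
      exact ⟨⟨v', h1⟩, h2⟩
  rwa [rank_KC1, finrank_fintype_fun_eq_card] at le

theorem sur_KC1 {k : ℕ} {ι : Type} {S : Set ℂ} {v : Fin k → ℂ} {i : Fin k} (hv : v i = 1)
    {L : (Fin k → ℂ) → ι → ℂ} (h : ∀ τ : ι → ℂ, ∃ δ : Derivation ℤ ℂ ℂ,
      (∀ s ∈ S, δ s = 0) ∧ L (fun a => δ (v a)) = τ) (τ : ι → ℂ) :
    ∃ v' : Fin k → ℂ, v' i = 0 ∧ L v' = τ := by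
  obtain ⟨δ, -, h2⟩ := h τ
  exact ⟨_, by rw [hv, δ.map_one_eq_zero], h2⟩

theorem ones_KC1 {k m : ℕ} {X : Fin k → Fin m → ℂ} {J : Set (Fin m)}
    (h : LinearIndepOn ℂ (fun (j : Fin m) (a : Fin k) => X a j) J) :
    ∃ u : Fin k → ℂ, ∀ j ∈ J, vX X u j = 1 := by
  obtain ⟨φ, hφ⟩ := LinearMap.exists_extend
    ((Basis.span h.linearIndependent).constr ℂ fun _ => (1 : ℂ))
  refine ⟨fun a => φ fun b => if a = b then 1 else 0, fun j hj => ?_⟩
  have h1 := LinearMap.congr_fun hφ (Basis.span h.linearIndependent ⟨j, hj⟩)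
  rw [Basis.constr_basis, LinearMap.comp_apply, Submodule.subtype_apply, Basis.coe_span_apply,
    LinearMap.pi_apply_eq_sum_univ] at h1
  exact (Finset.sum_congr rfl fun a _ => mul_comm _ _).trans h1

theorem sKB (hP : SPiv) (hL : SLoc1) (hF : SForb) (hK : SKA1) : SKB := by
  intro c c' r m N js A X G S hc' hc hA hX hG hk hs hT w w0 hO
  obtain ⟨i, hi⟩ := Function.ne_iff.1 w0
  have hi : w i ≠ 0 := hi
  obtain ⟨v, hv⟩ : ∃ v, v = (w i)⁻¹ • w := ⟨_, rfl⟩
  have v1 : v i = 1 := by rw [hv, Pi.smul_apply, smul_eq_mul, inv_mul_cancel₀ hi]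
  have v0 : v ≠ 0 := fun e => by simp [e] at v1
  have hO' : Om js (ap (lA A X G) v) := by rw [hv, ap_smul_KA]; exact om_smul_KA hO _
  obtain ⟨jj, j1, j2, j3, j4⟩ := hP r N js _ hO' (col_top_KA hk (hs v v0) hT)
  have le := card_KC1 _ _ i (sur_KC1 v1
    (L := fun u => fderiv ℂ (Phi jj) (ap (lA A X G) v) (ap (lA A X G) u))
    (hK _ r m N A X G S v jj hA hX hG (hs v v0) j3 (hL r N jj _ j1 j4)))
  have f1 := hF r N jj j1
  have f2 := hc.2
  have s1 : ∑ s, (js s : ℕ) ≤ ∑ s, (jj s : ℕ) := Finset.sum_le_sum fun s _ => j2 s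
  omega

theorem lt_KC1 {r N : ℕ} {js jj : Fin r → Fin N} (h1 : StrictMono js) (h2 : StrictMono jj)
    (h : ∀ s, js s ≤ jj s) (hne : js ≠ jj) :
    Fintype.card {p : Forb jj // p.1.2 < js p.1.1} < Fintype.card (Forb jj) := by
  classical
  obtain ⟨s, hs, hmin⟩ := (Finset.univ.filter fun s => js s ≠ jj s).exists_min_image id (by
    obtain ⟨s, hs⟩ := Function.ne_iff.1 hne
    exact ⟨s, by simpa using hs⟩)
  have hs' : js s < jj s := lt_of_le_of_ne (h s) (by simpa using hs)
  refine Fintype.card_subtype_lt (x := ⟨(s, js s), fun t ht => ?_, hs'⟩) (lt_irrefl _)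
  have ht : jj t = js s := ht
  rcases lt_or_ge t s with e | e
  · have : js t = jj t := by
      by_contra hn
      exact absurd (hmin t (by simpa using hn)) (not_le.2 e)
    exact (h1 e).ne (this.trans ht)
  · exact absurd (hs'.trans_le (h2.monotone e)) (by rw [ht]; exact lt_irrefl _)

theorem sKC1 (hP : SPiv) (hL : SLoc1) (hF : SForb) (hK : SKA1) (h3 : SGP3) : SKC1 := by
  classical
  intro c c' r m N js A X G S hc' hm hc hA hX hG hk hgp hs hT v i hv hO
  have v0 : v ≠ 0 := fun e => by simp [e] at hv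
  obtain ⟨jj, j1, j2, j3, j4⟩ := hP r N js _ hO (col_top_KA hk (hs v v0) hT)
  have z := hL r N jj _ j1 j4
  have sur := hK _ r m N A X G S v jj hA hX hG (hs v v0) j3 z
  have sur' := sur_KC1 hv
    (L := fun u => fderiv ℂ (Phi jj) (ap (lA A X G) v) (ap (lA A X G) u)) sur
  refine ⟨jj, j1, j2, j3, z, sur', ?_⟩
  by_cases hJ : ∃ j, vX X v j = 0
  · have hcard := hgp v v0 (Finset.univ.filter fun j => vX X v j = 0) fun j hj => by simpa using hj
    obtain ⟨u, hu⟩ := ones_KC1 ((h3 _ _ X hgp hm).2 _ hcard.le)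
    obtain ⟨δ, d1, d2⟩ := sur (fderiv ℂ (Phi jj) (ap (lA A X G) v) (ap (lA A X G) (u - u i • v)))
    have key : ∀ j, vX X v j = 0 → vX X (u - u i • v - fun a => δ (v a)) j = 1 := fun j hj => by
      have t := congrArg δ hj
      have h1 := hu j (by simpa using hj)
      unfold vX at t hj h1 ⊢
      rw [map_sum, map_zero] at t
      have t2 : ∑ a, δ (v a) * X a j = 0 := by
        rw [← t]
        exact Finset.sum_congr rfl fun b _ => by
          rw [δ.leibniz, d1 _ (hX b j), smul_zero, zero_add, smul_eq_mul, mul_comm]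
      simp only [Pi.sub_apply, Pi.smul_apply, smul_eq_mul, sub_mul, Finset.sum_sub_distrib,
        mul_assoc, ← Finset.mul_sum, hj, h1, t2, mul_zero, sub_zero]
    refine ⟨u - u i • v - fun a => δ (v a), fun e => ?_, ?_, fun p _ => ?_,
      fun j hj => by rw [key j hj]; exact one_ne_zero⟩
    · obtain ⟨j, hj⟩ := hJ
      have := key j hj
      rw [e] at this
      simp [vX] at this
    · simp [hv]
    · have e : ap (lA A X G) (u - u i • v - fun a => δ (v a)) =
          ap (lA A X G) (u - u i • v) - ap (lA A X G) fun a => δ (v a) :=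
        map_sub (Fintype.linearCombination ℂ (lA A X G)) _ _
      rw [e, map_sub, d2, sub_self]
      rfl
  · have le := card_KC1 _ _ i sur'
    have lt : Fintype.card {p : Forb jj // p.1.2 < js p.1.1} < c := by
      by_cases e : js = jj
      · subst e
        have f1 := hF r N js j1
        have f2 := hc.2
        have := Fintype.card_subtype_le fun p : Forb js => p.1.2 < js p.1.1
        omega
      · exact (lt_KC1 hc.1 j1 j2 e).trans_le le
    obtain ⟨w, hw, w0⟩ := Submodule.exists_mem_ne_zero_of_ne_bot (LinearMap.ker_ne_bot_of_finrank_lt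
      (f := LinearMap.funLeft ℂ ℂ (Subtype.val : {p : Forb jj // p.1.2 < js p.1.1} → Forb jj) ∘ₗ
        (fderiv ℂ (Phi jj) (ap (lA A X G) v)).toLinearMap ∘ₗ
        Fintype.linearCombination ℂ (lA A X G) ∘ₗ
        (LinearMap.ker (LinearMap.proj (R := ℂ) (φ := fun _ : Fin (c + 1) => ℂ) i)).subtype)
      (by rwa [rank_KC1, finrank_fintype_fun_eq_card]))
    exact ⟨w.1, fun e => w0 (Subtype.ext e), w.2, fun p hp => congrFun hw ⟨p, hp⟩,
      fun j hj => absurd ⟨j, hj⟩ hJ⟩

end Pool.Agent.MP_8b9287_co.Geo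

end

section

namespace Pool.Agent.MP_8b9287_co.Geo

open Module Filter Topology

/-- The linear map `u ↦ ap l u`. -/
noncomputable def apL_KC2 {k r N : ℕ} (l : Fin k → Mat r N) : (Fin k → ℂ) →L[ℂ] Mat r N :=
  LinearMap.toContinuousLinearMap
    { toFun := ap l
      map_add' := fun v w => by simp only [ap, Pi.add_apply, add_smul, Finset.sum_add_distrib]
      map_smul' := fun a v => by
        simp only [ap, Finset.smul_sum, Pi.smul_apply, smul_eq_mul, mul_smul, RingHom.id_apply] }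

/-- The linear map `u ↦ vX X u j`. -/
noncomputable def vL_KC2 {k m : ℕ} (X : Fin k → Fin m → ℂ) (j : Fin m) : (Fin k → ℂ) →L[ℂ] ℂ :=
  LinearMap.toContinuousLinearMap
    { toFun := fun u => vX X u j
      map_add' := fun v w => by simp only [vX, Pi.add_apply, add_mul, Finset.sum_add_distrib]
      map_smul' := fun a v => by
        simp only [vX, Pi.smul_apply, smul_eq_mul, RingHom.id_apply, Finset.mul_sum, mul_assoc] }

theorem sKC2 (hC : SCurve) (hD : SDerDet) (hL : SLoc3) : SKC2 := by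
  classical
  intro k r m N js jj l X v w i h1 h2 h3 hv hm hΦ hs hw hwi hw' hX
  have hP : ContDiff ℂ 1 (Phi jj : Mat r N → Forb jj → ℂ) :=
    contDiff_pi.2 fun p => (hD r N r id (Function.update jj p.1.1 p.1.2)).1
  let E := {p : Forb jj // p.1.2 < js p.1.1}
  let ρ : (Forb jj → ℂ) →L[ℂ] (E → ℂ) :=
    ContinuousLinearMap.pi fun p : E => ContinuousLinearMap.proj (R := ℂ) (φ := fun _ => ℂ) p.1
  let π : (Fin k → ℂ) →L[ℂ] ℂ := ContinuousLinearMap.proj (R := ℂ) (φ := fun _ => ℂ) i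
  let F : (Fin k → ℂ) → (E → ℂ) × ℂ := fun u => (ρ (Phi jj (apL_KC2 l u)), π u)
  have hF : ContDiff ℂ 1 F :=
    (ρ.contDiff.comp (hP.comp (apL_KC2 l).contDiff)).prodMk π.contDiff
  have d : HasFDerivAt F
      ((ρ.comp ((fderiv ℂ (Phi jj) (ap l v)).comp (apL_KC2 l))).prod π) v :=
    (ρ.hasFDerivAt.comp v ((hP.differentiable one_ne_zero (ap l v)).hasFDerivAt.comp v
      (apL_KC2 l).hasFDerivAt)).prodMk π.hasFDerivAt
  have e : ∀ x, fderiv ℂ F v x = (ρ (fderiv ℂ (Phi jj) (ap l v) (apL_KC2 l x)), x i) :=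
    fun x => by rw [d.fderiv]; rfl
  obtain ⟨γ, g0, g1, g2⟩ := hC _ _ F v w hF.contDiffAt (by
    rintro ⟨τ, a⟩
    obtain ⟨v', b1, b2⟩ := hs ((fun p => if h : p.1.2 < js p.1.1 then τ ⟨p, h⟩ else 0) -
      fderiv ℂ (Phi jj) (ap l v) (apL_KC2 l (a • v)))
    refine ⟨a • v + v', ?_⟩
    have b3 : apL_KC2 l v' = ap l v' := rfl
    rw [e, map_add, map_add, b3, b2, add_sub_cancel]
    refine Prod.ext (funext fun p => ?_) ?_
    · exact dif_pos p.2
    · simp [hv, b1]) (by
    rw [e]
    exact Prod.ext (funext fun p => hw' p.1 p.2) hwi)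
  have gc : ContinuousAt γ 0 := g1.continuousAt
  have a1 : ∀ᶠ x in 𝓝 (0 : ℂ), mnr (ap l (γ x)) id jj ≠ 0 := by
    have : ContinuousAt (fun x => mnr (apL_KC2 l (γ x)) id jj) 0 :=
      (((hD r N r id jj).1.continuous.comp (apL_KC2 l).continuous).continuousAt).comp gc
    exact this.eventually_ne (by rw [g0]; exact hm)
  have a2 : ∀ j, ∀ᶠ x in 𝓝[≠] (0 : ℂ), vX X (γ x) j ≠ 0 := by
    intro j
    have b1 : HasDerivAt (fun x => vL_KC2 X j (γ x)) (vL_KC2 X j w) 0 :=
      (vL_KC2 X j).hasFDerivAt.comp_hasDerivAt 0 g1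
    by_cases hj : vX X v j = 0
    · exact b1.eventually_ne (hX j hj)
    · exact (b1.continuousAt.eventually_ne (by rw [g0]; exact hj)).filter_mono nhdsWithin_le_nhds
  have a3 : ∀ᶠ x in 𝓝[≠] (0 : ℂ), γ x ≠ v := g1.eventually_ne hw
  let R : Set (Fin k → ℂ) :=
    {u | (Om js (ap l u) ∧ ∀ j, vX X u j ≠ 0) ∧ u i = 1 ∧ u ≠ v}
  have a4 : ∀ᶠ x in 𝓝[≠] (0 : ℂ), γ x ∈ R := by
    filter_upwards [a1.filter_mono nhdsWithin_le_nhds, g2.filter_mono nhdsWithin_le_nhds,
      eventually_all.2 a2, a3] with x b1 b2 b3 b4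
    refine ⟨⟨hL r N js jj _ h1 h2 h3 b1 fun p hp => ?_, b3⟩, ?_, b4⟩
    · have b5 : Phi jj (ap l (γ x)) p = Phi jj (ap l v) p :=
        congrFun (congrArg Prod.fst b2) ⟨p, hp⟩
      rw [b5, hΦ]
      rfl
    · exact (congrArg Prod.snd b2).trans hv
  have hR : R.Infinite := by
    intro hfin
    have b1 : Tendsto γ (𝓝[≠] (0 : ℂ)) (𝓝 v) := g0 ▸ gc.tendsto.mono_left nhdsWithin_le_nhds
    exact (hfin.isClosed.mem_of_tendsto b1 a4).2.2 rfl
  refine Set.Infinite.encard_eq ((hR.image (f := fun u : Fin k → ℂ =>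
    Submodule.span ℂ ({u} : Set (Fin k → ℂ))) fun u hu u' hu' huu => ?_).mono
      (Set.image_mono fun u hu => ⟨fun h0 => ?_, hu.1⟩))
  · have b1 : u ∈ Submodule.span ℂ ({u'} : Set (Fin k → ℂ)) :=
      huu.le (Submodule.mem_span_singleton_self u)
    obtain ⟨a, rfl⟩ := Submodule.mem_span_singleton.1 b1
    have b2 : a * u' i = 1 := hu.2.1
    rw [hu'.2.1, mul_one] at b2
    rw [b2, one_smul]
  · have b1 := hu.2.1
    rw [h0] at b1
    exact zero_ne_one b1

end Pool.Agent.MP_8b9287_co.Geo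

end

section

namespace Pool.Agent.MP_8b9287_co.Geo

open Module Filter Topology

theorem smul_CoreGe {k r N : ℕ} (l : Fin k → Mat r N) (a : ℂ) (v : Fin k → ℂ) :
    ap l (a • v) = a • ap l v := by
  simp only [ap, Finset.smul_sum, Pi.smul_apply, smul_eq_mul, mul_smul]

theorem om_CoreGe {r N : ℕ} {js : Fin r → Fin N} {M : Mat r N} (a : ℂ) (h : Om js M) :
    Om js (a • M) := by
  intro s I J hJ
  have e : (Matrix.of fun x y => (a • M) (I x) (J y)) = a • Matrix.of fun x y => M (I x) (J y) := rfl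
  have h0 : Matrix.det (Matrix.of fun x y => M (I x) (J y)) = 0 := h s I J hJ
  rw [mnr, e, Matrix.det_smul, h0, mul_zero]

noncomputable def apL_CoreGe {k r N : ℕ} (l : Fin k → Mat r N) : (Fin k → ℂ) →L[ℂ] Mat r N :=
  LinearMap.toContinuousLinearMap
    { toFun := ap l
      map_add' := fun v w => by simp only [ap, Pi.add_apply, add_smul, Finset.sum_add_distrib]
      map_smul' := fun a v => smul_CoreGe l a v }

theorem cd_CoreGe {k r N : ℕ} :
    ContDiff ℂ 1 (fun q : (Fin k → Mat r N) × (Fin k → ℂ) => ap q.1 q.2) := by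
  unfold ap
  fun_prop

theorem loc_CoreGe (hI : SIFT) (hD : SDerDet) (h1 : SLoc1) (h2 : SLoc2) (hF : SForb)
    {c r N : ℕ} {js : Fin r → Fin N} {l₀ : Fin (c + 1) → Mat r N} (hc : Cod c js)
    (hg : Good js l₀) {u : Fin (c + 1) → ℂ} {i : Fin (c + 1)} (hu : u i = 1)
    (ho : Om js (ap l₀ u)) (W : Set (Fin (c + 1) → ℂ)) (hW : W ∈ 𝓝 u) :
    ∀ᶠ l in 𝓝 l₀, ∃ v ∈ W, Om js (ap l v) := by
  obtain ⟨g1, g2⟩ := hg i u hu ho
  have hP : ContDiff ℂ 1 (Phi js : Mat r N → Forb js → ℂ) :=
    contDiff_pi.2 fun p => (hD r N r id (Function.update js p.1.1 p.1.2)).1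
  let F : (Fin (c + 1) → Mat r N) × (Fin (c + 1) → ℂ) → (Forb js → ℂ) × ℂ :=
    fun q => (Phi js (ap q.1 q.2), q.2 i)
  have hc1 : ContDiff ℂ 1 F := (hP.comp cd_CoreGe).prodMk (by fun_prop)
  have inj : ∀ x : Fin (c + 1) → ℂ, fderiv ℂ F (l₀, u) (0, x) = 0 → x = 0 := by
    intro x hx
    have d1 : HasFDerivAt (fun v => F (l₀, v))
        ((fderiv ℂ F (l₀, u)).comp (ContinuousLinearMap.inr ℂ _ _)) u :=
      (hc1.differentiable one_ne_zero (l₀, u)).hasFDerivAt.comp u (hasFDerivAt_prodMk_right l₀ u)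
    have d2 : HasFDerivAt (fun v => F (l₀, v))
        (((fderiv ℂ (Phi js) (ap l₀ u)).comp (apL_CoreGe l₀)).prod
          (ContinuousLinearMap.proj (R := ℂ) (φ := fun _ => ℂ) i)) u :=
      ((hP.differentiable one_ne_zero (ap l₀ u)).hasFDerivAt.comp u
        (apL_CoreGe l₀).hasFDerivAt).prodMk
        (ContinuousLinearMap.proj (R := ℂ) (φ := fun _ => ℂ) i).hasFDerivAt
    have e : fderiv ℂ F (l₀, u) (0, x) = (fderiv ℂ (Phi js) (ap l₀ u) (ap l₀ x), x i) :=
      DFunLike.congr_fun (d1.unique d2) x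
    rw [hx] at e
    exact g2 x (congrArg Prod.snd e).symm (congrArg Prod.fst e).symm
  have hr : finrank ℂ (Fin (c + 1) → ℂ) = finrank ℂ ((Forb js → ℂ) × ℂ) := by
    have := hF r N js hc.1
    have := hc.2
    rw [finrank_prod, finrank_self, finrank_fintype_fun_eq_card, finrank_fintype_fun_eq_card,
      Fintype.card_fin]
    omega
  have hm : Continuous fun q : (Fin (c + 1) → Mat r N) × (Fin (c + 1) → ℂ) =>
      mnr (ap q.1 q.2) id js := ((hD r N r id js).1.comp cd_CoreGe).continuous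
  have hn : {q : (Fin (c + 1) → Mat r N) × (Fin (c + 1) → ℂ) |
      q.2 ∈ W ∧ mnr (ap q.1 q.2) id js ≠ 0} ∈ 𝓝 (l₀, u) :=
    Filter.inter_mem (continuous_snd.continuousAt.preimage_mem_nhds hW)
      (hm.continuousAt.eventually_ne g1)
  filter_upwards [(hI _ _ _ F l₀ u hc1.contDiffAt inj).2 hr _ hn] with l hl
  obtain ⟨v, ⟨hv1, hv2⟩, hv3⟩ := hl
  exact ⟨v, hv1, h2 r N js _ hc.1 hv2 ((congrArg Prod.fst hv3).trans (h1 r N js _ hc.1 ho))⟩

theorem sCoreGe (hI : SIFT) (hA : SALge) (hD : SDerDet) (h1 : SLoc1) (h2 : SLoc2) (hF : SForb) :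
    SCoreGe := by
  intro c r N js l₀ hc hg e he
  obtain ⟨T, hT, hTe⟩ := Set.exists_subset_encard_eq he
  have hfin : T.Finite := Set.finite_of_encard_eq_coe hTe
  have : Fintype T := hfin.fintype
  have ex : ∀ t : T, ∃ (u : Fin (c + 1) → ℂ) (i : Fin (c + 1)), u i = 1 ∧ Om js (ap l₀ u) ∧
      Submodule.span ℂ ({u} : Set (Fin (c + 1) → ℂ)) = t.1 := by
    intro t
    obtain ⟨v, ⟨hv0, hv⟩, hs⟩ := hT t.2
    obtain ⟨i, hi⟩ := Function.ne_iff.1 hv0
    have hi' : v i ≠ 0 := hi
    refine ⟨(v i)⁻¹ • v, i, inv_mul_cancel₀ hi', ?_, ?_⟩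
    · rw [smul_CoreGe]
      exact om_CoreGe _ hv
    · rw [Submodule.span_singleton_smul_eq (IsUnit.mk0 _ (inv_ne_zero hi'))]
      exact hs
  choose u co hu ho hs using ex
  have hcard : (Fintype.card T : ℕ∞) = e := by
    rw [← hTe, Set.encard_eq_coe_toFinset_card, Set.toFinset_card]
  have := hA (c + 1) _ (𝓝 l₀) (fun l => {v | Om js (ap l v)}) T u
    (fun t h0 => by simpa [h0] using hu t)
    (fun t t' h => Subtype.ext ((hs t).symm.trans (h.trans (hs t'))))
    (fun t W hW => loc_CoreGe hI hD h1 h2 hF hc hg (hu t) (ho t) W hW)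
  rw [hcard] at this
  exact this

end Pool.Agent.MP_8b9287_co.Geo

end

section

namespace Pool.Agent.MP_8b9287_co.Geo

open Module Filter Topology

theorem ap_smul_CoreLe {k r N : ℕ} (l : Fin k → Mat r N) (a : ℂ) (v : Fin k → ℂ) :
    ap l (a • v) = a • ap l v := by
  simp [ap, Finset.smul_sum, mul_smul]

theorem om_smul_CoreLe {r N : ℕ} {js : Fin r → Fin N} {M : Mat r N} (h : Om js M) (a : ℂ) :
    Om js (a • M) := by
  intro s I J hJ
  have h1 := h s I J hJ
  unfold mnr at h1 ⊢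
  have e : (Matrix.of fun a' b => (a • M) (I a') (J b)) =
      a • Matrix.of fun a' b => M (I a') (J b) := rfl
  rw [e, Matrix.det_smul, h1, mul_zero]

theorem ap_cd_CoreLe {k r N : ℕ} :
    ContDiff ℂ 1 fun q : (Fin k → Mat r N) × (Fin k → ℂ) => ap q.1 q.2 := by
  unfold ap
  fun_prop

theorem ap_der_CoreLe {k r N : ℕ} (l : Fin k → Mat r N) :
    ∃ L : (Fin k → ℂ) →L[ℂ] Mat r N, ∀ v, L v = ap l v :=
  ⟨∑ a, (ContinuousLinearMap.proj a : (Fin k → ℂ) →L[ℂ] ℂ).smulRight (l a), fun v => by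
    simp [ap]⟩

theorem loc_CoreLe (hI : SIFT) (hD : SDerDet) (h1 : SLoc1) {k r N : ℕ} {js : Fin r → Fin N}
    (hs : StrictMono js) {l₀ : Fin k → Mat r N} (hG : Good js l₀) {u : Fin k → ℂ} {i : Fin k}
    (hu : u i = 1) (hO : Om js (ap l₀ u)) :
    ∃ W ∈ 𝓝 (l₀, u), ∀ p v v', (p, v) ∈ W → (p, v') ∈ W → Om js (ap p v) → Om js (ap p v') →
      v i = 1 → v' i = 1 → v = v' := by
  have hP : ContDiff ℂ 1 (Phi js) := contDiff_pi.2 fun p => (hD r N r id _).1
  let F : (Fin k → Mat r N) × (Fin k → ℂ) → (Forb js → ℂ) × ℂ :=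
    fun q => (Phi js (ap q.1 q.2), q.2 i)
  have hF : ContDiff ℂ 1 F := (hP.comp ap_cd_CoreLe).prodMk (by fun_prop)
  obtain ⟨L, hL⟩ := ap_der_CoreLe l₀
  have d1 : HasFDerivAt (fun v => F (l₀, v))
      ((fderiv ℂ F (l₀, u)).comp (ContinuousLinearMap.inr ℂ _ _)) u :=
    (hF.differentiable one_ne_zero (l₀, u)).hasFDerivAt.comp u (hasFDerivAt_prodMk_right l₀ u)
  have d2 : HasFDerivAt (fun v => F (l₀, v))
      (((fderiv ℂ (Phi js) (ap l₀ u)).comp L).prod (ContinuousLinearMap.proj i)) u := by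
    have e : (fun v => F (l₀, v)) = fun v => (Phi js (L v), v i) := by
      funext v
      rw [hL]
    rw [e, ← hL u]
    exact ((hP.differentiable one_ne_zero (L u)).hasFDerivAt.comp u L.hasFDerivAt).prodMk
      (hasFDerivAt_apply i u)
  obtain ⟨W, hW, hi⟩ := (hI _ _ _ F l₀ u hF.contDiffAt fun x' hx => by
    have e := congrArg (fun T => T x') (d1.unique d2)
    simp only [ContinuousLinearMap.comp_apply, ContinuousLinearMap.inr_apply, hx,
      ContinuousLinearMap.prod_apply, ContinuousLinearMap.proj_apply, hL] at e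
    exact (hG i u hu hO).2 x' (congrArg Prod.snd e).symm (congrArg Prod.fst e).symm).1
  refine ⟨W, hW, fun p v v' a b c d e f => hi p v v' a b ?_⟩
  simp only [F, h1 r N js _ hs c, h1 r N js _ hs d, e, f]

theorem sCoreLe (hI : SIFT) (hA : SALle) (hD : SDerDet) (h1 : SLoc1) : SCoreLe := by
  intro c r N js l₀ hc hG hfin
  set T := (fun v : Fin (c + 1) → ℂ => Submodule.span ℂ ({v} : Set (Fin (c + 1) → ℂ))) ''
    {v | v ≠ 0 ∧ v ∈ {v | Om js (ap l₀ v)}} with hT
  have hTf : T.Finite := Set.encard_ne_top_iff.1 hfin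
  have := hTf.fintype
  have hex : ∀ t : T, ∃ (u : Fin (c + 1) → ℂ) (i : Fin (c + 1)), u i = 1 ∧ Om js (ap l₀ u) ∧
      Submodule.span ℂ {u} = t.1 := by
    rintro ⟨_, v, ⟨hv, hO⟩, rfl⟩
    obtain ⟨i, hi⟩ := Function.ne_iff.1 hv
    have hi' : v i ≠ 0 := hi
    refine ⟨(v i)⁻¹ • v, i, by simp [hi'], ?_, ?_⟩
    · rw [ap_smul_CoreLe]
      exact om_smul_CoreLe hO _
    · exact Submodule.span_singleton_smul_eq (inv_ne_zero hi').isUnit v
  choose u co hu hO hsp using hex
  choose W hW hi using fun t : T => loc_CoreLe hI hD h1 hc.1 hG (hu t) (hO t)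
  have hC : IsClosed {q : (Fin (c + 1) → Mat r N) × (Fin (c + 1) → ℂ) | Om js (ap q.1 q.2)} := by
    simp only [Om, Set.ofPred_forall]
    exact isClosed_iInter fun s => isClosed_iInter fun I => isClosed_iInter fun J =>
      isClosed_iInter fun _ => isClosed_eq
        ((hD r N _ I J).1.continuous.comp ap_cd_CoreLe.continuous) continuous_const
  have key := hA (c + 1) _ _ l₀ T u co W hC (fun p v a h => by
      change Om js (ap p (a • v))
      rw [ap_smul_CoreLe]
      exact om_smul_CoreLe h a) hu (fun v hv h => by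
      have hm : v ∈ Submodule.span ℂ {u ⟨_, v, ⟨hv, h⟩, rfl⟩} := by
        rw [hsp]
        exact Submodule.mem_span_singleton_self v
      obtain ⟨a, ha⟩ := Submodule.mem_span_singleton.1 hm
      exact ⟨_, a, ha.symm⟩) hW hi
  rw [Set.coe_fintypeCard] at key
  exact key

end Pool.Agent.MP_8b9287_co.Geo

end
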