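import Pool.Agent.MP_8b9287_co.Geo.St

namespace Pool.Agent.MP_8b9287_co.Geo

theorem sMatLam (hV : SVM) (h3 : SGP3) : SMatLam := by
  classical
  intro n k N H hH hk hN
  let e := Finset.equivFinOfCardEq hH
  obtain ⟨π, hπ⟩ : ∃ π : Fin n → Fin (N + 1),
      π = fun i => if h : i ∈ H then (e ⟨i, h⟩).castSucc else Fin.last N := ⟨_, rfl⟩
  have p1 : ∀ i (h : i ∈ H), π i = (e ⟨i, h⟩).castSucc := fun i h => by rw [hπ]; exact dif_pos h
  have p2 : ∀ i, i ∉ H → π i = Fin.last N := fun i h => by rw [hπ]; exact dif_neg h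
  have hinj : ∀ B : Finset (Fin n), Set.InjOn π (B : Set (Fin n)) ↔ (B \ H).card ≤ 1 := by
    intro B
    rw [Finset.card_le_one]
    constructor
    · intro h a ha b hb
      rw [Finset.mem_sdiff] at ha hb
      exact h ha.1 hb.1 ((p2 a ha.2).trans (p2 b hb.2).symm)
    · intro h a ha b hb hab
      by_cases c : a ∈ H <;> by_cases d : b ∈ H
      · rw [p1 a c, p1 b d] at hab
        exact congrArg Subtype.val (e.injective (Fin.castSucc_injective _ hab))
      · rw [p1 a c, p2 b d] at hab
        exact absurd hab (Fin.castSucc_ne_last _)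
      · rw [p2 a c, p1 b d] at hab
        exact absurd hab.symm (Fin.castSucc_ne_last _)
      · exact h a (Finset.mem_sdiff.2 ⟨ha, c⟩) b (Finset.mem_sdiff.2 ⟨hb, d⟩)
  refine ⟨π, fun j => ?_, fun X hX => ?_⟩
  · induction j using Fin.lastCases with
    | last =>
      obtain ⟨i, hi⟩ : ∃ i, i ∉ H := by
        by_contra c
        push Not at c
        rw [Finset.eq_univ_of_forall c, Finset.card_univ, Fintype.card_fin] at hH
        omega
      exact ⟨i, p2 i hi⟩
    | cast j => exact ⟨(e.symm j).1, by rw [p1 _ (e.symm j).2]; simp⟩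
  · have key : ∀ B : Finset (Fin n), B.card = k →
        (LinearIndepOn ℂ (fun (j : Fin n) (i : Fin k) => X i (π j)) (B : Set (Fin n)) ↔
          (B \ H).card ≤ 1) := by
      intro B hB
      rw [← hinj]
      constructor
      · intro h a ha b hb hab
        exact h.injOn ha hb (by simp only [hab])
      · intro h
        have := (h3 k (N + 1) X hX (by omega)).2 (B.image π) (Finset.card_image_le.trans hB.le)
        rw [Finset.coe_image] at this
        exact this.comp_of_image h
    obtain ⟨B, hB1, hB2⟩ := Finset.exists_subset_card_eq (s := H) (n := k) (by omega)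
    obtain ⟨M, h1, h2, h4⟩ := hV k n (fun a i => X a (π i)) ⟨B, hB2, (key B hB2).2 (by
      rw [Finset.sdiff_eq_empty_iff_subset.2 hB1]; simp)⟩
    exact ⟨M, h1, h2, fun B => (h4 B).trans (and_congr_right (key B))⟩

end Pool.Agent.MP_8b9287_co.Geo
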