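import Pool.Agent.MP_8b9287_co.Geo.St

namespace Pool.Agent.MP_8b9287_co.Geo

open Finset

theorem key_MatPi {n c : ℕ} (H : Finset (Fin n)) (Y : Fin c → Fin n → ℂ)
    (hY : ∀ I : Finset (Fin n), I.card ≤ c →
      LinearIndepOn ℂ (fun (j : Fin n) (a : Fin c) => Y a j) (I : Set (Fin n)))
    (v : Fin n → Fin (c + 1) → ℂ) (h0 : ∀ j, v j 0 = if j ∈ H then 0 else 1)
    (hs : ∀ j a, v j (Fin.succ a) = if j ∈ H then Y a j else 0) (B : Finset (Fin n))
    (hB : B.card = c + 1) : LinearIndepOn ℂ v (B : Set (Fin n)) ↔ (B \ H).card = 1 := by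
  constructor
  · intro h
    refine le_antisymm (card_le_one.2 fun x hx y hy => ?_) (Nat.pos_of_ne_zero fun e => ?_)
    · rw [mem_sdiff] at hx hy
      refine h.injOn hx.1 hy.1 (funext fun a => ?_)
      refine Fin.cases ?_ (fun a => ?_) a
      · rw [h0, h0, if_neg hx.2, if_neg hy.2]
      · rw [hs, hs, if_neg hx.2, if_neg hy.2]
    · rw [card_eq_zero, sdiff_eq_empty_iff_subset] at e
      have h1 : LinearIndepOn ℂ (fun (j : Fin n) (a : Fin c) => Y a j) (B : Set (Fin n)) := by
        rw [linearIndepOn_finset_iff] at h ⊢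
        refine fun f hf => h f (funext fun a => ?_)
        rw [Finset.sum_apply]
        refine Fin.cases (sum_eq_zero fun j hj => ?_) (fun a => ?_) a
        · rw [Pi.smul_apply, h0, if_pos (e hj), smul_zero]
        · refine Eq.trans ?_ (congrFun hf a)
          rw [Finset.sum_apply]
          exact sum_congr rfl fun j hj => by rw [Pi.smul_apply, hs, if_pos (e hj)]; rfl
      have h2 := LinearIndependent.fintype_card_le_finrank h1
      simp only [coe_sort_coe, Fintype.card_coe, Module.finrank_fintype_fun_eq_card,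
        Fintype.card_fin] at h2
      omega
  · intro h
    have h1 := card_sdiff_add_card_inter B H
    obtain ⟨x, hx⟩ := card_eq_one.1 h
    rw [linearIndepOn_finset_iff]
    intro f hf i hi
    by_cases hH : i ∈ H
    · refine linearIndepOn_finset_iff.1 (hY (B ∩ H) (by omega)) f (funext fun a => ?_) i
        (mem_inter.2 ⟨hi, hH⟩)
      refine Eq.trans ?_ (congrFun hf a.succ)
      simp only [Finset.sum_apply, Pi.smul_apply, hs, smul_eq_mul, mul_ite, mul_zero, sum_ite_mem]
    · have h2 := congrFun hf 0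
      simp only [Finset.sum_apply, Pi.smul_apply, h0, smul_eq_mul, mul_ite, mul_zero, mul_one,
        Pi.zero_apply] at h2
      rw [sum_ite, sum_const_zero, zero_add, ← sdiff_eq_filter, hx, sum_singleton] at h2
      have h3 := mem_sdiff.2 ⟨hi, hH⟩
      rw [hx, mem_singleton] at h3
      rwa [h3]

theorem sMatPi (hV : SVM) (h1 : SGP1) (h3 : SGP3) : SMatPi := by
  intro n c H hc hn
  obtain ⟨Y, hY, -⟩ := h1 c (Fin n)
  have key := key_MatPi H Y (h3 c n Y hY (by omega)).2
    (fun j => Fin.cons (if j ∈ H then 0 else 1) fun a => if j ∈ H then Y a j else 0)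
    (fun _ => rfl) fun _ _ => rfl
  obtain ⟨B, hB, hB'⟩ := exists_subset_card_eq hc
  obtain ⟨x, -, hx⟩ := exists_mem_notMem_of_card_lt_card (s := H) (t := univ) (by simpa using hn)
  have e1 : (insert x B).card = c + 1 := by rw [card_insert_of_notMem fun h => hx (hB h), hB']
  have e2 : (insert x B \ H).card = 1 := by
    rw [insert_sdiff_of_notMem _ hx, sdiff_eq_empty_iff_subset.2 hB]
    rfl
  obtain ⟨M, m1, m2, m3⟩ := hV (c + 1) n (fun i j =>
    (Fin.cons (if j ∈ H then 0 else 1) fun a => if j ∈ H then Y a j else 0 : Fin (c + 1) → ℂ) i)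
    ⟨_, e1, (key _ e1).2 e2⟩
  exact ⟨_, M, m1, m2, fun B => (m3 B).trans (and_congr_right (key B))⟩

end Pool.Agent.MP_8b9287_co.Geo
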