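import Pool.Agent.MP_8b9287_co.Geo.St

namespace Pool.Agent.MP_8b9287_co.Geo

theorem min_PO {n : ℕ} {F : Finset (Fin n) → Prop} {K : Set (Fin n → ℝ)} (hK : Convex ℝ K)
    (h : ∀ B, F B → Set.indicator (B : Set (Fin n)) 1 ∈ K) : cv F ⊆ K :=
  convexHull_min (by rintro x ⟨B, hB, rfl⟩; exact h B hB) hK

theorem conv_PO {n : ℕ} (F : Finset (Fin n) → Prop) : Convex ℝ (cv F) := convex_convexHull ℝ _

theorem mem_PO {n : ℕ} {F : Finset (Fin n) → Prop} {B : Finset (Fin n)} (h : F B) :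
    Set.indicator (B : Set (Fin n)) 1 ∈ cv F := subset_convexHull ℝ _ ⟨B, h, rfl⟩

theorem mono_PO {n : ℕ} {F F' : Finset (Fin n) → Prop} (h : ∀ B, F B → F' B) : cv F ⊆ cv F' :=
  min_PO (conv_PO F') fun B hB => mem_PO (h B hB)

theorem sum_PO {n : ℕ} (S B : Finset (Fin n)) :
    ∑ i ∈ S, Set.indicator (B : Set (Fin n)) (1 : Fin n → ℝ) i = ((S ∩ B).card : ℝ) := by
  simp [Set.indicator_apply]

theorem lin_PO {n : ℕ} (S : Finset (Fin n)) (a b : ℝ) (x y : Fin n → ℝ) :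
    ∑ i ∈ S, (a • x + b • y) i = a * ∑ i ∈ S, x i + b * ∑ i ∈ S, y i := by
  simp [Finset.sum_add_distrib, Finset.mul_sum]

theorem box_PO (n c : ℕ) : Convex ℝ {x : Fin n → ℝ | (∀ i, 0 ≤ x i) ∧ (∀ i, x i ≤ 1) ∧
    ∑ i, x i = c + 1} := by
  intro x hx y hy a b ha hb hab
  refine ⟨fun i => ?_, fun i => ?_, ?_⟩
  · exact add_nonneg (mul_nonneg ha (hx.1 i)) (mul_nonneg hb (hy.1 i))
  · have h1 := mul_le_mul_of_nonneg_left (hx.2.1 i) ha
    have h2 := mul_le_mul_of_nonneg_left (hy.2.1 i) hb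
    change a * x i + b * y i ≤ 1
    linarith
  · rw [lin_PO, hx.2.2, hy.2.2, ← add_mul, hab, one_mul]

theorem sPO (hH : SHY) : SPO := by
  intro n c H F hF hL
  have hbox : cv F ⊆ {x : Fin n → ℝ | (∀ i, 0 ≤ x i) ∧ (∀ i, x i ≤ 1) ∧ ∑ i, x i = c + 1} :=
    min_PO (box_PO n c) fun B hB => ⟨fun i => Set.indicator_nonneg (fun _ _ => zero_le_one) i,
      fun i => Set.indicator_le_self' (fun _ _ => zero_le_one) i, by
        rw [sum_PO, Finset.univ_inter, hF B hB]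
        simp⟩
  have hc : ∀ B : Finset (Fin n), Hᶜ ∩ B = B \ H := fun B => by
    ext i
    simp [and_comm]
  have hA : (cv fun B => F B ∧ ¬ B ⊆ H) ⊆ {x | 1 ≤ ∑ i ∈ Hᶜ, x i} :=
    min_PO (fun x hx y hy a b ha hb hab => by
      have h1 := mul_le_mul_of_nonneg_left (show 1 ≤ ∑ i ∈ Hᶜ, x i from hx) ha
      have h2 := mul_le_mul_of_nonneg_left (show 1 ≤ ∑ i ∈ Hᶜ, y i from hy) hb
      change 1 ≤ ∑ i ∈ Hᶜ, (a • x + b • y) i
      rw [lin_PO]
      linarith) fun B hB => by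
      rw [Set.mem_ofPred_eq, sum_PO, hc]
      exact_mod_cast Finset.card_pos.2 (Finset.sdiff_nonempty.2 hB.2)
  have hB : (cv fun B => B.card = c + 1 ∧ (B \ H).card ≤ 1) ⊆ {x | ∑ i ∈ Hᶜ, x i ≤ 1} :=
    min_PO (fun x hx y hy a b ha hb hab => by
      have h1 := mul_le_mul_of_nonneg_left (show ∑ i ∈ Hᶜ, x i ≤ 1 from hx) ha
      have h2 := mul_le_mul_of_nonneg_left (show ∑ i ∈ Hᶜ, y i ≤ 1 from hy) hb
      change ∑ i ∈ Hᶜ, (a • x + b • y) i ≤ 1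
      rw [lin_PO]
      linarith) fun B hB => by
      rw [Set.mem_ofPred_eq, sum_PO, hc]
      exact_mod_cast hB.2
  have face : ∀ x ∈ cv F, ∑ i ∈ Hᶜ, x i = 1 →
      x ∈ cv fun B => B.card = c + 1 ∧ (B \ H).card = 1 := fun x hx h => by
    have b := hbox hx
    refine hH n c H x b.1 b.2.1 ?_ h
    have := Finset.sum_add_sum_compl H x
    linarith [b.2.2]
  have s1 : (cv fun B => B.card = c + 1 ∧ (B \ H).card = 1) ⊆ cv fun B => F B ∧ ¬ B ⊆ H :=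
    mono_PO fun B h => ⟨hL B h.1 h.2.le, Finset.sdiff_nonempty.1 (Finset.card_pos.1 (by omega))⟩
  have s2 : (cv fun B => B.card = c + 1 ∧ (B \ H).card = 1) ⊆
      cv fun B => B.card = c + 1 ∧ (B \ H).card ≤ 1 := mono_PO fun B h => ⟨h.1, h.2.le⟩
  have s3 : (cv fun B => F B ∧ ¬ B ⊆ H) ⊆ cv F := mono_PO fun B h => h.1
  have s4 : (cv fun B => B.card = c + 1 ∧ (B \ H).card ≤ 1) ⊆ cv F :=
    mono_PO fun B h => hL B h.1 h.2
  have key : ∀ y ∈ cv fun B => F B ∧ ¬ B ⊆ H,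
      ∀ z ∈ cv fun B => B.card = c + 1 ∧ (B \ H).card ≤ 1, openSegment ℝ y z ⊆
        (cv fun B => F B ∧ ¬ B ⊆ H) ∪ cv fun B => B.card = c + 1 ∧ (B \ H).card ≤ 1 := by
    intro y hy z hz
    obtain ⟨t, ht, hw⟩ := intermediate_value_Icc' zero_le_one
      (f := fun t : ℝ => ∑ i ∈ Hᶜ, AffineMap.lineMap y z t i) (by fun_prop)
      (show (1 : ℝ) ∈ _ from ⟨by simpa using hB hz, by simpa using hA hy⟩)
    have w := face _ ((conv_PO F).lineMap_mem (s3 hy) (s4 hz) ht) hw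
    refine (openSegment_subset_union y z ⟨t, rfl⟩).trans ?_
    rintro x (rfl | h | h)
    · exact Or.inl (s1 w)
    · exact Or.inl ((conv_PO _).openSegment_subset hy (s1 w) h)
    · exact Or.inr ((conv_PO _).openSegment_subset (s2 w) hz h)
  refine ⟨Set.Subset.antisymm (min_PO (convex_iff_openSegment_subset.2 ?_) fun B h => ?_)
    (Set.union_subset s3 s4), Set.Subset.antisymm (Set.subset_inter s1 s2) fun x hx =>
      face x (s3 hx.1) (le_antisymm (hB hx.2) (hA hx.1)), ⟨s1, ?_⟩, ⟨s2, ?_⟩⟩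
  · rintro y (hy | hy) z (hz | hz)
    · exact ((conv_PO _).openSegment_subset hy hz).trans Set.subset_union_left
    · exact key y hy z hz
    · rw [openSegment_symm]
      exact key z hz y hy
    · exact ((conv_PO _).openSegment_subset hy hz).trans Set.subset_union_right
  · by_cases e : B ⊆ H
    · exact Or.inr (mem_PO ⟨hF B h, by simp [Finset.sdiff_eq_empty_iff_subset.2 e]⟩)
    · exact Or.inl (mem_PO ⟨h, e⟩)
  · rintro x hx y hy _ hz ⟨a, b, ha, hb, hab, rfl⟩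
    have h1 : 1 ≤ ∑ i ∈ Hᶜ, x i := hA hx
    have h2 : 1 ≤ ∑ i ∈ Hᶜ, y i := hA hy
    have h3 : ∑ i ∈ Hᶜ, (a • x + b • y) i ≤ 1 := hB (s2 hz)
    rw [lin_PO] at h3
    exact face x (s3 hx) (le_antisymm (by nlinarith) h1)
  · rintro x hx y hy _ hz ⟨a, b, ha, hb, hab, rfl⟩
    have h1 : ∑ i ∈ Hᶜ, x i ≤ 1 := hB hx
    have h2 : ∑ i ∈ Hᶜ, y i ≤ 1 := hB hy
    have h3 : 1 ≤ ∑ i ∈ Hᶜ, (a • x + b • y) i := hA (s1 hz)
    rw [lin_PO] at h3
    exact face x (s4 hx) (le_antisymm h1 (by nlinarith))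

end Pool.Agent.MP_8b9287_co.Geo
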