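import Pool.Agent.MP_8b9287_co.Geo.St

namespace Pool.Agent.MP_8b9287_co.Geo

section
variable {β : Type} {c : ℕ}

/-- the order on points given by values and labels -/
def K_PP1 (lab T : β → ℕ) (x y : β) : Prop := T x < T y ∨ (T x = T y ∧ lab x < lab y)

/-- fillings which increase along the enumeration `e` -/
def A_PP1 (lab : β → ℕ) (r : ℕ) (e : Fin c ≃ β) : Set (β → ℕ) :=
  {T | (∀ b, T b < r) ∧ ∀ i j : Fin c, i < j → K_PP1 lab T (e i) (e j)}

open Classical in
/-- descents of the enumeration `e` -/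
noncomputable def d_PP1 (lab : β → ℕ) (e : Fin c ≃ β) (i : ℕ) : ℕ :=
  if ∃ a b : Fin c, (a : ℕ) = i ∧ (b : ℕ) = i + 1 ∧ lab (e a) < lab (e b) then 0 else 1

theorem lt_PP1 {lab T : β → ℕ} {e : Fin c ≃ β} (h : ∀ i j : Fin c, i < j → K_PP1 lab T (e i) (e j))
    {x y : β} (hxy : K_PP1 lab T x y) : e.symm x < e.symm y := by
  rcases lt_trichotomy (e.symm x) (e.symm y) with k | k | k
  · exact k
  · rw [e.symm.injective k] at hxy
    unfold K_PP1 at hxy
    omega
  · have := h _ _ k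
    rw [e.apply_symm_apply, e.apply_symm_apply] at this
    unfold K_PP1 at hxy this
    omega

theorem uniq_PP1 {lab T : β → ℕ} {r : ℕ} {e e' : Fin c ≃ β} (h : T ∈ A_PP1 lab r e)
    (h' : T ∈ A_PP1 lab r e') : e = e' := by
  have h1 : StrictMono (e.trans e'.symm) := fun i j hij => lt_PP1 h'.2 (h.2 i j hij)
  have h2 : (e.trans e'.symm : Fin c → Fin c) = id :=
    (h1.range_inj strictMono_id).1 (by rw [(e.trans e'.symm).surjective.range_eq, Set.range_id])
  ext i
  exact e'.symm_apply_eq.1 (congrFun h2 i)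

theorem exists_PP1 [Fintype β] {lab : β → ℕ} (hl : Function.Injective lab) (T : β → ℕ) :
    ∃ e : Fin (Fintype.card β) ≃ β, ∀ i j, i < j → K_PP1 lab T (e i) (e j) := by
  let _ : LinearOrder β := LinearOrder.lift' (fun b => toLex (T b, lab b))
    fun x y h => hl (congrArg (fun p => (ofLex p).2) h)
  refine ⟨(monoEquivOfFin β rfl).toEquiv, fun i j hij => ?_⟩
  exact Prod.Lex.toLex_lt_toLex.1 ((monoEquivOfFin β rfl).strictMono hij)

theorem chain_PP1 {P : Fin c → Fin c → Prop} (ht : ∀ i j k, P i j → P j k → P i k)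
    (h : ∀ i j : Fin c, (j : ℕ) = i + 1 → P i j) (i j : Fin c) (hij : i < j) : P i j := by
  have key : ∀ (n : ℕ) (j : Fin c), (j : ℕ) = i + n + 1 → P i j := by
    intro n
    induction n with
    | zero => exact fun j hj => h i j hj
    | succ n ih => exact fun j hj => ht i ⟨i + n + 1, by omega⟩ j (ih _ rfl) (h _ _ hj)
  have : (i : ℕ) < j := hij
  exact key (j - i - 1) j (by omega)

theorem step_PP1 (lab T : β → ℕ) (e : Fin c ≃ β) {i j : Fin c} (h : (j : ℕ) = i + 1) :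
    T (e i) + d_PP1 lab e i ≤ T (e j) ↔ K_PP1 lab T (e i) (e j) := by
  have k : (∃ a b : Fin c, (a : ℕ) = i ∧ (b : ℕ) = i + 1 ∧ lab (e a) < lab (e b)) ↔
      lab (e i) < lab (e j) := by
    constructor
    · rintro ⟨a, b, h1, h2, h3⟩
      rwa [Fin.ext h1, Fin.ext (h2.trans h.symm)] at h3
    · exact fun k => ⟨i, j, rfl, h, k⟩
  unfold d_PP1 K_PP1
  split_ifs with k'
  · rw [k] at k'
    omega
  · rw [k] at k'
    omega

theorem card_PP1 (h : SPP2) (lab : β → ℕ) {r : ℕ} (hr : 1 ≤ r) (e : Fin c ≃ β) :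
    (A_PP1 lab r e).ncard =
      M2 c ((r : ℤ) - 1 - (∑ i ∈ Finset.range (c - 1), d_PP1 lab e i : ℕ)) := by
  rw [Nat.cast_sum, ← h c r (d_PP1 lab e) hr]
  refine Set.ncard_congr (fun T _ => T ∘ e) (fun T hT => ⟨fun i => hT.1 _, fun i j hij => ?_⟩)
    (fun T T' _ _ k => e.surjective.injective_comp_right k) fun f hf => ⟨f ∘ e.symm, ⟨?_, ?_⟩, ?_⟩
  · exact (step_PP1 lab T e hij).2 (hT.2 i j (by rw [Fin.lt_def]; omega))
  · exact fun b => hf.1 _
  · refine chain_PP1 (fun i j k h1 h2 => ?_) fun i j hij => (step_PP1 lab _ e hij).1 ?_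
    · unfold K_PP1 at h1 h2 ⊢
      omega
    · simpa using hf.2 i j hij
  · funext i
    simp

end

theorem sPP1 (h : SPP2) : SPP1 := by
  classical
  intro β _ lab R hl
  obtain ⟨E, hE⟩ : ∃ E : Finset (Fin (Fintype.card β) ≃ β),
      ∀ e, e ∈ E ↔ ∀ x y, R x y → e.symm x < e.symm y :=
    ⟨Finset.univ.filter fun e => ∀ x y, R x y → e.symm x < e.symm y, fun e => by simp⟩
  refine ⟨E.val.map fun e => ∑ i ∈ Finset.range (Fintype.card β - 1), d_PP1 lab e i,
    fun r hr => ?_⟩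
  have e1 : {T : β → ℕ | (∀ b, T b < r) ∧
      ∀ x y, R x y → T x < T y ∨ (T x = T y ∧ lab x < lab y)} =
      ⋃ e ∈ (E : Set (Fin (Fintype.card β) ≃ β)), A_PP1 lab r e := by
    ext T
    simp only [Set.mem_iUnion, Finset.mem_coe, exists_prop]
    constructor
    · rintro ⟨h1, h2⟩
      obtain ⟨e, he⟩ := exists_PP1 hl T
      exact ⟨e, (hE e).2 fun x y k => lt_PP1 he (h2 x y k), h1, he⟩
    · rintro ⟨e, he, h1, h2⟩
      refine ⟨h1, fun x y k => ?_⟩
      have := h2 _ _ ((hE e).1 he x y k)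
      rwa [e.apply_symm_apply, e.apply_symm_apply] at this
  rw [e1, E.finite_toSet.ncard_biUnion
    (fun e _ => (Set.Finite.pi' fun _ => Set.finite_Iio r).subset fun T hT => hT.1)
    (fun e _ e' _ hne => Set.disjoint_left.2 fun T k k' => hne (uniq_PP1 k k')),
    finsum_mem_coe_finset, Multiset.map_map]
  exact Finset.sum_congr rfl fun e _ => card_PP1 h lab hr e

theorem sPP3 (h : SPP1) : SPP3 := by
  intro c lam hc
  have hk : ∀ b : Box lam, (b.2 : ℕ) < c := fun b => b.2.2.trans_le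
    ((Finset.single_le_sum (f := lam) (fun _ _ => Nat.zero_le _) (Finset.mem_univ b.1)).trans hc.le)
  have hl : Function.Injective fun b : Box lam => c - b.2 + (b.1 : ℕ) * (c + 1) := by
    intro b b' e
    have e0 : c - b.2 + (b.1 : ℕ) * (c + 1) = c - b'.2 + (b'.1 : ℕ) * (c + 1) := e
    have e1 := congrArg (· % (c + 1)) e0
    simp only [Nat.add_mul_mod_self_right] at e1
    rw [Nat.mod_eq_of_lt (by omega), Nat.mod_eq_of_lt (by omega)] at e1
    rw [e1] at e0
    have e2 := Nat.eq_of_mul_eq_mul_right (Nat.succ_pos c) (Nat.add_left_cancel e0)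
    have k1 := hk b
    have k2 := hk b'
    obtain ⟨a, k⟩ := b
    obtain ⟨a', k'⟩ := b'
    obtain rfl : a = a' := Fin.ext e2
    obtain rfl : k = k' := Fin.ext (by simp only at e1 k1 k2; omega)
    rfl
  obtain ⟨M, hM⟩ := h (Box lam) _
    (fun b b' => ((b.2 : ℕ) = b'.2 ∧ b.1 < b'.1) ∨ (b.1 = b'.1 ∧ (b.2 : ℕ) < b'.2)) hl
  refine ⟨M, fun r hr => ?_⟩
  have e : Fintype.card (Box lam) = c := by simp [Fintype.card_sigma, hc]
  have := hM r hr
  rw [e] at this
  rw [← this]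
  congr 1
  ext T
  refine and_congr_right fun _ => ⟨fun k b b' => ?_, fun k => ⟨fun b b' h1 h2 => ?_,
    fun b b' h1 h2 => ?_⟩⟩
  · rintro (⟨h1, h2⟩ | ⟨h1, h2⟩)
    · have h3 := k.1 b b' h1 h2
      have h4 : (b.1 : ℕ) * (c + 1) < (b'.1 : ℕ) * (c + 1) :=
        Nat.mul_lt_mul_of_pos_right h2 (Nat.succ_pos c)
      omega
    · exact Or.inl (k.2 b b' h1 h2)
  · have := k b b' (Or.inl ⟨h1, h2⟩)
    omega
  · have h3 := k b b' (Or.inr ⟨h1, h2⟩)
    have h4 : (b.1 : ℕ) * (c + 1) = (b'.1 : ℕ) * (c + 1) := by rw [h1]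
    omega

end Pool.Agent.MP_8b9287_co.Geo
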