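import Pool.Agent.MP_8b9287_co.Geo.St

namespace Pool.Agent.MP_8b9287_co.Geo

/-- chains whose first value is at least `a` -/
def ge_PP2 (r c a : ℕ) (d : ℕ → ℕ) : Set (Fin (c + 1) → ℕ) :=
  {f | (∀ i, f i < r) ∧ a ≤ f 0 ∧ ∀ i j : Fin (c + 1), (j : ℕ) = i + 1 → f i + d i ≤ f j}

/-- chains whose first value is `a` -/
def eq_PP2 (r c a : ℕ) (d : ℕ → ℕ) : Set (Fin (c + 1) → ℕ) :=
  {f | (∀ i, f i < r) ∧ f 0 = a ∧ ∀ i j : Fin (c + 1), (j : ℕ) = i + 1 → f i + d i ≤ f j}

theorem fin_PP2 (r c : ℕ) : {f : Fin c → ℕ | ∀ i, f i < r}.Finite :=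
  Set.Finite.pi' (fun _ : Fin c => Set.finite_lt_nat r)

theorem step_PP2 (r c : ℕ) (d : ℕ → ℕ) (D : ℤ) (hD : 0 ≤ D)
    (h : ∀ a : ℕ, (eq_PP2 r c a d).ncard = M2 c ((r : ℤ) - 1 - a - D)) (a : ℕ) :
    (ge_PP2 r c a d).ncard = M2 (c + 1) ((r : ℤ) - 1 - a - D) := by
  have key : ∀ k a : ℕ, r ≤ a + k →
      (ge_PP2 r c a d).ncard = M2 (c + 1) ((r : ℤ) - 1 - a - D) := by
    intro k
    induction k with
    | zero =>
      intro a ha
      have he : ge_PP2 r c a d = ∅ := by
        ext f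
        simp only [ge_PP2, Set.mem_ofPred_eq, Set.mem_empty_iff_false, iff_false]
        rintro ⟨h1, h2, -⟩
        have := h1 0
        omega
      rw [he, Set.ncard_empty, M2_neg _ (by omega)]
    | succ k ih =>
      intro a ha
      have hu : ge_PP2 r c a d = eq_PP2 r c a d ∪ ge_PP2 r c (a + 1) d := by
        ext f
        simp only [ge_PP2, eq_PP2, Set.mem_ofPred_eq, Set.mem_union]
        constructor
        · rintro ⟨h1, h2, h3⟩
          rcases Nat.eq_or_lt_of_le h2 with h4 | h4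
          · exact Or.inl ⟨h1, h4.symm, h3⟩
          · exact Or.inr ⟨h1, h4, h3⟩
        · rintro (⟨h1, h2, h3⟩ | ⟨h1, h2, h3⟩)
          · exact ⟨h1, h2.ge, h3⟩
          · exact ⟨h1, by omega, h3⟩
      have hd : Disjoint (eq_PP2 r c a d) (ge_PP2 r c (a + 1) d) := by
        rw [Set.disjoint_left]
        rintro f ⟨-, h2, -⟩ ⟨-, h3, -⟩
        omega
      rw [hu, Set.ncard_union_eq hd ((fin_PP2 r _).subset fun f hf => hf.1)
        ((fin_PP2 r _).subset fun f hf => hf.1), h a, ih (a + 1) (by omega),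
        M2_succ c ((r : ℤ) - 1 - a - D)]
      congr 2
      push_cast
      ring
  exact key r a (by omega)

theorem empty_PP2 (r c a : ℕ) (d : ℕ → ℕ) (ha : r ≤ a) : eq_PP2 r c a d = ∅ := by
  ext f
  simp only [eq_PP2, Set.mem_ofPred_eq, Set.mem_empty_iff_false, iff_false]
  rintro ⟨h1, h2, -⟩
  have := h1 0
  omega

theorem cons_PP2 (r c a : ℕ) (d : ℕ → ℕ) (ha : a < r) :
    eq_PP2 r (c + 1) a d = (fun g : Fin (c + 1) → ℕ => (Fin.cons a g : Fin (c + 2) → ℕ)) ''
      ge_PP2 r c (a + d 0) (fun i => d (i + 1)) := by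
  ext f
  constructor
  · rintro ⟨h1, h2, h3⟩
    refine ⟨Fin.tail f, ⟨fun i => h1 _, ?_, fun i j hij => ?_⟩, ?_⟩
    · have := h3 0 (Fin.succ 0) (by simp)
      rw [h2] at this
      exact this
    · exact h3 i.succ j.succ (by simp [hij])
    · rw [← h2]
      exact Fin.cons_self_tail f
  · rintro ⟨g, ⟨h1, h2, h3⟩, rfl⟩
    refine ⟨fun i => ?_, by simp, fun i j => ?_⟩
    · refine Fin.cases ?_ (fun i' => ?_) i
      · simpa using ha
      · simpa using h1 i'
    · refine Fin.cases ?_ (fun j' => ?_) j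
      · intro h
        simp at h
      · refine Fin.cases ?_ (fun i' => ?_) i
        · intro h
          have hj : j' = 0 := Fin.ext (by simpa using h)
          subst hj
          simpa only [Fin.cons_zero, Fin.cons_succ, Fin.val_zero] using h2
        · intro h
          simpa only [Fin.cons_succ, Fin.val_succ] using h3 i' j' (by simpa using h)

theorem card_PP2 (r c : ℕ) : ∀ (d : ℕ → ℕ) (a : ℕ), (eq_PP2 r c a d).ncard =
    M2 c ((r : ℤ) - 1 - a - ∑ i ∈ Finset.range c, (d i : ℤ)) := by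
  induction c with
  | zero =>
    intro d a
    rw [Finset.sum_range_zero, M2_zero]
    split_ifs with h
    · have he : eq_PP2 r 0 a d = {fun _ => a} := by
        ext f
        simp only [eq_PP2, Set.mem_ofPred_eq, Set.mem_singleton_iff]
        constructor
        · rintro ⟨-, h2, -⟩
          funext i
          rw [← h2, Fin.fin_one_eq_zero i]
        · rintro rfl
          refine ⟨fun _ => show a < r by omega, rfl, fun i j hij => ?_⟩
          have := j.2
          omega
      rw [he, Set.ncard_singleton]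
    · rw [empty_PP2 _ _ _ _ (by omega), Set.ncard_empty]
  | succ c ih =>
    intro d a
    have hs : ∀ (e : ℕ → ℕ) (m : ℕ), (0 : ℤ) ≤ ∑ i ∈ Finset.range m, (e i : ℤ) :=
      fun e m => Finset.sum_nonneg fun _ _ => Int.natCast_nonneg _
    by_cases ha : a < r
    · rw [cons_PP2 r c a d ha,
        Set.ncard_image_of_injective _ (Fin.cons_right_injective (α := fun _ => ℕ) a),
        step_PP2 r c _ _ (hs _ c) (ih fun i => d (i + 1)), Finset.sum_range_succ']
      congr 1
      push_cast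
      ring
    · have := hs d (c + 1)
      rw [empty_PP2 _ _ _ _ (by omega), Set.ncard_empty, M2_neg _ (by omega)]

theorem sPP2 : SPP2 := by
  intro c r d hr
  cases c with
  | zero =>
    have he : {f : Fin 0 → ℕ | (∀ i, f i < r) ∧
        ∀ i j : Fin 0, (j : ℕ) = i + 1 → f i + d i ≤ f j} = {Fin.elim0} := by
      ext f
      simp only [Set.mem_ofPred_eq, Set.mem_singleton_iff]
      exact ⟨fun _ => funext fun i => i.elim0, fun _ => ⟨fun i => i.elim0, fun i => i.elim0⟩⟩
    rw [he, Set.ncard_singleton, M2_zero, if_pos (by simp; omega)]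
  | succ c =>
    have h := step_PP2 r c d _
      (Finset.sum_nonneg fun i _ => Int.natCast_nonneg (d i)) (card_PP2 r c d) 0
    rw [Nat.cast_zero, sub_zero] at h
    rw [Nat.add_sub_cancel, ← h]
    congr 1
    ext f
    simp [ge_PP2]

end Pool.Agent.MP_8b9287_co.Geo
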