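import Pool.Agent.MP_8b9287_co.Geo.St

/-! Paving matroids from a family of sets with small pairwise intersections. -/

namespace Pool.Agent.MP_8b9287_co.Geo

theorem exch_PV {n c : ℕ} {𝒮 : Finset (Finset (Fin n))}
    (hS : ∀ H ∈ 𝒮, ∀ H' ∈ 𝒮, H ≠ H' → (H ∩ H').card + 1 ≤ c) {X Y : Finset (Fin n)}
    (hX : X.card = c + 1) (hY : Y.card = c + 1) (hY' : ∀ H ∈ 𝒮, ¬ Y ⊆ H) {a : Fin n}
    (ha : a ∈ X) (ha' : a ∉ Y) :
    ∃ b ∈ Y, b ∉ X ∧ (insert b (X.erase a)).card = c + 1 ∧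
      ∀ H ∈ 𝒮, ¬ insert b (X.erase a) ⊆ H := by
  have hc : (X.erase a).card = c := by rw [Finset.card_erase_of_mem ha, hX]; rfl
  have hin : ∀ b, b ∉ X → (insert b (X.erase a)).card = c + 1 := fun b hb => by
    rw [Finset.card_insert_of_notMem fun h => hb (Finset.mem_of_mem_erase h), hc]
  by_cases h : ∃ H ∈ 𝒮, X.erase a ⊆ H
  · obtain ⟨H0, h0, hs⟩ := h
    obtain ⟨b, hb, hb'⟩ := Finset.not_subset.1 (hY' H0 h0)
    have hbX : b ∉ X := fun h => hb' (hs (Finset.mem_erase.2 ⟨fun e => ha' (e ▸ hb), h⟩))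
    refine ⟨b, hb, hbX, hin b hbX, fun H hH s => ?_⟩
    have h1 := hS H hH H0 h0 fun e => hb' (e ▸ s (Finset.mem_insert_self _ _))
    have h2 := Finset.card_le_card
      (Finset.subset_inter ((Finset.subset_insert _ _).trans s) hs)
    omega
  · have hn : ¬ Y ⊆ X := fun s => by
      have := Finset.card_le_card (Finset.subset_erase.2 ⟨s, ha'⟩)
      omega
    obtain ⟨b, hb, hbX⟩ := Finset.not_subset.1 hn
    exact ⟨b, hb, hbX, hin b hbX, fun H hH s => h ⟨H, hH, (Finset.subset_insert _ _).trans s⟩⟩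

theorem sPV : SPV := by
  intro n c 𝒮 hS ⟨B0, hB0⟩
  have ex : Matroid.ExchangeProperty fun X : Set (Fin n) =>
      ∃ B : Finset (Fin n), X = B ∧ B.card = c + 1 ∧ ∀ H ∈ 𝒮, ¬ B ⊆ H := by
    rintro _ _ ⟨X, rfl, hX, -⟩ ⟨Y, rfl, hY, hY'⟩ a ⟨ha, ha'⟩
    obtain ⟨b, hb, hbX, h⟩ := exch_PV hS hX hY hY' (Finset.mem_coe.1 ha)
      fun h => ha' (Finset.mem_coe.2 h)
    exact ⟨b, ⟨Finset.mem_coe.2 hb, fun h => hbX (Finset.mem_coe.1 h)⟩, _,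
      by rw [Finset.coe_insert, Finset.coe_erase], h⟩
  have hb : HasBases (Matroid.ofIsBaseOfFinite (E := Set.univ) Set.finite_univ _
      ⟨_, B0, rfl, hB0⟩ ex fun _ _ => Set.subset_univ _)
      fun B => B.card = c + 1 ∧ ∀ H ∈ 𝒮, ¬ B ⊆ H := fun B => by
    rw [Matroid.ofIsBaseOfFinite_isBase]
    exact ⟨fun ⟨B', e, h⟩ => by rwa [Finset.coe_injective e], fun h => ⟨B, rfl, h⟩⟩
  refine ⟨_, ⟨rfl, ?_⟩, hb⟩
  rw [← ((hb B0).2 hB0).encard_eq_eRank, Set.encard_coe_eq_coe_finsetCard, hB0.1]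

end Pool.Agent.MP_8b9287_co.Geo
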