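import Pool.Agent.MP_8b9287_co.Geo.St

namespace Pool.Agent.MP_8b9287_co.Geo

open Module Filter Topology

theorem sParam (hF : SPathFun) (hO : SOmSum) (hA : SGT2a) (hC : SGT2c) : SParam := by
  classical
  intro r N js Z y₀ hjs hZ hy₀
  obtain ⟨L, hGT, hL, hZL⟩ := hZ
  have hbd : ∀ m : Fin r, ∀ i, (m : ℕ) ≤ i → i < r → L i m < N := by
    intro m i hmi hir
    have hr : r - 1 < r := by omega
    have h1 := hC r L hGT i m hmi hir
    have h2 := hL ⟨r - 1, hr⟩
    have h3 := (js ⟨r - 1, hr⟩).isLt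
    simp only at h2
    omega
  have hne : ∀ m : Fin r, ∀ (i : Fin r) (j : Fin N), onP L m i j → y₀ i j ≠ 0 := by
    intro m i j hij
    refine hy₀ (i, j) fun hmem => ?_
    exact ((hA r L hGT i j i.isLt).1.2 ⟨m, hij⟩) ((hZL (i, j)).1 hmem)
  choose φ hφ1 hφ2 hφ3 using fun m : Fin r => hF r N m L y₀ hGT m.isLt (hbd m) (hne m)
  refine ⟨fun p i j => (∑ m, φ m p i j) + if (i, j) ∈ Z then p.2 i j else 0, ?_, ?_, ?_⟩
  · refine contDiffAt_pi.2 fun i => contDiffAt_pi.2 fun j => ContDiffAt.add ?_ ?_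
    · exact ContDiffAt.sum fun m _ => contDiffAt_pi.1 (contDiffAt_pi.1 (hφ1 m) i) j
    · by_cases h : (i, j) ∈ Z
      · simp only [h, if_true]
        exact contDiffAt_pi.1 (contDiffAt_pi.1 contDiffAt_snd i) j
      · simp only [h, if_false]
        exact contDiffAt_const
  · filter_upwards [Filter.eventually_all.2 hφ2] with y hy
    funext i j
    by_cases h : (i, j) ∈ Z
    · have hh : hole L i j := (hZL (i, j)).1 h
      have h0 : ∀ m : Fin r, φ m (0, y) i j = 0 := fun m =>
        (hy m i j).2 fun hon => ((hA r L hGT i j i.isLt).1.2 ⟨m, hon⟩) hh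
      simp [h, h0]
    · have hh : ¬ hole L i j := fun hh => h ((hZL (i, j)).2 hh)
      obtain ⟨m, hm⟩ := (hA r L hGT i j i.isLt).1.1 hh
      have hmr : m < r := lt_of_le_of_lt hm.1 i.isLt
      simp only [h, if_false, add_zero]
      rw [Finset.sum_eq_single (⟨m, hmr⟩ : Fin r)]
      · exact (hy ⟨m, hmr⟩ i j).1 hm
      · intro m' _ hm'
        refine (hy m' i j).2 fun hon => hm' (Fin.ext ?_)
        exact (hA r L hGT i j i.isLt).2 _ _ hon hm
      · intro h'
        exact absurd (Finset.mem_univ _) h'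
  · intro t y ht hy
    choose a b hb hab using fun m : Fin r => hφ3 m t y ht
    have key := hO r N js a b hjs fun m j hj => hb m j (by rw [hL m]; exact hj)
    convert key using 1
    funext i j
    have hz : (if (i, j) ∈ Z then y i j else 0) = 0 := by
      by_cases h : (i, j) ∈ Z
      · simp only [h, if_true]
        exact hy (i, j) h
      · simp only [h, if_false]
    simp only [sc, hz, add_zero, Finset.mul_sum]
    exact Finset.sum_congr rfl fun m _ => hab m i j

end Pool.Agent.MP_8b9287_co.Geo
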