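import Pool.Agent.MP_8b9287_co.Geo.St

namespace Pool.Agent.MP_8b9287_co.Geo

open Module Filter Topology

theorem anti_PathFun {r m : ℕ} {L : ℕ → ℕ → ℕ} (h : IsGT r L) {i : ℕ} (hi : m ≤ i) (d : ℕ)
    (hd : i + d < r) : L (i + d) m ≤ L i m := by
  induction d with
  | zero => exact le_rfl
  | succ d ih => exact (h (i + d) m (by omega) hd).1.trans (ih (by omega))

theorem sPathFun (hP : SPathPot) (hV : SPathVal) : SPathFun := by
  intro r N m L y₀ hL hm h1 h2
  obtain ⟨α, β, e, he⟩ := hP r m L hL hm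
  obtain ⟨a, b, ha, hb, hab⟩ := hV r N m L y₀ hL hm h1 h2
  refine ⟨fun p i j => if m ≤ (i : ℕ) ∧ L (r - 1) m ≤ (j : ℕ) then
    p.1 ^ e i j * (a i p.2 * b j p.2) else 0, ?_, ?_, fun t y ht => ?_⟩
  · refine contDiffAt_pi.2 fun i => contDiffAt_pi.2 fun j => ?_
    by_cases h : m ≤ (i : ℕ) ∧ L (r - 1) m ≤ (j : ℕ)
    · simp only [if_pos h]
      exact (contDiffAt_fst.pow _).mul
        (((ha i).comp ((0 : ℂ), y₀) contDiffAt_snd).mul ((hb j).comp ((0 : ℂ), y₀) contDiffAt_snd))
    · simp only [if_neg h]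
      exact contDiffAt_const
  · filter_upwards [hab] with y hy i j
    constructor
    · intro ho
      have l : L (r - 1) m ≤ (j : ℕ) := by
        have := anti_PathFun hL ho.1 (r - 1 - i) (by have := i.2; omega)
        rw [show (i : ℕ) + (r - 1 - i) = r - 1 by have := i.2; omega] at this
        exact this.trans ho.2.1
      rw [if_pos ⟨ho.1, l⟩, (he i j ho.1 i.2 l).2.2 ho, pow_zero, one_mul, hy i j ho]
    · intro ho
      split_ifs with h
      · rw [zero_pow fun c => ho ((he i j h.1 i.2 h.2).2.1 c), zero_mul]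
      · rfl
  · refine ⟨fun i => if m ≤ (i : ℕ) then t ^ α i * a i y else 0,
      fun j => if L (r - 1) m ≤ (j : ℕ) then t ^ β j * b j y else 0,
      fun j hj => if_neg (by omega), fun i j => ?_⟩
    simp only [sc]
    by_cases h : m ≤ (i : ℕ)
    · by_cases h' : L (r - 1) m ≤ (j : ℕ)
      · have k : t ^ ((r - (i : ℕ)) * (j : ℕ)) * t ^ e i j = t ^ α i * t ^ β j := by
          rw [← zpow_add₀ ht, ← (he i j h i.2 h').1, zpow_natCast, pow_add, mul_comm]
        rw [if_pos ⟨h, h'⟩, if_pos h, if_pos h', ← mul_assoc, k]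
        ring
      · rw [if_neg fun c => h' c.2, if_neg h', mul_zero, mul_zero]
    · rw [if_neg fun c => h c.1, if_neg h, mul_zero, zero_mul]

theorem sOmSum (hR : SRk) : SOmSum := by
  intro r N js a b hjs hb s I J hJ
  refine (hR r N _ (js s) s).2 ?_ I J hJ
  have k : colSp (fun i j => ∑ m, a m i * b m j) (js s) ≤
      Submodule.span ℂ (Set.range fun m : Fin s => a ⟨m, m.2.trans s.2⟩) := by
    refine Submodule.span_le.2 ?_
    rintro _ ⟨j, hj, rfl⟩
    have e : (fun i => ∑ m, a m i * b m j) = ∑ m, b m j • a m := by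
      ext i
      simp [Finset.sum_apply, mul_comm]
    simp only [SetLike.mem_coe]
    rw [e]
    refine Submodule.sum_mem _ fun m _ => ?_
    by_cases h : m < s
    · exact Submodule.smul_mem _ _ (Submodule.subset_span ⟨⟨m, h⟩, rfl⟩)
    · rw [hb m j (lt_of_lt_of_le hj (hjs.monotone (not_lt.1 h))), zero_smul]
      exact Submodule.zero_mem _
  refine (Submodule.finrank_mono k).trans ?_
  exact (finrank_range_le_card (R := ℂ) fun m : Fin s => a ⟨m, m.2.trans s.2⟩).trans
    (Fintype.card_fin _).le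

end Pool.Agent.MP_8b9287_co.Geo
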