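import Pool.Agent.MP_8b9287_co.Geo.St

namespace Pool.Agent.MP_8b9287_co.Geo

theorem anti_PathPot {r m : ℕ} {L : ℕ → ℕ → ℕ} (h : IsGT r L) {a b : ℕ} (ha : m ≤ a)
    (hab : a ≤ b) (hb : b < r) : L b m ≤ L a m := by
  induction b, hab using Nat.le_induction with
  | base => exact le_rfl
  | succ b hab ih => exact (h b m (by omega) hb).1.trans (ih (by omega))

theorem sPathPot : SPathPot := by
  intro r m L h hm
  refine ⟨fun i => -((∑ k ∈ Finset.Ico m i, L k m : ℕ) : ℤ),
    fun j => ((∑ k ∈ Finset.Ico m r, (L k m - j) + (r - m) * j : ℕ) : ℤ),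
    fun i j => ∑ k ∈ Finset.Ico m i, (j - L k m) + ∑ k ∈ Finset.Ico i r, (L k m - j),
    fun i j hi hr _ => ⟨?_, ?_⟩⟩
  · have e1 : ∑ k ∈ Finset.Ico m i, (j - L k m) + ∑ k ∈ Finset.Ico m i, L k m =
        ∑ _k ∈ Finset.Ico m i, j + ∑ k ∈ Finset.Ico m i, (L k m - j) := by
      rw [← Finset.sum_add_distrib, ← Finset.sum_add_distrib]
      exact Finset.sum_congr rfl fun k _ => by omega
    have e2 := Finset.sum_Ico_consecutive (fun k => L k m - j) hi hr.le
    have e3 : ∑ _k ∈ Finset.Ico m i, j = (i - m) * j := by simp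
    have e4 : (r - m) * j = (r - i) * j + (i - m) * j := by
      rw [← add_mul]
      congr 1
      omega
    dsimp only at e2 ⊢
    omega
  · simp only [Nat.add_eq_zero_iff, Finset.sum_eq_zero_iff, Finset.mem_Ico, onP]
    constructor
    · rintro ⟨h1, h2⟩
      refine ⟨hi, by have := h2 i ⟨le_rfl, hr⟩; omega, ?_⟩
      by_cases c : i = m
      · exact Or.inl c
      · have := h1 (i - 1) ⟨by omega, by omega⟩
        exact Or.inr (by omega)
    · rintro ⟨-, h1, h2⟩
      refine ⟨fun k hk => ?_, fun k hk => ?_⟩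
      · have := anti_PathPot h hk.1 (show k ≤ i - 1 by omega) (by omega)
        omega
      · have := anti_PathPot h hi hk.1 hk.2
        omega

end Pool.Agent.MP_8b9287_co.Geo
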