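import Pool.Agent.MP_8b9287_co.Geo.St

namespace Pool.Agent.MP_8b9287_co.Geo

open Filter Topology

/-- Entries as a total function on naturals. -/
noncomputable def ev_PathVal {r N : ℕ} (y : Mat r N) (i j : ℕ) : ℂ :=
  if h : i < r ∧ j < N then y ⟨i, h.1⟩ ⟨j, h.2⟩ else 1

theorem ev_fin_PathVal {r N : ℕ} (y : Mat r N) (i : Fin r) (j : Fin N) :
    ev_PathVal y i j = y i j := dif_pos ⟨i.2, j.2⟩

theorem ev_cd_PathVal (r N i j : ℕ) : ContDiff ℂ 1 fun y : Mat r N => ev_PathVal y i j := by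
  unfold ev_PathVal
  split_ifs with h
  · exact contDiff_apply_apply ℂ ℂ _ _
  · exact contDiff_const

/-- The row factors. -/
noncomputable def a_PathVal {r N : ℕ} (m : ℕ) (L : ℕ → ℕ → ℕ) (i : ℕ) (y : Mat r N) : ℂ :=
  ∏ t ∈ Finset.Ico m i, ev_PathVal y (t + 1) (L t m) * (ev_PathVal y t (L t m))⁻¹

theorem anti_PathVal {r m : ℕ} {L : ℕ → ℕ → ℕ} (hL : IsGT r L) {i t : ℕ} (hi : m ≤ i)
    (ht : i ≤ t) : t < r → L t m ≤ L i m := by
  induction t, ht using Nat.le_induction with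
  | base => exact fun _ => le_rfl
  | succ t ht ih => exact fun h => (hL t m (hi.trans ht) h).1.trans (ih (by omega))

theorem on1_PathVal {r m : ℕ} {L : ℕ → ℕ → ℕ} (hL : IsGT r L) {t : ℕ} (h1 : m ≤ t)
    (h2 : t < r) : onP L m t (L t m) := by
  refine ⟨h1, le_rfl, ?_⟩
  rcases h1.eq_or_lt with h | h
  · exact Or.inl h.symm
  · exact Or.inr (anti_PathVal hL (by omega) (Nat.sub_le t 1) h2)

theorem on2_PathVal {r m : ℕ} {L : ℕ → ℕ → ℕ} (hL : IsGT r L) {t : ℕ} (h1 : m ≤ t)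
    (h2 : t + 1 < r) : onP L m (t + 1) (L t m) :=
  ⟨by omega, (hL t m h1 h2).1, Or.inr le_rfl⟩

theorem nz_PathVal {r N m : ℕ} {L : ℕ → ℕ → ℕ} {y : Mat r N}
    (hy : ∀ (i : Fin r) (j : Fin N), onP L m i j → y i j ≠ 0) {i j : ℕ} (h : onP L m i j) :
    ev_PathVal y i j ≠ 0 := by
  unfold ev_PathVal
  split_ifs with h1
  · exact hy ⟨i, h1.1⟩ ⟨j, h1.2⟩ h
  · exact one_ne_zero

theorem a_ne_PathVal {r N m : ℕ} {L : ℕ → ℕ → ℕ} (hL : IsGT r L) {y : Mat r N}
    (hy : ∀ (i : Fin r) (j : Fin N), onP L m i j → y i j ≠ 0) {i : ℕ} (hi : i < r) :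
    a_PathVal m L i y ≠ 0 := by
  refine Finset.prod_ne_zero_iff.2 fun t ht => ?_
  obtain ⟨h1, h2⟩ := Finset.mem_Ico.1 ht
  exact mul_ne_zero (nz_PathVal hy (on2_PathVal hL h1 (by omega)))
    (inv_ne_zero (nz_PathVal hy (on1_PathVal hL h1 (by omega))))

theorem a_cd_PathVal {r N m : ℕ} {L : ℕ → ℕ → ℕ} (hL : IsGT r L) {y : Mat r N}
    (hy : ∀ (i : Fin r) (j : Fin N), onP L m i j → y i j ≠ 0) {i : ℕ} (hi : i < r) :
    ContDiffAt ℂ 1 (a_PathVal (r := r) (N := N) m L i) y := by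
  refine contDiffAt_prod fun t ht => ?_
  obtain ⟨h1, h2⟩ := Finset.mem_Ico.1 ht
  exact (ev_cd_PathVal r N _ _).contDiffAt.mul ((ev_cd_PathVal r N _ _).contDiffAt.inv
    (nz_PathVal hy (on1_PathVal hL h1 (by omega))))

theorem col_PathVal {r N m : ℕ} {L : ℕ → ℕ → ℕ} (hL : IsGT r L) {y : Mat r N}
    (hy : ∀ (i : Fin r) (j : Fin N), onP L m i j → y i j ≠ 0) {i t j : ℕ} (h1 : m ≤ i)
    (h2 : L i m ≤ j) (ht : i ≤ t) : t < r → (t = i ∨ j ≤ L (t - 1) m) →
      a_PathVal m L t y * ev_PathVal y i j = a_PathVal m L i y * ev_PathVal y t j := by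
  induction t, ht using Nat.le_induction with
  | base => exact fun _ _ => rfl
  | succ t ht ih =>
    intro h3 h4
    have h5 : j ≤ L t m := h4.resolve_left (by omega)
    have h6 : L t m = j := le_antisymm ((anti_PathVal hL h1 ht (by omega)).trans h2) h5
    have h7 := ih (by omega) (by
      rcases ht.eq_or_lt with h | h
      · exact Or.inl h.symm
      · exact Or.inr (h5.trans (anti_PathVal hL (by omega) (Nat.sub_le t 1) (by omega))))
    have h8 := nz_PathVal hy (on1_PathVal hL (h1.trans ht) (by omega))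
    have h9 : a_PathVal m L (t + 1) y = a_PathVal m L t y *
        (ev_PathVal y (t + 1) (L t m) * (ev_PathVal y t (L t m))⁻¹) :=
      Finset.prod_Ico_succ_top (h1.trans ht) _
    rw [h6] at h8 h9
    rw [h9, mul_right_comm, h7]
    field_simp

theorem col2_PathVal {r N m : ℕ} {L : ℕ → ℕ → ℕ} (hL : IsGT r L) {y : Mat r N}
    (hy : ∀ (i : Fin r) (j : Fin N), onP L m i j → y i j ≠ 0) {i t : Fin r} {j : Fin N}
    (hi : onP L m i j) (ht : onP L m t j) :
    a_PathVal m L t y * y i j = a_PathVal m L i y * y t j := by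
  rw [← ev_fin_PathVal y i j, ← ev_fin_PathVal y t j]
  rcases le_total (i : ℕ) t with h | h
  · refine col_PathVal hL hy hi.1 hi.2.1 h t.2 (ht.2.2.imp_left fun e => ?_)
    have := hi.1
    omega
  · refine (col_PathVal hL hy ht.1 ht.2.1 h i.2 (hi.2.2.imp_left fun e => ?_)).symm
    have := ht.1
    omega

theorem sPathVal : SPathVal := by
  classical
  intro r N m L y₀ hL _ _ h0
  refine ⟨fun i => a_PathVal m L i, fun j y => if h : ∃ i : Fin r, onP L m i j then
    y h.choose j * (a_PathVal m L h.choose y)⁻¹ else 1, fun i => a_cd_PathVal hL h0 i.2,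
    fun j => ?_, ?_⟩
  · by_cases h : ∃ i : Fin r, onP L m i j
    · simp only [dif_pos h]
      exact (contDiff_apply_apply ℂ ℂ _ _).contDiffAt.mul
        ((a_cd_PathVal hL h0 h.choose.2).inv (a_ne_PathVal hL h0 h.choose.2))
    · simp only [dif_neg h]
      exact contDiffAt_const
  · have h1 : ∀ᶠ y in 𝓝 y₀, ∀ (i : Fin r) (j : Fin N), onP L m i j → y i j ≠ 0 := by
      refine eventually_all.2 fun i => eventually_all.2 fun j => ?_
      by_cases h : onP L m i j
      · exact ((continuous_apply_apply i j).continuousAt.eventually_ne (h0 i j h)).mono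
          fun y hy _ => hy
      · exact Eventually.of_forall fun y hy => absurd hy h
    filter_upwards [h1] with y hy i j hij
    have h : ∃ i : Fin r, onP L m i j := ⟨i, hij⟩
    rw [dif_pos h, ← mul_assoc, col2_PathVal hL hy h.choose_spec hij, mul_right_comm,
      mul_inv_cancel₀ (a_ne_PathVal hL hy h.choose.2), one_mul]

end Pool.Agent.MP_8b9287_co.Geo
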