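import Pool.Agent.MP_8b9287_co.Geo.St

/-! The bases of a paving matroid are the sets outside the large hyperplanes. -/

namespace Pool.Agent.MP_8b9287_co.Geo

open Finset

theorem sPav : SPav := by
  classical
  intro n c M hM hI
  have h : Pav M c := ⟨hM.1, hM.2, fun I hc => hI I hc.le⟩
  have mem : ∀ H : Finset (Fin n),
      H ∈ ((powersetCard c univ).image (cl M)).filter (fun H => c + 1 ≤ H.card) ↔
        (∃ I : Finset (Fin n), I.card = c ∧ cl M I = H) ∧ c + 1 ≤ H.card := fun H => by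
    simp only [mem_filter, mem_image, mem_powersetCard, subset_univ, true_and]
  refine ⟨((powersetCard c univ).image (cl M)).filter (fun H => c + 1 ≤ H.card), fun H hH => ?_,
    fun H hH H' hH' hne => ?_, fun B => ⟨fun hB => ?_, fun hB => ?_⟩⟩
  · obtain ⟨⟨I, h1, rfl⟩, h2⟩ := (mem H).1 hH
    obtain ⟨x, hx⟩ := h.cl_ne h1
    refine ⟨h2, ?_⟩
    have := card_lt_card (ssubset_univ_iff.2 fun e : cl M I = univ => hx (e ▸ mem_univ x))
    rwa [card_univ, Fintype.card_fin] at this
  · obtain ⟨⟨I, h1, rfl⟩, -⟩ := (mem H).1 hH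
    obtain ⟨⟨I', h1', rfl⟩, -⟩ := (mem H').1 hH'
    by_contra hc
    obtain ⟨J, j1, j2⟩ := exists_subset_card_eq (s := cl M I ∩ cl M I') (n := c) (by omega)
    exact hne ((h.cl_eq h1 j2 (j1.trans inter_subset_left)).symm.trans
      (h.cl_eq h1' j2 (j1.trans inter_subset_right)))
  · have e := hB.encard_eq_eRank
    rw [h.hr, Set.encard_coe_eq_coe_finsetCard] at e
    have e' : B.card = c + 1 := by exact_mod_cast e
    refine ⟨e', fun H hH hBH => ?_⟩
    obtain ⟨⟨I, h1, rfl⟩, -⟩ := (mem H).1 hH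
    have h2 := M.eRk_mono (a := (B : Set (Fin n))) (b := M.closure (I : Set (Fin n)))
      fun x hx => mem_cl.1 (hBH hx)
    rw [Matroid.eRk_closure_eq, h.eRk h1, hB.indep.eRk_eq_encard,
      Set.encard_coe_eq_coe_finsetCard, e'] at h2
    have : c + 1 ≤ c := by exact_mod_cast h2
    omega
  · obtain ⟨x, hx⟩ := card_pos.1 (by rw [hB.1]; omega : 0 < B.card)
    have h1 : (B.erase x).card = c := by rw [card_erase_of_mem hx, hB.1]; rfl
    have h2 : x ∉ cl M (B.erase x) := fun hc => by
      have h3 : B ⊆ cl M (B.erase x) := fun y hy => by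
        by_cases e : y = x
        · rwa [e]
        · exact h.subset_cl _ (mem_erase.2 ⟨e, hy⟩)
      exact hB.2 _ ((mem _).2 ⟨⟨_, h1, rfl⟩, hB.1 ▸ card_le_card h3⟩) h3
    have e : (B : Set (Fin n)) = insert x ((B.erase x : Finset (Fin n)) : Set (Fin n)) := by
      rw [← coe_insert, insert_erase hx]
    have h4 : M.Indep (insert x ((B.erase x : Finset (Fin n)) : Set (Fin n))) := by
      rw [(h.hi _ h1).insert_indep_iff_of_notMem (by simp), h.hE]
      exact ⟨Set.mem_univ _, fun h' => h2 (mem_cl.2 h')⟩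
    rw [e]
    exact h4.isBase_of_ground_subset_closure fun y _ => h.span h1 h2 y

end Pool.Agent.MP_8b9287_co.Geo
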