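import Pool.Agent.MP_8b9287_co.Geo.St

namespace Pool.Agent.MP_8b9287_co.Geo

open Module

theorem mono_Piv {r N : ℕ} (M : Mat r N) {q q' : ℕ} (h : q ≤ q') : colSp M q ≤ colSp M q' :=
  Submodule.span_mono (Set.image_mono fun _ hj => lt_of_lt_of_le hj h)

theorem mem_Piv {r N : ℕ} (M : Mat r N) {q : ℕ} {j : Fin N} (h : (j : ℕ) < q) :
    (fun i => M i j) ∈ colSp M q :=
  Submodule.subset_span ⟨j, h, rfl⟩

theorem succ_Piv {r N : ℕ} (M : Mat r N) (j : Fin N) :
    colSp M ((j : ℕ) + 1) ≤ colSp M j ⊔ Submodule.span ℂ {fun i => M i j} := by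
  refine Submodule.span_le.2 ?_
  rintro _ ⟨j', hj', rfl⟩
  rcases Nat.lt_succ_iff_lt_or_eq.1 hj' with h | h
  · exact Submodule.mem_sup_left (mem_Piv M h)
  · obtain rfl : j' = j := Fin.ext h
    exact Submodule.mem_sup_right (Submodule.mem_span_singleton_self _)

theorem rk_Piv {r N : ℕ} (M : Mat r N) (j : Fin N) :
    finrank ℂ (colSp M ((j : ℕ) + 1)) ≤ finrank ℂ (colSp M j) + 1 := by
  refine (Submodule.finrank_mono (succ_Piv M j)).trans
    ((Submodule.finrank_add_le_finrank_add_finrank _ _).trans (Nat.add_le_add_left ?_ _))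
  simpa using finrank_span_le_card (R := ℂ) ({fun i => M i j} : Set (Fin r → ℂ))

theorem ex_Piv {r N : ℕ} (M : Mat r N) (hM : colSp M N = ⊤) (s : Fin r) :
    ∃ j : Fin N, finrank ℂ (colSp M j) ≤ s ∧ (s : ℕ) < finrank ℂ (colSp M ((j : ℕ) + 1)) := by
  have h0 : finrank ℂ (colSp M 0) = 0 := by
    have e : {j : Fin N | (j : ℕ) < 0} = ∅ := by
      ext j
      simp
    rw [colSp, e, Set.image_empty, Submodule.span_empty, finrank_bot]
  have hN : finrank ℂ (colSp M N) = r := by
    rw [hM]
    simp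
  have hex : ∃ q, (s : ℕ) < finrank ℂ (colSp M q) := ⟨N, hN.symm ▸ s.2⟩
  have h1 := Nat.find_spec hex
  have h2 : Nat.find hex ≤ N := Nat.find_min' hex (hN.symm ▸ s.2)
  have h3 : Nat.find hex ≠ 0 := fun h => by
    rw [h, h0] at h1
    omega
  obtain ⟨q, hq⟩ := Nat.exists_eq_succ_of_ne_zero h3
  refine ⟨⟨q, by omega⟩, not_lt.1 (Nat.find_min hex (by simp only; omega)), ?_⟩
  rwa [hq] at h1

theorem sPiv (hR : SRk) : SPiv := by
  classical
  intro r N js M hO hM
  choose jj h1 h2 using ex_Piv M hM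
  have dm : ∀ {q q' : ℕ}, q ≤ q' → finrank ℂ (colSp M q) ≤ finrank ℂ (colSp M q') :=
    fun h => Submodule.finrank_mono (mono_Piv M h)
  have hsm : StrictMono jj := by
    intro s t hst
    by_contra h
    have h3 : (jj t : ℕ) ≤ jj s := not_lt.1 h
    have h4 := dm (Nat.add_le_add_right h3 1)
    have h5 := rk_Piv M (jj s)
    have h6 := h1 s
    have h7 := h2 t
    have h8 : (s : ℕ) < t := hst
    have h9 := h2 s
    rcases h3.eq_or_lt with e | e
    · omega
    · have := dm (show (jj t : ℕ) + 1 ≤ jj s from e)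
      omega
  refine ⟨jj, hsm, fun s => ?_, ?_, fun s I J hJ => (hR r N M (jj s) s).2 (h1 s) I J hJ⟩
  · by_contra h
    have h3 : (jj s : ℕ) + 1 ≤ js s := not_le.1 h
    have h4 := (hR r N M (js s) s).1 fun I J hJ => hO s I J hJ
    have h5 := dm h3
    have h6 := h2 s
    omega
  · have hn : ∀ s, (fun i => M i (jj s)) ∉ colSp M (jj s) := by
      intro s hs
      have h3 : colSp M ((jj s : ℕ) + 1) ≤ colSp M (jj s) :=
        (succ_Piv M (jj s)).trans (sup_le le_rfl ((Submodule.span_singleton_le_iff_mem _ _).2 hs))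
      have h4 := Submodule.finrank_mono h3
      have h5 := h1 s
      have h6 := h2 s
      omega
    have hli : LinearIndependent ℂ fun (s : Fin r) (i : Fin r) => M i (jj s) := by
      rw [Fintype.linearIndependent_iff]
      intro g hg
      by_contra hne
      obtain ⟨s, hs, hmax⟩ := Finset.exists_max_image (Finset.univ.filter fun s => g s ≠ 0) id (by
        obtain ⟨s, hs⟩ := not_forall.1 hne
        exact ⟨s, Finset.mem_filter.2 ⟨Finset.mem_univ _, hs⟩⟩)
      have hs0 : g s ≠ 0 := (Finset.mem_filter.1 hs).2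
      apply hn s
      rw [← Finset.add_sum_erase _ _ (Finset.mem_univ s)] at hg
      have h3 : (∑ t ∈ Finset.univ.erase s, g t • fun i => M i (jj t)) ∈ colSp M (jj s) := by
        refine Submodule.sum_mem _ fun t ht => ?_
        by_cases h0 : g t = 0
        · rw [h0, zero_smul]
          exact Submodule.zero_mem _
        · have h4 : t ≤ s := hmax t (Finset.mem_filter.2 ⟨Finset.mem_univ _, h0⟩)
          exact Submodule.smul_mem _ _
            (mem_Piv M (hsm (lt_of_le_of_ne h4 (Finset.ne_of_mem_erase ht))))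
      rw [← Submodule.smul_mem_iff _ hs0, eq_neg_of_add_eq_zero_left hg]
      exact Submodule.neg_mem _ h3
    have hu : IsUnit (Matrix.of fun a b => M (id a) (jj b)) :=
      Matrix.linearIndependent_cols_iff_isUnit.1 hli
    exact ((Matrix.isUnit_iff_isUnit_det _).1 hu).ne_zero

end Pool.Agent.MP_8b9287_co.Geo
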