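import Pool.Agent.MP_8b9287_co.Geo.St

namespace Pool.Agent.MP_8b9287_co.Geo

open Module

theorem pick_Rk {d m : ℕ} (S : Set (Fin d → ℂ)) (h : m ≤ finrank ℂ (Submodule.span ℂ S)) :
    ∃ f : Fin m → Fin d → ℂ, (∀ i, f i ∈ S) ∧ LinearIndependent ℂ f := by
  obtain ⟨f, h1, -, h3⟩ := Submodule.exists_fun_fin_finrank_span_eq ℂ S
  exact ⟨fun i => f (Fin.castLE h i), fun i => h1 _, h3.comp _ (Fin.castLE_injective h)⟩

theorem sRk : SRk := by
  intro r N M q s
  constructor
  · intro h
    by_contra hlt
    have h1 : s + 1 ≤ finrank ℂ (colSp M q) := by omega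
    obtain ⟨f, hf, hli⟩ := pick_Rk _ h1
    choose J hJ hJf using hf
    set A : Matrix (Fin r) (Fin (s + 1)) ℂ := Matrix.of fun i b => M i (J b) with hA
    have hcol : A.col = f := by
      funext b
      rw [← hJf b]
      rfl
    have hrk : s + 1 ≤ finrank ℂ (Submodule.span ℂ (Set.range A.row)) := by
      rw [← Matrix.rank_eq_finrank_span_row, Matrix.rank_eq_finrank_span_cols, hcol,
        finrank_span_eq_card hli, Fintype.card_fin]
    obtain ⟨g, hg, hlg⟩ := pick_Rk _ hrk
    choose I hI using hg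
    have hrow : (Matrix.of fun a b => M (I a) (J b)).row = g := by
      funext a
      rw [← hI a]
      rfl
    have hu : IsUnit (Matrix.of fun a b => M (I a) (J b)) :=
      Matrix.linearIndependent_rows_iff_isUnit.1 (hrow ▸ hlg)
    exact ((Matrix.isUnit_iff_isUnit_det _).1 hu).ne_zero (h I J hJ)
  · intro h I J hJ
    by_contra hne
    have h1 := Matrix.linearIndependent_cols_of_det_ne_zero hne
    have h2 : LinearIndependent ℂ (fun (b : Fin (s + 1)) (i : Fin r) => M i (J b)) :=
      LinearIndependent.of_comp (LinearMap.funLeft ℂ ℂ I) h1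
    have h3 : Submodule.span ℂ (Set.range fun (b : Fin (s + 1)) (i : Fin r) => M i (J b)) ≤
        colSp M q := by
      refine Submodule.span_mono ?_
      rintro _ ⟨b, rfl⟩
      exact ⟨J b, hJ b, rfl⟩
    have h4 := Submodule.finrank_mono h3
    rw [finrank_span_eq_card h2, Fintype.card_fin] at h4
    omega

end Pool.Agent.MP_8b9287_co.Geo
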