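import Pool.Agent.MP_8b9287_co.Geo.Base

/-! Statements of the steps; each is proved in its own file. -/

namespace Pool.Agent.MP_8b9287_co.Geo

open Module Filter Topology

/-! ### Analysis -/

def SIFT : Prop :=
  ∀ (P X T : Type) [NormedAddCommGroup P] [NormedSpace ℂ P] [FiniteDimensional ℂ P]
    [NormedAddCommGroup X] [NormedSpace ℂ X] [FiniteDimensional ℂ X]
    [NormedAddCommGroup T] [NormedSpace ℂ T] [FiniteDimensional ℂ T]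
    (F : P × X → T) (p₀ : P) (x₀ : X), ContDiffAt ℂ 1 F (p₀, x₀) →
    (∀ x' : X, fderiv ℂ F (p₀, x₀) (0, x') = 0 → x' = 0) →
    (∃ W ∈ 𝓝 (p₀, x₀), ∀ p x x', (p, x) ∈ W → (p, x') ∈ W → F (p, x) = F (p, x') → x = x') ∧
    (finrank ℂ X = finrank ℂ T → ∀ W ∈ 𝓝 (p₀, x₀), ∀ᶠ p in 𝓝 p₀,
      ∃ x, (p, x) ∈ W ∧ F (p, x) = F (p₀, x₀))

def SALle : Prop :=
  ∀ (k : ℕ) (P : Type) [TopologicalSpace P] (C : Set (P × (Fin k → ℂ))) (p₀ : P)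
    (ι : Type) [Fintype ι] (u : ι → Fin k → ℂ) (co : ι → Fin k)
    (W : ι → Set (P × (Fin k → ℂ))), IsClosed C →
    (∀ p v (a : ℂ), (p, v) ∈ C → (p, a • v) ∈ C) → (∀ i, u i (co i) = 1) →
    (∀ v, v ≠ 0 → (p₀, v) ∈ C → ∃ (i : ι) (a : ℂ), v = a • u i) →
    (∀ i, W i ∈ 𝓝 (p₀, u i)) →
    (∀ i p v v', (p, v) ∈ W i → (p, v') ∈ W i → (p, v) ∈ C → (p, v') ∈ C →
      v (co i) = 1 → v' (co i) = 1 → v = v') →
    ∀ᶠ p in 𝓝 p₀, lines {v | (p, v) ∈ C} ≤ (Fintype.card ι : ℕ∞)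

def SALge : Prop :=
  ∀ (k : ℕ) (P : Type) (𝓕 : Filter P) (S : P → Set (Fin k → ℂ))
    (ι : Type) [Fintype ι] (u : ι → Fin k → ℂ), (∀ i, u i ≠ 0) →
    (∀ i i', Submodule.span ℂ ({u i} : Set (Fin k → ℂ)) = Submodule.span ℂ {u i'} → i = i') →
    (∀ i, ∀ W ∈ 𝓝 (u i), ∀ᶠ p in 𝓕, ∃ v ∈ W, v ∈ S p) →
    ∀ᶠ p in 𝓕, (Fintype.card ι : ℕ∞) ≤ lines (S p)

/-! ### Field theory -/

def SDense : Prop :=
  ∀ (K : Subfield ℂ), (K : Set ℂ).Countable → ∀ (ι : Type) [Fintype ι],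
    Dense {x : ι → ℂ | AlgebraicIndependent K x}

def SAut : Prop :=
  ∀ (ι : Type) [Fintype ι] (x y : ι → ℂ), AlgebraicIndependent ℚ x → AlgebraicIndependent ℚ y →
    ∃ σ : ℂ ≃+* ℂ, ∀ i, σ (x i) = y i

def SCntAut : Prop :=
  ∀ (k r N : ℕ) (js : Fin r → Fin N) (l : Fin k → Mat r N) (σ : ℂ ≃+* ℂ),
    cnt js (fun a i j => σ (l a i j)) = cnt js l

def SGen : Prop :=
  ∀ (k r N : ℕ) (js : Fin r → Fin N) (U₁ U₂ : Set (Fin k → Mat r N)), IsOpen U₁ → IsOpen U₂ →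
    U₁.Nonempty → U₂.Nonempty → ∃ l₁ ∈ U₁, ∃ l₂ ∈ U₂, cnt js l₁ = cnt js l₂

def SDer : Prop :=
  ∀ (K : Subfield ℂ) (ι : Type) (x : ι → ℂ), AlgebraicIndependent K x → ∀ Δ : ι → ℂ,
    ∃ δ : Derivation ℤ ℂ ℂ, (∀ s ∈ K, δ s = 0) ∧ ∀ i, δ (x i) = Δ i

def SFree : Prop :=
  ∀ (n : ℕ) (S : Set ℂ), S.Finite → ∀ P : MvPolynomial (Fin n × Fin n) ℂ, P ≠ 0 →
    ∃ g : Fin n → Fin n → ℂ, MvPolynomial.eval (fun p => g p.1 p.2) P ≠ 0 ∧ Free S g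

def SDerDet : Prop :=
  ∀ (r N s : ℕ) (I : Fin s → Fin r) (J : Fin s → Fin N),
    ContDiff ℂ 1 (fun M : Mat r N => mnr M I J) ∧
    ∀ (δ : Derivation ℤ ℂ ℂ) (M : Mat r N),
      δ (mnr M I J) = fderiv ℂ (fun M : Mat r N => mnr M I J) M (fun i j => δ (M i j))

/-! ### Linear algebra of the rank conditions -/

def SRk : Prop :=
  ∀ (r N : ℕ) (M : Mat r N) (q s : ℕ),
    (∀ (I : Fin (s + 1) → Fin r) (J : Fin (s + 1) → Fin N), (∀ b, (J b : ℕ) < q) → mnr M I J = 0)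
      ↔ finrank ℂ (colSp M q) ≤ s

def SLoc1 : Prop :=
  ∀ (r N : ℕ) (js : Fin r → Fin N) (M : Mat r N), StrictMono js → Om js M → Phi js M = 0

def SLoc2 : Prop :=
  ∀ (r N : ℕ) (js : Fin r → Fin N) (M : Mat r N), StrictMono js → mnr M id js ≠ 0 →
    Phi js M = 0 → Om js M

def SPiv : Prop :=
  ∀ (r N : ℕ) (js : Fin r → Fin N) (M : Mat r N), Om js M → colSp M N = ⊤ →
    ∃ jj : Fin r → Fin N, StrictMono jj ∧ (∀ s, js s ≤ jj s) ∧ mnr M id jj ≠ 0 ∧ Om jj M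

def SKStr : Prop :=
  ∀ (r N : ℕ) (js : Fin r → Fin N) (M : Mat r N), mnr M id js ≠ 0 →
    Function.Surjective (fderiv ℂ (Phi js) M)

def SForb : Prop :=
  ∀ (r N : ℕ) (js : Fin r → Fin N), StrictMono js →
    Fintype.card (Forb js) + ∑ s : Fin r, (s : ℕ) = ∑ s, (js s : ℕ)

def SKA1 : Prop :=
  ∀ (k r m N : ℕ) (A : Fin r → Fin m → ℂ) (X : Fin k → Fin m → ℂ) (G : Fin N → Fin m → ℂ)
    (S : Set ℂ) (v : Fin k → ℂ) (jj : Fin r → Fin N), (∀ i j, A i j ∈ S) → (∀ a j, X a j ∈ S) →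
    Free S G → Function.Surjective (mv A X v) → mnr (ap (lA A X G) v) id jj ≠ 0 →
    Phi jj (ap (lA A X G) v) = 0 → ∀ τ : Forb jj → ℂ, ∃ δ : Derivation ℤ ℂ ℂ,
      (∀ s ∈ S, δ s = 0) ∧
      fderiv ℂ (Phi jj) (ap (lA A X G) v) (ap (lA A X G) fun a => δ (v a)) = τ

def SKA : Prop :=
  ∀ (c r m N : ℕ) (js : Fin r → Fin N) (A : Fin r → Fin m → ℂ) (X : Fin (c + 1) → Fin m → ℂ)
    (G : Fin N → Fin m → ℂ) (S : Set ℂ), Cod c js → (∀ i j, A i j ∈ S) → (∀ a j, X a j ∈ S) →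
    Free S G → IsKer A X → (∀ v, v ≠ 0 → Function.Surjective (mv A X v)) →
    (∀ j, ∃ a, X a j ≠ 0) → FS G N = ⊤ →
    Good js (lA A X G) ∧ ∀ v, v ≠ 0 → Om js (ap (lA A X G) v) → ∀ j, vX X v j ≠ 0

/-! ### Conservation of the number of solutions -/

def SCoreGe : Prop :=
  ∀ (c r N : ℕ) (js : Fin r → Fin N) (l₀ : Fin (c + 1) → Mat r N), Cod c js → Good js l₀ →
    ∀ e : ℕ, (e : ℕ∞) ≤ cnt js l₀ → ∀ᶠ l in 𝓝 l₀, (e : ℕ∞) ≤ cnt js l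

def SCoreLe : Prop :=
  ∀ (c r N : ℕ) (js : Fin r → Fin N) (l₀ : Fin (c + 1) → Mat r N), Cod c js → Good js l₀ →
    cnt js l₀ ≠ ⊤ → ∀ᶠ l in 𝓝 l₀, cnt js l ≤ cnt js l₀

def SCore : Prop :=
  ∀ (c r N : ℕ) (js : Fin r → Fin N) (l₀ : Fin (c + 1) → Mat r N), 0 < r → c < N → Cod c js →
    Good js l₀ → cnt js l₀ = (HG js).encard

/-! ### The degeneration -/

def SGP1 : Prop :=
  ∀ (k : ℕ) (ι : Type) [Fintype ι], ∃ X : Fin k → ι → ℂ, GP X ∧ (0 < k → ∀ j, ∃ a, X a j ≠ 0)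

def SGP2 : Prop :=
  ∀ (c : ℕ) (ι : Type) (X : Fin (c + 1) → ι → ℂ) (Z : Finset ι), GP X → Z.card = c →
    (∃ j, j ∉ Z) → ∃ (u : Fin (c + 1) → ℂ) (i : Fin (c + 1)), u i = 1 ∧
      (∀ j, vX X u j = 0 ↔ j ∈ Z) ∧ ∀ v, (∀ j ∈ Z, vX X v j = 0) → v = v i • u

def SGP3 : Prop :=
  ∀ (k m : ℕ) (X : Fin k → Fin m → ℂ), GP X → k ≤ m → LinearIndependent ℂ X ∧
    ∀ I : Finset (Fin m), I.card ≤ k →
      LinearIndepOn ℂ (fun (j : Fin m) (a : Fin k) => X a j) (I : Set (Fin m))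

def STropDet : Prop :=
  ∀ (r N s : ℕ) (I : Fin s → Fin r) (J : Fin s → Fin N), StrictMono I → StrictMono J →
    ∃ (W : ℕ) (g : ℂ × Mat r N → ℂ), ContDiff ℂ 1 g ∧
      (∀ t Y, mnr (sc t Y) I J = t ^ W * g (t, Y)) ∧ (∀ Y, g (0, Y) = ∏ a, Y (I a) (J a)) ∧
      ∀ (t : ℂ) (Y : Mat r N) (x : ℂ), g (t, x • Y) = x ^ s * g (t, Y)

/-- From an eventual property of scaled families to an open set of families. -/
def SScl : Prop :=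
  ∀ (k r N : ℕ) (lam₀ : Fin k → Mat r N) (Q : (Fin k → Mat r N) → Prop),
    (∀ᶠ p : ℂ × (Fin k → Mat r N) in 𝓝 (0, lam₀), p.1 ≠ 0 → Q (fun a => sc p.1 (p.2 a))) →
    ∃ U : Set (Fin k → Mat r N), IsOpen U ∧ U.Nonempty ∧ ∀ l ∈ U, Q l

/-- Local uniqueness near the limit point of a minimal hitting set. -/
def STropU1 : Prop :=
  ∀ (c r N : ℕ) (lam₀ : Fin (c + 1) → Mat r N) (Z : Finset (Fin r × Fin N))
    (u : Fin (c + 1) → ℂ) (i : Fin (c + 1)) (g : Z → ℂ × Mat r N → ℂ)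
    (ch : Z → Finset (Fin r × Fin N)), u i = 1 →
    (∀ p : Fin r × Fin N, ap lam₀ u p.1 p.2 = 0 ↔ p ∈ Z) →
    (∀ v, (∀ p ∈ Z, ap lam₀ v p.1 p.2 = 0) → v = v i • u) →
    (∀ z, ContDiff ℂ 1 (g z)) → (∀ z Y, g z (0, Y) = ∏ p ∈ ch z, Y p.1 p.2) →
    (∀ z : Z, z.1 ∈ ch z ∧ ∀ p ∈ ch z, p ∈ Z → p = z.1) →
    ∃ W ∈ 𝓝 ((((0 : ℂ), lam₀) : ℂ × (Fin (c + 1) → Mat r N)), u),
      ∀ (p : ℂ × (Fin (c + 1) → Mat r N)) (v v' : Fin (c + 1) → ℂ), (p, v) ∈ W → (p, v') ∈ W →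
        (∀ z, g z (p.1, ap p.2 v) = 0) → (∀ z, g z (p.1, ap p.2 v') = 0) →
        v i = 1 → v' i = 1 → v = v'

def STropUp : Prop :=
  ∀ (c r N : ℕ) (js : Fin r → Fin N), 0 < r → c < N → Cod c js →
    ∃ U : Set (Fin (c + 1) → Mat r N), IsOpen U ∧ U.Nonempty ∧
      ∀ l ∈ U, cnt js l ≤ (HG js).encard

def SPathPot : Prop :=
  ∀ (r m : ℕ) (L : ℕ → ℕ → ℕ), IsGT r L → m < r → ∃ (α β : ℕ → ℤ) (e : ℕ → ℕ → ℕ),
    ∀ i j, m ≤ i → i < r → L (r - 1) m ≤ j →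
      ((e i j + (r - i) * j : ℕ) : ℤ) = α i + β j ∧ (e i j = 0 ↔ onP L m i j)

def SPathVal : Prop :=
  ∀ (r N m : ℕ) (L : ℕ → ℕ → ℕ) (y₀ : Mat r N), IsGT r L → m < r →
    (∀ i, m ≤ i → i < r → L i m < N) →
    (∀ (i : Fin r) (j : Fin N), onP L m i j → y₀ i j ≠ 0) →
    ∃ (a : Fin r → Mat r N → ℂ) (b : Fin N → Mat r N → ℂ),
      (∀ i, ContDiffAt ℂ 1 (a i) y₀) ∧ (∀ j, ContDiffAt ℂ 1 (b j) y₀) ∧
      ∀ᶠ y in 𝓝 y₀, ∀ (i : Fin r) (j : Fin N), onP L m i j → a i y * b j y = y i j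

/-- One rank-one term. -/
def SPathFun : Prop :=
  ∀ (r N m : ℕ) (L : ℕ → ℕ → ℕ) (y₀ : Mat r N), IsGT r L → m < r →
    (∀ i, m ≤ i → i < r → L i m < N) →
    (∀ (i : Fin r) (j : Fin N), onP L m i j → y₀ i j ≠ 0) →
    ∃ φ : ℂ × Mat r N → Mat r N, ContDiffAt ℂ 1 φ (0, y₀) ∧
      (∀ᶠ y in 𝓝 y₀, ∀ (i : Fin r) (j : Fin N),
        (onP L m i j → φ (0, y) i j = y i j) ∧ (¬ onP L m i j → φ (0, y) i j = 0)) ∧
      ∀ (t : ℂ) (y : Mat r N), t ≠ 0 → ∃ (a : Fin r → ℂ) (b : Fin N → ℂ),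
        (∀ j : Fin N, (j : ℕ) < L (r - 1) m → b j = 0) ∧ ∀ i j, sc t (φ (t, y)) i j = a i * b j

def SOmSum : Prop :=
  ∀ (r N : ℕ) (js : Fin r → Fin N) (a : Fin r → Fin r → ℂ) (b : Fin r → Fin N → ℂ),
    StrictMono js → (∀ m j, j < js m → b m j = 0) → Om js (fun i j => ∑ m, a m i * b m j)

def SParam : Prop :=
  ∀ (r N : ℕ) (js : Fin r → Fin N) (Z : Finset (Fin r × Fin N)) (y₀ : Mat r N), StrictMono js →
    Z ∈ HG js → (∀ p : Fin r × Fin N, p ∉ Z → y₀ p.1 p.2 ≠ 0) →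
    ∃ φ : ℂ × Mat r N → Mat r N, ContDiffAt ℂ 1 φ (0, y₀) ∧ (∀ᶠ y in 𝓝 y₀, φ (0, y) = y) ∧
      ∀ (t : ℂ) (y : Mat r N), t ≠ 0 → (∀ p ∈ Z, y p.1 p.2 = 0) → Om js (sc t (φ (t, y)))

/-- Local existence near the limit point of a hole set. -/
def STropL1 : Prop :=
  ∀ (c r N : ℕ) (lam₀ : Fin (c + 1) → Mat r N) (Z : Finset (Fin r × Fin N))
    (u : Fin (c + 1) → ℂ) (i : Fin (c + 1)) (φ : ℂ × Mat r N → Mat r N), Z.card = c → u i = 1 →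
    (∀ p ∈ Z, ap lam₀ u p.1 p.2 = 0) →
    (∀ v, (∀ p ∈ Z, ap lam₀ v p.1 p.2 = 0) → v = v i • u) →
    ContDiffAt ℂ 1 φ (0, ap lam₀ u) → (∀ᶠ y in 𝓝 (ap lam₀ u), φ (0, y) = y) →
    ∀ W ∈ 𝓝 u, ∀ᶠ p : ℂ × (Fin (c + 1) → Mat r N) in 𝓝 (0, lam₀),
      ∃ v ∈ W, ∃ y : Mat r N, (∀ q ∈ Z, y q.1 q.2 = 0) ∧ φ (p.1, y) = ap p.2 v

def STropLow : Prop :=
  ∀ (c r N : ℕ) (js : Fin r → Fin N), 0 < r → c < N → Cod c js →
    ∃ U : Set (Fin (c + 1) → Mat r N), IsOpen U ∧ U.Nonempty ∧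
      ∀ l ∈ U, (HG js).encard ≤ cnt js l

/-! ### Combinatorics -/

def SGT1 : Prop :=
  ∀ (r N : ℕ) (js : Fin r → Fin N) (Z : Finset (Fin r × Fin N)), Hit js Z →
    ∃ L : ℕ → ℕ → ℕ, IsGT r L ∧ (∀ m : Fin r, (js m : ℕ) ≤ L (r - 1) m) ∧
      ∀ i j, i < r → hole L i j → ∃ p ∈ Z, (p.1 : ℕ) = i ∧ (p.2 : ℕ) = j

def SGT2a : Prop :=
  ∀ (r : ℕ) (L : ℕ → ℕ → ℕ), IsGT r L → ∀ i j, i < r →
    (¬ hole L i j ↔ ∃ m, onP L m i j) ∧ ∀ m m', onP L m i j → onP L m' i j → m = m'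

def SGT2b : Prop :=
  ∀ (r : ℕ) (L : ℕ → ℕ → ℕ), IsGT r L → ∃ Y : Finset (ℕ × ℕ),
    (∀ p : ℕ × ℕ, p ∈ Y ↔ p.1 < r ∧ hole L p.1 p.2) ∧
      Y.card + ∑ m ∈ Finset.range r, m = ∑ m ∈ Finset.range r, L (r - 1) m

/-- All entries of a pattern are bounded by the last entry of the bottom row. -/
def SGT2c : Prop :=
  ∀ (r : ℕ) (L : ℕ → ℕ → ℕ), IsGT r L → ∀ i m, m ≤ i → i < r → L i m ≤ L (r - 1) (r - 1)

def SGT3 : Prop :=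
  ∀ (c r N : ℕ) (js : Fin r → Fin N) (Z : Finset (Fin r × Fin N)), Cod c js →
    (Hit js Z → c ≤ Z.card) ∧ (Hit js Z → Z.card ≤ c → Z ∈ HG js) ∧ (Z ∈ HG js → Z.card = c)

def SF1 : Prop :=
  ∀ (c r : ℕ) (lam : Fin c → ℕ) (T : Box lam → ℕ), T ∈ SS lam r → IsGT r (LTab lam T) ∧
    ∀ m, m < r → LTab lam T (r - 1) m =
      m + (Finset.univ.filter fun a : Fin c => r ≤ m + lam a).card

def SF2 : Prop :=
  ∀ (c r : ℕ) (lam : Fin c → ℕ) (L : ℕ → ℕ → ℕ), Antitone lam → (∀ a, lam a ≤ r) → IsGT r L →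
    (∀ m, m < r → L (r - 1) m = m + (Finset.univ.filter fun a : Fin c => r ≤ m + lam a).card) →
    ∃ T ∈ SS lam r, ∀ i m, m ≤ i → i < r → LTab lam T i m = L i m

def SF3 : Prop :=
  ∀ (c r : ℕ) (lam : Fin c → ℕ) (T T' : Box lam → ℕ), Antitone lam → T ∈ SS lam r →
    T' ∈ SS lam r → (∀ i m, m ≤ i → i < r → LTab lam T i m = LTab lam T' i m) → T = T'

def SF4 : Prop :=
  ∀ (r : ℕ) (L L' : ℕ → ℕ → ℕ), IsGT r L → IsGT r L' →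
    (∀ i j, i < r → (hole L i j ↔ hole L' i j)) → ∀ i m, m ≤ i → i < r → L i m = L' i m

def SF5 : Prop :=
  ∀ (c r N : ℕ) (lam : Fin c → ℕ) (js : Fin r → Fin N), Antitone lam → (∀ a, lam a ≤ r) →
    IsJ lam js → (HG js).ncard = (SS lam r).ncard

def SPP2 : Prop :=
  ∀ (c r : ℕ) (d : ℕ → ℕ), 1 ≤ r →
    {f : Fin c → ℕ | (∀ i, f i < r) ∧
      ∀ i j : Fin c, (j : ℕ) = i + 1 → f i + d i ≤ f j}.ncard =
      M2 c ((r : ℤ) - 1 - ∑ i ∈ Finset.range (c - 1), (d i : ℤ))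

def SPP1 : Prop :=
  ∀ (β : Type) [Fintype β] (lab : β → ℕ) (R : β → β → Prop), Function.Injective lab →
    ∃ 𝓜 : Multiset ℕ, ∀ r : ℕ, 1 ≤ r →
      {T : β → ℕ | (∀ b, T b < r) ∧
        ∀ x y, R x y → T x < T y ∨ (T x = T y ∧ lab x < lab y)}.ncard =
        (𝓜.map fun m : ℕ => M2 (Fintype.card β) ((r : ℤ) - 1 - m)).sum

def SPP3 : Prop :=
  ∀ (c : ℕ) (lam : Fin c → ℕ), ∑ a, lam a = c → ∃ 𝓜 : Multiset ℕ, ∀ r : ℕ, 1 ≤ r →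
    (SS lam r).ncard = (𝓜.map fun m : ℕ => M2 c ((r : ℤ) - 1 - m)).sum

def SJS : Prop :=
  ∀ (c r : ℕ) (lam : Fin c → ℕ), ∑ a, lam a = c → (∀ a, lam a ≤ r) →
    ∃ js : Fin r → Fin (r + c), Cod c js ∧ IsJ lam js

/-! ### The orbit closure -/

def SG1a : Prop :=
  ∀ (k r m : ℕ) (X : Fin k → Fin m → ℂ), m = r + k → GP X →
    ∃ A : Fin r → Fin m → ℂ, IsKer A X ∧ ∀ v, v ≠ 0 → Function.Surjective (mv A X v)

def SG1b1 : Prop :=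
  ∀ (k m n : ℕ) (X : Fin k → Fin m → ℂ) (π : Fin n → Fin m) (φ : Fin n → ℂ)
    (W : Submodule ℂ (Fin n → ℂ)), Function.Surjective π → (∀ i, φ i ≠ 0) →
    W ∈ orbCl (fun a i => X a (π i)) → φ ∈ W → W ≤ LinearMap.range (Emb φ π)

def SG1b2 : Prop :=
  ∀ (k r m n : ℕ) (A : Fin r → Fin m → ℂ) (X : Fin k → Fin m → ℂ) (π : Fin n → Fin m)
    (W : Submodule ℂ (Fin n → ℂ)) (ρ : Fin m → Fin n), 0 < m → (∀ j, π (ρ j) = j) → IsKer A X →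
    W ∈ orbCl (fun a i => X a (π i)) →
    ∃ s : Fin m → ℂ, s ≠ 0 ∧ ∀ w ∈ W, ∀ i, ∑ j, A i j * (s j * w (ρ j)) = 0

def SG1b3 : Prop :=
  ∀ (k r m n : ℕ) (A : Fin r → Fin m → ℂ) (X : Fin k → Fin m → ℂ) (π : Fin n → Fin m)
    (φ : Fin n → ℂ) (W : Submodule ℂ (Fin n → ℂ)), m = r + k → 0 < m → Function.Surjective π →
    (∀ i, φ i ≠ 0) → IsKer A X → (∀ v, v ≠ 0 → Function.Surjective (mv A X v)) →
    W ∈ orbCl (fun a i => X a (π i)) → φ ∈ W → ∃ v, v ≠ 0 ∧ W = Wv φ π A X v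

def SG1c : Prop :=
  ∀ (k r m n : ℕ) (A : Fin r → Fin m → ℂ) (X : Fin k → Fin m → ℂ) (π : Fin n → Fin m)
    (φ : Fin n → ℂ) (v : Fin k → ℂ), Function.Surjective π → (∀ i, φ i ≠ 0) → IsKer A X →
    LinearIndependent ℂ X → (∀ j, vX X v j ≠ 0) → Wv φ π A X v ∈ orbCl (fun a i => X a (π i))

def SG1d : Prop :=
  ∀ (k r m n : ℕ) (A : Fin r → Fin m → ℂ) (X : Fin k → Fin m → ℂ) (π : Fin n → Fin m)
    (φ : Fin n → ℂ) (v v' : Fin k → ℂ), k < m → Function.Surjective π → (∀ i, φ i ≠ 0) →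
    IsKer A X → GP X → (∀ j, vX X v j ≠ 0) → (∀ j, vX X v' j ≠ 0) →
    Wv φ π A X v = Wv φ π A X v' →
    Submodule.span ℂ ({v} : Set (Fin k → ℂ)) = Submodule.span ℂ {v'}

def SLamA : Prop :=
  ∀ (k r m n : ℕ) (A : Fin r → Fin m → ℂ) (X : Fin k → Fin m → ℂ) (π : Fin n → Fin m)
    (φ : Fin n → ℂ) (Sch : Set (Submodule ℂ (Fin n → ℂ))) (T : Set (Fin k → ℂ)),
    m = r + k → 0 < r → Function.Surjective π → (∀ i, φ i ≠ 0) → IsKer A X → GP X →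
    (∀ v, v ≠ 0 → Function.Surjective (mv A X v)) → (∀ W ∈ Sch, φ ∈ W) →
    (∀ v, v ≠ 0 → (Wv φ π A X v ∈ Sch ↔ v ∈ T)) → (∀ v, v ≠ 0 → v ∈ T → ∀ j, vX X v j ≠ 0) →
    (orbCl (fun a i => X a (π i)) ∩ Sch).encard = lines T

/-! ### The flag -/

def SFreeLI : Prop :=
  ∀ (n : ℕ) (S : Set ℂ) (g : Fin n → Fin n → ℂ), Free S g →
    LinearIndependent ℂ g ∧ ∀ i j, g i j ≠ 0

def SE0 : Prop :=
  ∀ (n N p : ℕ) (S : Set ℂ) (g : Fin n → Fin n → ℂ) (π : Fin n → Fin (N + 1)) (z : Fin n),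
    n = N + p → 1 ≤ p → (z : ℕ) = 0 → Function.Surjective π → Free S g →
    IsCompl (LinearMap.range (Emb (g z) π)) (mid g p)

def SE1a : Prop :=
  ∀ (n N p : ℕ) (g : Fin n → Fin n → ℂ) (π : Fin n → Fin (N + 1)) (z : Fin n)
    (G : Fin N → Fin (N + 1) → ℂ), n = N + p → 1 ≤ p → (z : ℕ) = 0 →
    Function.Injective (Emb (g z) π) → Disjoint (LinearMap.range (Emb (g z) π)) (mid g p) →
    (∀ (q : Fin N) (i : Fin n), (i : ℕ) = p + q → g i - Emb (g z) π (G q) ∈ mid g p) →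
    ∀ j, 1 ≤ j → (flg g j).comap (Emb (g z) π) = FS G (j - p)

def SE1b : Prop :=
  ∀ (n N p : ℕ) (S : Set ℂ) (g : Fin n → Fin n → ℂ) (π : Fin n → Fin (N + 1)) (z : Fin n)
    (G : Fin N → Fin (N + 1) → ℂ), n = N + p → 1 ≤ p → (z : ℕ) = 0 →
    Function.Injective (Emb (g z) π) → Disjoint (LinearMap.range (Emb (g z) π)) (mid g p) →
    (∀ (q : Fin N) (i : Fin n), (i : ℕ) = p + q → g i - Emb (g z) π (G q) ∈ mid g p) →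
    Free S g → Free S G

def SE2 : Prop :=
  ∀ (n N r q : ℕ) (E : (Fin (N + 1) → ℂ) →ₗ[ℂ] (Fin n → ℂ))
    (f : (Fin (N + 1) → ℂ) →ₗ[ℂ] (Fin r → ℂ)) (G : Fin N → Fin (N + 1) → ℂ)
    (F : Submodule ℂ (Fin n → ℂ)) (M : Mat r N), q ≤ N → Function.Injective E → f 1 = 0 →
    FS G N = ⊤ → F.comap E = FS G q → (∀ i j, M i j = f (G j) i) →
    finrank ℂ ↥((LinearMap.ker f).map E ⊓ F) + finrank ℂ (colSp M q) = q + 1

def SE3 : Prop :=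
  ∀ (n c r p : ℕ) (η : Fin (c + 1) → ℕ) (g : Fin n → Fin n → ℂ) (W : Submodule ℂ (Fin n → ℂ))
    (M : Mat r (r + c)), n = r + c + p → 1 ≤ p → 1 ≤ r → Antitone η → η 0 = n - (c + 1) →
    finrank ℂ W = c + 1 →
    (∀ j, 1 ≤ j → j ≤ n → finrank ℂ ↥(W ⊓ flg g j) + finrank ℂ (colSp M (j - p)) = j - p + 1) →
    (∀ js : Fin r → Fin (r + c), (∀ a : Fin c, η a.succ ≤ r) → IsJ (fun a : Fin c => η a.succ) js →
      (W ∈ schub η g ↔ Om js M)) ∧ ((∃ a : Fin c, r < η a.succ) → W ∉ schub η g)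

def SE4 : Prop :=
  ∀ (n c : ℕ) (η : Fin (c + 1) → ℕ) (g : Fin n → Fin n → ℂ) (W : Submodule ℂ (Fin n → ℂ))
    (z : Fin n), (z : ℕ) = 0 → η 0 = n - (c + 1) → W ∈ schub η g → g z ∈ W

def SLam : Prop :=
  ∀ (n c r p : ℕ) (η : Fin (c + 1) → ℕ) (π : Fin n → Fin (r + c + 1))
    (X : Fin (c + 1) → Fin (r + c + 1) → ℂ) (d : ℤ), n = r + c + p → 1 ≤ p → 1 ≤ r →
    Antitone η → η 0 = n - (c + 1) → ∑ a : Fin c, η a.succ = c → Function.Surjective π → GP X →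
    (∀ j, ∃ a, X a j ≠ 0) → GenCount (fun a i => X a (π i)) η d →
    d ≤ (SS (fun a : Fin c => η a.succ) r).ncard ∧
      ((∀ a : Fin c, η a.succ ≤ r) → d = (SS (fun a : Fin c => η a.succ) r).ncard)

/-! ### Matroids and polytopes -/

def SVM : Prop :=
  ∀ (k n : ℕ) (X : Fin k → Fin n → ℂ),
    (∃ B : Finset (Fin n), B.card = k ∧
      LinearIndepOn ℂ (fun (j : Fin n) (i : Fin k) => X i j) (B : Set (Fin n))) →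
    ∃ M : Matroid (Fin n), OfRank k M ∧ Represents X M ∧ HasBases M fun B => B.card = k ∧
      LinearIndepOn ℂ (fun (j : Fin n) (i : Fin k) => X i j) (B : Set (Fin n))

def SMatLam : Prop :=
  ∀ (n k N : ℕ) (H : Finset (Fin n)), H.card = N → k ≤ N → N < n →
    ∃ π : Fin n → Fin (N + 1), Function.Surjective π ∧ ∀ X : Fin k → Fin (N + 1) → ℂ, GP X →
      ∃ M : Matroid (Fin n), OfRank k M ∧ Represents (fun a i => X a (π i)) M ∧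
        HasBases M fun B => B.card = k ∧ (B \ H).card ≤ 1

def SMatPi : Prop :=
  ∀ (n c : ℕ) (H : Finset (Fin n)), c ≤ H.card → H.card < n →
    ∃ (X : Fin (c + 1) → Fin n → ℂ) (M : Matroid (Fin n)), OfRank (c + 1) M ∧ Represents X M ∧
      HasBases M fun B => B.card = c + 1 ∧ (B \ H).card = 1

def SPV : Prop :=
  ∀ (n c : ℕ) (𝒮 : Finset (Finset (Fin n))),
    (∀ H ∈ 𝒮, ∀ H' ∈ 𝒮, H ≠ H' → (H ∩ H').card + 1 ≤ c) →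
    (∃ B : Finset (Fin n), B.card = c + 1 ∧ ∀ H ∈ 𝒮, ¬ B ⊆ H) →
    ∃ M : Matroid (Fin n), OfRank (c + 1) M ∧
      HasBases M fun B => B.card = c + 1 ∧ ∀ H ∈ 𝒮, ¬ B ⊆ H

def SHY : Prop :=
  ∀ (n c : ℕ) (H : Finset (Fin n)) (x : Fin n → ℝ), (∀ i, 0 ≤ x i) → (∀ i, x i ≤ 1) →
    ∑ i ∈ H, x i = c → ∑ i ∈ Hᶜ, x i = 1 → x ∈ cv fun B => B.card = c + 1 ∧ (B \ H).card = 1

def SPO : Prop :=
  ∀ (n c : ℕ) (H : Finset (Fin n)) (F : Finset (Fin n) → Prop), (∀ B, F B → B.card = c + 1) →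
    (∀ B : Finset (Fin n), B.card = c + 1 → (B \ H).card ≤ 1 → F B) →
    cv F = (cv fun B => F B ∧ ¬ B ⊆ H) ∪ (cv fun B => B.card = c + 1 ∧ (B \ H).card ≤ 1) ∧
    (cv fun B => B.card = c + 1 ∧ (B \ H).card = 1) =
      (cv fun B => F B ∧ ¬ B ⊆ H) ∩ (cv fun B => B.card = c + 1 ∧ (B \ H).card ≤ 1) ∧
    IsExtreme ℝ (cv fun B => F B ∧ ¬ B ⊆ H) (cv fun B => B.card = c + 1 ∧ (B \ H).card = 1) ∧
    IsExtreme ℝ (cv fun B => B.card = c + 1 ∧ (B \ H).card ≤ 1)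
      (cv fun B => B.card = c + 1 ∧ (B \ H).card = 1)

def SPav : Prop :=
  ∀ (n c : ℕ) (M : Matroid (Fin n)), OfRank (c + 1) M →
    (∀ I : Finset (Fin n), I.card ≤ c → M.Indep (I : Set (Fin n))) →
    ∃ 𝒮 : Finset (Finset (Fin n)), (∀ H ∈ 𝒮, c + 1 ≤ H.card ∧ H.card < n) ∧
      (∀ H ∈ 𝒮, ∀ H' ∈ 𝒮, H ≠ H' → (H ∩ H').card + 1 ≤ c) ∧
      HasBases M fun B => B.card = c + 1 ∧ ∀ H ∈ 𝒮, ¬ B ⊆ H

def SDisc : Prop :=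
  ∀ (n c : ℕ) (M : Matroid (Fin n)), c + 1 < n → OfRank (c + 1) M →
    (∀ I : Finset (Fin n), I.card ≤ c → M.Indep (I : Set (Fin n))) → ¬ Conn M →
    ∃ H : Finset (Fin n), c ≤ H.card ∧ H.card < n ∧
      HasBases M fun B => B.card = c + 1 ∧ (B \ H).card = 1

end Pool.Agent.MP_8b9287_co.Geo
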