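import Pool.Agent.MP_8b9287_co.Geo.St

/-! Statements for the shapes whose size differs from the dimension of the orbit. -/

namespace Pool.Agent.MP_8b9287_co.Geo

open Module Filter Topology

def SConnU : Prop :=
  ∀ (n k : ℕ) (M : Matroid (Fin n)), 0 < k → k < n → OfRank k M →
    HasBases M (fun B => B.card = k) → Conn M

def SJS2 : Prop :=
  ∀ (c r : ℕ) (lam : Fin c → ℕ), (∀ a, lam a ≤ r) →
    ∃ js : Fin r → Fin (r + c), Cod (∑ a, lam a) js ∧ IsJ lam js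

def SLoc3 : Prop :=
  ∀ (r N : ℕ) (js jj : Fin r → Fin N) (M : Mat r N), StrictMono js → StrictMono jj →
    (∀ s, js s ≤ jj s) → mnr M id jj ≠ 0 →
    (∀ p : Forb jj, p.1.2 < js p.1.1 → Phi jj M p = 0) → Om js M

def SCurve : Prop :=
  ∀ (V T : Type) [NormedAddCommGroup V] [NormedSpace ℂ V] [FiniteDimensional ℂ V]
    [NormedAddCommGroup T] [NormedSpace ℂ T] [FiniteDimensional ℂ T]
    (F : V → T) (v₀ w : V), ContDiffAt ℂ 1 F v₀ → Function.Surjective (fderiv ℂ F v₀) →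
    fderiv ℂ F v₀ w = 0 →
    ∃ γ : ℂ → V, γ 0 = v₀ ∧ HasDerivAt γ w 0 ∧ ∀ᶠ x in 𝓝 (0 : ℂ), F (γ x) = F v₀

def SKB : Prop :=
  ∀ (c c' r m N : ℕ) (js : Fin r → Fin N) (A : Fin r → Fin m → ℂ) (X : Fin (c + 1) → Fin m → ℂ)
    (G : Fin N → Fin m → ℂ) (S : Set ℂ), c < c' → Cod c' js → (∀ i j, A i j ∈ S) →
    (∀ a j, X a j ∈ S) → Free S G → IsKer A X →
    (∀ v, v ≠ 0 → Function.Surjective (mv A X v)) → FS G N = ⊤ →
    ∀ v, v ≠ 0 → ¬ Om js (ap (lA A X G) v)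

def SKC1 : Prop :=
  ∀ (c c' r m N : ℕ) (js : Fin r → Fin N) (A : Fin r → Fin m → ℂ) (X : Fin (c + 1) → Fin m → ℂ)
    (G : Fin N → Fin m → ℂ) (S : Set ℂ), c' < c → c + 1 ≤ m → Cod c' js → (∀ i j, A i j ∈ S) →
    (∀ a j, X a j ∈ S) → Free S G → IsKer A X → GP X →
    (∀ v, v ≠ 0 → Function.Surjective (mv A X v)) → FS G N = ⊤ →
    ∀ (v : Fin (c + 1) → ℂ) (i : Fin (c + 1)), v i = 1 → Om js (ap (lA A X G) v) →
    ∃ jj : Fin r → Fin N, StrictMono jj ∧ (∀ s, js s ≤ jj s) ∧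
      mnr (ap (lA A X G) v) id jj ≠ 0 ∧ Phi jj (ap (lA A X G) v) = 0 ∧
      (∀ τ : Forb jj → ℂ, ∃ v' : Fin (c + 1) → ℂ, v' i = 0 ∧
        fderiv ℂ (Phi jj) (ap (lA A X G) v) (ap (lA A X G) v') = τ) ∧
      ∃ w : Fin (c + 1) → ℂ, w ≠ 0 ∧ w i = 0 ∧
        (∀ p : Forb jj, p.1.2 < js p.1.1 →
          fderiv ℂ (Phi jj) (ap (lA A X G) v) (ap (lA A X G) w) p = 0) ∧
        ∀ j, vX X v j = 0 → vX X w j ≠ 0

def SKC2 : Prop :=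
  ∀ (k r m N : ℕ) (js jj : Fin r → Fin N) (l : Fin k → Mat r N) (X : Fin k → Fin m → ℂ)
    (v w : Fin k → ℂ) (i : Fin k), StrictMono js → StrictMono jj → (∀ s, js s ≤ jj s) →
    v i = 1 → mnr (ap l v) id jj ≠ 0 → Phi jj (ap l v) = 0 →
    (∀ τ : Forb jj → ℂ, ∃ v' : Fin k → ℂ, v' i = 0 ∧ fderiv ℂ (Phi jj) (ap l v) (ap l v') = τ) →
    w ≠ 0 → w i = 0 →
    (∀ p : Forb jj, p.1.2 < js p.1.1 → fderiv ℂ (Phi jj) (ap l v) (ap l w) p = 0) →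
    (∀ j, vX X v j = 0 → vX X w j ≠ 0) →
    lines {u | Om js (ap l u) ∧ ∀ j, vX X u j ≠ 0} = ⊤

def SLamB : Prop :=
  ∀ (k r m n : ℕ) (A : Fin r → Fin m → ℂ) (X : Fin k → Fin m → ℂ) (π : Fin n → Fin m)
    (φ : Fin n → ℂ) (Sch : Set (Submodule ℂ (Fin n → ℂ))) (T : Set (Fin k → ℂ)),
    k < m → Function.Surjective π → (∀ i, φ i ≠ 0) → IsKer A X → GP X →
    (∀ v, v ≠ 0 → v ∈ T → Wv φ π A X v ∈ Sch ∧ ∀ j, vX X v j ≠ 0) →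
    lines T ≤ (orbCl (fun a i => X a (π i)) ∩ Sch).encard

def SLam0 : Prop :=
  ∀ (n c r p : ℕ) (η : Fin (c + 1) → ℕ) (π : Fin n → Fin (r + c + 1))
    (X : Fin (c + 1) → Fin (r + c + 1) → ℂ) (d : ℤ), n = r + c + p → 1 ≤ p → 1 ≤ r →
    Antitone η → η 0 = n - (c + 1) → ∑ a : Fin c, η a.succ ≠ c → Function.Surjective π → GP X →
    GenCount (fun a i => X a (π i)) η d → d = 0

end Pool.Agent.MP_8b9287_co.Geo
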