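import Pool.Agent.MP_8b9287_co.Geo.St

namespace Pool.Agent.MP_8b9287_co.Geo

open Filter Topology

theorem lt_TropDet {r N s : ℕ} {I : Fin s → Fin r} {J : Fin s → Fin N} (hI : StrictMono I)
    (hJ : StrictMono J) {σ : Equiv.Perm (Fin s)} (hσ : σ ≠ 1) :
    ∑ b, (r - (I b : ℕ)) * (J b : ℕ) < ∑ b, (r - (I (σ b) : ℕ)) * (J b : ℕ) := by
  have h : Antivary (fun b => r - (I b : ℕ)) (fun b => (J b : ℕ)) := by
    intro a b hab
    have h1 : a < b := hJ.lt_iff_lt.1 hab
    have h2 : (I a : ℕ) < I b := hI h1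
    simp only
    omega
  refine (h.sum_mul_lt_sum_comp_perm_mul_iff (σ := σ)).2 fun h' => hσ ?_
  have hm : Monotone σ := by
    intro a b hab
    rcases hab.eq_or_lt with rfl | hab
    · exact le_rfl
    have h1 := h' (i := a) (j := b) (hJ hab)
    have h2 := (I (σ a)).2
    have h3 := (I (σ b)).2
    simp only [Function.comp] at h1
    exact hI.le_iff_le.1 (Fin.le_def.2 (by omega))
  exact (Equiv.Perm.monotone_iff σ).1 hm

theorem sTropDet : STropDet := by
  intro r N s I J hI hJ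
  refine ⟨∑ b, (r - (I b : ℕ)) * (J b : ℕ), fun p => ∑ σ : Equiv.Perm (Fin s),
    ((Equiv.Perm.sign σ : ℤ) : ℂ) * (p.1 ^ (∑ b, (r - (I (σ b) : ℕ)) * (J b : ℕ) -
      ∑ b, (r - (I b : ℕ)) * (J b : ℕ)) * ∏ b, p.2 (I (σ b)) (J b)), ?_, ?_, ?_, ?_⟩
  · refine ContDiff.sum fun σ _ => contDiff_const.mul ((contDiff_fst.pow _).mul
      (contDiff_prod fun b _ => ?_))
    fun_prop
  · intro t Y
    rw [mnr, Matrix.det_apply', Finset.mul_sum]
    refine Finset.sum_congr rfl fun σ _ => ?_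
    have h : ∑ b, (r - (I b : ℕ)) * (J b : ℕ) ≤ ∑ b, (r - (I (σ b) : ℕ)) * (J b : ℕ) := by
      by_cases hσ : σ = 1
      · simp [hσ]
      · exact (lt_TropDet hI hJ hσ).le
    simp only [Matrix.of_apply, sc, Finset.prod_mul_distrib, Finset.prod_pow_eq_pow_sum]
    rw [← Nat.add_sub_of_le h, pow_add, Nat.add_sub_cancel_left]
    ring
  · intro Y
    refine (Finset.sum_eq_single (1 : Equiv.Perm (Fin s)) (fun σ _ hσ => ?_) (by simp)).trans ?_
    swap
    · simp
    · rw [zero_pow (Nat.sub_pos_of_lt (lt_TropDet hI hJ hσ)).ne', zero_mul, mul_zero]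
  · intro t Y x
    rw [Finset.mul_sum]
    refine Finset.sum_congr rfl fun σ _ => ?_
    simp only [Pi.smul_apply, smul_eq_mul, Finset.prod_mul_distrib, Finset.prod_const,
      Finset.card_univ, Fintype.card_fin]
    ring

theorem sScl : SScl := by
  intro k r N lam₀ Q h
  obtain ⟨A, hA, V, hV, hAV⟩ := mem_nhds_prod_iff.1 h
  obtain ⟨t, htA, ht⟩ : ∃ t, t ∈ A ∧ t ≠ 0 :=
    Filter.nonempty_of_mem (f := 𝓝[≠] (0 : ℂ))
      (inter_mem (mem_nhdsWithin_of_mem_nhds hA) self_mem_nhdsWithin)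
  have e1 : ∀ Y : Mat r N, sc t (sc t⁻¹ Y) = Y := fun Y => by
    funext i j
    simp only [sc]
    rw [← mul_assoc, ← mul_pow, mul_inv_cancel₀ ht, one_pow, one_mul]
  have e2 : ∀ Y : Mat r N, sc t⁻¹ (sc t Y) = Y := fun Y => by
    funext i j
    simp only [sc]
    rw [← mul_assoc, ← mul_pow, inv_mul_cancel₀ ht, one_pow, one_mul]
  refine ⟨(fun l a => sc t⁻¹ (l a)) ⁻¹' interior V, isOpen_interior.preimage ?_,
    ⟨fun a => sc t (lam₀ a), ?_⟩, fun l hl => ?_⟩
  · unfold sc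
    fun_prop
  · simp only [Set.mem_preimage, e2]
    exact mem_interior_iff_mem_nhds.2 hV
  · have := hAV (Set.mk_mem_prod htA (interior_subset hl)) ht
    simpa only [e1] using this

end Pool.Agent.MP_8b9287_co.Geo
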