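import Pool.Agent.MP_8b9287_co.Geo.St

namespace Pool.Agent.MP_8b9287_co.Geo

open Module Filter Topology

theorem ap_line_TropL1 {k r N : ℕ} (l : Fin k → Mat r N) (u v : Fin k → ℂ) (s : ℂ) :
    ap l (u + s • v) = ap l u + s • ap l v := by
  simp only [ap, Pi.add_apply, Pi.smul_apply, smul_eq_mul, add_smul, Finset.sum_add_distrib,
    Finset.smul_sum, smul_smul]

theorem sTropL1 (hI : SIFT) : STropL1 := by
  intro c r N lam₀ Z u i φ hZ hu h0 hker hφ hid W hW
  let F : (ℂ × (Fin (c + 1) → Mat r N)) × ((Fin (c + 1) → ℂ) × Mat r N) →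
      Mat r N × (Z → ℂ) × ℂ := fun q =>
    (φ (q.1.1, q.2.2) - ap q.1.2 q.2.1, fun z => q.2.2 z.1.1 z.1.2, q.2.1 i)
  have hF : ContDiffAt ℂ 1 F ((0, lam₀), (u, ap lam₀ u)) := by
    have h1 : ContDiffAt ℂ 1 (fun q : (ℂ × (Fin (c + 1) → Mat r N)) ×
        ((Fin (c + 1) → ℂ) × Mat r N) => φ (q.1.1, q.2.2)) ((0, lam₀), (u, ap lam₀ u)) :=
      ContDiffAt.comp (g := φ) (f := fun q : (ℂ × (Fin (c + 1) → Mat r N)) ×
        ((Fin (c + 1) → ℂ) × Mat r N) => (q.1.1, q.2.2)) ((0, lam₀), (u, ap lam₀ u)) hφ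
        (by fun_prop)
    refine (h1.sub ?_).prodMk (ContDiffAt.prodMk ?_ ?_)
    · unfold ap
      fun_prop
    · fun_prop
    · fun_prop
  have hF0 : F ((0, lam₀), (u, ap lam₀ u)) = (0, 0, 1) := by
    refine Prod.ext ?_ (Prod.ext (funext fun z => h0 z.1 z.2) hu)
    exact sub_eq_zero.2 hid.self_of_nhds
  have hinj : ∀ x' : (Fin (c + 1) → ℂ) × Mat r N,
      fderiv ℂ F ((0, lam₀), (u, ap lam₀ u)) (0, x') = 0 → x' = 0 := by
    rintro ⟨v', y'⟩ h
    have d1 := (hF.differentiableAt one_ne_zero).hasFDerivAt.hasLineDerivAt (0, (v', y'))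
    rw [h] at d1
    have t : Tendsto (fun s : ℂ => ap lam₀ u + s • y') (𝓝 0) (𝓝 (ap lam₀ u)) :=
      Continuous.tendsto' (by fun_prop) _ _ (by simp)
    have d2 : HasDerivAt (fun s : ℂ => s • ((y' - ap lam₀ v', fun z => y' z.1.1 z.1.2, v' i) :
        Mat r N × (Z → ℂ) × ℂ) + (0, 0, 1)) (y' - ap lam₀ v', fun z => y' z.1.1 z.1.2, v' i) 0 := by
      simpa only [one_smul, id] using ((hasDerivAt_id (0 : ℂ)).smul_const
        ((y' - ap lam₀ v', fun z => y' z.1.1 z.1.2, v' i) : Mat r N × (Z → ℂ) × ℂ)).add_const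
          (0, 0, 1)
    have e := (d2.congr_of_eventuallyEq (f₁ := fun s : ℂ =>
      F (((0, lam₀), (u, ap lam₀ u)) + s • (0, (v', y')))) (by
        filter_upwards [t.eventually hid] with s hs
        refine Prod.ext ?_ (Prod.ext (funext fun z => ?_) ?_)
        · simp only [F, Prod.fst_add, Prod.snd_add, Prod.smul_fst, Prod.smul_snd, smul_zero,
            add_zero, hs, ap_line_TropL1, smul_sub]
          abel
        · simp [F, h0 z.1 z.2]
        · simp [F, hu, add_comm])).unique d1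
    have e1 : y' = ap lam₀ v' := sub_eq_zero.1 (congrArg Prod.fst e)
    have e2 : v' i = 0 := congrArg (fun q => q.2.2) e
    have e3 := hker v' fun p hp => e1 ▸ congrFun (congrArg (fun q => q.2.1) e) ⟨p, hp⟩
    rw [e2, zero_smul] at e3
    subst e3
    rw [e1]
    simp [ap]
  have hW' : {q : (ℂ × (Fin (c + 1) → Mat r N)) × ((Fin (c + 1) → ℂ) × Mat r N) | q.2.1 ∈ W} ∈
      𝓝 ((0, lam₀), (u, ap lam₀ u)) :=
    (continuous_fst.comp continuous_snd).continuousAt.preimage_mem_nhds hW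
  have key := (hI _ _ _ F (0, lam₀) (u, ap lam₀ u) hF hinj).2 (by
    simp only [finrank_prod, finrank_fintype_fun_eq_card, Fintype.card_coe, Fintype.card_fin, hZ,
      finrank_self]
    ring) _ hW'
  filter_upwards [key] with p ⟨x, hx, e⟩
  rw [hF0] at e
  exact ⟨x.1, hx, x.2, fun q hq => congrFun (congrArg (fun t => t.2.1) e) ⟨q, hq⟩,
    sub_eq_zero.1 (congrArg Prod.fst e)⟩

end Pool.Agent.MP_8b9287_co.Geo
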