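import Pool.Agent.MP_8b9287_co.Geo.St

namespace Pool.Agent.MP_8b9287_co.Geo

open Module Filter Topology

theorem ap_sc_TropLow {k r N : ℕ} (t : ℂ) (l : Fin k → Mat r N) (v : Fin k → ℂ) :
    ap (fun a => sc t (l a)) v = sc t (ap l v) := by
  funext i j
  simp only [ap_apply, sc, Finset.mul_sum]
  exact Finset.sum_congr rfl fun a _ => by ring

theorem sTropLow (hA : SALge) (h1 : SGP1) (h2 : SGP2) (hS : SScl) (hP : SParam) (hL : STropL1)
    (hG : SGT3) : STropLow := by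
  classical
  intro c r N js hr hc hCod
  obtain ⟨X, hX, -⟩ := h1 (c + 1) (Fin r × Fin N)
  let lam₀ : Fin (c + 1) → Mat r N := fun a i j => X a (i, j)
  have hv : ∀ (v : Fin (c + 1) → ℂ) (p : Fin r × Fin N), ap lam₀ v p.1 p.2 = vX X v p :=
    fun v p => ap_apply lam₀ v p.1 p.2
  have hcard : ∀ Z : HG js, Z.1.card = c := fun Z => (hG c r N js Z.1 hCod).2.2 Z.2
  have hex : ∀ Z : HG js, ∃ p, p ∉ Z.1 := by
    intro Z
    by_contra h
    have h3 : Z.1 = Finset.univ := Finset.eq_univ_iff_forall.2 fun p => by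
      by_contra hp
      exact h ⟨p, hp⟩
    have h4 := hcard Z
    rw [h3, Finset.card_univ, Fintype.card_prod, Fintype.card_fin, Fintype.card_fin] at h4
    have h5 : N ≤ r * N := Nat.le_mul_of_pos_left N hr
    omega
  choose u co hu1 hu2 hu3 using fun Z : HG js =>
    h2 c (Fin r × Fin N) X Z.1 hX (hcard Z) (hex Z)
  have hu0 : ∀ Z, u Z ≠ 0 := fun Z h => by
    have := hu1 Z
    rw [h] at this
    exact zero_ne_one this
  have hsub : ∀ Z Z' : HG js, Submodule.span ℂ ({u Z} : Set (Fin (c + 1) → ℂ))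
      = Submodule.span ℂ {u Z'} → Z'.1 ⊆ Z.1 := by
    intro Z Z' h p hp
    have h3 : u Z ∈ Submodule.span ℂ ({u Z'} : Set (Fin (c + 1) → ℂ)) :=
      h ▸ Submodule.mem_span_singleton_self _
    obtain ⟨a, ha⟩ := Submodule.mem_span_singleton.1 h3
    have h4 := (hu2 Z' p).2 hp
    refine (hu2 Z p).1 ?_
    rw [← ha]
    unfold vX at h4 ⊢
    simp only [Pi.smul_apply, smul_eq_mul, mul_assoc]
    rw [← Finset.mul_sum, h4, mul_zero]
  have hev := hA (c + 1) (ℂ × (Fin (c + 1) → Mat r N)) (𝓝 (0, lam₀))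
    (fun p => {v | p.1 ≠ 0 → Om js (ap (fun a => sc p.1 (p.2 a)) v)}) (HG js) u hu0
    (fun Z Z' h => Subtype.ext (Finset.Subset.antisymm (hsub Z' Z h.symm) (hsub Z Z' h))) (by
      intro Z W hW
      obtain ⟨φ, hφ1, hφ2, hφ3⟩ := hP r N js Z.1 (ap lam₀ (u Z)) hCod.1 Z.2 fun p hp h => by
        rw [hv] at h
        exact hp ((hu2 Z p).1 h)
      have h3 := hL c r N lam₀ Z.1 (u Z) (co Z) φ (hcard Z) (hu1 Z)
        (fun p hp => by rw [hv]; exact (hu2 Z p).2 hp)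
        (fun v h => hu3 Z v fun p hp => by rw [← hv]; exact h p hp) hφ1 hφ2 W hW
      filter_upwards [h3] with p hp
      obtain ⟨v, hvW, y, hy, hφ⟩ := hp
      refine ⟨v, hvW, fun h0 => ?_⟩
      rw [ap_sc_TropLow, ← hφ]
      exact hφ3 p.1 y h0 hy)
  refine hS (c + 1) r N lam₀ (fun l => (HG js).encard ≤ cnt js l) ?_
  filter_upwards [hev] with p hp h0
  rw [Set.coe_fintypeCard] at hp
  have h3 : {v | p.1 ≠ 0 → Om js (ap (fun a => sc p.1 (p.2 a)) v)}
      = {v | Om js (ap (fun a => sc p.1 (p.2 a)) v)} :=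
    Set.ext fun v => ⟨fun h => h h0, fun h _ => h⟩
  rw [h3] at hp
  exact hp

end Pool.Agent.MP_8b9287_co.Geo
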