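import Pool.Agent.MP_8b9287_co.Geo.St

namespace Pool.Agent.MP_8b9287_co.Geo

open Filter Topology

theorem prod_TropU1 {ι : Type} [DecidableEq ι] (S : Finset ι) (z : ι) (hz : z ∈ S) (Y Y' : ι → ℂ)
    (h0 : Y z = 0) (h1 : ∀ p ∈ S.erase z, Y p ≠ 0)
    (h : HasDerivAt (fun s : ℂ => ∏ p ∈ S, (Y p + s * Y' p)) 0 0) : Y' z = 0 := by
  have hR : DifferentiableAt ℂ (fun s : ℂ => ∏ p ∈ S.erase z, (Y p + s * Y' p)) 0 := by
    fun_prop
  have h2 := ((hasDerivAt_id (0 : ℂ)).mul_const (Y' z)).mul hR.hasDerivAt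
  have e : (fun s : ℂ => ∏ p ∈ S, (Y p + s * Y' p)) =
      (fun s : ℂ => id s * Y' z) * fun s : ℂ => ∏ p ∈ S.erase z, (Y p + s * Y' p) := by
    ext s
    rw [← Finset.mul_prod_erase S _ hz, h0, zero_add]
    rfl
  rw [e] at h
  have h3 := h.unique h2
  simp only [one_mul, id, zero_mul, add_zero] at h3
  exact (mul_eq_zero.1 h3.symm).resolve_right (Finset.prod_ne_zero_iff.2 h1)

theorem sTropU1 (hI : SIFT) : STropU1 := by
  intro c r N lam₀ Z u i g ch hu hZ hv hg hg0 hch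
  classical
  let F : (ℂ × (Fin (c + 1) → Mat r N)) × (Fin (c + 1) → ℂ) → (Z → ℂ) × ℂ :=
    fun q => (fun z => g z (q.1.1, ap q.1.2 q.2), q.2 i)
  have hap : ContDiff ℂ 1 fun q : (ℂ × (Fin (c + 1) → Mat r N)) × (Fin (c + 1) → ℂ) =>
      ap q.1.2 q.2 := by
    unfold ap
    exact ContDiff.sum fun a _ => by fun_prop
  have hF : ContDiff ℂ 1 F :=
    (contDiff_pi.2 fun z => (hg z).comp (contDiff_fst.fst.prodMk hap)).prodMk (by fun_prop)
  obtain ⟨W, hW, h⟩ := (hI _ _ _ F ((0 : ℂ), lam₀) u hF.contDiffAt fun v' hv' => by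
    have hl : HasDerivAt (fun s : ℂ => ((((0 : ℂ), lam₀), u + s • v') :
        (ℂ × (Fin (c + 1) → Mat r N)) × (Fin (c + 1) → ℂ))) (0, v') 0 :=
      (hasDerivAt_const _ _).prodMk (by
        simpa using ((hasDerivAt_id (0 : ℂ)).smul_const v').const_add u)
    have h1 := (hF.differentiable one_ne_zero (((0 : ℂ), lam₀), u)).hasFDerivAt.comp_hasDerivAt_of_eq
      0 hl (by simp)
    rw [hv'] at h1
    have h2 : v' i = 0 := by
      have a : HasDerivAt (fun s : ℂ => u i + s * v' i) 0 0 := h1.snd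
      have b : HasDerivAt (fun s : ℂ => u i + s * v' i) (v' i) 0 := by
        simpa using ((hasDerivAt_id (0 : ℂ)).mul_const (v' i)).const_add (u i)
      exact b.unique a
    have h3 : ∀ p ∈ Z, ap lam₀ v' p.1 p.2 = 0 := fun p hp => by
      have a : HasDerivAt (fun s : ℂ => g ⟨p, hp⟩ (0, ap lam₀ (u + s • v'))) 0 0 :=
        hasDerivAt_pi.1 h1.fst ⟨p, hp⟩
      refine prod_TropU1 (ch ⟨p, hp⟩) p (hch ⟨p, hp⟩).1 (fun q => ap lam₀ u q.1 q.2)
        (fun q => ap lam₀ v' q.1 q.2) ((hZ p).2 hp) (fun q hq e => ?_) ?_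
      · exact (Finset.mem_erase.1 hq).1
          ((hch ⟨p, hp⟩).2 q (Finset.mem_erase.1 hq).2 ((hZ q).1 e))
      · convert a using 2 with s
        rw [hg0]
        refine Finset.prod_congr rfl fun q _ => ?_
        simp only [ap_apply, Pi.add_apply, Pi.smul_apply, smul_eq_mul, add_mul,
          Finset.sum_add_distrib, Finset.mul_sum, mul_assoc]
    rw [hv v' h3, h2, zero_smul]).1
  refine ⟨W, hW, fun p v v' h1 h2 h3 h4 h5 h6 => h p v v' h1 h2 ?_⟩
  exact Prod.ext (funext fun z => (h3 z).trans (h4 z).symm) (h5.trans h6.symm)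

end Pool.Agent.MP_8b9287_co.Geo
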