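import Pool.Agent.MP_8b9287_co.Geo.St

namespace Pool.Agent.MP_8b9287_co.Geo

open Module Filter Topology

/-- The chains below the columns `js`. -/
abbrev Ch_TropUp {r N : ℕ} (js : Fin r → Fin N) :=
  Σ s : Fin r, {IJ : (Fin ((s : ℕ) + 1) → Fin r) × (Fin ((s : ℕ) + 1) → Fin N) //
    StrictMono IJ.1 ∧ StrictMono IJ.2 ∧ ∀ b, IJ.2 b < js s}

theorem smul_TropUp {k r N : ℕ} (l : Fin k → Mat r N) (a : ℂ) (v : Fin k → ℂ) :
    ap l (a • v) = a • ap l v := by
  simp only [ap, Pi.smul_apply, smul_eq_mul, mul_smul, Finset.smul_sum]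

theorem sc_TropUp {k r N : ℕ} (t : ℂ) (l : Fin k → Mat r N) (v : Fin k → ℂ) :
    ap (fun a => sc t (l a)) v = sc t (ap l v) := by
  funext i j
  simp only [ap_apply, sc, Finset.mul_sum, mul_left_comm]

theorem cont_TropUp {k r N : ℕ} :
    Continuous fun x : (ℂ × (Fin k → Mat r N)) × (Fin k → ℂ) => (x.1.1, ap x.1.2 x.2) := by
  unfold ap
  fun_prop

theorem sTropUp (hA : SALle) (h1 : SGP1) (h2 : SGP2) (hD : STropDet) (hS : SScl) (hU : STropU1)
    (hG : SGT3) : STropUp := by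
  classical
  intro c r N js hr hc hcod
  obtain ⟨X, hX, -⟩ := h1 (c + 1) (Fin r × Fin N)
  obtain ⟨lam₀, hlam⟩ : ∃ lam₀ : Fin (c + 1) → Mat r N, lam₀ = fun a i j => X a (i, j) := ⟨_, rfl⟩
  have hv : ∀ v (p : Fin r × Fin N), vX X v p = ap lam₀ v p.1 p.2 := fun v p => by
    rw [ap_apply, hlam]
    rfl
  have hcard : ∀ Z : {Z : Finset (Fin r × Fin N) // Hit js Z ∧ Z.card ≤ c}, Z.1.card = c :=
    fun Z => le_antisymm Z.2.2 ((hG c r N js Z.1 hcod).1 Z.2.1)
  have hex : ∀ Z : {Z : Finset (Fin r × Fin N) // Hit js Z ∧ Z.card ≤ c}, ∃ j, j ∉ Z.1 := by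
    intro Z
    by_contra h
    push Not at h
    have h3 := hcard Z
    rw [Finset.eq_univ_of_forall h, Finset.card_univ, Fintype.card_prod, Fintype.card_fin,
      Fintype.card_fin] at h3
    have := Nat.le_mul_of_pos_left N hr
    omega
  choose u co hu1 hu2 hu3 using fun Z => h2 c _ X _ hX (hcard Z) (hex Z)
  choose W g hg1 hg2 hg3 hg4 using fun ch : Ch_TropUp js =>
    hD r N _ ch.2.1.1 ch.2.1.2 ch.2.2.1 ch.2.2.2.1
  have hch : ∀ (Z : {Z : Finset (Fin r × Fin N) // Hit js Z ∧ Z.card ≤ c}) (z : Z.1),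
      ∃ ch : Ch_TropUp js, ∀ a, (ch.2.1.1 a, ch.2.1.2 a) ∉ Z.1.erase z.1 := by
    intro Z z
    by_contra h
    push Not at h
    have h3 := (hG c r N js (Z.1.erase z.1) hcod).1 fun s I J hI hJ hb => h ⟨s, (I, J), hI, hJ, hb⟩
    have h4 := Finset.card_erase_lt_of_mem z.2
    have := hcard Z
    omega
  choose ch hch using hch
  have hW := fun Z : {Z : Finset (Fin r × Fin N) // Hit js Z ∧ Z.card ≤ c} =>
    hU c r N lam₀ Z.1 (u Z) (co Z) (fun z => g (ch Z z))
      (fun z => Finset.univ.image fun a => ((ch Z z).2.1.1 a, (ch Z z).2.1.2 a)) (hu1 Z)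
      (fun p => by rw [← hv, hu2]) (fun v h => hu3 Z v fun p hp => by rw [hv, h p hp])
      (fun z => hg1 _) (fun z Y => by
        rw [hg3, Finset.prod_image fun a _ b _ h => (ch Z z).2.2.1.injective (congrArg Prod.fst h)])
      (fun z => by
        have h3 : ∀ p ∈ Finset.univ.image fun a => ((ch Z z).2.1.1 a, (ch Z z).2.1.2 a),
            p ∈ Z.1 → p = z.1 := by
          intro p hp hZ
          obtain ⟨a, -, rfl⟩ := Finset.mem_image.1 hp
          by_contra h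
          exact hch Z z a (Finset.mem_erase.2 ⟨h, hZ⟩)
        obtain ⟨a, ha⟩ := Z.2.1 _ _ _ (ch Z z).2.2.1 (ch Z z).2.2.2.1 (ch Z z).2.2.2.2
        have h4 := Finset.mem_image_of_mem (fun a => ((ch Z z).2.1.1 a, (ch Z z).2.1.2 a))
          (Finset.mem_univ a)
        exact ⟨h3 _ h4 ha ▸ h4, h3⟩)
  choose V hV1 hV2 using hW
  have key := hA (c + 1) (ℂ × (Fin (c + 1) → Mat r N))
    {x | ∀ ch : Ch_TropUp js, g ch (x.1.1, ap x.1.2 x.2) = 0} (0, lam₀) _ u co V
    (by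
      rw [Set.ofPred_forall]
      exact isClosed_iInter fun ch =>
        isClosed_eq ((hg1 ch).continuous.comp cont_TropUp) continuous_const)
    (fun p v a h ch => by
      have h3 : g ch (p.1, ap p.2 v) = 0 := h ch
      change g ch (p.1, ap p.2 (a • v)) = 0
      rw [smul_TropUp, hg4, h3, mul_zero]) hu1
    (fun v hv0 h => by
      have h3 : Hit js (Finset.univ.filter fun p : Fin r × Fin N => vX X v p = 0) := by
        intro s I J hI hJ hb
        have h4 : g ⟨s, (I, J), hI, hJ, hb⟩ (0, ap lam₀ v) = 0 := h _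
        rw [hg3] at h4
        obtain ⟨a, -, ha⟩ := Finset.prod_eq_zero_iff.1 h4
        exact ⟨a, Finset.mem_filter.2 ⟨Finset.mem_univ _, (hv _ _).trans ha⟩⟩
      have h5 := hX v hv0 (Finset.univ.filter fun p : Fin r × Fin N => vX X v p = 0)
        fun p hp => (Finset.mem_filter.1 hp).2
      exact ⟨⟨_, h3, Nat.lt_succ_iff.1 h5⟩, _, hu3 _ v fun p hp => (Finset.mem_filter.1 hp).2⟩)
    hV1 (fun Z p v v' a1 a2 a3 a4 => hV2 Z p v v' a1 a2 (fun z => a3 _) fun z => a4 _)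
  have hι : (Fintype.card {Z : Finset (Fin r × Fin N) // Hit js Z ∧ Z.card ≤ c} : ℕ∞) ≤
      (HG js).encard := by
    refine le_trans (le_of_eq ?_) (Set.encard_le_encard
      (s := {Z : Finset (Fin r × Fin N) | Hit js Z ∧ Z.card ≤ c})
      fun Z hZ => (hG c r N js Z hcod).2.1 hZ.1 hZ.2)
    rw [Set.encard, ENat.card_eq_coe_fintype_card]
    rfl
  refine hS (c + 1) r N lam₀ (fun l => cnt js l ≤ (HG js).encard) (key.mono fun p hp h0 => ?_)
  refine le_trans ?_ (hp.trans hι)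
  refine Set.encard_le_encard (Set.image_mono fun v h => ⟨h.1, fun ch => ?_⟩)
  have h3 := h.2 ch.1 ch.2.1.1 ch.2.1.2 ch.2.2.2.2
  rw [sc_TropUp, hg2] at h3
  exact (mul_eq_zero.1 h3).resolve_left (pow_ne_zero _ h0)

end Pool.Agent.MP_8b9287_co.Geo
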