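import Pool.Agent.MP_8b9287_co.Geo.St

/-! The matroid of the columns of a matrix. -/

namespace Pool.Agent.MP_8b9287_co.Geo

theorem ncard_le_VM {n : ℕ} {V : Type} [AddCommGroup V] [Module ℂ V] (c : Fin n → V)
    {I J : Set (Fin n)} (hJ : LinearIndepOn ℂ c J)
    (h : ∀ e ∈ J, c e ∈ Submodule.span ℂ (c '' I)) : J.ncard ≤ I.ncard := by
  classical
  let : Fintype J := J.toFinite.fintype
  let : Fintype (c '' I) := (I.toFinite.image c).fintype
  have h1 := linearIndependent_le_span_aux' (R := ℂ) (fun j : J => c j) hJ (c '' I)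
    (by rintro _ ⟨j, rfl⟩; exact h j j.2)
  have h2 : (c '' I).ncard ≤ I.ncard := Set.ncard_image_le I.toFinite
  rw [← Nat.card_eq_fintype_card, ← Nat.card_eq_fintype_card, Nat.card_coe_set_eq,
    Nat.card_coe_set_eq] at h1
  exact h1.trans h2

noncomputable def vm_VM {n : ℕ} {V : Type} [AddCommGroup V] [Module ℂ V] (c : Fin n → V) :
    Matroid (Fin n) :=
  (IndepMatroid.ofFinite (E := Set.univ) Set.finite_univ (fun I => LinearIndepOn ℂ c I)
    (linearIndepOn_empty ℂ c) (fun _ _ hJ hIJ => hJ.mono hIJ)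
    (by
      intro I J hI hJ hlt
      by_contra hcon
      push Not at hcon
      refine absurd (ncard_le_VM c (I := I) hJ fun e he => ?_) (not_le.2 hlt)
      by_cases heI : e ∈ I
      · exact Submodule.subset_span ⟨e, heI, rfl⟩
      · by_contra hs
        exact hcon e he heI (hI.insert hs))
    (fun _ _ => Set.subset_univ _)).matroid

theorem sVM : SVM := by
  intro k n X ⟨B₀, hB₀, hI₀⟩
  set c : Fin n → Fin k → ℂ := fun j i => X i j with hc
  have hind : ∀ I, (vm_VM c).Indep I ↔ LinearIndepOn ℂ c I := fun I => Iff.rfl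
  have hle : ∀ I : Set (Fin n), LinearIndepOn ℂ c I → I.ncard ≤ k := by
    intro I hI
    let : Fintype I := I.toFinite.fintype
    have := LinearIndependent.fintype_card_le_finrank (R := ℂ) (b := fun j : I => c j) hI
    rw [← Nat.card_eq_fintype_card, Nat.card_coe_set_eq] at this
    simpa using this
  have hbase : ∀ B : Finset (Fin n), B.card = k → LinearIndepOn ℂ c (B : Set (Fin n)) →
      (vm_VM c).IsBase (B : Set (Fin n)) := by
    intro B hB hI
    refine ((hind _).2 hI).isBase_of_maximal fun J hJ hBJ => ?_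
    refine Set.eq_of_subset_of_ncard_le hBJ ?_ J.toFinite
    rw [Set.ncard_coe_finset, hB]
    exact hle J ((hind _).1 hJ)
  have h₀ := hbase B₀ hB₀ hI₀
  refine ⟨vm_VM c, ⟨rfl, ?_⟩, hind, fun B => ⟨fun hB => ⟨?_, (hind _).1 hB.indep⟩,
    fun h => hbase B h.1 h.2⟩⟩
  · rw [← h₀.encard_eq_eRank, Set.encard_coe_eq_coe_finsetCard, hB₀]
  · have := hB.ncard_eq_ncard_of_isBase h₀
    rwa [Set.ncard_coe_finset, Set.ncard_coe_finset, hB₀] at this

end Pool.Agent.MP_8b9287_co.Geo
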